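import Pool.Agent.MAJ.Defs
import Pool.Agent.DHD.SIMF
import Pool.Agent.CookLevin.LEN

set_option autoImplicit false

/-!
# Internal definitions: vectors, perceptrons, the search algorithm, encodings
-/

namespace Pool.Agent.MAJ

open Pool.Agent.PT (Dat PolyF sz)

/-! ## Strings -/

/-- Parity of the scalar product (the longer string is cut). -/
def dot (a w : List Bool) : Bool :=
  decide ((a.zip w).countP (fun p => p.1 && p.2) % 2 = 1)

/-- The first `m` letters, `m` in unary. -/
def takeU {α : Type} (l : List α) (m : List Unit) : List α := (l.zip m).map Prod.fst

/-- The rest, `m` in unary. -/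
def dropU {α : Type} (l : List α) (m : List Unit) : List α := m.foldl (fun s _ => s.tail) l

/-- The first `k` pieces of length `m` of a string, all numbers in unary. -/
def chunks (m k : List Unit) (l : List Bool) : List (List Bool) :=
  (k.foldl (fun (s : List Bool × List (List Bool)) _ => (dropU s.1 m, s.2 ++ [takeU s.1 m]))
    (l, [])).2

/-- The unary numbers `0, ..., k`. -/
def unis (k : List Unit) : List (List Unit) :=
  (k.foldl (fun (s : List Unit × List (List Unit)) u => (u :: s.1, s.2 ++ [u :: s.1]))
    ([], [[]])).2

/-- The first `s` pieces of length `m`. -/
def pieces (m s : ℕ) (l : List Bool) : List (List Bool) :=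
  (List.range s).map fun i => (l.drop (i * m)).take m

/-! ## Lists of strings as strings -/

/-- A list of strings written as one string: the bit `b` is written as `true, b`, every string is
closed by `false`. -/
def encL (l : List (List Bool)) : List Bool :=
  l.flatMap fun s => s.flatMap (fun b => [true, b]) ++ [false]

/-- One step of the decoder: mode (`true`: a bit follows), current string, finished strings. -/
def decStep (s : Bool × List Bool × List (List Bool)) (c : Bool) :
    Bool × List Bool × List (List Bool) :=
  if s.1 then (false, s.2.1 ++ [c], s.2.2)
  else if c then (true, s.2.1, s.2.2)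
  else (false, [], s.2.2 ++ [s.2.1])

/-- The decoder. -/
def decL (z : List Bool) : List (List Bool) := (z.foldl decStep (false, [], [])).2.2

/-- One step of the parser of lists of blocks: current string, queries, patterns, blocks. -/
def parseStep (s : List Bool × List (List Bool) × List (List Bool) × List Block) (t : Tok) :
    List Bool × List (List Bool) × List (List Bool) × List Block :=
  match t with
  | .bit b => (s.1 ++ [b], s.2)
  | .endQuery => ([], s.2.1 ++ [s.1], s.2.2)
  | .endPattern => ([], s.2.1, s.2.2.1 ++ [s.1], s.2.2.2)
  | .endBlock => ([], [], [], s.2.2.2 ++ [(s.2.1, s.2.2.1)])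

/-- The parser. -/
def parse (l : List Tok) : List Block := (l.foldl parseStep ([], [], [], [])).2.2.2

/-! ## Vectors: signed lists of features; a feature is a list of strings -/

/-- A feature. -/
abbrev Feat : Type := List (List Bool)

/-- A vector: the sum of the features with their signs (`true` is `+`). -/
abbrev Vec : Type := List (Bool × Feat)

/-- The sign. -/
def sg (b : Bool) : ℤ := if b then 1 else -1

/-- The number of pairs of equal features with equal signs. -/
def posC (W h : Vec) : ℕ :=
  (W.flatMap fun p => h.map fun q => (p, q)).countP
    fun r => decide (r.1.2 = r.2.2) && decide (r.1.1 = r.2.1)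

/-- The number of pairs of equal features with different signs. -/
def negC (W h : Vec) : ℕ :=
  (W.flatMap fun p => h.map fun q => (p, q)).countP
    fun r => decide (r.1.2 = r.2.2) && !decide (r.1.1 = r.2.1)

/-- The scalar product. -/
def ip (W h : Vec) : ℤ := (posC W h : ℤ) - (negC W h : ℤ)

/-- The negative vector. -/
def negV (W : Vec) : Vec := W.map fun p => (!p.1, p.2)

/-- `W` with the sign `b`. -/
def sv (b : Bool) (W : Vec) : Vec := if b then W else negV W

open Classical in
/-- The value of a feature: all its strings are in `S`. -/
noncomputable def fv (S : Lang) (l : Feat) : ℤ := if ∀ q ∈ l, q ∈ S then 1 else 0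

/-- The value of a vector. -/
noncomputable def ev (S : Lang) (W : Vec) : ℤ := (W.map fun p => sg p.1 * fv S p.2).sum

/-! ## The choice of a question -/

/-- Use the bit `b` for the first letter of all strings. -/
def stepB (b : Bool) (l : List (List Bool × Vec)) : List (List Bool × Vec) :=
  l.map fun e => (e.1.tail, if b && e.1.headD false then negV e.2 else e.2)

/-- One vector, the strings are added to the features as first members. -/
def tag (l : List (List Bool × Vec)) : Vec := l.flatMap fun e => e.2.map fun p => (p.1, e.1 :: p.2)

/-- The potential of `l` is at most that of `l'`. -/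
def phiLe (l l' : List (List Bool × Vec)) : Bool :=
  decide (posC (tag l) (tag l) + negC (tag l') (tag l') ≤
    posC (tag l') (tag l') + negC (tag l) (tag l))

/-- Choose the next bit. -/
def pickStep (s : List Bool × List (List Bool × Vec)) : List Bool × List (List Bool × Vec) :=
  (s.1 ++ [phiLe (stepB true s.2) (stepB false s.2)],
    stepB (phiLe (stepB true s.2) (stepB false s.2)) s.2)

/-- The question for the strings and vectors in `l` (`n`: any string of the common length). -/
def pick (n : List Bool) (l : List (List Bool × Vec)) : List Bool :=
  (n.foldl (fun s _ => pickStep s) ([], l)).1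

/-! ## The search algorithm -/

/-- A candidate: string, vector, number of mistakes. -/
abbrev Cand : Type := List Bool × Vec × ℕ

/-- The vector of the candidate `e` is wrong about the question `a`, whose vector is `W`. -/
def mist (W : Vec) (a : List Bool) (e : Cand) : Bool :=
  if dot a e.1 then decide (posC W e.2.1 ≤ negC W e.2.1) else decide (negC W e.2.1 ≤ posC W e.2.1)

/-- Correct a mistake. -/
def upd (W : Vec) (a : List Bool) (e : Cand) : Cand :=
  if mist W a e then (e.1, e.2.1 ++ sv (dot a e.1) W, e.2.2 + 1) else e

/-- The question of a round. -/
def quest (st : List Cand) : List Bool :=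
  pick (st.headD ([], [], 0)).1 (st.map fun e => (e.1, e.2.1))

/-- One round with the list `st` of candidates; `red a` is the vector of the question `a`. -/
def rnd (red : List Bool → Vec) (B μ : ℕ) (st : List Cand) : List Cand :=
  if st.length ≤ B then st
  else (st.map (upd (red (quest st)) (quest st))).filter fun e => decide (e.2.2 ≤ μ)

/-- Reduce a list of strings. -/
def prune (red : List Bool → Vec) (B μ : ℕ) (T : List Unit) (ys : List (List Bool)) :
    List (List Bool) :=
  (T.foldl (fun st _ => rnd red B μ st) (ys.map fun y => (y, [], 0))).map Prod.fst

/-- Both extensions of every string. -/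
def ext (ys : List (List Bool)) : List (List Bool) := ys.flatMap fun y => [y ++ [false], y ++ [true]]

/-- The search: a list of at most `B` strings of length `N`. -/
def search (red : List Bool → Vec) (B : List Unit) (μ : ℕ) (T N : List Unit) : List (List Bool) :=
  N.foldl (fun ys _ => takeU (prune red B.length μ T (ext ys)) B) [[]]

/-! ## From blocks to vectors -/

/-- The product of the factors `[q ∈ S]` (answer `true`) and `1 - [q ∈ S]` (answer `false`), for
lists of length at most `k`. -/
def expd : ℕ → List (List Bool) → List Bool → Vec
  | 0, qs, a => if qs.isEmpty && a.isEmpty then [(true, [])] else []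
  | k + 1, qs, a =>
    if qs.isEmpty && a.isEmpty then [(true, [])]
    else if qs.isEmpty || a.isEmpty then []
    else if a.headD false then (expd k qs.tail a.tail).map fun p => (p.1, qs.headD [] :: p.2)
    else expd k qs.tail a.tail ++
      (expd k qs.tail a.tail).map fun p => (!p.1, qs.headD [] :: p.2)

/-- All bit strings of length at most `d`. -/
def pats : ℕ → List (List Bool)
  | 0 => [[]]
  | d + 1 => [] :: ((pats d).map (fun a => false :: a) ++ (pats d).map fun a => true :: a)

/-- `2 [b is true] - 1`. -/
def blk (d : ℕ) (b : Block) : Vec :=
  ((pats d).flatMap fun a => if b.2.any (fun a' => decide (a' = a)) then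
    expd d b.1 a ++ expd d b.1 a else []) ++ [(false, [])]

/-- `2 (number of true blocks - number of false blocks) - 1`. -/
def toVec (d : ℕ) (l : List Block) : Vec :=
  (l.flatMap (blk d)) ++ (l.flatMap (blk d)) ++ [(false, [])]

/-! ## The language of the questions -/

/-- Strings `encL (x :: a :: rows)` such that some witness `w` of `x` (for the verifier `V`, length
`q (|x|)`) has `⟨w, a⟩ = 1` and satisfies all equations given by the rows. -/
def langU (q : Polynomial ℕ) (V : List Bool × List Bool → Bool) : Lang :=
  {z | ∃ x a rows, decL z = x :: a :: rows ∧ ∃ w, w.length = q.eval x.length ∧ V (x, w) = true ∧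
    dot a w = true ∧ ∀ r ∈ rows, dot r (w ++ [true]) = false}

/-- The vector of the question `a`. -/
def red (d : ℕ) (f : List Bool → List Block) (x : List Bool) (rows : List (List Bool))
    (a : List Bool) : Vec := toVec d (f (encL (x :: a :: rows)))

end Pool.Agent.MAJ
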