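import Pool.Agent.MAJ.Targets

set_option autoImplicit false

/-!
# MAJ: assembly of the main theorem from the targets
-/

namespace Pool.Agent.MAJ

open Pool.Agent.PT (Dat PolyF sz Core length_lt_sz sz_mem sz_snd)

namespace ASM_

theorem ncard_pos_of {q : ℕ} {s : Set (List Bool)} (h : 2 ^ q ≤ 2 * s.ncard) : s.Nonempty := by
  have h1 : 0 < 2 ^ q := by positivity
  have h2 : 0 < s.ncard := by omega
  exact (Set.ncard_pos (Set.finite_of_ncard_pos h2)).1 h2

theorem finite_len (n : ℕ) (P : List Bool → Prop) : {w : List Bool | w.length = n ∧ P w}.Finite :=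
  (List.finite_length_eq Bool n).subset fun _ h => h.1

/-- RP is contained in NP -/
theorem rp_np {L : Lang} (h : InRP L) : InNP L := by
  obtain ⟨q, V, hV, h⟩ := h
  refine ⟨q, V, hV, fun x => ⟨fun hx => ?_, fun ⟨w, hw, hVw⟩ => ?_⟩⟩
  · obtain ⟨w, hw⟩ := ncard_pos_of ((h x).1 hx)
    exact ⟨w, hw.1, hw.2⟩
  · by_contra hx
    have := (h x).2 hx w hw
    rw [hVw] at this
    exact absurd this (by simp)

/-- UP is contained in NP -/
theorem up_np {L : Lang} (h : InUP L) : InNP L := by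
  obtain ⟨q, V, hV, h⟩ := h
  exact ⟨q, V, hV, fun x => (h x).1⟩

/-- P is contained in UP -/
theorem p_up (h_TMP : T_TMP) {L : Lang} (h : InP L) : InUP L := by
  have : Fact Core := ⟨Pool.Agent.PT.core⟩
  obtain ⟨f, hf, h⟩ := h
  have hf' : PolyF f := (h_TMP.2.1 f).1 hf
  refine ⟨0, fun p => f p.1, (h_TMP.1 _).2 (hf'.comp (PolyF.fst PolyF.id)), fun x => ⟨?_, ?_⟩⟩
  · rw [h x]
    constructor
    · intro hx
      exact ⟨[], by simp, hx⟩
    · rintro ⟨w, -, hw⟩
      exact hw
  · intro w w' hw hw' _ _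
    have e1 : w = [] := List.eq_nil_of_length_eq_zero (by simpa using hw)
    have e2 : w' = [] := List.eq_nil_of_length_eq_zero (by simpa using hw')
    rw [e1, e2]

/-- the unique solver -/
theorem solver (h_IPA : T_IPA) (h_SRC : T_SRC) (h_EXP : T_EXP) (h_CRD : T_CRD) (h_ENC : T_ENC)
    (h_PEN : T_PEN) (h_PSR : T_PSR) (h_PTV : T_PTV) (h_SZR : T_SZR)
    (S : Lang) (hS : Sparse S) (d : ℕ) (f : List Bool → List Block) (hf : PolyF f)
    (hd : ∀ x, ∀ b ∈ f x, b.1.length ≤ d)
    (q : Polynomial ℕ) (V : List Bool × List Bool → Bool) (hV : PolyF V)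
    (hred : ∀ x, x ∈ langU q V ↔ (f x).length < 2 * (f x).countP (holds S)) :
    ∃ G : List Bool × List (List Bool) → Bool, PolyF G ∧
      (∀ x rows, G (x, rows) = true → ∃ w, w.length = q.eval x.length ∧ V (x, w) = true) ∧
      ∀ (x : List Bool) (rows : List (List Bool)) (w : List Bool),
        rows.length ≤ q.eval x.length + 2 → (∀ r ∈ rows, r.length ≤ q.eval x.length + 1) →
        w.length = q.eval x.length → V (x, w) = true →
        (∀ r ∈ rows, dot r (w ++ [true]) = false) →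
        (∀ w', w'.length = q.eval x.length → V (x, w') = true →
          (∀ r ∈ rows, dot r (w' ++ [true]) = false) → w' = w) → G (x, rows) = true := by
  have : Fact Core := ⟨Pool.Agent.PT.core⟩
  obtain ⟨p, hp⟩ := hS
  obtain ⟨K, hK⟩ := h_SZR d f q hf
  -- the parameters
  set μP : Polynomial ℕ := K ^ 2 * ((K + 1) * p.comp K + 1) ^ d with hμP
  set BP : Polynomial ℕ := K ^ 2 * (μP * K ^ 2) + 1 with hBP
  set TP : Polynomial ℕ := 2 * BP * (μP + 1) with hTP
  obtain ⟨Lμ, hLμ, eμ⟩ := Pool.Agent.CookLevin.tLEN (Γ := Bool) μP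
  obtain ⟨LB, hLB, eB⟩ := Pool.Agent.CookLevin.tLEN (Γ := Bool) BP
  obtain ⟨LT, hLT, eT⟩ := Pool.Agent.CookLevin.tLEN (Γ := Bool) TP
  obtain ⟨LN, hLN, eN⟩ := Pool.Agent.CookLevin.tLEN (Γ := Bool) q
  have h1 : PolyF (fun x : List Bool × List (List Bool) =>
      search (red d f x.1 x.2) (LB x.1) (Lμ x.1).length (LT x.1) (LN x.1)) := by
    refine h_PSR (fun x : List Bool × List (List Bool) => red d f x.1 x.2) (fun x => LB x.1)
      (fun x => (Lμ x.1).length) (fun x => LT x.1) (fun x => LN x.1) ?_ (hLB.comp (PolyF.fst PolyF.id))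
      (PolyF.length (hLμ.comp (PolyF.fst PolyF.id))) (hLT.comp (PolyF.fst PolyF.id))
      (hLN.comp (PolyF.fst PolyF.id))
    unfold red
    refine (h_PTV d).comp (hf.comp (h_PEN.1.comp ?_))
    fun_prop
  refine ⟨fun x => (search (red d f x.1 x.2) (LB x.1) (Lμ x.1).length (LT x.1) (LN x.1)).any
    fun y => decide (y.length = (LN x.1).length) && V (x.1, y), ?_, ?_, ?_⟩
  · refine PolyF.any (f := fun (x : List Bool × List (List Bool)) (y : List Bool) =>
      decide (y.length = (LN x.1).length) && V (x.1, y)) ?_ h1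
    refine PolyF.and (PolyF.eq_nat (PolyF.length (PolyF.snd PolyF.id))
      (PolyF.length (hLN.comp (PolyF.fst (PolyF.fst PolyF.id))))) (hV.comp ?_)
    fun_prop
  · intro x rows h
    rw [List.any_eq_true] at h
    obtain ⟨y, -, hy⟩ := h
    rw [Bool.and_eq_true, decide_eq_true_iff] at hy
    refine ⟨y, ?_, hy.2⟩
    rw [hy.1, eN]
  · intro x rows w hr1 hr2 hw hVw hwr hu
    rw [List.any_eq_true]
    set k := K.eval x.length with hk
    set n := q.eval x.length with hn
    obtain ⟨F, hF, hF'⟩ := h_CRD S p hp d k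
    have hsz : ∀ a : List Bool, a.length ≤ n → sz (red d f x rows a) ≤ k :=
      fun a ha => hK x rows a hr1 hr2 ha
    refine ⟨w, ?_, ?_⟩
    · refine h_SRC S F (red d f x rows) (k ^ 2) (Lμ x).length (LB x) (LT x) (LN x) w
        (by rw [hw, eN]) ?_ ?_ ?_ ?_ ?_ ?_
      · intro a ha
        rw [eN] at ha
        have h2 := h_IPA.2.2.2.2.2.1 (red d f x rows a)
        have h3 : (red d f x rows a).length ≤ k := (length_lt_sz _).le.trans (hsz a ha)
        have h4 : ((red d f x rows a).length : ℤ) ≤ (k : ℤ) := by exact_mod_cast h3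
        push_cast
        nlinarith
      · intro a ha pr hpr hfv
        rw [eN] at ha
        have h2 := (h_EXP d S (f (encL (x :: a :: rows))) (fun b hb => hd _ b hb)).2 pr hpr
        refine hF' pr.2 h2.1 (fun s hs => ?_) hfv
        have h3 : sz s < sz pr.2 := sz_mem hs
        have h4 : sz pr.2 ≤ sz pr := sz_snd pr
        have h5 : sz pr < sz (red d f x rows a) := sz_mem hpr
        have h6 := hsz a ha
        have h7 := length_lt_sz s
        omega
      · rw [eμ]
        have h2 : μP.eval x.length = k ^ 2 * ((k + 1) * p.eval k + 1) ^ d := by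
          rw [hμP]
          simp [Polynomial.eval_comp, hk]
        rw [h2]
        exact Nat.mul_le_mul_left _ hF
      · rw [eμ, eB]
        rw [hBP]
        simp [hk]
      · rw [eμ, eB, eT]
        rw [hTP]
        simp
      · intro a ha
        rw [eN] at ha
        have h2 := (h_EXP d S (f (encL (x :: a :: rows))) (fun b hb => hd _ b hb)).1
        have h3 := hred (encL (x :: a :: rows))
        have h4 : ev S (red d f x rows a) =
          2 * (2 * ((f (encL (x :: a :: rows))).countP (holds S) : ℤ) -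
            (f (encL (x :: a :: rows))).length) - 1 := h2
        by_cases hdot : dot a w = true
        · have h5 : encL (x :: a :: rows) ∈ langU q V :=
            ⟨x, a, rows, h_ENC.1 _, w, hw, hVw, hdot, hwr⟩
          have h6 := h3.1 h5
          rw [h4, hdot]
          simp only [sg, if_true]
          have : ((f (encL (x :: a :: rows))).length : ℤ) <
            2 * ((f (encL (x :: a :: rows))).countP (holds S) : ℤ) := by exact_mod_cast h6
          omega
        · have h5 : encL (x :: a :: rows) ∉ langU q V := by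
            rintro ⟨x', a', rows', he, w', hw', hVw', hdot', hwr'⟩
            rw [h_ENC.1] at he
            simp only [List.cons.injEq] at he
            obtain ⟨rfl, rfl, rfl⟩ := he
            have := hu w' hw' hVw' hwr'
            rw [this] at hdot'
            exact hdot hdot'
          have h6 := mt h3.2 h5
          rw [Bool.not_eq_true] at hdot
          rw [h4, hdot]
          simp only [sg]
          have : (2 : ℤ) * ((f (encL (x :: a :: rows))).countP (holds S) : ℤ) ≤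
            ((f (encL (x :: a :: rows))).length : ℤ) := by
            exact_mod_cast (not_lt.1 h6)
          simp only [Bool.false_eq_true, if_false]
          omega
    · rw [Bool.and_eq_true, decide_eq_true_iff]
      exact ⟨by rw [hw, eN], hVw⟩

end ASM_

open ASM_ in
theorem up_main (h_IPA : T_IPA) (h_SRC : T_SRC) (h_EXP : T_EXP) (h_CRD : T_CRD) (h_ENC : T_ENC)
    (h_PEN : T_PEN) (h_PSR : T_PSR) (h_PTV : T_PTV) (h_SZR : T_SZR) (h_TMP : T_TMP)
    (h_LNP : T_LNP) (S : Lang) (hS : Sparse S) (H : ∀ L, InUP L → ∃ d, MajReduces d L S) (L : Lang)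
    (hL : InUP L) : InP L := by
  have : Fact Core := ⟨Pool.Agent.PT.core⟩
  obtain ⟨q, V, hV, hL⟩ := hL
  have hV' : PolyF V := (h_TMP.1 V).1 hV
  obtain ⟨d, f, hf, hd, hred⟩ := H _ ((h_LNP q V hV').2 fun x => (hL x).2)
  have hf' : PolyF f := h_TMP.2.2 f hf
  obtain ⟨G, hG, hs, hc⟩ := solver h_IPA h_SRC h_EXP h_CRD h_ENC h_PEN h_PSR h_PTV h_SZR S hS d f
    hf' hd q V hV' hred
  have h1 : PolyF (fun x : List Bool => G (x, [])) := hG.comp (PolyF.pair PolyF.id (PolyF.const _))
  refine ⟨fun x => G (x, []), (h_TMP.2.1 _).2 h1, fun x => ⟨fun hx => ?_, fun hx => ?_⟩⟩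
  · obtain ⟨w, hw, hVw⟩ := (hL x).1.1 hx
    exact hc x [] w (by simp) (by simp) hw hVw (by simp)
      fun w' hw' hVw' _ => (hL x).2 w' w hw' hw hVw' hVw
  · exact (hL x).1.2 (hs x [] hx)

open ASM_ in
theorem rp_main (h_IPA : T_IPA) (h_SRC : T_SRC) (h_EXP : T_EXP) (h_CRD : T_CRD) (h_ENC : T_ENC)
    (h_PEN : T_PEN) (h_PSR : T_PSR) (h_PTV : T_PTV) (h_SZR : T_SZR) (h_TMP : T_TMP)
    (h_LNP : T_LNP) (h_VVL : T_VVL) (h_AMP : T_AMP)
    (S : Lang) (hS : Sparse S) (H : ∀ L, InNP L → ∃ d, MajReduces d L S) (L : Lang)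
    (hL : InNP L) : InRP L := by
  have : Fact Core := ⟨Pool.Agent.PT.core⟩
  obtain ⟨q, V, hV, hL⟩ := hL
  have hV' : PolyF V := (h_TMP.1 V).1 hV
  obtain ⟨d, f, hf, hd, hred⟩ := H _ (h_LNP q V hV').1
  have hf' : PolyF f := h_TMP.2.2 f hf
  obtain ⟨G, hG, hs, hc⟩ := solver h_IPA h_SRC h_EXP h_CRD h_ENC h_PEN h_PSR h_PTV h_SZR S hS d f
    hf' hd q V hV' hred
  obtain ⟨L1, hL1, e1⟩ := Pool.Agent.CookLevin.tLEN (Γ := Bool) (q + 1)
  obtain ⟨L2, hL2, e2⟩ := Pool.Agent.CookLevin.tLEN (Γ := Bool) (q + 2)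
  obtain ⟨L3, hL3, e3⟩ := Pool.Agent.CookLevin.tLEN (Γ := Bool) ((q + 2) * (q + 1))
  set six : List Unit := List.replicate 6 () with hsix
  refine ⟨6 * ((q + 2) * (q + 1)), fun p => (chunks (L3 p.1) six p.2).any fun σ =>
    (unis (L2 p.1)).any fun s => G (p.1, chunks (L1 p.1) s σ), ?_, fun x => ⟨fun hx => ?_, ?_⟩⟩
  · refine (h_TMP.1 _).2 ?_
    have hch := h_PEN.2.2.2.2.2.1
    refine PolyF.any (f := fun (p : List Bool × List Bool) (σ : List Bool) =>
      (unis (L2 p.1)).any fun s => G (p.1, chunks (L1 p.1) s σ)) ?_ ?_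
    · refine PolyF.any (f := fun (p : (List Bool × List Bool) × List Bool) (s : List Unit) =>
        G (p.1.1, chunks (L1 p.1.1) s p.2)) ?_ ?_
      · refine hG.comp (PolyF.pair (by fun_prop) ?_)
        exact hch.comp (PolyF.pair (PolyF.pair (hL1.comp (by fun_prop)) (by fun_prop)) (by fun_prop))
      · exact h_PEN.2.2.2.2.2.2.1.comp (hL2.comp (by fun_prop))
    · exact hch.comp (PolyF.pair (PolyF.pair (hL3.comp (by fun_prop)) (PolyF.const _)) (by fun_prop))
  · -- completeness
    set n := q.eval x.length with hn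
    have hfin : {w : List Bool | w.length = n ∧ V (x, w) = true}.Finite := finite_len n _
    set W : Finset (List Bool) := hfin.toFinset with hW
    have hWm : ∀ w, w ∈ W ↔ w.length = n ∧ V (x, w) = true := fun w => by simp [hW]
    have hWne : W.Nonempty := by
      obtain ⟨w, hw, hVw⟩ := (hL x).1 hx
      exact ⟨w, (hWm w).2 ⟨hw, hVw⟩⟩
    have h3 := h_VVL n W hWne fun w hw => ((hWm w).1 hw).1
    have h4 := h_AMP ((n + 2) * (n + 1)) (fun ρ => ∃ s ≤ n + 2,
      ∃ w ∈ W, ∀ w' ∈ W, (∀ r ∈ pieces (n + 1) s ρ, dot r (w' ++ [true]) = false) ↔ w' = w) h3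
    have h5 : (6 * ((q + 2) * (q + 1)) : Polynomial ℕ).eval x.length = 6 * ((n + 2) * (n + 1)) := by
      simp [hn]
    rw [h5]
    refine h4.trans (Nat.mul_le_mul_left _ (Set.ncard_le_ncard ?_ (finite_len _ _)))
    rintro ρ ⟨hρ, σ, hσ, s, hs', w, hw, hww⟩
    refine ⟨hρ, ?_⟩
    have hww' : ∀ w' ∈ W, (∀ r ∈ pieces (n + 1) s σ, dot r (w' ++ [true]) = false) ↔ w' = w := hww
    rw [List.any_eq_true]
    refine ⟨σ, ?_, ?_⟩
    · rw [h_ENC.2.2.2.2.2.1, e3, hsix, List.length_replicate]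
      have : ((q + 2) * (q + 1) : Polynomial ℕ).eval x.length = (n + 2) * (n + 1) := by simp [hn]
      rw [this]
      exact hσ
    · rw [List.any_eq_true]
      have h6 : s ∈ (unis (L2 x)).map List.length := by
        rw [h_ENC.2.2.2.2.2.2, e2, List.mem_range]
        have : (q + 2 : Polynomial ℕ).eval x.length = n + 2 := by simp [hn]
        rw [this]
        omega
      obtain ⟨s', hs1, hs2⟩ := List.mem_map.1 h6
      refine ⟨s', hs1, ?_⟩
      have h7 : chunks (L1 x) s' σ = pieces (n + 1) s σ := by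
        rw [h_ENC.2.2.2.2.2.1, e1, hs2]
        have : (q + 1 : Polynomial ℕ).eval x.length = n + 1 := by simp [hn]
        rw [this]
      simp only
      rw [h7]
      have hw' := (hWm w).1 hw
      refine hc x _ w ?_ ?_ hw'.1 hw'.2 ((hww' w hw).2 rfl) ?_
      · simp [pieces, ← hn, hs']
      · intro r hr
        simp only [pieces, List.mem_map] at hr
        obtain ⟨i, -, rfl⟩ := hr
        rw [List.length_take]
        exact (min_le_left _ _)
      · intro w' h8 h9 h10
        exact (hww' w' ((hWm w').2 ⟨h8, h9⟩)).1 h10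
  · -- soundness
    intro hx w _
    rw [← Bool.not_eq_true]
    intro h
    rw [List.any_eq_true] at h
    obtain ⟨σ, -, h⟩ := h
    rw [List.any_eq_true] at h
    obtain ⟨s, -, h⟩ := h
    exact hx ((hL x).2 (hs x _ h))

open ASM_ in
theorem main (h_IPA : T_IPA) (h_SRC : T_SRC) (h_EXP : T_EXP) (h_CRD : T_CRD) (h_ENC : T_ENC)
    (h_PEN : T_PEN) (h_PSR : T_PSR) (h_PTV : T_PTV) (h_SZR : T_SZR) (h_TMP : T_TMP)
    (h_LNP : T_LNP) (h_VVL : T_VVL) (h_AMP : T_AMP) (S : Lang) (hS : Sparse S) :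
    ((∀ L, InNP L → ∃ d, MajReduces d L S) →
      (∀ L, InNP L ↔ InRP L) ∧ (∀ L, InUP L ↔ InP L)) ∧
    ((∀ L, InUP L → ∃ d, MajReduces d L S) → ∀ L, InUP L ↔ InP L) := by
  have h2 : (∀ L, InUP L → ∃ d, MajReduces d L S) → ∀ L, InUP L ↔ InP L := fun H L =>
    ⟨up_main h_IPA h_SRC h_EXP h_CRD h_ENC h_PEN h_PSR h_PTV h_SZR h_TMP h_LNP S hS H L,
      p_up h_TMP⟩
  refine ⟨fun H => ⟨fun L => ⟨?_, rp_np⟩, h2 fun L hL => H L (up_np hL)⟩, h2⟩
  exact rp_main h_IPA h_SRC h_EXP h_CRD h_ENC h_PEN h_PSR h_PTV h_SZR h_TMP h_LNP h_VVL h_AMP S hS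
    H L

end Pool.Agent.MAJ
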