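import Pool.Agent.MAJ.Defs

set_option autoImplicit false

/-!
# Randomised truth-table reductions with a bounded number of queries
-/

namespace Pool.Agent.MAJ

/-- `A` reduces to `S` by a randomised reduction with at most `d` queries: on input `x` and a random
string `r` of length `m (|x|)` a polynomial time machine writes one block (at most `d` queries and a
truth table for their answers), and for every `x` the value of this block, the queries being answered
by `S`, is the correct answer to the question whether `x ∈ A` for at least a fraction
`1/2 + 1/(p (|x|) + 1)` of all `r`; `m`, `p` are polynomials. -/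
def RandReduces (d : ℕ) (A S : Lang) : Prop :=
  ∃ (m p : Polynomial ℕ) (f : List Bool × List Bool → Block), PolyTime encPair encBlock f ∧
    (∀ x r, (f (x, r)).1.length ≤ d) ∧
    ∀ x, (1 / 2 + 1 / (((p.eval x.length : ℕ) : ℝ) + 1)) * 2 ^ (m.eval x.length) ≤
      ({r : List Bool | r.length = m.eval x.length ∧
        (holds S (f (x, r)) = true ↔ x ∈ A)}.ncard : ℝ)

end Pool.Agent.MAJ
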