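import Pool.Agent.MAJ.Targets
import Pool.Agent.MAJ.DefsR

set_option autoImplicit false

/-!
# MAJ targets 2: randomised reductions

Every target has its proof in the docstring.
-/

namespace Pool.Agent.MAJ

open Pool.Agent.PT (Dat PolyF sz)

/-- TKE. Unused random bits. PROOF. `r ↦ (r.take m, r.drop m)` is a bijection from the strings of
length `mm` to the pairs of strings of lengths `m` and `mm - m`; there are `2 ^ k` strings of
length `k`. -/
def T_TKE : Prop := ∀ (m mm : ℕ) (P : List Bool → Prop), m ≤ mm →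
  {r : List Bool | r.length = mm ∧ P (r.take m)}.ncard =
    2 ^ (mm - m) * {r : List Bool | r.length = m ∧ P r}.ncard

open Classical in
/-- SMP. A sample of size `t` is correct for all `a` at the same time. PROOF. Fix `a`, let `g` be the
number of `r` (of length `mm`) with `C a r`, `b = 2 ^ mm - g`, `ε = 1 / (E + 1)`, so
`g ≥ (1/2 + ε) 2 ^ mm` (in particular `ε ≤ 1/2`). For `λ = 1 - ε` every bad `R` (with
`c = #{i : C a (piece i)}`, `2 c ≤ t`) has `λ ^ (2 c - t) ≥ 1`, so the number of bad `R` is at most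
`∑_R ∏_i (λ if C a (piece i), else 1 / λ) = (g λ + b / λ) ^ t` (sum over all strings of length
`t * mm`: induction over `t`), and
`g λ + b / λ ≤ 2 ^ mm ((1/2 + ε) λ + (1/2 - ε) / λ) = 2 ^ mm (1 - ε ^ 2 - ε ^ 2 / (2 (1 - ε)))
≤ 2 ^ mm (1 - ε ^ 2)`, `(1 - ε ^ 2) ^ t ≤ exp (- ε ^ 2 t) ≤ exp (-(n + 2)) ≤ 2 ^ (-(n + 2))`. There
are less than `2 ^ (n + 1)` strings `a` of length at most `n`. -/
def T_SMP : Prop := ∀ (mm t E n : ℕ) (C : List Bool → List Bool → Prop),
  (∀ a : List Bool, a.length ≤ n → (1 / 2 + 1 / ((E : ℝ) + 1)) * 2 ^ mm ≤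
    ({r : List Bool | r.length = mm ∧ C a r}.ncard : ℝ)) → (n + 2) * (E + 1) ^ 2 ≤ t →
  2 * {R : List Bool | R.length = t * mm ∧ ∃ a : List Bool, a.length ≤ n ∧
    2 * (pieces mm t R).countP (fun r => decide (C a r)) ≤ t}.ncard ≤ 2 ^ (t * mm)

/-- JNT. Two stages. PROOF. `σ ↦ (σ.take m1, σ.drop m1)` is a bijection from the strings of length
`m1 + m2` to the pairs; sum over the first component. -/
def T_JNT : Prop := ∀ (m1 m2 : ℕ) (A : List Bool → Prop) (G : List Bool → List Bool → Prop),
  2 ^ m1 ≤ 8 * {ρ : List Bool | ρ.length = m1 ∧ A ρ}.ncard →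
  (∀ ρ : List Bool, ρ.length = m1 → A ρ → 2 ^ m2 ≤ 2 * {R : List Bool | R.length = m2 ∧
    G ρ R}.ncard) →
  2 ^ (m1 + m2) ≤ 16 * {σ : List Bool | σ.length = m1 + m2 ∧ A (σ.take m1) ∧
    G (σ.take m1) (σ.drop m1)}.ncard

/-- AM2. Twelve repetitions (compare T_AMP, `P_AMP.lean`). PROOF. `(15 / 16) ^ 12 ≤ 1 / 2`. -/
def T_AM2 : Prop := ∀ (m : ℕ) (P : List Bool → Prop),
  2 ^ m ≤ 16 * {ρ : List Bool | ρ.length = m ∧ P ρ}.ncard →
  2 ^ (12 * m) ≤ 2 * {ρ : List Bool | ρ.length = 12 * m ∧ ∃ σ ∈ pieces m 12 ρ, P σ}.ncard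

/-- SZ2. Sizes (compare T_SZR, `P_SZR.lean`). PROOF. `PolyF.bound`, and the size of the argument is at
most a polynomial in `x.length`. -/
def T_SZ2 : Prop := ∀ {β : Type} [Dat β]
  (h : (((List Bool × List (List Bool)) × List Bool) × List Bool) → β), PolyF h →
  ∀ q B : Polynomial ℕ, ∃ K : Polynomial ℕ, ∀ (x : List Bool) (rows : List (List Bool))
    (R a : List Bool), rows.length ≤ q.eval x.length + 2 →
    (∀ r ∈ rows, r.length ≤ q.eval x.length + 1) → R.length ≤ B.eval x.length →
    a.length ≤ q.eval x.length → sz (h (((x, rows), R), a)) ≤ K.eval x.length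

/-- LNZ. Length of the questions. PROOF. `(encL l).length = ∑ s ∈ l, (2 * s.length + 1)`. -/
def T_LNZ : Prop := ∀ (x a : List Bool) (rows : List (List Bool)) (n : ℕ), a.length ≤ n →
  rows.length ≤ n + 2 → (∀ r ∈ rows, r.length ≤ n + 1) →
  (encL (x :: a :: rows)).length ≤ (2 * x.length + 1) + (2 * n + 1) + (n + 2) * (2 * (n + 1) + 1)

/-- M2R. A majority reduction is a randomised reduction (the block is chosen at random). PROOF (uses
T_TMP, T_ENC, T_TKE). Let `f` be the majority reduction and `l` four copies of `f x` followed by two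
false blocks `([], [])`: `#true - #false` for `l` is `4 (T - F) - 2`, at least `2` if `x ∈ A`, at most
`-2` if `x ∉ A`. Let `m = Nat.size l.length` (so `l.length < 2 ^ m ≤ 2 * l.length`), `j` the number
written by the first `m` random bits. Output the block `j` of `l` if `j < l.length`, otherwise the true
block `([], [[]])` if `j - l.length` is even and the false block if it is odd; these contribute `0` or
`1`, so over all `2 ^ m` values `#true - #false` is at least `2` if `x ∈ A`, at most `-1` if `x ∉ A`: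
the fraction of correct strings is at least `1/2 + 1 / (2 * 2 ^ m) ≥ 1/2 + 1 / (4 * l.length)`. The
random string has length `K (|x|)`, a polynomial bound for `l.length` (`PolyF.bound`, `length_lt_sz`),
at least `m`; T_TKE for the unused bits; `p = 4 K`. The output is written with `encBlock`: `PolyF` of
`(x, r) ↦ encBlock ..` (`flatMap`, `PolyF.finite`), then `PT.tm_of_polyF` with the input `encPair`
(compare T_TMP and its proof in `P_TMP.lean`). -/
def T_M2R : Prop := ∀ (d : ℕ) (A S : Lang), MajReduces d A S → RandReduces d A S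

end Pool.Agent.MAJ
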