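import Pool.Agent.MAJ.Assembly
import Pool.Agent.MAJ.Targets2

set_option autoImplicit false

/-!
# MAJ: assembly of the theorem for randomised reductions
-/

namespace Pool.Agent.MAJ

open Pool.Agent.PT (Dat PolyF sz Core length_lt_sz sz_mem sz_snd)

namespace ASN_

theorem eval_mono (p : Polynomial ℕ) {a b : ℕ} (h : a ≤ b) : p.eval a ≤ p.eval b := by
  rw [Polynomial.eval_eq_sum, Polynomial.eval_eq_sum]
  exact Finset.sum_le_sum fun i _ => Nat.mul_le_mul_left _ (Nat.pow_le_pow_left h i)

/-- the unique solver, for any way to compute the blocks of a question -/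
theorem solver2 (h_IPA : T_IPA) (h_SRC : T_SRC) (h_EXP : T_EXP) (h_CRD : T_CRD)
    (h_PSR : T_PSR) (h_PTV : T_PTV) (S : Lang) (hS : Sparse S) (d : ℕ)
    {γ : Type} [Dat γ] (xs : γ → List Bool) (hxs : PolyF xs) (bl : γ × List Bool → List Block)
    (hbl : PolyF bl) (Valid : γ → Prop) (hd : ∀ c a, ∀ b ∈ bl (c, a), b.1.length ≤ d)
    (q : Polynomial ℕ) (V : List Bool × List Bool → Bool) (hV : PolyF V) (K : Polynomial ℕ)
    (hK : ∀ c, Valid c → ∀ a : List Bool, a.length ≤ q.eval (xs c).length →
      sz (toVec d (bl (c, a))) ≤ K.eval (xs c).length) :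
    ∃ G : γ → Bool, PolyF G ∧
      (∀ c, G c = true → ∃ w, w.length = q.eval (xs c).length ∧ V (xs c, w) = true) ∧
      ∀ (c : γ) (w : List Bool), Valid c → w.length = q.eval (xs c).length →
        V (xs c, w) = true → (∀ a : List Bool, a.length ≤ q.eval (xs c).length →
          (dot a w = true ↔ (bl (c, a)).length < 2 * (bl (c, a)).countP (holds S))) →
        G c = true := by
  have : Fact Core := ⟨Pool.Agent.PT.core⟩
  obtain ⟨p, hp⟩ := hS
  set μP : Polynomial ℕ := K ^ 2 * ((K + 1) * p.comp K + 1) ^ d with hμP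
  set BP : Polynomial ℕ := K ^ 2 * (μP * K ^ 2) + 1 with hBP
  set TP : Polynomial ℕ := 2 * BP * (μP + 1) with hTP
  obtain ⟨Lμ, hLμ, eμ⟩ := Pool.Agent.CookLevin.tLEN (Γ := Bool) μP
  obtain ⟨LB, hLB, eB⟩ := Pool.Agent.CookLevin.tLEN (Γ := Bool) BP
  obtain ⟨LT, hLT, eT⟩ := Pool.Agent.CookLevin.tLEN (Γ := Bool) TP
  obtain ⟨LN, hLN, eN⟩ := Pool.Agent.CookLevin.tLEN (Γ := Bool) q
  have h1 : PolyF (fun c : γ => search (fun a => toVec d (bl (c, a))) (LB (xs c))
      (Lμ (xs c)).length (LT (xs c)) (LN (xs c))) := by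
    refine h_PSR (fun (c : γ) (a : List Bool) => toVec d (bl (c, a))) (fun c => LB (xs c))
      (fun c => (Lμ (xs c)).length) (fun c => LT (xs c)) (fun c => LN (xs c)) ?_
      (hLB.comp hxs) (PolyF.length (hLμ.comp hxs)) (hLT.comp hxs) (hLN.comp hxs)
    exact (h_PTV d).comp (hbl.comp (PolyF.pair (PolyF.fst PolyF.id) (PolyF.snd PolyF.id)))
  refine ⟨fun c => (search (fun a => toVec d (bl (c, a))) (LB (xs c))
      (Lμ (xs c)).length (LT (xs c)) (LN (xs c))).any
    fun y => decide (y.length = (LN (xs c)).length) && V (xs c, y), ?_, ?_, ?_⟩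
  · refine PolyF.any (f := fun (c : γ) (y : List Bool) =>
      decide (y.length = (LN (xs c)).length) && V (xs c, y)) ?_ h1
    refine PolyF.and (PolyF.eq_nat (PolyF.length (PolyF.snd PolyF.id))
      (PolyF.length (hLN.comp (hxs.comp (PolyF.fst PolyF.id))))) (hV.comp ?_)
    exact PolyF.pair (hxs.comp (PolyF.fst PolyF.id)) (PolyF.snd PolyF.id)
  · intro c h
    rw [List.any_eq_true] at h
    obtain ⟨y, -, hy⟩ := h
    rw [Bool.and_eq_true, decide_eq_true_iff] at hy
    refine ⟨y, ?_, hy.2⟩
    rw [hy.1, eN]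
  · intro c w hval hw hVw hdots
    rw [List.any_eq_true]
    set x := xs c with hx
    set k := K.eval x.length with hk
    set n := q.eval x.length with hn
    obtain ⟨F, hF, hF'⟩ := h_CRD S p hp d k
    have hsz : ∀ a : List Bool, a.length ≤ n → sz (toVec d (bl (c, a))) ≤ k :=
      fun a ha => hK c hval a ha
    refine ⟨w, ?_, ?_⟩
    · refine h_SRC S F (fun a => toVec d (bl (c, a))) (k ^ 2) (Lμ x).length (LB x) (LT x) (LN x) w
        (by rw [hw, eN]) ?_ ?_ ?_ ?_ ?_ ?_
      · intro a ha
        rw [eN] at ha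
        have h2 := h_IPA.2.2.2.2.2.1 (toVec d (bl (c, a)))
        have h3 : (toVec d (bl (c, a))).length ≤ k := (length_lt_sz _).le.trans (hsz a ha)
        have h4 : ((toVec d (bl (c, a))).length : ℤ) ≤ (k : ℤ) := by exact_mod_cast h3
        push_cast
        nlinarith
      · intro a ha pr hpr hfv
        rw [eN] at ha
        have h2 := (h_EXP d S (bl (c, a)) (fun b hb => hd _ _ b hb)).2 pr hpr
        refine hF' pr.2 h2.1 (fun s hs => ?_) hfv
        have h3 : sz s < sz pr.2 := sz_mem hs
        have h4 : sz pr.2 ≤ sz pr := sz_snd pr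
        have h5 : sz pr < sz (toVec d (bl (c, a))) := sz_mem hpr
        have h6 := hsz a ha
        have h7 := length_lt_sz s
        omega
      · rw [eμ]
        have h2 : μP.eval x.length = k ^ 2 * ((k + 1) * p.eval k + 1) ^ d := by
          rw [hμP]
          simp [Polynomial.eval_comp, hk]
        rw [h2]
        exact Nat.mul_le_mul_left _ hF
      · rw [eμ, eB]
        rw [hBP]
        simp [hk]
      · rw [eμ, eB, eT]
        rw [hTP]
        simp
      · intro a ha
        rw [eN] at ha
        have h2 := (h_EXP d S (bl (c, a)) (fun b hb => hd _ _ b hb)).1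
        have h3 := hdots a ha
        rw [h2]
        by_cases hdot : dot a w = true
        · have h6 := h3.1 hdot
          rw [hdot]
          simp only [sg, if_true]
          have : ((bl (c, a)).length : ℤ) < 2 * ((bl (c, a)).countP (holds S) : ℤ) := by
            exact_mod_cast h6
          omega
        · have h6 := mt h3.2 hdot
          rw [Bool.not_eq_true] at hdot
          rw [hdot]
          simp only [sg]
          have : (2 : ℤ) * ((bl (c, a)).countP (holds S) : ℤ) ≤ ((bl (c, a)).length : ℤ) := by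
            exact_mod_cast (not_lt.1 h6)
          simp only [Bool.false_eq_true, if_false]
          omega
    · rw [Bool.and_eq_true, decide_eq_true_iff]
      exact ⟨by rw [hw, eN], hVw⟩

theorem polyF_block (h_ENC : T_ENC) (h_PEN : T_PEN) (f : List Bool × List Bool → Block)
    (hf : PolyTime encPair encBlock f) : PolyF f := by
  have : Fact Core := ⟨Pool.Agent.PT.core⟩
  obtain ⟨F, hF, hFe⟩ := Pool.Agent.DHD.tSIMF encPair encBlock f hf
  have h1 : PolyF (fun p : List Bool × List Bool => encPair p) := by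
    unfold encPair
    refine PolyF.append ?_ ?_
    · have e : PolyF (fun b : Bool => (Sum.inl b : Bool ⊕ Bool)) := PolyF.finite _
      exact PolyF.map (f := fun (_ : List Bool × List Bool) (b : Bool) => (Sum.inl b : Bool ⊕ Bool))
        (e.comp (PolyF.snd PolyF.id)) (PolyF.fst PolyF.id)
    · have e : PolyF (fun b : Bool => (Sum.inr b : Bool ⊕ Bool)) := PolyF.finite _
      exact PolyF.map (f := fun (_ : List Bool × List Bool) (b : Bool) => (Sum.inr b : Bool ⊕ Bool))
        (e.comp (PolyF.snd PolyF.id)) (PolyF.snd PolyF.id)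
  have h2 : PolyF (fun p : List Bool × List Bool => (parse (F (encPair p))).headD ([], [])) :=
    PolyF.headD (h_PEN.2.2.1.comp (hF.comp h1)) (PolyF.const _)
  refine h2.congr fun p => ?_
  rw [hFe p]
  have h3 := h_ENC.2.1 [f p]
  have h4 : encBlocks [f p] = encBlock (f p) := by simp [encBlocks]
  rw [h4] at h3
  rw [h3]
  rfl

theorem countP_compl (l : List (List Bool)) (p : List Bool → Bool) :
    l.length = l.countP p + l.countP (fun r => !p r) := by
  induction l with
  | nil => simp
  | cons a l ih => cases h : p a <;> simp [List.countP_cons, h, ih] <;> omega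

/-- Decision by excluded middle. -/
noncomputable abbrev dc (p : Prop) : Bool := @decide p (Classical.propDecidable p)

theorem full_ncard (m : ℕ) (s t : Set (List Bool)) (h : {R : List Bool | R.length = m} ⊆ s ∪ t)
    (hs : s.Finite) (ht : t.Finite) : 2 ^ m ≤ s.ncard + t.ncard := by
  have h1 : {R : List Bool | R.length = m}.ncard = 2 ^ m := by
    have e : {R : List Bool | R.length = m} = Set.range (List.Vector.toList (α := Bool) (n := m)) := by
      ext R
      constructor
      · intro hR
        exact ⟨⟨R, hR⟩, rfl⟩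
      · rintro ⟨v, rfl⟩
        exact v.toList_length
    rw [e, ← Set.image_univ, Set.ncard_image_of_injective _ List.Vector.toList_injective,
      Set.ncard_univ, Nat.card_eq_fintype_card, card_vector, Fintype.card_bool]
  rw [← h1]
  exact (Set.ncard_le_ncard h (hs.union ht)).trans (Set.ncard_union_le _ _)

end ASN_

open ASM_ ASN_ in
theorem rand_main (h_IPA : T_IPA) (h_SRC : T_SRC) (h_EXP : T_EXP) (h_CRD : T_CRD) (h_ENC : T_ENC)
    (h_PEN : T_PEN) (h_PSR : T_PSR) (h_PTV : T_PTV) (h_TMP : T_TMP)
    (h_LNP : T_LNP) (h_VVL : T_VVL) (h_TKE : T_TKE) (h_SMP : T_SMP) (h_JNT : T_JNT)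
    (h_AM2 : T_AM2) (h_SZ2 : T_SZ2) (h_LNZ : T_LNZ)
    (S : Lang) (hS : Sparse S) (H : ∀ L, InNP L → ∃ d, RandReduces d L S) (L : Lang)
    (hL : InNP L) : InRP L := by
  classical
  have : Fact Core := ⟨Pool.Agent.PT.core⟩
  obtain ⟨q, V, hV, hL⟩ := hL
  have hV' : PolyF V := (h_TMP.1 V).1 hV
  obtain ⟨d, m, p, f, hf, hd, hred⟩ := H _ (h_LNP q V hV').1
  have hf' : PolyF f := polyF_block h_ENC h_PEN f hf
  -- polynomials
  set ℓP : Polynomial ℕ := (2 * Polynomial.X + 1) + (2 * q + 1) + (q + 2) * (2 * (q + 1) + 1) with hℓP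
  set mmP : Polynomial ℕ := m.comp ℓP with hmmP
  set tP : Polynomial ℕ := (q + 2) * (p.comp ℓP + 1) ^ 2 with htP
  obtain ⟨L1, hL1, e1⟩ := Pool.Agent.CookLevin.tLEN (Γ := Bool) (q + 1)
  obtain ⟨L2, hL2, e2⟩ := Pool.Agent.CookLevin.tLEN (Γ := Bool) (q + 2)
  obtain ⟨L3, hL3, e3⟩ := Pool.Agent.CookLevin.tLEN (Γ := Bool) ((q + 2) * (q + 1))
  obtain ⟨LM, hLM, eM⟩ := Pool.Agent.CookLevin.tLEN (Γ := Bool) mmP
  obtain ⟨Lt, hLt, et⟩ := Pool.Agent.CookLevin.tLEN (Γ := Bool) tP
  obtain ⟨Lm, hLm, em⟩ := Pool.Agent.CookLevin.tLEN (Γ := Bool) m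
  obtain ⟨La, hLa, ea⟩ := Pool.Agent.CookLevin.tLEN (Γ := Bool) ((q + 2) * (q + 1) + tP * mmP)
  have hch := h_PEN.2.2.2.2.2.1
  have htk : PolyF (fun p : List Bool × List Unit => takeU p.1 p.2) := h_PEN.2.2.2.1
  have hdr : PolyF (fun p : List Bool × List Unit => dropU p.1 p.2) := h_PEN.2.2.2.2.1
  -- the blocks
  let γ : Type := (List Bool × List (List Bool)) × List Bool
  let bl : ((List Bool × List (List Bool)) × List Bool) × List Bool → List Block := fun c =>
    (chunks (LM c.1.1.1) (Lt c.1.1.1) c.1.2).map fun r =>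
      f (encL (c.1.1.1 :: c.2 :: c.1.1.2), takeU r (Lm (encL (c.1.1.1 :: c.2 :: c.1.1.2))))
  have hbl : PolyF bl := by
    have hz : PolyF (fun c : (((List Bool × List (List Bool)) × List Bool) × List Bool) =>
        encL (c.1.1.1 :: c.2 :: c.1.1.2)) := h_PEN.1.comp (by fun_prop)
    refine PolyF.map (f := fun (c : ((List Bool × List (List Bool)) × List Bool) × List Bool)
      (r : List Bool) => f (encL (c.1.1.1 :: c.2 :: c.1.1.2),
        takeU r (Lm (encL (c.1.1.1 :: c.2 :: c.1.1.2))))) ?_ ?_
    · refine hf'.comp (PolyF.pair (hz.comp (PolyF.fst PolyF.id)) ?_)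
      exact htk.comp (PolyF.pair (PolyF.snd PolyF.id) (hLm.comp (hz.comp (PolyF.fst PolyF.id))))
    · exact hch.comp (PolyF.pair (PolyF.pair (hLM.comp (by fun_prop)) (hLt.comp (by fun_prop)))
        (by fun_prop))
  obtain ⟨K, hK⟩ := h_SZ2 (fun c => toVec d (bl c)) ((h_PTV d).comp hbl) q (tP * mmP)
  obtain ⟨G, hG, hs, hc⟩ := solver2 h_IPA h_SRC h_EXP h_CRD h_PSR h_PTV S hS d
    (γ := (List Bool × List (List Bool)) × List Bool) (fun c => c.1.1) (by fun_prop) bl hbl
    (fun c => c.1.2.length ≤ q.eval c.1.1.length + 2 ∧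
      (∀ r ∈ c.1.2, r.length ≤ q.eval c.1.1.length + 1) ∧
        c.2.length ≤ (tP * mmP).eval c.1.1.length)
    (by
      intro c a b hb
      obtain ⟨r, -, rfl⟩ := List.mem_map.1 hb
      exact hd _ _)
    q V hV' K (fun c hval a ha => hK c.1.1 c.1.2 c.2 a hval.1 hval.2.1 hval.2.2 ha)
  set twelve : List Unit := List.replicate 12 () with htw
  refine ⟨12 * ((q + 2) * (q + 1) + tP * mmP), fun p => (chunks (La p.1) twelve p.2).any fun σ =>
    (unis (L2 p.1)).any fun s => G ((p.1, chunks (L1 p.1) s (takeU σ (L3 p.1))),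
      dropU σ (L3 p.1)), ?_, fun x => ⟨fun hx => ?_, ?_⟩⟩
  · refine (h_TMP.1 _).2 ?_
    refine PolyF.any (f := fun (p : List Bool × List Bool) (σ : List Bool) =>
      (unis (L2 p.1)).any fun s => G ((p.1, chunks (L1 p.1) s (takeU σ (L3 p.1))),
        dropU σ (L3 p.1))) ?_ ?_
    · refine PolyF.any (f := fun (p : (List Bool × List Bool) × List Bool) (s : List Unit) =>
        G ((p.1.1, chunks (L1 p.1.1) s (takeU p.2 (L3 p.1.1))), dropU p.2 (L3 p.1.1))) ?_ ?_
      · refine hG.comp (PolyF.pair (PolyF.pair (by fun_prop) ?_) ?_)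
        · exact hch.comp (PolyF.pair (PolyF.pair (hL1.comp (by fun_prop)) (by fun_prop))
            (htk.comp (PolyF.pair (by fun_prop) (hL3.comp (by fun_prop)))))
        · exact hdr.comp (PolyF.pair (by fun_prop) (hL3.comp (by fun_prop)))
      · exact h_PEN.2.2.2.2.2.2.1.comp (hL2.comp (by fun_prop))
    · exact hch.comp (PolyF.pair (PolyF.pair (hLa.comp (by fun_prop)) (PolyF.const _)) (by fun_prop))
  · -- completeness
    set n := q.eval x.length with hn
    set mm := mmP.eval x.length with hmm
    set t := tP.eval x.length with ht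
    set E := (p.comp ℓP).eval x.length with hE
    set ℓ := ℓP.eval x.length with hℓ
    have hmm' : mm = m.eval ℓ := by rw [hmm, hmmP, Polynomial.eval_comp]
    have hE' : E = p.eval ℓ := by rw [hE, Polynomial.eval_comp]
    have ht' : (n + 2) * (E + 1) ^ 2 ≤ t := by
      rw [ht, htP]
      simp [hn, hE]
    have hℓ' : ℓ = (2 * x.length + 1) + (2 * n + 1) + (n + 2) * (2 * (n + 1) + 1) := by
      rw [hℓ, hℓP]
      simp [hn]
    have hfin : {w : List Bool | w.length = n ∧ V (x, w) = true}.Finite := finite_len n _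
    set W : Finset (List Bool) := hfin.toFinset with hW
    have hWm : ∀ w, w ∈ W ↔ w.length = n ∧ V (x, w) = true := fun w => by simp [hW]
    have hWne : W.Nonempty := by
      obtain ⟨w, hw, hVw⟩ := (hL x).1 hx
      exact ⟨w, (hWm w).2 ⟨hw, hVw⟩⟩
    have h3 := h_VVL n W hWne fun w hw => ((hWm w).1 hw).1
    -- correctness of one random string
    let zz : ℕ → List Bool → List Bool → List Bool := fun s ρ a =>
      encL (x :: a :: pieces (n + 1) s ρ)
    let C : ℕ → List Bool → List Bool → List Bool → Prop := fun s ρ a r =>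
      (holds S (f (zz s ρ a, r.take (m.eval (zz s ρ a).length))) = true ↔ zz s ρ a ∈ langU q V)
    let A : List Bool → Prop := fun ρ => ∃ s ≤ n + 2, ∃ w ∈ W, ∀ w' ∈ W,
      (∀ r ∈ pieces (n + 1) s ρ, dot r (w' ++ [true]) = false) ↔ w' = w
    let Gd : List Bool → List Bool → Prop := fun ρ R => ∃ s ≤ n + 2, (∃ w ∈ W, ∀ w' ∈ W,
      (∀ r ∈ pieces (n + 1) s ρ, dot r (w' ++ [true]) = false) ↔ w' = w) ∧
      ∀ a : List Bool, a.length ≤ n → t < 2 * (pieces mm t R).countP fun r => dc (C s ρ a r)
    have hzl : ∀ s ≤ n + 2, ∀ ρ a : List Bool, a.length ≤ n → (zz s ρ a).length ≤ ℓ := by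
      intro s hs' ρ a ha
      rw [hℓ']
      refine h_LNZ x a _ n ha (by simp [pieces, hs']) fun r hr => ?_
      simp only [pieces, List.mem_map] at hr
      obtain ⟨i, -, rfl⟩ := hr
      rw [List.length_take]
      exact min_le_left _ _
    have h4 : ∀ ρ : List Bool, ρ.length = (n + 2) * (n + 1) → A ρ →
        2 ^ (t * mm) ≤ 2 * {R : List Bool | R.length = t * mm ∧ Gd ρ R}.ncard := by
      rintro ρ - ⟨s, hs', hw⟩
      have h5 := h_SMP mm t E n (C s ρ) (fun a ha => ?_) ht'
      · have h6 := full_ncard (t * mm) {R : List Bool | R.length = t * mm ∧ ∃ a : List Bool,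
            a.length ≤ n ∧ 2 * (pieces mm t R).countP (fun r => dc (C s ρ a r)) ≤ t}
          {R : List Bool | R.length = t * mm ∧ Gd ρ R} (by
            intro R hR
            by_cases hb : ∃ a : List Bool, a.length ≤ n ∧
                2 * (pieces mm t R).countP (fun r => dc (C s ρ a r)) ≤ t
            · exact Or.inl ⟨hR, hb⟩
            · push Not at hb
              exact Or.inr ⟨hR, s, hs', hw, hb⟩) (finite_len _ _) (finite_len _ _)
        have h5' : 2 * {R : List Bool | R.length = t * mm ∧ ∃ a : List Bool,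
            a.length ≤ n ∧ 2 * (pieces mm t R).countP (fun r => dc (C s ρ a r)) ≤ t}.ncard ≤
            2 ^ (t * mm) := h5
        omega
      · have h7 := hred (zz s ρ a)
        have hz := hzl s hs' ρ a ha
        have hm : m.eval (zz s ρ a).length ≤ mm := by
          rw [hmm']
          exact eval_mono m hz
        have h8 := h_TKE (m.eval (zz s ρ a).length) mm (fun r' =>
          (holds S (f (zz s ρ a, r')) = true ↔ zz s ρ a ∈ langU q V)) hm
        have h9 : {r : List Bool | r.length = mm ∧ C s ρ a r}.ncard =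
            2 ^ (mm - m.eval (zz s ρ a).length) * {r : List Bool | r.length =
              m.eval (zz s ρ a).length ∧ (holds S (f (zz s ρ a, r)) = true ↔
                zz s ρ a ∈ langU q V)}.ncard := h8
        rw [h9]
        push_cast
        have h10 : (1 / 2 + 1 / ((E : ℝ) + 1)) ≤
            1 / 2 + 1 / (((p.eval (zz s ρ a).length : ℕ) : ℝ) + 1) := by
          have h11 : p.eval (zz s ρ a).length ≤ E := by
            rw [hE']
            exact eval_mono p hz
          have h12 : ((p.eval (zz s ρ a).length : ℕ) : ℝ) ≤ (E : ℝ) := by exact_mod_cast h11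
          have h13 : (0 : ℝ) ≤ ((p.eval (zz s ρ a).length : ℕ) : ℝ) := Nat.cast_nonneg _
          have := one_div_le_one_div_of_le (by linarith :
            (0 : ℝ) < ((p.eval (zz s ρ a).length : ℕ) : ℝ) + 1)
            (by linarith : ((p.eval (zz s ρ a).length : ℕ) : ℝ) + 1 ≤ (E : ℝ) + 1)
          linarith
        have h14 : (2 : ℝ) ^ mm = 2 ^ (mm - m.eval (zz s ρ a).length) *
            2 ^ (m.eval (zz s ρ a).length) := by
          rw [← pow_add]
          congr 1
          omega
        rw [h14]
        have h15 : (0 : ℝ) < 2 ^ (mm - m.eval (zz s ρ a).length) := by positivity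
        have h16 : (0 : ℝ) < 2 ^ (m.eval (zz s ρ a).length) := by positivity
        calc (1 / 2 + 1 / ((E : ℝ) + 1)) * (2 ^ (mm - m.eval (zz s ρ a).length) *
              2 ^ (m.eval (zz s ρ a).length)) = 2 ^ (mm - m.eval (zz s ρ a).length) *
              ((1 / 2 + 1 / ((E : ℝ) + 1)) * 2 ^ (m.eval (zz s ρ a).length)) := by ring
          _ ≤ 2 ^ (mm - m.eval (zz s ρ a).length) *
              ((1 / 2 + 1 / (((p.eval (zz s ρ a).length : ℕ) : ℝ) + 1)) *
                2 ^ (m.eval (zz s ρ a).length)) := by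
            refine mul_le_mul_of_nonneg_left ?_ h15.le
            exact mul_le_mul_of_nonneg_right h10 h16.le
          _ ≤ _ := mul_le_mul_of_nonneg_left h7 h15.le
    have h5 := h_JNT ((n + 2) * (n + 1)) (t * mm) A Gd h3 h4
    have h6 := h_AM2 ((n + 2) * (n + 1) + t * mm) (fun σ => A (σ.take ((n + 2) * (n + 1))) ∧
      Gd (σ.take ((n + 2) * (n + 1))) (σ.drop ((n + 2) * (n + 1)))) h5
    have h7 : (12 * ((q + 2) * (q + 1) + tP * mmP) : Polynomial ℕ).eval x.length =
        12 * ((n + 2) * (n + 1) + t * mm) := by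
      simp [hn, ht, hmm]
    rw [h7]
    refine h6.trans (Nat.mul_le_mul_left _ (Set.ncard_le_ncard ?_ (finite_len _ _)))
    rintro ρ ⟨hρ, σ, hσ, -, s, hs', ⟨w, hw, hww⟩, hgood⟩
    refine ⟨hρ, ?_⟩
    have hσl : σ.length ≤ (n + 2) * (n + 1) + t * mm := by
      simp only [pieces, List.mem_map] at hσ
      obtain ⟨i, -, rfl⟩ := hσ
      rw [List.length_take]
      exact min_le_left _ _
    rw [List.any_eq_true]
    refine ⟨σ, ?_, ?_⟩
    · rw [h_ENC.2.2.2.2.2.1, ea, htw, List.length_replicate]
      have : ((q + 2) * (q + 1) + tP * mmP : Polynomial ℕ).eval x.length =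
          (n + 2) * (n + 1) + t * mm := by simp [hn, ht, hmm]
      rw [this]
      exact hσ
    · rw [List.any_eq_true]
      have h8 : s ∈ (unis (L2 x)).map List.length := by
        rw [h_ENC.2.2.2.2.2.2, e2, List.mem_range]
        have : (q + 2 : Polynomial ℕ).eval x.length = n + 2 := by simp [hn]
        rw [this]
        omega
      obtain ⟨s', hs1, hs2⟩ := List.mem_map.1 h8
      refine ⟨s', hs1, ?_⟩
      have e3' : (L3 x).length = (n + 2) * (n + 1) := by
        rw [e3]
        simp [hn]
      have h9 : chunks (L1 x) s' (takeU σ (L3 x)) =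
          pieces (n + 1) s (σ.take ((n + 2) * (n + 1))) := by
        rw [h_ENC.2.2.2.2.2.1, e1, hs2, h_ENC.2.2.2.1, e3']
        have : (q + 1 : Polynomial ℕ).eval x.length = n + 1 := by simp [hn]
        rw [this]
      have h10 : dropU σ (L3 x) = σ.drop ((n + 2) * (n + 1)) := by
        rw [h_ENC.2.2.2.2.1, e3']
      simp only
      rw [h9, h10]
      have hw' := (hWm w).1 hw
      refine hc ((x, pieces (n + 1) s (σ.take ((n + 2) * (n + 1)))), σ.drop ((n + 2) * (n + 1))) w
        ⟨?_, ?_, ?_⟩ hw'.1 hw'.2 ?_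
      · simp [pieces, ← hn, hs']
      · intro r hr
        simp only [pieces, List.mem_map] at hr
        obtain ⟨i, -, rfl⟩ := hr
        rw [List.length_take]
        exact (min_le_left _ _)
      · change (σ.drop ((n + 2) * (n + 1))).length ≤ (tP * mmP).eval x.length
        rw [List.length_drop, Polynomial.eval_mul, ← ht, ← hmm]
        omega
      · intro a ha
        have ha' : a.length ≤ n := ha
        have hg := hgood a ha'
        -- the question
        have hz1 : dot a w = true ↔ zz s (σ.take ((n + 2) * (n + 1))) a ∈ langU q V := by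
          constructor
          · intro hdot
            exact ⟨x, a, _, h_ENC.1 _, w, hw'.1, hw'.2, hdot, (hww w hw).2 rfl⟩
          · rintro ⟨x', a', rows', he, w', hw1, hVw', hdot', hwr'⟩
            rw [h_ENC.1] at he
            simp only [List.cons.injEq] at he
            obtain ⟨rfl, rfl, rfl⟩ := he
            have := (hww w' ((hWm w').2 ⟨hw1, hVw'⟩)).1 hwr'
            rw [← this]
            exact hdot'
        rw [hz1]
        -- the blocks
        set z := zz s (σ.take ((n + 2) * (n + 1))) a with hz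
        set R := σ.drop ((n + 2) * (n + 1)) with hR
        have hb1 : bl (((x, pieces (n + 1) s (σ.take ((n + 2) * (n + 1)))), R), a) =
            (pieces mm t R).map fun r => f (z, r.take (m.eval z.length)) := by
          change (chunks (LM x) (Lt x) R).map (fun r => f (z, takeU r (Lm z))) = _
          rw [h_ENC.2.2.2.2.2.1, eM, et]
          refine List.map_congr_left fun r _ => ?_
          rw [h_ENC.2.2.2.1, em]
        rw [hb1, List.length_map, List.countP_map]
        have hlen : (pieces mm t R).length = t := by simp [pieces]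
        rw [hlen]
        have hcC : ∀ r : List Bool, dc (C s (σ.take ((n + 2) * (n + 1))) a r) =
            dc (holds S (f (z, r.take (m.eval z.length))) = true ↔ z ∈ langU q V) :=
          fun r => rfl
        simp only [hcC] at hg
        by_cases hzL : z ∈ langU q V
        · have hcc : ∀ r : List Bool,
              dc (holds S (f (z, r.take (m.eval z.length))) = true ↔ z ∈ langU q V) =
                holds S (f (z, r.take (m.eval z.length))) := by
            intro r
            cases hh : holds S (f (z, r.take (m.eval z.length))) <;> simp [dc, hzL]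
          simp only [hcc] at hg
          exact iff_of_true hzL hg
        · have hcc : ∀ r : List Bool,
              dc (holds S (f (z, r.take (m.eval z.length))) = true ↔ z ∈ langU q V) =
                !holds S (f (z, r.take (m.eval z.length))) := by
            intro r
            cases hh : holds S (f (z, r.take (m.eval z.length))) <;> simp [dc, hzL]
          simp only [hcc] at hg
          refine iff_of_false hzL ?_
          have h11 := countP_compl (pieces mm t R)
            (fun r : List Bool => holds S (f (z, r.take (m.eval z.length))))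
          rw [hlen] at h11
          change ¬ t < 2 * (pieces mm t R).countP
            (fun r : List Bool => holds S (f (z, r.take (m.eval z.length))))
          omega
  · -- soundness
    intro hx w _
    rw [← Bool.not_eq_true]
    intro h
    rw [List.any_eq_true] at h
    obtain ⟨σ, -, h⟩ := h
    rw [List.any_eq_true] at h
    obtain ⟨s, -, h⟩ := h
    exact hx ((hL x).2 (hs _ h))

end Pool.Agent.MAJ
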