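import Pool.Agent.MAJ.Defs

set_option autoImplicit false

/-!
# The class FewP
-/

namespace Pool.Agent.MAJ

/-- The class FewP: as NP, but every string has at most polynomially many witnesses. -/
def InFewP (L : Lang) : Prop :=
  ∃ (q k : Polynomial ℕ) (V : List Bool × List Bool → Bool), PolyTime encPair encBool V ∧
    ∀ x, (x ∈ L ↔ ∃ w, w.length = q.eval x.length ∧ V (x, w) = true) ∧
      {w : List Bool | w.length = q.eval x.length ∧ V (x, w) = true}.ncard ≤ k.eval x.length

end Pool.Agent.MAJ
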