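import Pool.Agent.MAJ.Targets
import Pool.Agent.MAJ.DefsF

set_option autoImplicit false

/-!
# MAJ, part 3: FewP. Targets
-/

namespace Pool.Agent.MAJ

open Pool.Agent.PT (Dat PolyF sz Core)

/-- One step of the computation of the residue of a binary number modulo `m` (unary). -/
def modStep (m : List Unit) (s : List Unit) (b : Bool) : List Unit :=
  if (s ++ s ++ (if b then [()] else [])).length < m.length then s ++ s ++ (if b then [()] else [])
  else takeU (dropU (s ++ s ++ (if b then [()] else [])) m) m

/-- The residue of the binary number `w` modulo `m`, everything but `w` in unary. -/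
def modU (w : List Bool) (m : List Unit) : List Unit := w.foldl (modStep m) []

/-- The number with the binary digits `w`. -/
def num (w : List Bool) : ℕ := w.foldl (fun n b => 2 * n + (if b then 1 else 0)) 0

/-- The residue of `w` modulo the number of letters `false` of `R` is the number of letters `true`
of `R`. -/
def resid (w R : List Bool) : Bool :=
  decide ((modU w ((R.filter fun b => !b).map fun _ => ())).length = R.countP fun b => b)

/-- MOD. PROOF (uses T_ENC for `takeU`, `dropU`, and `PolyF.foldl` for the last two parts; the state
of the fold has length at most `m.length`). (1) Induction on `w` from the right, with `s < m`: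
`2 s + b < 2 m`, so one subtraction is enough and the last `takeU` changes nothing. (2)
`num w < 2 ^ w.length` and injectivity on strings of the same length (induction from the right). -/
def T_MOD : Prop := (∀ (w : List Bool) (m : List Unit), 1 ≤ m.length →
    (modU w m).length = num w % m.length) ∧
  (∀ w : List Bool, num w < 2 ^ w.length) ∧
  (∀ w w' : List Bool, w.length = w'.length → num w = num w' → w = w') ∧
  PolyF (fun p : List Bool × List Unit => modU p.1 p.2) ∧
  PolyF (fun p : List Bool × List Bool => resid p.1 p.2)

/-- ISO. Deterministic isolation by a small modulus. PROOF. Let `w ∈ W` be arbitrary,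
`P = ∏_{w' ∈ W, w' ≠ w} |f w' - f w|`, so `0 < P ≤ 2 ^ (n N)` (`|f w' - f w| ≤ 2 ^ n`). If every
modulus `m` with `1 ≤ m ≤ 2 h`, `h = n N + 1`, divides some `f w' - f w`, then it divides `P`; for
every prime `p` the power `p ^ v`, `v = (centralBinom h).factorization p`, is at most `2 h`
(`Nat.pow_factorization_choose_le`), so it divides `P`, hence `centralBinom h` divides `P`
(`Nat.factorization_prime_le_iff_dvd` or `Nat.factorization_le_iff_dvd`) and
`4 ^ h ≤ 2 h centralBinom h ≤ 2 h 2 ^ (h - 1)` (`Nat.four_pow_le_two_mul_self_mul_centralBinom`),
that is `2 ^ h ≤ h`, a contradiction. -/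
def T_ISO : Prop := ∀ (n N : ℕ) (W : Finset (List Bool)) (f : List Bool → ℕ),
  (∀ w ∈ W, f w < 2 ^ n) → (∀ w ∈ W, ∀ w' ∈ W, f w = f w' → w = w') → W.card ≤ N →
  ∀ w ∈ W, ∃ m : ℕ, 1 ≤ m ∧ m ≤ 2 * (n * N + 1) ∧ ∀ w' ∈ W, f w' % m = f w % m → w' = w

/-- LNF. The language of the questions, for FewP (compare `P_LNP.lean`: `LNP_.ver`,
`LNP_.ver_polyF`, `LNP_.ver_iff`, `LNP_.main`, `LNP_.count_split`; import it). PROOF. The map
`u ↦ u.take (q |x|)` is injective on the witnesses `u` of `z` (`decL z = x :: a :: rows`, see
`LNP_.uniq`) and its values are witnesses of `x`; `|x| ≤ |z|`; if `decL z` has less than two members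
then there are no witnesses. The number polynomial is `k`. -/
def T_LNF : Prop := ∀ (q k : Polynomial ℕ) (V : List Bool × List Bool → Bool), PolyF V →
  (∀ x, {w : List Bool | w.length = q.eval x.length ∧ V (x, w) = true}.ncard ≤ k.eval x.length) →
    InFewP (langU q V)

/-- The verifier with a residue condition: the input is `encL [x, R]`. -/
def verR (V : List Bool × List Bool → Bool) (L : List Bool → List Unit)
    (p : List Bool × List Bool) : Bool :=
  decide ((decL p.1).length = 2) &&
    (V ((decL p.1).headD [], takeU p.2 (L ((decL p.1).headD []))) &&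
    (resid (takeU p.2 (L ((decL p.1).headD []))) ((decL p.1).tail.headD []) &&
    decide (p.2.countP (fun b => b) =
      (takeU p.2 (L ((decL p.1).headD []))).countP (fun b => b))))

/-- VRR. The verifier with a residue condition (compare `P_LNP.lean`; import it). PROOF. `PolyF`
as for `LNP_.ver_polyF` with T_MOD. The witnesses `u` of `x'` are the strings
`w ++ false ... false`, `w` a witness of `x` with `resid w R`, for `decL x' = [x, R]`
(`LNP_.count_split`); `|x| ≤ |x'|` by T_ENC. -/
def T_VRR : Prop := ∀ (q k : Polynomial ℕ) (V : List Bool × List Bool → Bool)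
  (L : List Bool → List Unit), PolyF V → PolyF L → (∀ x, (L x).length = q.eval x.length) →
  (∀ x, {w : List Bool | w.length = q.eval x.length ∧ V (x, w) = true}.ncard ≤ k.eval x.length) →
  PolyF (verR V L) ∧
  (∀ x', {u : List Bool | u.length = q.eval x'.length ∧ verR V L (x', u) = true}.ncard ≤
    k.eval x'.length) ∧
  (∀ x' u, u.length = q.eval x'.length → verR V L (x', u) = true → ∃ x R, decL x' = [x, R] ∧
    (u.take (q.eval x.length)).length = q.eval x.length ∧
    V (x, u.take (q.eval x.length)) = true ∧ resid (u.take (q.eval x.length)) R = true ∧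
    u = u.take (q.eval x.length) ++ List.replicate (q.eval x'.length - q.eval x.length) false) ∧
  (∀ x R w, w.length = q.eval x.length → V (x, w) = true → resid w R = true →
    verR V L (encL [x, R], w ++ List.replicate (q.eval (encL [x, R]).length - q.eval x.length) false)
      = true ∧ q.eval x.length ≤ q.eval (encL [x, R]).length)

end Pool.Agent.MAJ
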