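import Pool.Agent.MAJ.Assembly
import Pool.Agent.MAJ.Targets3

set_option autoImplicit false

/-!
# MAJ, part 3: assembly for FewP
-/

namespace Pool.Agent.MAJ

open Pool.Agent.PT (Dat PolyF sz Core length_lt_sz sz_mem sz_snd)

/-- The residue condition as a string. -/
def RR (p : List Unit × List Unit) : List Bool :=
  p.1.map (fun _ => true) ++ p.2.map (fun _ => false)

theorem polyF_RR : PolyF RR := by
  have : Fact Core := ⟨Pool.Agent.PT.core⟩
  unfold RR
  refine PolyF.append ?_ ?_
  · exact PolyF.map (f := fun (_ : List Unit × List Unit) (_ : Unit) => true) (PolyF.const _)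
      (PolyF.fst PolyF.id)
  · exact PolyF.map (f := fun (_ : List Unit × List Unit) (_ : Unit) => false) (PolyF.const _)
      (PolyF.snd PolyF.id)

theorem RR_true (p : List Unit × List Unit) : (RR p).countP (fun b => b) = p.1.length := by
  unfold RR
  rw [List.countP_append, List.countP_map, List.countP_map]
  simp [Function.comp_def]

theorem RR_false (p : List Unit × List Unit) :
    ((RR p).filter fun b => !b).length = p.2.length := by
  unfold RR
  rw [List.filter_append, List.length_append, List.filter_map, List.filter_map]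
  simp [Function.comp_def]

open ASM_ in
/-- P is contained in FewP -/
theorem p_few (h_TMP : T_TMP) {L : Lang} (h : InP L) : InFewP L := by
  obtain ⟨q, V, hV, h⟩ := p_up h_TMP h
  refine ⟨q, 1, V, hV, fun x => ⟨(h x).1, ?_⟩⟩
  rw [Polynomial.eval_one]
  refine (Set.ncard_le_one (finite_len _ _)).2 ?_
  intro w hw w' hw'
  exact (h x).2 w w' hw.1 hw'.1 hw.2 hw'.2

open ASM_ in
theorem few_main (h_IPA : T_IPA) (h_SRC : T_SRC) (h_EXP : T_EXP) (h_CRD : T_CRD) (h_ENC : T_ENC)
    (h_PEN : T_PEN) (h_PSR : T_PSR) (h_PTV : T_PTV) (h_SZR : T_SZR) (h_TMP : T_TMP)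
    (h_MOD : T_MOD) (h_ISO : T_ISO) (h_LNF : T_LNF) (h_VRR : T_VRR)
    (S : Lang) (hS : Sparse S) (H : ∀ L, InFewP L → ∃ d, MajReduces d L S) (L : Lang)
    (hL : InFewP L) : InP L := by
  have : Fact Core := ⟨Pool.Agent.PT.core⟩
  obtain ⟨q, k, V, hV, hL⟩ := hL
  have hV' : PolyF V := (h_TMP.1 V).1 hV
  obtain ⟨Lq, hLq, eLq⟩ := Pool.Agent.CookLevin.tLEN (Γ := Bool) q
  obtain ⟨hver, hcard, hver1, hver2⟩ := h_VRR q k V Lq hV' hLq eLq fun x => (hL x).2
  obtain ⟨d, f, hf, hd, hred⟩ := H _ (h_LNF q k (verR V Lq) hver hcard)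
  have hf' : PolyF f := h_TMP.2.2 f hf
  obtain ⟨G, hG, hs, hc⟩ := solver h_IPA h_SRC h_EXP h_CRD h_ENC h_PEN h_PSR h_PTV h_SZR S hS d f
    hf' hd q (verR V Lq) hver hred
  obtain ⟨LM, hLM, eLM⟩ := Pool.Agent.CookLevin.tLEN (Γ := Bool) (2 * (q * k + 1))
  have h1 : PolyF (fun x : List Bool => (unis (LM x)).any fun m => (unis (LM x)).any fun r =>
      G (encL [x, RR (r, m)], [])) := by
    have hun := h_PEN.2.2.2.2.2.2.1
    refine PolyF.any (f := fun (x : List Bool) (m : List Unit) => (unis (LM x)).any fun r =>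
      G (encL [x, RR (r, m)], [])) ?_ (hun.comp hLM)
    refine PolyF.any (f := fun (p : List Bool × List Unit) (r : List Unit) =>
      G (encL [p.1, RR (r, p.2)], [])) ?_ (hun.comp (hLM.comp (PolyF.fst PolyF.id)))
    refine hG.comp (PolyF.pair (h_PEN.1.comp ?_) (PolyF.const _))
    have hx : PolyF (fun p : (List Bool × List Unit) × List Unit => p.1.1) := by fun_prop
    have hR : PolyF (fun p : (List Bool × List Unit) × List Unit => RR (p.2, p.1.2)) :=
      polyF_RR.comp (by fun_prop)
    exact PolyF.cons hx (PolyF.cons hR (PolyF.const _))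
  refine ⟨_, (h_TMP.2.1 _).2 h1, fun x => ⟨fun hx => ?_, fun hx => ?_⟩⟩
  · -- completeness
    obtain ⟨w, hw, hVw⟩ := (hL x).1.1 hx
    have hfin : {w : List Bool | w.length = q.eval x.length ∧ V (x, w) = true}.Finite :=
      finite_len _ _
    have hmem : ∀ w, w ∈ hfin.toFinset ↔ w.length = q.eval x.length ∧ V (x, w) = true :=
      fun w => by simp
    obtain ⟨m, hm1, hm2, hiso⟩ := h_ISO (q.eval x.length) (k.eval x.length) hfin.toFinset num
      (fun w hw => by
        rw [← ((hmem w).1 hw).1]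
        exact h_MOD.2.1 w)
      (fun w hw w' hw' h => h_MOD.2.2.1 w w' (by rw [((hmem w).1 hw).1, ((hmem w').1 hw').1]) h)
      (by rw [← Set.ncard_eq_toFinset_card _ hfin]; exact (hL x).2)
      w ((hmem w).2 ⟨hw, hVw⟩)
    have hMx : (LM x).length = 2 * (q.eval x.length * k.eval x.length + 1) := by
      rw [eLM]
      simp
    have hmr : m ∈ (unis (LM x)).map List.length := by
      rw [h_ENC.2.2.2.2.2.2, List.mem_range]
      omega
    have hrr : num w % m ∈ (unis (LM x)).map List.length := by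
      rw [h_ENC.2.2.2.2.2.2, List.mem_range]
      have := Nat.mod_lt (num w) hm1
      omega
    obtain ⟨um, hum, em⟩ := List.mem_map.1 hmr
    obtain ⟨ur, hur, er⟩ := List.mem_map.1 hrr
    rw [List.any_eq_true]
    refine ⟨um, hum, ?_⟩
    rw [List.any_eq_true]
    refine ⟨ur, hur, ?_⟩
    have hres : ∀ v : List Bool, resid v (RR (ur, um)) = true ↔ num v % m = num w % m := by
      intro v
      unfold resid
      have hl : (((RR (ur, um)).filter fun b => !b).map fun _ => ()).length = m := by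
        rw [List.length_map, RR_false, em]
      rw [decide_eq_true_iff, h_MOD.1 _ _ (by rw [hl]; exact hm1), hl, RR_true, er]
    obtain ⟨hv2, hq2⟩ := hver2 x (RR (ur, um)) w hw hVw ((hres w).2 rfl)
    refine hc _ [] _ (by simp) (by simp) ?_ hv2 (by simp) ?_
    · rw [List.length_append, List.length_replicate, hw]
      omega
    · intro u hu hVu _
      obtain ⟨x', R', hdec, hlen, hVx, hre, heq⟩ := hver1 _ u hu hVu
      rw [h_ENC.1] at hdec
      simp only [List.cons.injEq, and_true] at hdec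
      obtain ⟨rfl, rfl⟩ := hdec
      have := hiso _ ((hmem _).2 ⟨hlen, hVx⟩) ((hres _).1 hre)
      rw [heq, this]
  · -- soundness
    rw [List.any_eq_true] at hx
    obtain ⟨um, -, hx⟩ := hx
    rw [List.any_eq_true] at hx
    obtain ⟨ur, -, hx⟩ := hx
    obtain ⟨u, hu, hVu⟩ := hs _ _ hx
    obtain ⟨x', R', hdec, hlen, hVx, -, -⟩ := hver1 _ u hu hVu
    rw [h_ENC.1] at hdec
    simp only [List.cons.injEq, and_true] at hdec
    obtain ⟨rfl, rfl⟩ := hdec
    exact (hL x).1.2 ⟨_, hlen, hVx⟩

end Pool.Agent.MAJ
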