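import Pool.Agent.MAJ.Defs

set_option autoImplicit false

/-!
# Quasi-polynomial time and polylogarithmically many queries
-/

namespace Pool.Agent.MAJ

/-- The quasi-polynomial function `n ↦ 2 ^ ((log n) ^ c + c)`, `log` rounded down. -/
def quasi (c n : ℕ) : ℕ := 2 ^ (Nat.log 2 n ^ c + c)

/-- The number `n` in unary. -/
def una (n : ℕ) : List Unit := List.replicate n ()

/-- A string, a number in unary and a second string as input of a machine. -/
def encTri (p : (List Bool × List Unit) × List Bool) : List (Bool ⊕ Option Bool) :=
  p.1.1.map Sum.inl ++ p.1.2.map (fun _ => Sum.inr none) ++ p.2.map fun b => Sum.inr (some b)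

/-- Randomised quasi-polynomial time with one-sided error: a machine gets the input `x`, the unary
number `N = quasi c (|x|)` and a random string of length `N`; it works in time polynomial in the
length of all this. If `x ∈ L` then it accepts for at least half of the random strings, otherwise for
none. -/
def InRQP (L : Lang) : Prop :=
  ∃ (c : ℕ) (V : (List Bool × List Unit) × List Bool → Bool), PolyTime encTri encBool V ∧
    ∀ x, (x ∈ L → 2 ^ quasi c x.length ≤ 2 * {w : List Bool | w.length = quasi c x.length ∧
        V ((x, una (quasi c x.length)), w) = true}.ncard) ∧
      (x ∉ L → ∀ w, w.length = quasi c x.length → V ((x, una (quasi c x.length)), w) = false)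

/-- At most quasi-polynomially many strings of length `n`. -/
def QuasiSparse (S : Lang) : Prop :=
  ∃ c : ℕ, ∀ n, {w : List Bool | w ∈ S ∧ w.length = n}.ncard ≤ quasi c n

/-- `A` reduces to `S` by a randomised reduction in quasi-polynomial time with polylogarithmically
many queries: with `N = quasi c (|x|)`, from `x`, the unary number `N` and a random string `r` of
length `N` a machine writes in time polynomial in `N + |x|` one block with at most
`(log |x|) ^ c + c` queries; for every `x` its value, the queries being answered by `S`, is the
correct answer to the question whether `x ∈ A` for at least a fraction `1/2 + 1/N` of all `r`. -/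
def QuasiReduces (A S : Lang) : Prop :=
  ∃ (c : ℕ) (f : (List Bool × List Unit) × List Bool → Block), PolyTime encTri encBlock f ∧
    (∀ x r, r.length = quasi c x.length →
      (f ((x, una (quasi c x.length)), r)).1.length ≤ Nat.log 2 x.length ^ c + c) ∧
    ∀ x, (1 / 2 + 1 / (quasi c x.length : ℝ)) * 2 ^ quasi c x.length ≤
      ({r : List Bool | r.length = quasi c x.length ∧
        (holds S (f ((x, una (quasi c x.length)), r)) = true ↔ x ∈ A)}.ncard : ℝ)

end Pool.Agent.MAJ
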