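import Pool.Agent.MAJ.Targets
import Pool.Agent.MAJ.DefsQ

set_option autoImplicit false

/-!
# MAJ, part 4: quasi-polynomial time. Targets
-/

namespace Pool.Agent.MAJ

open Pool.Agent.PT (Dat PolyF sz Core)

/-- Letters of triples as data. -/
instance : Dat (Bool ⊕ Option Bool) := ⟨fun t => match t with
  | .inl b => .node .nil (Dat.enc b)
  | .inr none => .node (.node .nil .nil) .nil
  | .inr (some b) => .node (.node .nil .nil) (.node .nil (Dat.enc b)), by
    intro a b h
    rcases a with (_ | _) | _ | (_ | _) <;> rcases b with (_ | _) | _ | (_ | _) <;>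
      first | rfl | (simp [Dat.enc, Pool.Agent.PT.D.ofBool] at h)⟩

/-- TMQ. Machines with three inputs and polynomial time functions. PROOF. As T_TMP (`P_TMP.lean`) and
`polyF_block` in `Assembly2.lean`: `PT.tm_of_polyF`, the input triple is recovered from `encTri` by
three `flatMap`s with `PolyF.finite`; `DHD.tSIMF` and `parse` (T_ENC) for the converse. -/
def T_TMQ : Prop :=
  (∀ V : (List Bool × List Unit) × List Bool → Bool, PolyF V → PolyTime encTri encBool V) ∧
  ∀ f : (List Bool × List Unit) × List Bool → Block, PolyTime encTri encBlock f → PolyF f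

/-- PDU. The quasi-polynomial in unary. PROOF. `lgU u`: fold over `u` with the state
`(k, p)`, `|p| = 2 ^ |k|`, `(k + 1, p ++ p)` if `2 |p| ≤ |u|`; the result has `log |u|` elements.
`tLEN` with the polynomial `X ^ c + c`. Then fold over this exponent with the state `w`, start
`[()]`, step `takeU (w ++ w) P`; all states have length at most `|P| + 1`. -/
def T_PDU : Prop := ∀ c : ℕ, ∃ pd : List Unit × List Unit → List Unit, PolyF pd ∧
  ∀ u P : List Unit, quasi c u.length ≤ P.length → (pd (u, P)).length = quasi c u.length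

/-- One factor of the product. -/
def mulStep (P : List Unit) (W : Vec) (e : List Bool × Bool) : Vec :=
  if P.length < W.length then W
  else if e.2 then W.map fun p => (p.1, e.1 :: p.2)
  else W ++ W.map fun p => (!p.1, e.1 :: p.2)

/-- The product of the factors `[q ∈ S]` (answer `true`) and `1 - [q ∈ S]` (answer `false`). -/
def prodU (P : List Unit) (qs : List (List Bool)) (a : List Bool) : Vec :=
  (qs.zip a).foldl (mulStep P) [(true, [])]

/-- The different accepted patterns of the correct length. -/
def dpats (b : Block) : List (List Bool) :=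
  b.2.foldl (fun s a => if s.any (fun a' => decide (a' = a)) || !decide (a.length = b.1.length)
    then s else s ++ [a]) []

/-- `2 [b is true] - 1`. -/
def blkU (P : List Unit) (b : Block) : Vec :=
  ((dpats b).flatMap fun a => prodU P b.1 a ++ prodU P b.1 a) ++ [(false, [])]

/-- `2 (number of true blocks - number of false blocks) - 1`. -/
def toVecU (P : List Unit) (l : List Block) : Vec :=
  (l.flatMap (blkU P)) ++ (l.flatMap (blkU P)) ++ [(false, [])]

/-- EXU. PROOF (compare `P_EXP.lean`). Induction over `qs`, `a` (from the right):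
`(prodU P qs a).length ≤ 2 ^ qs.length ≤ P.length`, so no step is cut, and
`ev S (prodU P qs a) = if qs.map (· ∈ S) = a then 1 else 0` for `a.length = qs.length`. `dpats b` has
no repetitions, its members are the members of `b.2` of length `b.1.length`: exactly one of them is
the pattern of the answers if `holds S b`, none otherwise. -/
def T_EXU : Prop := ∀ (D : ℕ) (S : Lang) (P : List Unit) (l : List Block),
  (∀ b ∈ l, b.1.length ≤ D) → 2 ^ D ≤ P.length →
  ev S (toVecU P l) = 2 * (2 * (l.countP (holds S) : ℤ) - l.length) - 1 ∧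
  ∀ p ∈ toVecU P l, p.2.length ≤ D ∧ ∀ q ∈ p.2, ∃ b ∈ l, q ∈ b.1

/-- PTU. PROOF. `PolyF.foldl` for `prodU`: after any number of steps `W.length ≤ 2 * P.length + 1`
and every feature is a list of at most `qs.length` members of `qs`. `PolyF.foldl` for `dpats`: the
state is a sublist of the read part. -/
def T_PTU : Prop := PolyF (fun p : List Unit × List Block => toVecU p.1 p.2)

/-- At most quasi-polynomial. -/
def QB (g : ℕ → ℕ) : Prop := ∃ C : ℕ, ∀ n, g n ≤ quasi C n

/-- QCL. Closure properties of quasi-polynomial bounds. PROOF. (0) For every polynomial `A` there is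
`C` with `A.eval t ≤ t ^ C + C` for all `t` (sum of coefficients `≤ 2 ^ k ≤ t ^ k` for `t ≥ 2`, the
values at `0`, `1` separately). So `QB g` iff `g n ≤ 2 ^ (A.eval (log n))` for some polynomial `A`.
Polynomials: `n + 1 ≤ 2 ^ (log n + 1)`. Sum: `2 ^ a + 2 ^ b ≤ 2 ^ (a + b + 1)`. Product: the sum of
the exponents. `quasi c (g n) ≤ quasi c (2 ^ (A ..)) = 2 ^ ((A ..) ^ c + c)`. Power:
`(2 ^ a) ^ (b ^ c + c)`. -/
def T_QCL : Prop := (QB fun n => n) ∧ (∀ (p : Polynomial ℕ) g, QB g → QB fun n => p.eval (g n)) ∧
  (∀ g h, QB g → QB h → QB fun n => g n + h n) ∧ (∀ g h, QB g → QB h → QB fun n => g n * h n) ∧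
  (∀ g c, QB g → QB fun n => quasi c (g n)) ∧
  (∀ g h c, QB g → QB h → QB fun n => g n ^ (Nat.log 2 (h n) ^ c + c)) ∧
  (∀ c C n, c ≤ C → quasi c n ≤ quasi C n) ∧ ∀ c a b, a ≤ b → quasi c a ≤ quasi c b

/-- CRQ. The number of true features. PROOF. Apply T_CRD to the language of the strings of `S` of
length at most `K` and the constant polynomial `s`. -/
def T_CRQ : Prop := ∀ (S : Lang) (K s d : ℕ),
  (∀ n ≤ K, {w : List Bool | w ∈ S ∧ w.length = n}.ncard ≤ s) →
  ∃ F : Finset Feat, F.card ≤ ((K + 1) * s + 1) ^ d ∧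
    ∀ l : Feat, l.length ≤ d → (∀ q ∈ l, q.length ≤ K) → fv S l ≠ 0 → l ∈ F

/-- SL3. The unique solver with a general size parameter. PROOF (uses T_IPA, T_SRC, T_PSR; compare
`solver2` in `Assembly2.lean`). With `P = ps c`: `R2 = K.eval |P| ^ 2`, `μ = R2 * |P|`,
`B = R2 * (μ * R2) + 1`, `T = 2 B (μ + 1)`, polynomials in `|P|`, in unary by `CookLevin.tLEN` for
`Γ = Unit`; `G c` = some string `y` in the result of the search has `y.length = |ns c|` and
`W (c, y)`. `ip W W ≤ W.length ^ 2 ≤ (sz W) ^ 2`. -/
def T_SL3 : Prop := ∀ (S : Lang) {γ : Type} [Dat γ] (ns ps : γ → List Unit)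
  (vec : γ × List Bool → Vec) (W : γ × List Bool → Bool) (K : Polynomial ℕ), PolyF ns → PolyF ps →
  PolyF vec → PolyF W → ∃ G : γ → Bool, PolyF G ∧
    (∀ c, G c = true → ∃ w, w.length = (ns c).length ∧ W (c, w) = true) ∧
    ∀ (c : γ) (w : List Bool), w.length = (ns c).length → W (c, w) = true →
      (∀ a : List Bool, a.length ≤ (ns c).length → sz (vec (c, a)) ≤ K.eval (ps c).length) →
      (∃ F : Finset Feat, F.card ≤ (ps c).length ∧ ∀ a : List Bool, a.length ≤ (ns c).length →
        ∀ p ∈ vec (c, a), fv S p.2 ≠ 0 → p.2 ∈ F) →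
      (∀ a : List Bool, a.length ≤ (ns c).length → 1 ≤ sg (dot a w) * ev S (vec (c, a))) →
      G c = true

/-- SZQ. Sizes (compare T_SZ2, `P_SZ2.lean`). PROOF. `PolyF.bound`; the size of the argument is at
most a polynomial in `m`. -/
def T_SZQ : Prop := ∀ {β : Type} [Dat β]
  (h : ((((List Bool × List (List Bool)) × List Bool) × List Unit) × List Bool) → β), PolyF h →
  ∃ K : Polynomial ℕ, ∀ (m : ℕ) (x : List Bool) (rows : List (List Bool)) (R : List Bool)
    (P : List Unit) (a : List Bool), x.length ≤ m → rows.length ≤ m → (∀ r ∈ rows, r.length ≤ m) →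
    R.length ≤ m → P.length ≤ m → a.length ≤ m → sz (h ((((x, rows), R), P), a)) ≤ K.eval m

end Pool.Agent.MAJ
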