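import Pool.Agent.MAJ.Assembly2
import Pool.Agent.MAJ.Targets4

set_option autoImplicit false

/-!
# MAJ, part 4: assembly for quasi-polynomial time
-/

namespace Pool.Agent.MAJ

open Pool.Agent.PT (Dat PolyF sz Core length_lt_sz sz_mem sz_snd)

/-- Product of unary numbers. -/
def mulU (a b : List Unit) : List Unit := a.flatMap fun _ => b

theorem mulU_length (a b : List Unit) : (mulU a b).length = a.length * b.length := by
  unfold mulU
  induction a with
  | nil => simp
  | cons x a ih => rw [List.flatMap_cons, List.length_append, ih, List.length_cons]; ring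

theorem polyF_mulU {γ : Type} [Dat γ] {f g : γ → List Unit} (hf : PolyF f) (hg : PolyF g) :
    PolyF fun c => mulU (f c) (g c) := by
  have : Fact Core := ⟨Pool.Agent.PT.core⟩
  unfold mulU
  exact PolyF.flatMap (f := fun (c : γ) (_ : Unit) => g c) (hg.comp (PolyF.fst PolyF.id)) hf

/-- The length of a string in unary. -/
def len1 (l : List Bool) : List Unit := l.map fun _ => ()

theorem polyF_len1 : PolyF len1 := by
  have : Fact Core := ⟨Pool.Agent.PT.core⟩
  unfold len1
  exact PolyF.map (f := fun (_ : List Bool) (_ : Bool) => ()) (PolyF.const _) PolyF.id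

theorem unit_list (l : List Unit) : l = una l.length := by
  unfold una
  exact List.eq_replicate_iff.2 ⟨rfl, fun _ _ => rfl⟩

theorem pieces_take (m s : ℕ) (l : List Bool) : pieces m s (l.take (s * m)) = pieces m s l := by
  unfold pieces
  refine List.map_congr_left fun i hi => ?_
  rw [List.mem_range] at hi
  have h1 : i * m + m ≤ s * m := by
    calc i * m + m = (i + 1) * m := by ring
      _ ≤ s * m := Nat.mul_le_mul_right _ hi
  rw [List.drop_take, List.take_take]
  congr 1
  omega

/-- The blocks of the question `a`. -/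
def blQ (c : List Unit × List Unit → List Unit) (ell : List Bool → List Unit)
    (f : (List Bool × List Unit) × List Bool → Block) (L2 : List Bool → List Unit)
    (p : (((List Bool × List (List Bool)) × List Bool) × List Unit) × List Bool) : List Block :=
  (chunks (c (ell p.1.1.1.1, p.1.2))
    (mulU (L2 p.1.1.1.1) (mulU (() :: c (ell p.1.1.1.1, p.1.2)) (() :: c (ell p.1.1.1.1, p.1.2))))
    p.1.1.2).map fun r =>
      f ((encL (p.1.1.1.1 :: p.2 :: p.1.1.1.2),
        c (len1 (encL (p.1.1.1.1 :: p.2 :: p.1.1.1.2)), p.1.2)),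
        takeU r (c (len1 (encL (p.1.1.1.1 :: p.2 :: p.1.1.1.2)), p.1.2)))

theorem polyF_blQ (h_PEN : T_PEN) (c : List Unit × List Unit → List Unit) (hc : PolyF c)
    (ell L2 : List Bool → List Unit) (hell : PolyF ell) (hL2 : PolyF L2)
    (f : (List Bool × List Unit) × List Bool → Block) (hf : PolyF f) : PolyF (blQ c ell f L2) := by
  have : Fact Core := ⟨Pool.Agent.PT.core⟩
  unfold blQ
  have hch := h_PEN.2.2.2.2.2.1
  have htk : PolyF (fun p : List Bool × List Unit => takeU p.1 p.2) := h_PEN.2.2.2.1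
  have hN : PolyF (fun p : (((List Bool × List (List Bool)) × List Bool) × List Unit) × List Bool =>
      c (ell p.1.1.1.1, p.1.2)) :=
    hc.comp (PolyF.pair (hell.comp (by fun_prop)) (by fun_prop))
  have hN1 : PolyF (fun p : (((List Bool × List (List Bool)) × List Bool) × List Unit) ×
      List Bool => () :: c (ell p.1.1.1.1, p.1.2)) := PolyF.cons (PolyF.const _) hN
  have hz : PolyF (fun p : (((List Bool × List (List Bool)) × List Bool) × List Unit) × List Bool =>
      encL (p.1.1.1.1 :: p.2 :: p.1.1.1.2)) := h_PEN.1.comp (by fun_prop)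
  have hNz : PolyF (fun p : (((List Bool × List (List Bool)) × List Bool) × List Unit) ×
      List Bool => c (len1 (encL (p.1.1.1.1 :: p.2 :: p.1.1.1.2)), p.1.2)) :=
    hc.comp (PolyF.pair (polyF_len1.comp hz) (by fun_prop))
  refine PolyF.map (f := fun
    (p : (((List Bool × List (List Bool)) × List Bool) × List Unit) × List Bool)
    (r : List Bool) => f ((encL (p.1.1.1.1 :: p.2 :: p.1.1.1.2),
        c (len1 (encL (p.1.1.1.1 :: p.2 :: p.1.1.1.2)), p.1.2)),
        takeU r (c (len1 (encL (p.1.1.1.1 :: p.2 :: p.1.1.1.2)), p.1.2)))) ?_ ?_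
  · refine hf.comp (PolyF.pair (PolyF.pair (hz.comp (PolyF.fst PolyF.id))
      (hNz.comp (PolyF.fst PolyF.id))) ?_)
    exact htk.comp (PolyF.pair (PolyF.snd PolyF.id) (hNz.comp (PolyF.fst PolyF.id)))
  · refine hch.comp (PolyF.pair (PolyF.pair hN ?_) (by fun_prop))
    exact polyF_mulU (hL2.comp (by fun_prop)) (polyF_mulU hN1 hN1)

/-- The length of the questions. -/
noncomputable def ellP (q : Polynomial ℕ) : Polynomial ℕ :=
  (2 * Polynomial.X + 1) + (2 * q + 1) + (q + 2) * (2 * (q + 1) + 1)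

/-- The number of random bits of one run of the reduction. -/
noncomputable def Nf (q : Polynomial ℕ) (c n : ℕ) : ℕ := quasi c ((ellP q).eval n)

/-- The number of runs. -/
noncomputable def tf (q : Polynomial ℕ) (c n : ℕ) : ℕ :=
  (q.eval n + 2) * ((Nf q c n + 1) * (Nf q c n + 1))

/-- The bound for all sizes. -/
noncomputable def g1 (q : Polynomial ℕ) (c n : ℕ) : ℕ :=
  n + (q.eval n + 2) + tf q c n * Nf q c n + Nf q c n

/-- The bound for the number of features and of random bits. -/
noncomputable def g2 (q K : Polynomial ℕ) (c c₂ C₁ n : ℕ) : ℕ :=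
  ((K.eval (quasi C₁ n) + 1) * quasi c₂ (K.eval (quasi C₁ n)) + 1) ^
      (Nat.log 2 ((ellP q).eval n) ^ c + c) +
    12 * ((q.eval n + 2) * (q.eval n + 1) + tf q c n * Nf q c n) + quasi C₁ n

theorem qb_const (h_QCL : T_QCL) (k : ℕ) : QB fun _ => k := by
  have := h_QCL.2.1 (Polynomial.C k) _ h_QCL.1
  simpa using this

theorem qb_Nf (h_QCL : T_QCL) (q : Polynomial ℕ) (c : ℕ) : QB (Nf q c) :=
  h_QCL.2.2.2.2.1 (fun n => (ellP q).eval n) c (h_QCL.2.1 (ellP q) _ h_QCL.1)

theorem qb_tf (h_QCL : T_QCL) (q : Polynomial ℕ) (c : ℕ) : QB (tf q c) := by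
  have h1 : QB fun n => q.eval n + 2 :=
    h_QCL.2.2.1 (fun n => q.eval n) (fun _ => 2) (h_QCL.2.1 q _ h_QCL.1) (qb_const h_QCL 2)
  have h2 : QB fun n => Nf q c n + 1 :=
    h_QCL.2.2.1 (fun n => Nf q c n) (fun _ => 1) (qb_Nf h_QCL q c) (qb_const h_QCL 1)
  exact h_QCL.2.2.2.1 (fun n => q.eval n + 2) (fun n => (Nf q c n + 1) * (Nf q c n + 1)) h1
    (h_QCL.2.2.2.1 (fun n => Nf q c n + 1) (fun n => Nf q c n + 1) h2 h2)

theorem qb_g1 (h_QCL : T_QCL) (q : Polynomial ℕ) (c : ℕ) : QB (g1 q c) := by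
  have h1 : QB fun n => q.eval n + 2 :=
    h_QCL.2.2.1 (fun n => q.eval n) (fun _ => 2) (h_QCL.2.1 q _ h_QCL.1) (qb_const h_QCL 2)
  have h3 : QB fun n => tf q c n * Nf q c n :=
    h_QCL.2.2.2.1 (tf q c) (Nf q c) (qb_tf h_QCL q c) (qb_Nf h_QCL q c)
  have h4 : QB fun n => n + (q.eval n + 2) := h_QCL.2.2.1 (fun n => n) _ h_QCL.1 h1
  have h5 : QB fun n => n + (q.eval n + 2) + tf q c n * Nf q c n :=
    h_QCL.2.2.1 (fun n => n + (q.eval n + 2)) (fun n => tf q c n * Nf q c n) h4 h3
  exact h_QCL.2.2.1 (fun n => n + (q.eval n + 2) + tf q c n * Nf q c n) (Nf q c) h5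
    (qb_Nf h_QCL q c)

theorem qb_g2 (h_QCL : T_QCL) (q K : Polynomial ℕ) (c c₂ C₁ : ℕ) : QB (g2 q K c c₂ C₁) := by
  have hM : QB fun n => quasi C₁ n := h_QCL.2.2.2.2.1 (fun n => n) C₁ h_QCL.1
  have hK : QB fun n => K.eval (quasi C₁ n) := h_QCL.2.1 K _ hM
  have hs : QB fun n => quasi c₂ (K.eval (quasi C₁ n)) := h_QCL.2.2.2.2.1 _ c₂ hK
  have h1 : QB fun n => K.eval (quasi C₁ n) + 1 :=
    h_QCL.2.2.1 (fun n => K.eval (quasi C₁ n)) (fun _ => 1) hK (qb_const h_QCL 1)
  have h2 : QB fun n => (K.eval (quasi C₁ n) + 1) * quasi c₂ (K.eval (quasi C₁ n)) :=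
    h_QCL.2.2.2.1 (fun n => K.eval (quasi C₁ n) + 1) (fun n => quasi c₂ (K.eval (quasi C₁ n))) h1 hs
  have h3 : QB fun n => (K.eval (quasi C₁ n) + 1) * quasi c₂ (K.eval (quasi C₁ n)) + 1 :=
    h_QCL.2.2.1 (fun n => (K.eval (quasi C₁ n) + 1) * quasi c₂ (K.eval (quasi C₁ n)))
      (fun _ => 1) h2 (qb_const h_QCL 1)
  have h4 := h_QCL.2.2.2.2.2.1
    (fun n => (K.eval (quasi C₁ n) + 1) * quasi c₂ (K.eval (quasi C₁ n)) + 1)
    (fun n => (ellP q).eval n) c h3 (h_QCL.2.1 (ellP q) _ h_QCL.1)
  have h5 : QB fun n => q.eval n + 2 :=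
    h_QCL.2.2.1 (fun n => q.eval n) (fun _ => 2) (h_QCL.2.1 q _ h_QCL.1) (qb_const h_QCL 2)
  have h6 : QB fun n => q.eval n + 1 :=
    h_QCL.2.2.1 (fun n => q.eval n) (fun _ => 1) (h_QCL.2.1 q _ h_QCL.1) (qb_const h_QCL 1)
  have h7 : QB fun n => (q.eval n + 2) * (q.eval n + 1) :=
    h_QCL.2.2.2.1 (fun n => q.eval n + 2) (fun n => q.eval n + 1) h5 h6
  have h8 : QB fun n => tf q c n * Nf q c n :=
    h_QCL.2.2.2.1 (tf q c) (Nf q c) (qb_tf h_QCL q c) (qb_Nf h_QCL q c)
  have h9 : QB fun n => (q.eval n + 2) * (q.eval n + 1) + tf q c n * Nf q c n :=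
    h_QCL.2.2.1 (fun n => (q.eval n + 2) * (q.eval n + 1)) (fun n => tf q c n * Nf q c n) h7 h8
  have h10 : QB fun n => 12 * ((q.eval n + 2) * (q.eval n + 1) + tf q c n * Nf q c n) :=
    h_QCL.2.2.2.1 (fun _ => 12) (fun n => (q.eval n + 2) * (q.eval n + 1) + tf q c n * Nf q c n)
      (qb_const h_QCL 12) h9
  exact h_QCL.2.2.1 _ (fun n => quasi C₁ n) (h_QCL.2.2.1 _ _ h4 h10) hM

/-- The data of the algorithm. -/
structure QD (q : Polynomial ℕ) (c C₁ : ℕ) where
  pc : List Unit × List Unit → List Unit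
  hpc : PolyF pc
  epc : ∀ u P : List Unit, quasi c u.length ≤ P.length → (pc (u, P)).length = quasi c u.length
  p1 : List Unit × List Unit → List Unit
  hp1 : PolyF p1
  ep1 : ∀ u P : List Unit, quasi C₁ u.length ≤ P.length → (p1 (u, P)).length = quasi C₁ u.length
  Ll : List Bool → List Unit
  hLl : PolyF Ll
  el : ∀ x, (Ll x).length = (ellP q).eval x.length
  L1 : List Bool → List Unit
  hL1 : PolyF L1
  e1 : ∀ x, (L1 x).length = q.eval x.length + 1
  L2 : List Bool → List Unit
  hL2 : PolyF L2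
  e2 : ∀ x, (L2 x).length = q.eval x.length + 2
  L3 : List Bool → List Unit
  hL3 : PolyF L3
  e3 : ∀ x, (L3 x).length = (q.eval x.length + 2) * (q.eval x.length + 1)
  LN : List Bool → List Unit
  hLN : PolyF LN
  eN : ∀ x, (LN x).length = q.eval x.length

theorem exists_qd (h_PDU : T_PDU) (q : Polynomial ℕ) (c C₁ : ℕ) : Nonempty (QD q c C₁) := by
  obtain ⟨pc, hpc, epc⟩ := h_PDU c
  obtain ⟨p1, hp1, ep1⟩ := h_PDU C₁
  obtain ⟨Ll, hLl, el⟩ := Pool.Agent.CookLevin.tLEN (Γ := Bool) (ellP q)
  obtain ⟨L1, hL1, e1⟩ := Pool.Agent.CookLevin.tLEN (Γ := Bool) (q + 1)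
  obtain ⟨L2, hL2, e2⟩ := Pool.Agent.CookLevin.tLEN (Γ := Bool) (q + 2)
  obtain ⟨L3, hL3, e3⟩ := Pool.Agent.CookLevin.tLEN (Γ := Bool) ((q + 2) * (q + 1))
  obtain ⟨LN, hLN, eN⟩ := Pool.Agent.CookLevin.tLEN (Γ := Bool) q
  exact ⟨⟨pc, hpc, epc, p1, hp1, ep1, Ll, hLl, el, L1, hL1, fun x => by rw [e1]; simp, L2, hL2,
    fun x => by rw [e2]; simp, L3, hL3, fun x => by rw [e3]; simp, LN, hLN, eN⟩⟩

/-- The contexts of the solver. -/
abbrev Ctx : Type := (((List Bool × List (List Bool)) × List Bool) × List Unit) × List Unit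

namespace QD

variable {q : Polynomial ℕ} {c C₁ : ℕ} (A : QD q c C₁)

/-- The small pad. -/
def P1 (p : List Bool × List Unit) : List Unit := A.p1 (len1 p.1, p.2)

/-- The number of random bits of one run. -/
def NN (p : List Bool × List Unit) : List Unit := A.pc (A.Ll p.1, A.P1 p)

/-- The number of all random bits. -/
def La (p : List Bool × List Unit) : List Unit :=
  A.L3 p.1 ++ mulU (mulU (A.L2 p.1) (mulU (() :: A.NN p) (() :: A.NN p))) (A.NN p)

/-- The algorithm. -/
def alg (G : Ctx → Bool) (p : (List Bool × List Unit) × List Bool) : Bool :=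
  (chunks (A.La p.1) (List.replicate 12 ()) p.2).any fun σ =>
    (unis (A.L2 p.1.1)).any fun s =>
      G ((((p.1.1, chunks (A.L1 p.1.1) s (takeU σ (A.L3 p.1.1))), dropU σ (A.L3 p.1.1)),
        A.P1 p.1), p.1.2)

theorem hP1 : PolyF A.P1 := by
  have : Fact Core := ⟨Pool.Agent.PT.core⟩
  exact A.hp1.comp (PolyF.pair (polyF_len1.comp (by fun_prop)) (by fun_prop))

theorem hNN : PolyF A.NN := by
  have : Fact Core := ⟨Pool.Agent.PT.core⟩
  exact A.hpc.comp (PolyF.pair (A.hLl.comp (by fun_prop)) A.hP1)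

theorem hLa : PolyF A.La := by
  have : Fact Core := ⟨Pool.Agent.PT.core⟩
  exact PolyF.append (A.hL3.comp (by fun_prop)) (polyF_mulU (polyF_mulU
    (A.hL2.comp (by fun_prop)) (polyF_mulU (PolyF.cons (PolyF.const _) A.hNN)
      (PolyF.cons (PolyF.const _) A.hNN))) A.hNN)

theorem halg (h_PEN : T_PEN) (G : Ctx → Bool) (hG : PolyF G) : PolyF (A.alg G) := by
  have : Fact Core := ⟨Pool.Agent.PT.core⟩
  have hch := h_PEN.2.2.2.2.2.1
  have htk : PolyF (fun p : List Bool × List Unit => takeU p.1 p.2) := h_PEN.2.2.2.1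
  have hdr : PolyF (fun p : List Bool × List Unit => dropU p.1 p.2) := h_PEN.2.2.2.2.1
  unfold alg
  refine PolyF.any (f := fun (p : (List Bool × List Unit) × List Bool) (σ : List Bool) =>
    (unis (A.L2 p.1.1)).any fun s => G ((((p.1.1, chunks (A.L1 p.1.1) s
      (takeU σ (A.L3 p.1.1))), dropU σ (A.L3 p.1.1)), A.P1 p.1), p.1.2)) ?_ ?_
  · refine PolyF.any (f := fun (p : ((List Bool × List Unit) × List Bool) × List Bool)
      (s : List Unit) => G ((((p.1.1.1, chunks (A.L1 p.1.1.1) s (takeU p.2 (A.L3 p.1.1.1))),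
        dropU p.2 (A.L3 p.1.1.1)), A.P1 p.1.1), p.1.1.2)) ?_ ?_
    · refine hG.comp (PolyF.pair (PolyF.pair (PolyF.pair (PolyF.pair (by fun_prop) ?_) ?_) ?_)
        (by fun_prop))
      · exact hch.comp (PolyF.pair (PolyF.pair (A.hL1.comp (by fun_prop)) (by fun_prop))
          (htk.comp (PolyF.pair (by fun_prop) (A.hL3.comp (by fun_prop)))))
      · exact hdr.comp (PolyF.pair (by fun_prop) (A.hL3.comp (by fun_prop)))
      · exact A.hP1.comp (by fun_prop)
    · exact h_PEN.2.2.2.2.2.2.1.comp (A.hL2.comp (by fun_prop))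
  · exact hch.comp (PolyF.pair (PolyF.pair (A.hLa.comp (by fun_prop)) (PolyF.const _))
      (by fun_prop))

end QD

theorem quasi_mono (c : ℕ) {a b : ℕ} (h : a ≤ b) : quasi c a ≤ quasi c b := by
  unfold quasi
  refine Nat.pow_le_pow_right (by norm_num) ?_
  exact Nat.add_le_add_right (Nat.pow_le_pow_left (Nat.log_mono_right h) c) c

theorem blQ_eq (h_ENC : T_ENC) {q : Polynomial ℕ} {c C₁ : ℕ} (A : QD q c C₁)
    (f : (List Bool × List Unit) × List Bool → Block) (x : List Bool) (rows : List (List Bool))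
    (R : List Bool) (P1 : List Unit) (a : List Bool)
    (hz : (encL (x :: a :: rows)).length ≤ (ellP q).eval x.length)
    (hP : Nf q c x.length ≤ P1.length) :
    blQ A.pc A.Ll f A.L2 ((((x, rows), R), P1), a) =
      (pieces (Nf q c x.length) (tf q c x.length) R).map fun r =>
        f ((encL (x :: a :: rows), una (quasi c (encL (x :: a :: rows)).length)),
          r.take (quasi c (encL (x :: a :: rows)).length)) := by
  unfold blQ
  have h1 : (A.pc (A.Ll x, P1)).length = Nf q c x.length := by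
    have h2 : quasi c (A.Ll x).length = Nf q c x.length := by
      rw [A.el x]
      rfl
    rw [A.epc (A.Ll x) P1 (by rw [h2]; exact hP), h2]
  have h3 : (mulU (A.L2 x) (mulU (() :: A.pc (A.Ll x, P1)) (() :: A.pc (A.Ll x, P1)))).length =
      tf q c x.length := by
    rw [mulU_length, mulU_length, List.length_cons, h1, A.e2]
    rfl
  have h4 : (len1 (encL (x :: a :: rows))).length = (encL (x :: a :: rows)).length := by
    unfold len1
    rw [List.length_map]
  have h5 : quasi c (len1 (encL (x :: a :: rows))).length ≤ P1.length := by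
    rw [h4]
    exact (quasi_mono c hz).trans hP
  have h6 : A.pc (len1 (encL (x :: a :: rows)), P1) =
      una (quasi c (encL (x :: a :: rows)).length) := by
    rw [unit_list (A.pc (len1 (encL (x :: a :: rows)), P1)), A.epc _ P1 h5, h4]
  simp only
  rw [h_ENC.2.2.2.2.2.1, h1, h3]
  refine List.map_congr_left fun r _ => ?_
  rw [h_ENC.2.2.2.1, h6]
  unfold una
  rw [List.length_replicate]

theorem piece_length (m s : ℕ) (l : List Bool) (hl : l.length = s * m) :
    ∀ r ∈ pieces m s l, r.length = m := by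
  intro r hr
  simp only [pieces, List.mem_map, List.mem_range] at hr
  obtain ⟨i, hi, rfl⟩ := hr
  have h1 : i * m + m ≤ s * m := by
    calc i * m + m = (i + 1) * m := by ring
      _ ≤ s * m := Nat.mul_le_mul_right _ hi
  rw [List.length_take, List.length_drop, hl]
  omega

theorem piece_length' (m s : ℕ) (l : List Bool) (hl : s * m ≤ l.length) :
    ∀ r ∈ pieces m s l, r.length = m := by
  intro r hr
  simp only [pieces, List.mem_map, List.mem_range] at hr
  obtain ⟨i, hi, rfl⟩ := hr
  have h1 : i * m + m ≤ s * m := by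
    calc i * m + m = (i + 1) * m := by ring
      _ ≤ s * m := Nat.mul_le_mul_right _ hi
  rw [List.length_take, List.length_drop]
  omega

/-- The context of the solver is good. -/
theorem ctx_ok (h_EXU : T_EXU) (h_CRQ : T_CRQ) (h_ENC : T_ENC) {q : Polynomial ℕ} {c C₁ : ℕ}
    (A : QD q c C₁) (S : Lang) (c₂ : ℕ)
    (hc₂ : ∀ n, {w : List Bool | w ∈ S ∧ w.length = n}.ncard ≤ quasi c₂ n)
    (f : (List Bool × List Unit) × List Bool → Block)
    (hqn : ∀ x r, r.length = quasi c x.length →
      (f ((x, una (quasi c x.length)), r)).1.length ≤ Nat.log 2 x.length ^ c + c)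
    (V : List Bool × List Bool → Bool) (K : Polynomial ℕ)
    (hK : ∀ (m : ℕ) (x : List Bool) (rows : List (List Bool)) (R : List Bool)
      (P : List Unit) (a : List Bool), x.length ≤ m → rows.length ≤ m →
      (∀ r ∈ rows, r.length ≤ m) → R.length ≤ m → P.length ≤ m → a.length ≤ m →
      sz (toVecU P (blQ A.pc A.Ll f A.L2 ((((x, rows), R), P), a))) ≤ K.eval m)
    (G : Ctx → Bool)
    (hG : ∀ (d : Ctx) (w : List Bool), w.length = (A.LN d.1.1.1.1).length →
      V (d.1.1.1.1, w) = true →
      (∀ a : List Bool, a.length ≤ (A.LN d.1.1.1.1).length →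
        sz (toVecU d.1.2 (blQ A.pc A.Ll f A.L2 (d.1, a))) ≤ K.eval d.2.length) →
      (∃ F : Finset Feat, F.card ≤ d.2.length ∧ ∀ a : List Bool,
        a.length ≤ (A.LN d.1.1.1.1).length →
        ∀ p ∈ toVecU d.1.2 (blQ A.pc A.Ll f A.L2 (d.1, a)), fv S p.2 ≠ 0 → p.2 ∈ F) →
      (∀ a : List Bool, a.length ≤ (A.LN d.1.1.1.1).length →
        1 ≤ sg (dot a w) * ev S (toVecU d.1.2 (blQ A.pc A.Ll f A.L2 (d.1, a)))) → G d = true)
    (x : List Bool) (rows : List (List Bool)) (R w : List Bool) (P1 P : List Unit)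
    (hP1 : P1.length = quasi C₁ x.length) (hC₁ : g1 q c x.length ≤ quasi C₁ x.length)
    (hP : g2 q K c c₂ C₁ x.length ≤ P.length) (hrows : rows.length ≤ q.eval x.length + 2)
    (hrow : ∀ r ∈ rows, r.length ≤ q.eval x.length + 1)
    (hR : R.length = tf q c x.length * Nf q c x.length)
    (hz : ∀ a : List Bool, a.length ≤ q.eval x.length →
      (encL (x :: a :: rows)).length ≤ (ellP q).eval x.length)
    (hw : w.length = q.eval x.length) (hVw : V (x, w) = true)
    (hmaj : ∀ a : List Bool, a.length ≤ q.eval x.length → (dot a w = true ↔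
      tf q c x.length < 2 * (pieces (Nf q c x.length) (tf q c x.length) R).countP fun r =>
        holds S (f ((encL (x :: a :: rows), una (quasi c (encL (x :: a :: rows)).length)),
          r.take (quasi c (encL (x :: a :: rows)).length))))) :
    G ((((x, rows), R), P1), P) = true := by
  set n := q.eval x.length with hn
  set N := Nf q c x.length with hN
  set t := tf q c x.length with ht
  set D := Nat.log 2 ((ellP q).eval x.length) ^ c + c with hD
  have hg1 : x.length + (n + 2) + t * N + N ≤ P1.length := by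
    rw [hP1]
    exact hC₁
  have hNP : N ≤ P1.length := by omega
  have hg2 : ((K.eval (quasi C₁ x.length) + 1) * quasi c₂ (K.eval (quasi C₁ x.length)) + 1) ^ D +
      12 * ((n + 2) * (n + 1) + t * N) + quasi C₁ x.length ≤ P.length := hP
  have h2D : 2 ^ D ≤ P1.length := hNP
  have hbl : ∀ a : List Bool, a.length ≤ n → blQ A.pc A.Ll f A.L2 ((((x, rows), R), P1), a) =
      (pieces N t R).map fun r =>
        f ((encL (x :: a :: rows), una (quasi c (encL (x :: a :: rows)).length)),
          r.take (quasi c (encL (x :: a :: rows)).length)) := fun a ha =>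
    blQ_eq h_ENC A f x rows R P1 a (hz a ha) hNP
  have hD' : ∀ a : List Bool, a.length ≤ n →
      ∀ b ∈ blQ A.pc A.Ll f A.L2 ((((x, rows), R), P1), a), b.1.length ≤ D := by
    intro a ha b hb
    rw [hbl a ha, List.mem_map] at hb
    obtain ⟨r, hr, rfl⟩ := hb
    have hrl := piece_length N t R hR r hr
    have hzN : quasi c (encL (x :: a :: rows)).length ≤ N := quasi_mono c (hz a ha)
    refine (hqn _ _ ?_).trans ?_
    · rw [List.length_take, hrl]
      omega
    · exact Nat.add_le_add_right (Nat.pow_le_pow_left (Nat.log_mono_right (hz a ha)) c) c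
  have hszK : ∀ a : List Bool, a.length ≤ n →
      sz (toVecU P1 (blQ A.pc A.Ll f A.L2 ((((x, rows), R), P1), a))) ≤
        K.eval (quasi C₁ x.length) := by
    intro a ha
    refine hK _ x rows R P1 a ?_ ?_ ?_ ?_ ?_ ?_
    · omega
    · omega
    · intro r hr
      have := hrow r hr
      omega
    · omega
    · omega
    · omega
  refine hG ((((x, rows), R), P1), P) w ?_ hVw ?_ ?_ ?_
  · rw [A.eN]
    exact hw
  · intro a ha
    rw [A.eN] at ha
    exact (hszK a ha).trans (ASN_.eval_mono K (by simp only; omega))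
  · obtain ⟨F, hF, hF'⟩ := h_CRQ S (K.eval (quasi C₁ x.length))
      (quasi c₂ (K.eval (quasi C₁ x.length))) D
      (fun j hj => (hc₂ j).trans (quasi_mono c₂ hj))
    refine ⟨F, by simp only; omega, fun a ha p hp hfv => ?_⟩
    rw [A.eN] at ha
    have h2 := (h_EXU D S P1 (blQ A.pc A.Ll f A.L2 ((((x, rows), R), P1), a)) (hD' a ha) h2D).2 p hp
    refine hF' p.2 h2.1 (fun s hs => ?_) hfv
    have h3 : sz s < sz p.2 := sz_mem hs
    have h4 : sz p.2 ≤ sz p := sz_snd p
    have h5 : sz p < sz (toVecU P1 (blQ A.pc A.Ll f A.L2 ((((x, rows), R), P1), a))) := sz_mem hp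
    have h6 := hszK a ha
    have h7 := length_lt_sz s
    omega
  · intro a ha
    rw [A.eN] at ha
    have h2 := (h_EXU D S P1 (blQ A.pc A.Ll f A.L2 ((((x, rows), R), P1), a)) (hD' a ha) h2D).1
    have h3 := hmaj a ha
    have h4 : (blQ A.pc A.Ll f A.L2 ((((x, rows), R), P1), a)).length = t := by
      rw [hbl a ha, List.length_map]
      simp [pieces]
    have h5 : (blQ A.pc A.Ll f A.L2 ((((x, rows), R), P1), a)).countP (holds S) =
        (pieces N t R).countP fun r =>
          holds S (f ((encL (x :: a :: rows), una (quasi c (encL (x :: a :: rows)).length)),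
            r.take (quasi c (encL (x :: a :: rows)).length))) := by
      rw [hbl a ha, List.countP_map]
      rfl
    rw [h4, h5] at h2
    simp only
    rw [h2]
    by_cases hdot : dot a w = true
    · have h6 := h3.1 hdot
      rw [hdot]
      simp only [sg, if_true]
      zify at h6
      omega
    · have h6 := mt h3.2 hdot
      rw [Bool.not_eq_true] at hdot
      rw [hdot]
      simp only [sg, Bool.false_eq_true, if_false]
      rw [not_lt] at h6
      zify at h6
      omega

theorem polyF_two {α : Type} [Dat α] (F : List Unit → List Block → Vec)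
    (hF : PolyF (fun p : List Unit × List Block => F p.1 p.2)) (g : α → List Unit) (hg : PolyF g)
    (bl : α → List Block) (hbl : PolyF bl) : PolyF (fun p : α => F (g p) (bl p)) := by
  have : Fact Core := ⟨Pool.Agent.PT.core⟩
  have h2 : PolyF (fun p : α => (g p, bl p)) := PolyF.pair hg hbl
  exact PolyF.comp (f := fun p : List Unit × List Block => F p.1 p.2) hF h2

theorem polyF_vec {α : Type} [Dat α] (h_PTU : T_PTU) (g : α → List Unit) (hg : PolyF g)
    (bl : α → List Block) (hbl : PolyF bl) : PolyF (fun p : α => toVecU (g p) (bl p)) :=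
  polyF_two toVecU h_PTU g hg bl hbl

open ASM_ ASN_ in
theorem quasi_main (h_EXU : T_EXU) (h_PTU : T_PTU) (h_QCL : T_QCL) (h_CRQ : T_CRQ)
    (h_SL3 : T_SL3) (h_SZQ : T_SZQ) (h_PDU : T_PDU) (h_TMQ : T_TMQ) (h_ENC : T_ENC)
    (h_PEN : T_PEN) (h_TMP : T_TMP) (h_LNP : T_LNP) (h_VVL : T_VVL) (h_TKE : T_TKE)
    (h_SMP : T_SMP) (h_JNT : T_JNT) (h_AM2 : T_AM2) (h_LNZ : T_LNZ)
    (S : Lang) (hS : QuasiSparse S) (H : ∀ L, InNP L → QuasiReduces L S) (L : Lang)
    (hL : InNP L) : InRQP L := by
  classical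
  have : Fact Core := ⟨Pool.Agent.PT.core⟩
  obtain ⟨q, V, hV, hL⟩ := hL
  have hV' : PolyF V := (h_TMP.1 V).1 hV
  obtain ⟨c, f, hf, hqn, hadv⟩ := H _ (h_LNP q V hV').1
  have hf' : PolyF f := h_TMQ.2 f hf
  obtain ⟨c₂, hc₂⟩ := hS
  obtain ⟨C₁, hC₁⟩ := qb_g1 h_QCL q c
  obtain ⟨A⟩ := exists_qd h_PDU q c C₁
  have hbl := polyF_blQ h_PEN A.pc A.hpc A.Ll A.L2 A.hLl A.hL2 f hf'
  have hvec := polyF_vec h_PTU (fun p : (((List Bool × List (List Bool)) × List Bool) ×
    List Unit) × List Bool => p.1.2) (by fun_prop) (fun p => blQ A.pc A.Ll f A.L2 p) hbl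
  have hvec2 := polyF_vec h_PTU (fun p : Ctx × List Bool => p.1.1.2) (by fun_prop)
    (fun p => blQ A.pc A.Ll f A.L2 (p.1.1, p.2)) (hbl.comp (PolyF.pair (by fun_prop) (by fun_prop)))
  obtain ⟨K, hK⟩ := h_SZQ _ hvec
  obtain ⟨C, hC⟩ := qb_g2 h_QCL q K c c₂ C₁
  obtain ⟨G, hG, hs, hc⟩ := h_SL3 S (γ := Ctx)
    (fun d => A.LN d.1.1.1.1) (fun d => d.2)
    (fun p => toVecU p.1.1.2 (blQ A.pc A.Ll f A.L2 (p.1.1, p.2)))
    (fun p => V (p.1.1.1.1.1, p.2)) K (A.hLN.comp (by fun_prop)) (by fun_prop) hvec2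
    (hV'.comp (PolyF.pair (by fun_prop) (by fun_prop)))
  refine ⟨C, A.alg G, h_TMQ.1 _ (A.halg h_PEN G hG), fun x => ⟨fun hx => ?_, ?_⟩⟩
  · -- completeness
    set n := q.eval x.length with hn
    set N := Nf q c x.length with hN
    set t := tf q c x.length with ht
    set ℓ := (ellP q).eval x.length with hℓ
    set M := quasi C x.length with hM
    set mb := (n + 2) * (n + 1) + t * N with hmb
    set P : List Unit := una M with hP
    have hPl : P.length = M := by simp [hP, una]
    have hg1 : x.length + (n + 2) + t * N + N ≤ quasi C₁ x.length := hC₁ x.length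
    have hg2 : g2 q K c c₂ C₁ x.length ≤ M := hC x.length
    have hg2' : 12 * mb + quasi C₁ x.length ≤ M := by
      have h1 : ((K.eval (quasi C₁ x.length) + 1) * quasi c₂ (K.eval (quasi C₁ x.length)) + 1) ^
          (Nat.log 2 ℓ ^ c + c) + 12 * mb + quasi C₁ x.length ≤ M := hg2
      omega
    have hP1 : (A.P1 (x, P)).length = quasi C₁ x.length := by
      unfold QD.P1
      have h1 : (len1 x).length = x.length := by simp [len1]
      simp only
      rw [A.ep1 (len1 x) P (by rw [h1, hPl]; omega), h1]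
    have hNN : (A.NN (x, P)).length = N := by
      unfold QD.NN
      have h1 : quasi c (A.Ll x).length = N := by
        rw [A.el x]
        rfl
      simp only
      rw [A.epc (A.Ll x) _ (by rw [h1, hP1]; omega), h1]
    have hLa : (A.La (x, P)).length = mb := by
      unfold QD.La
      rw [List.length_append, mulU_length, mulU_length, mulU_length, List.length_cons, hNN,
        A.e2, A.e3]
      rfl
    have hfin : {w : List Bool | w.length = n ∧ V (x, w) = true}.Finite := finite_len n _
    set W : Finset (List Bool) := hfin.toFinset with hW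
    have hWm : ∀ w, w ∈ W ↔ w.length = n ∧ V (x, w) = true := fun w => by simp [hW]
    have hWne : W.Nonempty := by
      obtain ⟨w, hw, hVw⟩ := (hL x).1 hx
      exact ⟨w, (hWm w).2 ⟨hw, hVw⟩⟩
    have h3 := h_VVL n W hWne fun w hw => ((hWm w).1 hw).1
    let zz : ℕ → List Bool → List Bool → List Bool := fun s ρ a =>
      encL (x :: a :: pieces (n + 1) s ρ)
    let Cr : ℕ → List Bool → List Bool → List Bool → Prop := fun s ρ a r =>
      (holds S (f ((zz s ρ a, una (quasi c (zz s ρ a).length)), r.take (quasi c (zz s ρ a).length)))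
        = true ↔ zz s ρ a ∈ langU q V)
    let Ar : List Bool → Prop := fun ρ => ∃ s ≤ n + 2, ∃ w ∈ W, ∀ w' ∈ W,
      (∀ r ∈ pieces (n + 1) s ρ, dot r (w' ++ [true]) = false) ↔ w' = w
    let Gd : List Bool → List Bool → Prop := fun ρ R => ∃ s ≤ n + 2, (∃ w ∈ W, ∀ w' ∈ W,
      (∀ r ∈ pieces (n + 1) s ρ, dot r (w' ++ [true]) = false) ↔ w' = w) ∧
      ∀ a : List Bool, a.length ≤ n → t < 2 * (pieces N t R).countP fun r => dc (Cr s ρ a r)
    have hzl : ∀ s ≤ n + 2, ∀ ρ a : List Bool, a.length ≤ n → (zz s ρ a).length ≤ ℓ := by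
      intro s hs' ρ a ha
      have h1 : ℓ = (2 * x.length + 1) + (2 * n + 1) + (n + 2) * (2 * (n + 1) + 1) := by
        rw [hℓ, hn]
        simp [ellP]
      rw [h1]
      refine h_LNZ x a _ n ha (by simp [pieces, hs']) fun r hr => ?_
      simp only [pieces, List.mem_map] at hr
      obtain ⟨i, -, rfl⟩ := hr
      rw [List.length_take]
      exact min_le_left _ _
    have htN : (n + 2) * (N + 1) ^ 2 ≤ t := by
      rw [ht, tf, sq]
    have h4 : ∀ ρ : List Bool, ρ.length = (n + 2) * (n + 1) → Ar ρ →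
        2 ^ (t * N) ≤ 2 * {R : List Bool | R.length = t * N ∧ Gd ρ R}.ncard := by
      rintro ρ - ⟨s, hs', hw⟩
      have h5 := h_SMP N t N n (Cr s ρ) (fun a ha => ?_) htN
      · have h6 := full_ncard (t * N) {R : List Bool | R.length = t * N ∧ ∃ a : List Bool,
            a.length ≤ n ∧ 2 * (pieces N t R).countP (fun r => dc (Cr s ρ a r)) ≤ t}
          {R : List Bool | R.length = t * N ∧ Gd ρ R} (by
            intro R hR
            by_cases hb : ∃ a : List Bool, a.length ≤ n ∧
                2 * (pieces N t R).countP (fun r => dc (Cr s ρ a r)) ≤ t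
            · exact Or.inl ⟨hR, hb⟩
            · push Not at hb
              exact Or.inr ⟨hR, s, hs', hw, hb⟩) (finite_len _ _) (finite_len _ _)
        have h5' : 2 * {R : List Bool | R.length = t * N ∧ ∃ a : List Bool,
            a.length ≤ n ∧ 2 * (pieces N t R).countP (fun r => dc (Cr s ρ a r)) ≤ t}.ncard ≤
            2 ^ (t * N) := h5
        omega
      · have h7 := hadv (zz s ρ a)
        have hz := hzl s hs' ρ a ha
        have hm : quasi c (zz s ρ a).length ≤ N := quasi_mono c hz
        have h8 := h_TKE (quasi c (zz s ρ a).length) N (fun r' =>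
          (holds S (f ((zz s ρ a, una (quasi c (zz s ρ a).length)), r')) = true ↔
            zz s ρ a ∈ langU q V)) hm
        have h9 : {r : List Bool | r.length = N ∧ Cr s ρ a r}.ncard =
            2 ^ (N - quasi c (zz s ρ a).length) * {r : List Bool | r.length =
              quasi c (zz s ρ a).length ∧
                (holds S (f ((zz s ρ a, una (quasi c (zz s ρ a).length)), r)) = true ↔
                zz s ρ a ∈ langU q V)}.ncard := h8
        rw [h9]
        push_cast
        have hpos : (0 : ℝ) < (quasi c (zz s ρ a).length : ℝ) := by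
          unfold quasi
          positivity
        have h10 : (1 / 2 + 1 / ((N : ℝ) + 1)) ≤
            1 / 2 + 1 / (quasi c (zz s ρ a).length : ℝ) := by
          have h12 : (quasi c (zz s ρ a).length : ℝ) ≤ (N : ℝ) := by exact_mod_cast hm
          have := one_div_le_one_div_of_le hpos
            (by linarith : (quasi c (zz s ρ a).length : ℝ) ≤ (N : ℝ) + 1)
          linarith
        have h14 : (2 : ℝ) ^ N = 2 ^ (N - quasi c (zz s ρ a).length) *
            2 ^ (quasi c (zz s ρ a).length) := by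
          rw [← pow_add]
          congr 1
          omega
        rw [h14]
        have h15 : (0 : ℝ) < 2 ^ (N - quasi c (zz s ρ a).length) := by positivity
        have h16 : (0 : ℝ) < 2 ^ (quasi c (zz s ρ a).length) := by positivity
        calc (1 / 2 + 1 / ((N : ℝ) + 1)) * (2 ^ (N - quasi c (zz s ρ a).length) *
              2 ^ (quasi c (zz s ρ a).length)) = 2 ^ (N - quasi c (zz s ρ a).length) *
              ((1 / 2 + 1 / ((N : ℝ) + 1)) * 2 ^ (quasi c (zz s ρ a).length)) := by ring
          _ ≤ 2 ^ (N - quasi c (zz s ρ a).length) *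
              ((1 / 2 + 1 / (quasi c (zz s ρ a).length : ℝ)) *
                2 ^ (quasi c (zz s ρ a).length)) := by
            refine mul_le_mul_of_nonneg_left ?_ h15.le
            exact mul_le_mul_of_nonneg_right h10 h16.le
          _ ≤ _ := mul_le_mul_of_nonneg_left h7 h15.le
    have h5 := h_JNT ((n + 2) * (n + 1)) (t * N) Ar Gd h3 h4
    have h6 := h_AM2 mb (fun σ => Ar (σ.take ((n + 2) * (n + 1))) ∧
      Gd (σ.take ((n + 2) * (n + 1))) (σ.drop ((n + 2) * (n + 1)))) h5
    have h7 := h_TKE (12 * mb) M (fun ρ => ∃ σ ∈ pieces mb 12 ρ,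
      Ar (σ.take ((n + 2) * (n + 1))) ∧
      Gd (σ.take ((n + 2) * (n + 1))) (σ.drop ((n + 2) * (n + 1)))) (by omega)
    have h8 : 2 ^ M ≤ 2 * {w : List Bool | w.length = M ∧ ∃ σ ∈ pieces mb 12 w,
        Ar (σ.take ((n + 2) * (n + 1))) ∧
        Gd (σ.take ((n + 2) * (n + 1))) (σ.drop ((n + 2) * (n + 1)))}.ncard := by
      simp only [pieces_take] at h7
      rw [h7]
      calc 2 ^ M = 2 ^ (M - 12 * mb) * 2 ^ (12 * mb) := by
            rw [← pow_add]
            congr 1
            omega
        _ ≤ 2 ^ (M - 12 * mb) * (2 * _) := Nat.mul_le_mul_left _ h6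
        _ = _ := by ring
    refine h8.trans (Nat.mul_le_mul_left _ (Set.ncard_le_ncard ?_ (finite_len _ _)))
    rintro w₀ ⟨hw₀, σ, hσ, -, s, hs', ⟨w, hw, hww⟩, hgood⟩
    refine ⟨hw₀, ?_⟩
    have hσl : σ.length = mb := piece_length' mb 12 w₀ (by omega) σ hσ
    unfold QD.alg
    rw [List.any_eq_true]
    refine ⟨σ, ?_, ?_⟩
    · simp only
      rw [h_ENC.2.2.2.2.2.1, hLa, List.length_replicate]
      exact hσ
    rw [List.any_eq_true]
    have h9 : s ∈ (unis (A.L2 x)).map List.length := by
      rw [h_ENC.2.2.2.2.2.2, A.e2, List.mem_range]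
      omega
    obtain ⟨s', hs1, hs2⟩ := List.mem_map.1 h9
    refine ⟨s', hs1, ?_⟩
    simp only
    have h10 : chunks (A.L1 x) s' (takeU σ (A.L3 x)) =
        pieces (n + 1) s (σ.take ((n + 2) * (n + 1))) := by
      rw [h_ENC.2.2.2.2.2.1, A.e1, hs2, h_ENC.2.2.2.1, A.e3]
    have h11 : dropU σ (A.L3 x) = σ.drop ((n + 2) * (n + 1)) := by
      rw [h_ENC.2.2.2.2.1, A.e3]
    rw [h10, h11]
    have hw' := (hWm w).1 hw
    refine ctx_ok h_EXU h_CRQ h_ENC A S c₂ hc₂ f hqn V K hK G hc x _ _ w _ P hP1 (hC₁ x.length)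
      (by rw [hPl]; exact hg2) ?_ ?_ ?_ ?_ hw'.1 hw'.2 ?_
    · simp [pieces, ← hn, hs']
    · intro r hr
      simp only [pieces, List.mem_map] at hr
      obtain ⟨i, -, rfl⟩ := hr
      rw [List.length_take]
      exact (min_le_left _ _)
    · rw [List.length_drop, hσl]
      exact Nat.add_sub_cancel_left _ _
    · intro a ha
      exact hzl s hs' _ a ha
    · intro a ha
      have hg := hgood a ha
      have hz1 : dot a w = true ↔ zz s (σ.take ((n + 2) * (n + 1))) a ∈ langU q V := by
        constructor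
        · intro hdot
          exact ⟨x, a, _, h_ENC.1 _, w, hw'.1, hw'.2, hdot, (hww w hw).2 rfl⟩
        · rintro ⟨x', a', rows', he, w', hw1, hVw', hdot', hwr'⟩
          rw [h_ENC.1] at he
          simp only [List.cons.injEq] at he
          obtain ⟨rfl, rfl, rfl⟩ := he
          have := (hww w' ((hWm w').2 ⟨hw1, hVw'⟩)).1 hwr'
          rw [← this]
          exact hdot'
      rw [hz1]
      set z := zz s (σ.take ((n + 2) * (n + 1))) a with hz
      set R := σ.drop ((n + 2) * (n + 1)) with hR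
      have hlen : (pieces N t R).length = t := by simp [pieces]
      have hcC : ∀ r : List Bool, dc (Cr s (σ.take ((n + 2) * (n + 1))) a r) =
          dc (holds S (f ((z, una (quasi c z.length)), r.take (quasi c z.length))) = true ↔
            z ∈ langU q V) := fun r => rfl
      simp only [hcC] at hg
      by_cases hzL : z ∈ langU q V
      · have hcc : ∀ r : List Bool,
            dc (holds S (f ((z, una (quasi c z.length)), r.take (quasi c z.length))) = true ↔
              z ∈ langU q V) =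
              holds S (f ((z, una (quasi c z.length)), r.take (quasi c z.length))) := by
          intro r
          cases hh : holds S (f ((z, una (quasi c z.length)), r.take (quasi c z.length))) <;>
            simp [dc, hzL]
        simp only [hcc] at hg
        exact iff_of_true hzL hg
      · have hcc : ∀ r : List Bool,
            dc (holds S (f ((z, una (quasi c z.length)), r.take (quasi c z.length))) = true ↔
              z ∈ langU q V) =
              !holds S (f ((z, una (quasi c z.length)), r.take (quasi c z.length))) := by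
          intro r
          cases hh : holds S (f ((z, una (quasi c z.length)), r.take (quasi c z.length))) <;>
            simp [dc, hzL]
        simp only [hcc] at hg
        refine iff_of_false hzL ?_
        have h12 := countP_compl (pieces N t R)
          (fun r : List Bool => holds S (f ((z, una (quasi c z.length)),
            r.take (quasi c z.length))))
        rw [hlen] at h12
        change ¬ t < 2 * (pieces N t R).countP
          (fun r : List Bool => holds S (f ((z, una (quasi c z.length)),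
            r.take (quasi c z.length))))
        omega
  · -- soundness
    intro hx w _
    rw [← Bool.not_eq_true]
    intro h
    unfold QD.alg at h
    rw [List.any_eq_true] at h
    obtain ⟨σ, -, h⟩ := h
    rw [List.any_eq_true] at h
    obtain ⟨s, -, h⟩ := h
    obtain ⟨w', hw', hVw'⟩ := hs _ h
    exact hx ((hL x).2 ⟨w', by rw [hw', A.eN], hVw'⟩)

end Pool.Agent.MAJ
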