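import Pool.Agent.MAJ.Defs

set_option autoImplicit false

/-!
# Sets of witnesses
-/

namespace Pool.Agent.MAJ

/-- A list of strings as output of a machine: every string is closed by the letter `endQuery`. -/
def encList (l : List (List Bool)) : List Tok := l.flatMap (encStr .endQuery)

/-- The witnesses of `x`: the strings `w` of length `q (|x|)` such that `V (x, w)` is true. -/
def Wit (q : Polynomial ℕ) (V : List Bool × List Bool → Bool) (x : List Bool) :
    Set (List Bool) :=
  {w | w.length = q.eval x.length ∧ V (x, w) = true}

end Pool.Agent.MAJ
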