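import Pool.Agent.MAJ.Final3
import Pool.Agent.MAJ.DefsL

set_option autoImplicit false

/-!
# MAJ, part 5: listing small sets of witnesses
-/

namespace Pool.Agent.MAJ

open Pool.Agent.PT (Dat PolyF sz Core length_lt_sz sz_mem sz_snd)

namespace LST_

open ASM_ VRR_

/-- the unique solver, the list of the candidates -/
theorem solverL (h_IPA : T_IPA) (h_SRC : T_SRC) (h_EXP : T_EXP) (h_CRD : T_CRD) (h_ENC : T_ENC)
    (h_PEN : T_PEN) (h_PSR : T_PSR) (h_PTV : T_PTV) (h_SZR : T_SZR)
    (S : Lang) (hS : Sparse S) (d : ℕ) (f : List Bool → List Block) (hf : PolyF f)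
    (hd : ∀ x, ∀ b ∈ f x, b.1.length ≤ d)
    (q : Polynomial ℕ) (V : List Bool × List Bool → Bool)
    (hred : ∀ x, x ∈ langU q V ↔ (f x).length < 2 * (f x).countP (holds S)) :
    ∃ G : List Bool × List (List Bool) → List (List Bool), PolyF G ∧
      ∀ (x : List Bool) (rows : List (List Bool)) (w : List Bool),
        rows.length ≤ q.eval x.length + 2 → (∀ r ∈ rows, r.length ≤ q.eval x.length + 1) →
        w.length = q.eval x.length → V (x, w) = true →
        (∀ r ∈ rows, dot r (w ++ [true]) = false) →
        (∀ w', w'.length = q.eval x.length → V (x, w') = true →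
          (∀ r ∈ rows, dot r (w' ++ [true]) = false) → w' = w) → w ∈ G (x, rows) := by
  have : Fact Core := ⟨Pool.Agent.PT.core⟩
  obtain ⟨p, hp⟩ := hS
  obtain ⟨K, hK⟩ := h_SZR d f q hf
  -- the parameters
  set μP : Polynomial ℕ := K ^ 2 * ((K + 1) * p.comp K + 1) ^ d with hμP
  set BP : Polynomial ℕ := K ^ 2 * (μP * K ^ 2) + 1 with hBP
  set TP : Polynomial ℕ := 2 * BP * (μP + 1) with hTP
  obtain ⟨Lμ, hLμ, eμ⟩ := Pool.Agent.CookLevin.tLEN (Γ := Bool) μP
  obtain ⟨LB, hLB, eB⟩ := Pool.Agent.CookLevin.tLEN (Γ := Bool) BP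
  obtain ⟨LT, hLT, eT⟩ := Pool.Agent.CookLevin.tLEN (Γ := Bool) TP
  obtain ⟨LN, hLN, eN⟩ := Pool.Agent.CookLevin.tLEN (Γ := Bool) q
  have h1 : PolyF (fun x : List Bool × List (List Bool) =>
      search (red d f x.1 x.2) (LB x.1) (Lμ x.1).length (LT x.1) (LN x.1)) := by
    refine h_PSR (fun x : List Bool × List (List Bool) => red d f x.1 x.2) (fun x => LB x.1)
      (fun x => (Lμ x.1).length) (fun x => LT x.1) (fun x => LN x.1) ?_ (hLB.comp (PolyF.fst PolyF.id))
      (PolyF.length (hLμ.comp (PolyF.fst PolyF.id))) (hLT.comp (PolyF.fst PolyF.id))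
      (hLN.comp (PolyF.fst PolyF.id))
    unfold red
    refine (h_PTV d).comp (hf.comp (h_PEN.1.comp ?_))
    fun_prop
  refine ⟨fun x => search (red d f x.1 x.2) (LB x.1) (Lμ x.1).length (LT x.1) (LN x.1), h1, ?_⟩
  · intro x rows w hr1 hr2 hw hVw hwr hu
    set k := K.eval x.length with hk
    set n := q.eval x.length with hn
    obtain ⟨F, hF, hF'⟩ := h_CRD S p hp d k
    have hsz : ∀ a : List Bool, a.length ≤ n → sz (red d f x rows a) ≤ k :=
      fun a ha => hK x rows a hr1 hr2 ha
    · refine h_SRC S F (red d f x rows) (k ^ 2) (Lμ x).length (LB x) (LT x) (LN x) w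
        (by rw [hw, eN]) ?_ ?_ ?_ ?_ ?_ ?_
      · intro a ha
        rw [eN] at ha
        have h2 := h_IPA.2.2.2.2.2.1 (red d f x rows a)
        have h3 : (red d f x rows a).length ≤ k := (length_lt_sz _).le.trans (hsz a ha)
        have h4 : ((red d f x rows a).length : ℤ) ≤ (k : ℤ) := by exact_mod_cast h3
        push_cast
        nlinarith
      · intro a ha pr hpr hfv
        rw [eN] at ha
        have h2 := (h_EXP d S (f (encL (x :: a :: rows))) (fun b hb => hd _ b hb)).2 pr hpr
        refine hF' pr.2 h2.1 (fun s hs => ?_) hfv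
        have h3 : sz s < sz pr.2 := sz_mem hs
        have h4 : sz pr.2 ≤ sz pr := sz_snd pr
        have h5 : sz pr < sz (red d f x rows a) := sz_mem hpr
        have h6 := hsz a ha
        have h7 := length_lt_sz s
        omega
      · rw [eμ]
        have h2 : μP.eval x.length = k ^ 2 * ((k + 1) * p.eval k + 1) ^ d := by
          rw [hμP]
          simp [Polynomial.eval_comp, hk]
        rw [h2]
        exact Nat.mul_le_mul_left _ hF
      · rw [eμ, eB]
        rw [hBP]
        simp [hk]
      · rw [eμ, eB, eT]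
        rw [hTP]
        simp
      · intro a ha
        rw [eN] at ha
        have h2 := (h_EXP d S (f (encL (x :: a :: rows))) (fun b hb => hd _ b hb)).1
        have h3 := hred (encL (x :: a :: rows))
        have h4 : ev S (red d f x rows a) =
          2 * (2 * ((f (encL (x :: a :: rows))).countP (holds S) : ℤ) -
            (f (encL (x :: a :: rows))).length) - 1 := h2
        by_cases hdot : dot a w = true
        · have h5 : encL (x :: a :: rows) ∈ langU q V :=
            ⟨x, a, rows, h_ENC.1 _, w, hw, hVw, hdot, hwr⟩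
          have h6 := h3.1 h5
          rw [h4, hdot]
          simp only [sg, if_true]
          have : ((f (encL (x :: a :: rows))).length : ℤ) <
            2 * ((f (encL (x :: a :: rows))).countP (holds S) : ℤ) := by exact_mod_cast h6
          omega
        · have h5 : encL (x :: a :: rows) ∉ langU q V := by
            rintro ⟨x', a', rows', he, w', hw', hVw', hdot', hwr'⟩
            rw [h_ENC.1] at he
            simp only [List.cons.injEq] at he
            obtain ⟨rfl, rfl, rfl⟩ := he
            have := hu w' hw' hVw' hwr'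
            rw [this] at hdot'
            exact hdot hdot'
          have h6 := mt h3.2 h5
          rw [Bool.not_eq_true] at hdot
          rw [h4, hdot]
          simp only [sg]
          have : (2 : ℤ) * ((f (encL (x :: a :: rows))).countP (holds S) : ℤ) ≤
            ((f (encL (x :: a :: rows))).length : ℤ) := by
            exact_mod_cast (not_lt.1 h6)
          simp only [Bool.false_eq_true, if_false]
          omega

/-- The verifier with a residue condition, without any condition on the number of witnesses. -/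
theorem vr_one (h_ENC : T_ENC) (q : Polynomial ℕ) (V : List Bool × List Bool → Bool)
    (L : List Bool → List Unit) (eL : ∀ x, (L x).length = q.eval x.length) (x' u : List Bool)
    (hu : u.length = q.eval x'.length) (hv : verR V L (x', u) = true) :
    ∃ x R, decL x' = [x, R] ∧ (u.take (q.eval x.length)).length = q.eval x.length ∧
      V (x, u.take (q.eval x.length)) = true ∧ resid (u.take (q.eval x.length)) R = true ∧
      u = u.take (q.eval x.length) ++
        List.replicate (q.eval x'.length - q.eval x.length) false := by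
  have hle : ∀ x' x R, decL x' = [x, R] → x.length ≤ x'.length := fun x' x R hD =>
    h_ENC.2.2.1 x' x (by rw [hD]; simp)
  rw [verR_iff h_ENC] at hv
  obtain ⟨x, R, hD, h1, h2, h3⟩ := hv
  rw [eL] at h1 h2 h3
  have hq : q.eval x.length ≤ q.eval x'.length := LNP_.eval_mono q (hle x' x R hD)
  refine ⟨x, R, hD, ?_, h1, h2, ?_⟩
  · rw [List.length_take]; omega
  · rw [← hu]
    exact LNP_.count_split u _ h3

theorem vr_two (h_ENC : T_ENC) (q : Polynomial ℕ) (V : List Bool × List Bool → Bool)
    (L : List Bool → List Unit) (eL : ∀ x, (L x).length = q.eval x.length) (x R w : List Bool)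
    (hw : w.length = q.eval x.length) (h1 : V (x, w) = true) (h2 : resid w R = true) :
    verR V L (encL [x, R], w ++ List.replicate (q.eval (encL [x, R]).length - q.eval x.length)
      false) = true ∧ q.eval x.length ≤ q.eval (encL [x, R]).length := by
  have hle : ∀ x' x R, decL x' = [x, R] → x.length ≤ x'.length := fun x' x R hD =>
    h_ENC.2.2.1 x' x (by rw [hD]; simp)
  have hD : decL (encL [x, R]) = [x, R] := h_ENC.1 _
  have hq : q.eval x.length ≤ q.eval (encL [x, R]).length :=
    LNP_.eval_mono q (hle _ x R hD)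
  refine ⟨?_, hq⟩
  rw [verR_iff h_ENC]
  have ht : (w ++ List.replicate (q.eval (encL [x, R]).length - q.eval x.length) false).take
      (L x).length = w := by
    rw [eL, ← hw, List.take_left]
  refine ⟨x, R, hD, ?_⟩
  rw [ht]
  refine ⟨h1, h2, ?_⟩
  rw [List.countP_append]
  have : (List.replicate (q.eval (encL [x, R]).length - q.eval x.length) false).countP
      (fun b => b) = 0 := by
    rw [List.countP_eq_zero]
    intro b hb
    have := List.eq_of_mem_replicate hb
    rw [this]; simp
  omega

/-- Output of lists of strings. -/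
theorem tm_list {F : List Bool → List (List Bool)} (hF : PolyF F) : PolyTime id encList F := by
  have : Fact Core := ⟨Pool.Agent.PT.core⟩
  have h2 : PolyF (fun b : Bool => Tok.bit b) := PolyF.finite _
  have h1 : PolyF (fun x : List Bool => encList (F x)) := by
    unfold encList encStr
    refine PolyF.flatMap (f := fun (_ : List Bool) (s : List Bool) =>
      s.map Tok.bit ++ [Tok.endQuery]) ?_ hF
    refine PolyF.append ?_ (PolyF.const _)
    exact PolyF.map (f := fun (_ : List Bool × List Bool) (b : Bool) => Tok.bit b)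
      (h2.comp (PolyF.snd PolyF.id)) (PolyF.snd PolyF.id)
  exact Pool.Agent.PT.tm_of_polyF h1 id encList F fun p => rfl

end LST_

open ASM_ LST_ in
theorem list_main (h_IPA : T_IPA) (h_SRC : T_SRC) (h_EXP : T_EXP) (h_CRD : T_CRD) (h_ENC : T_ENC)
    (h_PEN : T_PEN) (h_PSR : T_PSR) (h_PTV : T_PTV) (h_SZR : T_SZR) (h_TMP : T_TMP)
    (h_MOD : T_MOD) (h_ISO : T_ISO) (h_LNP : T_LNP)
    (S : Lang) (hS : Sparse S) (H : ∀ L, InNP L → ∃ d, MajReduces d L S) (q k : Polynomial ℕ)
    (V : List Bool × List Bool → Bool) (hV : PolyTime encPair encBool V) :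
    ∃ F : List Bool → List (List Bool), PolyTime id encList F ∧
      ∀ x, (∀ w ∈ F x, w ∈ Wit q V x) ∧
        ((Wit q V x).ncard ≤ k.eval x.length → ∀ w ∈ Wit q V x, w ∈ F x) := by
  have : Fact Core := ⟨Pool.Agent.PT.core⟩
  have hV' : PolyF V := (h_TMP.1 V).1 hV
  obtain ⟨Lq, hLq, eLq⟩ := Pool.Agent.CookLevin.tLEN (Γ := Bool) q
  have hver : PolyF (verR V Lq) := VRR_.verR_polyF h_PEN h_MOD V hV' Lq hLq
  obtain ⟨d, f, hf, hd, hred⟩ := H _ (h_LNP q (verR V Lq) hver).1
  have hf' : PolyF f := h_TMP.2.2 f hf
  obtain ⟨G, hG, hc⟩ := solverL h_IPA h_SRC h_EXP h_CRD h_ENC h_PEN h_PSR h_PTV h_SZR S hS d f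
    hf' hd q (verR V Lq) hred
  obtain ⟨LM, hLM, eLM⟩ := Pool.Agent.CookLevin.tLEN (Γ := Bool) (2 * (q * k + 1))
  have h1 : PolyF (fun x : List Bool => (unis (LM x)).flatMap fun m => (unis (LM x)).flatMap
      fun r => (G (encL [x, RR (r, m)], [])).map fun u => takeU u (Lq x)) := by
    have hun := h_PEN.2.2.2.2.2.2.1
    have htk : PolyF (fun p : List Bool × List Unit => takeU p.1 p.2) := h_PEN.2.2.2.1
    refine PolyF.flatMap (f := fun (x : List Bool) (m : List Unit) => (unis (LM x)).flatMap
      fun r => (G (encL [x, RR (r, m)], [])).map fun u => takeU u (Lq x)) ?_ (hun.comp hLM)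
    refine PolyF.flatMap (f := fun (p : List Bool × List Unit) (r : List Unit) =>
      (G (encL [p.1, RR (r, p.2)], [])).map fun u => takeU u (Lq p.1)) ?_
      (hun.comp (hLM.comp (PolyF.fst PolyF.id)))
    refine PolyF.map (f := fun (p : (List Bool × List Unit) × List Unit) (u : List Bool) =>
      takeU u (Lq p.1.1)) ?_ ?_
    · exact htk.comp (PolyF.pair (by fun_prop) (hLq.comp (by fun_prop)))
    · refine hG.comp (PolyF.pair (h_PEN.1.comp ?_) (PolyF.const _))
      have hx : PolyF (fun p : (List Bool × List Unit) × List Unit => p.1.1) := by fun_prop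
      have hR : PolyF (fun p : (List Bool × List Unit) × List Unit => RR (p.2, p.1.2)) :=
        polyF_RR.comp (by fun_prop)
      exact PolyF.cons hx (PolyF.cons hR (PolyF.const _))
  have h2 : PolyF (fun x : List Bool => ((unis (LM x)).flatMap fun m => (unis (LM x)).flatMap
      fun r => (G (encL [x, RR (r, m)], [])).map fun u => takeU u (Lq x)).filter
        fun w => decide (w.length = (Lq x).length) && V (x, w)) := by
    refine PolyF.filter (f := fun (x : List Bool) (w : List Bool) =>
      decide (w.length = (Lq x).length) && V (x, w)) ?_ h1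
    exact PolyF.and (PolyF.eq_nat (PolyF.length (PolyF.snd PolyF.id))
      (PolyF.length (hLq.comp (PolyF.fst PolyF.id)))) (hV'.comp (by fun_prop))
  refine ⟨_, tm_list h2, fun x => ⟨fun w hw => ?_, fun hcard w hw => ?_⟩⟩
  · -- soundness
    rw [List.mem_filter, Bool.and_eq_true, decide_eq_true_iff, eLq] at hw
    exact hw.2
  · -- completeness
    obtain ⟨hw, hVw⟩ := hw
    have hfin : {w : List Bool | w.length = q.eval x.length ∧ V (x, w) = true}.Finite :=
      finite_len _ _
    have hmem : ∀ w, w ∈ hfin.toFinset ↔ w.length = q.eval x.length ∧ V (x, w) = true :=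
      fun w => by simp
    obtain ⟨m, hm1, hm2, hiso⟩ := h_ISO (q.eval x.length) (k.eval x.length) hfin.toFinset num
      (fun w hw => by
        rw [← ((hmem w).1 hw).1]
        exact h_MOD.2.1 w)
      (fun w hw w' hw' h => h_MOD.2.2.1 w w' (by rw [((hmem w).1 hw).1, ((hmem w').1 hw').1]) h)
      (by rw [← Set.ncard_eq_toFinset_card _ hfin]; exact hcard)
      w ((hmem w).2 ⟨hw, hVw⟩)
    have hMx : (LM x).length = 2 * (q.eval x.length * k.eval x.length + 1) := by
      rw [eLM]
      simp
    have hmr : m ∈ (unis (LM x)).map List.length := by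
      rw [h_ENC.2.2.2.2.2.2, List.mem_range]
      omega
    have hrr : num w % m ∈ (unis (LM x)).map List.length := by
      rw [h_ENC.2.2.2.2.2.2, List.mem_range]
      have := Nat.mod_lt (num w) hm1
      omega
    obtain ⟨um, hum, em⟩ := List.mem_map.1 hmr
    obtain ⟨ur, hur, er⟩ := List.mem_map.1 hrr
    rw [List.mem_filter, Bool.and_eq_true, decide_eq_true_iff, eLq]
    refine ⟨?_, hw, hVw⟩
    rw [List.mem_flatMap]
    refine ⟨um, hum, ?_⟩
    rw [List.mem_flatMap]
    refine ⟨ur, hur, ?_⟩
    have hres : ∀ v : List Bool, resid v (RR (ur, um)) = true ↔ num v % m = num w % m := by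
      intro v
      unfold resid
      have hl : (((RR (ur, um)).filter fun b => !b).map fun _ => ()).length = m := by
        rw [List.length_map, RR_false, em]
      rw [decide_eq_true_iff, h_MOD.1 _ _ (by rw [hl]; exact hm1), hl, RR_true, er]
    obtain ⟨hv2, hq2⟩ := vr_two h_ENC q V Lq eLq x (RR (ur, um)) w hw hVw ((hres w).2 rfl)
    rw [List.mem_map]
    refine ⟨w ++ List.replicate (q.eval (encL [x, RR (ur, um)]).length - q.eval x.length) false,
      ?_, ?_⟩
    · refine hc _ [] _ (by simp) (by simp) ?_ hv2 (by simp) ?_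
      · rw [List.length_append, List.length_replicate, hw]
        omega
      · intro u hu hVu _
        obtain ⟨x', R', hdec, hlen, hVx, hre, heq⟩ := vr_one h_ENC q V Lq eLq _ u hu hVu
        rw [h_ENC.1] at hdec
        simp only [List.cons.injEq, and_true] at hdec
        obtain ⟨rfl, rfl⟩ := hdec
        have := hiso _ ((hmem _).2 ⟨hlen, hVx⟩) ((hres _).1 hre)
        rw [heq, this]
    · rw [h_ENC.2.2.2.1, eLq, ← hw, List.take_left]

/-- A sparse set hard for NP under majorities of bounded truth tables: small sets of witnesses can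
be listed in polynomial time. -/
theorem final_list (S : Lang) (hS : Sparse S) (H : ∀ L, InNP L → ∃ d, MajReduces d L S)
    (q k : Polynomial ℕ) (V : List Bool × List Bool → Bool) (hV : PolyTime encPair encBool V) :
    ∃ F : List Bool → List (List Bool), PolyTime id encList F ∧
      ∀ x, (∀ w ∈ F x, w ∈ Wit q V x) ∧
        ((Wit q V x).ncard ≤ k.eval x.length → ∀ w ∈ Wit q V x, w ∈ F x) :=
  list_main p_IPA f_SRC p_EXP p_CRD p_ENC p_PEN f_PSR p_PTV (p_SZR p_PTV p_PEN) f_TMP f_MOD
    p_ISO f_LNP S hS H q k V hV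

end Pool.Agent.MAJ
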