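import Pool.Agent.MAJ.DefsQ
import Pool.Agent.MAJ.DefsL

set_option autoImplicit false

/-!
# Quasi-polynomial time, majority reductions
-/

namespace Pool.Agent.MAJ

/-- A string and a number in unary as input of a machine: the units of the number are written with a
separate letter. -/
def encUn (p : List Bool × List Unit) : List (Option Bool) :=
  p.1.map some ++ p.2.map fun _ => none

/-- `f` is computed in quasi-polynomial time: for some `c` a machine computes `f x` from `x` and the
unary number `quasi c (|x|)`, in time polynomial in the length of both. -/
def QTime {β Δ : Type} (eb : β → List Δ) (f : List Bool → β) : Prop :=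
  ∃ (c : ℕ) (F : List Bool × List Unit → β), PolyTime encUn eb F ∧
    ∀ x, f x = F (x, una (quasi c x.length))

/-- `A` reduces to `S` in quasi-polynomial time by a majority of truth tables with polylogarithmically
many queries: on input `x` a list of blocks is computed, each with at most `(log |x|) ^ c + c`
queries, and `x ∈ A` iff more than half of these blocks are true when the queries are answered by
`S`. -/
def QMajReduces (A S : Lang) : Prop :=
  ∃ (c : ℕ) (f : List Bool → List Block), QTime encBlocks f ∧
    (∀ x, ∀ b ∈ f x, b.1.length ≤ Nat.log 2 x.length ^ c + c) ∧
    ∀ x, x ∈ A ↔ (f x).length < 2 * (f x).countP (holds S)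

end Pool.Agent.MAJ
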