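import Pool.Agent.MAJ.Targets

set_option autoImplicit false

/-!
# MAJ: the number of true features
-/

namespace Pool.Agent.MAJ

namespace CRD_

/-- Values of polynomials over the naturals are monotone. -/
theorem eval_mono (p : Polynomial ℕ) {a b : ℕ} (h : a ≤ b) : p.eval a ≤ p.eval b := by
  rw [Polynomial.eval_eq_sum_range, Polynomial.eval_eq_sum_range]
  exact Finset.sum_le_sum fun i _ => Nat.mul_le_mul_left _ (Nat.pow_le_pow_left h i)

/-- All lists of length at most `d` over `A`. -/
def lists (A : Finset (List Bool)) : ℕ → Finset Feat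
  | 0 => {[]}
  | d + 1 => insert [] ((A ×ˢ lists A d).image fun q => q.1 :: q.2)

theorem card_lists (A : Finset (List Bool)) (d : ℕ) : (lists A d).card ≤ (A.card + 1) ^ d := by
  induction d with
  | zero => simp [lists]
  | succ d ih =>
    have h1 : (lists A (d + 1)).card ≤ A.card * (lists A d).card + 1 := by
      rw [lists]
      refine (Finset.card_insert_le _ _).trans (Nat.succ_le_succ ?_)
      exact Finset.card_image_le.trans (Finset.card_product _ _).le
    have h2 : A.card * (lists A d).card ≤ A.card * (A.card + 1) ^ d := Nat.mul_le_mul_left _ ih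
    have h3 : 1 ≤ (A.card + 1) ^ d := Nat.one_le_pow _ _ (Nat.succ_pos _)
    have h4 : (A.card + 1) ^ (d + 1) = A.card * (A.card + 1) ^ d + (A.card + 1) ^ d := by
      rw [pow_succ]; ring
    omega

theorem mem_lists (A : Finset (List Bool)) (d : ℕ) :
    ∀ l : Feat, l.length ≤ d → (∀ q ∈ l, q ∈ A) → l ∈ lists A d := by
  induction d with
  | zero =>
    intro l hl _
    have : l = [] := List.length_eq_zero_iff.mp (Nat.le_zero.mp hl)
    simp [lists, this]
  | succ d ih =>
    intro l hl hq
    unfold lists
    cases l with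
    | nil => exact Finset.mem_insert_self _ _
    | cons q l =>
      refine Finset.mem_insert_of_mem (Finset.mem_image.mpr ⟨(q, l), ?_, rfl⟩)
      refine Finset.mem_product.mpr ⟨hq q (List.mem_cons_self ..), ?_⟩
      refine ih l ?_ fun r hr => hq r (List.mem_cons_of_mem _ hr)
      simpa using hl

theorem finite_layer (S : Lang) (n : ℕ) : {w : List Bool | w ∈ S ∧ w.length = n}.Finite :=
  (List.finite_length_eq Bool n).subset fun _ hw => hw.2

end CRD_

open CRD_ in
theorem p_CRD : T_CRD := by
  intro S p hp d K
  classical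
  let A : Finset (List Bool) := (Finset.range (K + 1)).biUnion fun n =>
    (finite_layer S n).toFinset
  have hA : A.card ≤ (K + 1) * p.eval K := by
    refine (Finset.card_biUnion_le).trans ?_
    have h : ∀ n ∈ Finset.range (K + 1), ((finite_layer S n).toFinset).card ≤ p.eval K := by
      intro n hn
      rw [← Set.ncard_eq_toFinset_card _ (finite_layer S n)]
      exact (hp n).trans (eval_mono p (Nat.lt_succ_iff.mp (Finset.mem_range.mp hn)))
    refine (Finset.sum_le_sum h).trans ?_
    simp
  refine ⟨lists A d, (card_lists A d).trans (Nat.pow_le_pow_left (by omega) d), ?_⟩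
  intro l hl hK hf
  refine mem_lists A d l hl fun q hq => ?_
  have hS : ∀ q ∈ l, q ∈ S := by
    by_contra hc
    exact hf (by unfold fv; rw [if_neg hc])
  refine Finset.mem_biUnion.mpr ⟨q.length, Finset.mem_range.mpr (Nat.lt_succ_of_le (hK q hq)), ?_⟩
  exact (Set.Finite.mem_toFinset _).mpr ⟨hS q hq, rfl⟩

end Pool.Agent.MAJ
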