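import Pool.Agent.MAJ.Targets4
import Pool.Agent.MAJ.P_CRD

set_option autoImplicit false

/-!
# MAJ, part 4: the number of true features
-/

namespace Pool.Agent.MAJ

theorem p_CRQ : T_CRQ := by
  intro S K s d hs
  obtain ⟨F, hF, h⟩ := p_CRD {w : List Bool | w ∈ S ∧ w.length ≤ K} (Polynomial.C s) (by
    intro n
    rw [Polynomial.eval_C]
    by_cases hn : n ≤ K
    · have e : {w : List Bool | w ∈ {w : List Bool | w ∈ S ∧ w.length ≤ K} ∧ w.length = n} =
          {w : List Bool | w ∈ S ∧ w.length = n} := by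
        ext w
        constructor
        · rintro ⟨⟨h1, -⟩, h2⟩
          exact ⟨h1, h2⟩
        · rintro ⟨h1, h2⟩
          exact ⟨⟨h1, h2.trans_le hn⟩, h2⟩
      rw [e]
      exact hs n hn
    · have e : {w : List Bool | w ∈ {w : List Bool | w ∈ S ∧ w.length ≤ K} ∧ w.length = n} =
          ∅ := by
        ext w
        constructor
        · rintro ⟨⟨-, h1⟩, h2⟩
          exact (hn (h2.symm.trans_le h1)).elim
        · rintro ⟨⟩
      rw [e, Set.ncard_empty]
      exact Nat.zero_le _) d K
  rw [Polynomial.eval_C] at hF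
  refine ⟨F, hF, fun l hl hK hf => h l hl hK fun h0 => hf ?_⟩
  unfold fv at h0 ⊢
  rw [if_neg]
  intro hS
  rw [if_pos fun q hq => ⟨hS q hq, hK q hq⟩] at h0
  exact one_ne_zero h0

end Pool.Agent.MAJ
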