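import Pool.Agent.MAJ.Targets

set_option autoImplicit false

/-!
# MAJ: EXP, expansion of blocks in signed features (helper21)
-/

namespace Pool.Agent.MAJ

namespace EXP_

open Classical in
/-- the value of the cons of a feature -/
theorem fv_cons (S : Lang) (q : List Bool) (l : Feat) :
    fv S (q :: l) = (if q ∈ S then 1 else 0) * fv S l := by
  unfold fv
  by_cases h1 : q ∈ S <;> by_cases h2 : ∀ q ∈ l, q ∈ S <;> simp [h1, h2]

theorem ev_nil (S : Lang) : ev S [] = 0 := rfl

theorem ev_append (S : Lang) (W W' : Vec) : ev S (W ++ W') = ev S W + ev S W' := by
  unfold ev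
  rw [List.map_append, List.sum_append]

theorem ev_cons (S : Lang) (p : Bool × Feat) (W : Vec) :
    ev S (p :: W) = sg p.1 * fv S p.2 + ev S W := by
  unfold ev
  rw [List.map_cons, List.sum_cons]

theorem sg_not (b : Bool) : sg (!b) = -sg b := by cases b <;> rfl

open Classical in
theorem ev_tag (S : Lang) (q : List Bool) (W : Vec) :
    ev S (W.map fun p => (p.1, q :: p.2)) = (if q ∈ S then 1 else 0) * ev S W := by
  induction W with
  | nil => simp [ev_nil]
  | cons p W ih =>
    rw [List.map_cons, ev_cons, ev_cons, ih, fv_cons]
    ring

open Classical in
theorem ev_tagn (S : Lang) (q : List Bool) (W : Vec) :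
    ev S (W.map fun p => (!p.1, q :: p.2)) = -((if q ∈ S then 1 else 0) * ev S W) := by
  induction W with
  | nil => simp [ev_nil]
  | cons p W ih =>
    rw [List.map_cons, ev_cons, ev_cons, ih, fv_cons, sg_not]
    ring

theorem ev_flatMap {α : Type} (S : Lang) (l : List α) (f : α → Vec) :
    ev S (l.flatMap f) = (l.map fun a => ev S (f a)).sum := by
  induction l with
  | nil => rfl
  | cons a l ih => rw [List.flatMap_cons, ev_append, ih, List.map_cons, List.sum_cons]

/-- the pattern of the answers -/
noncomputable def pt (S : Lang) (qs : List (List Bool)) : List Bool :=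
  qs.map (fun q => @decide (q ∈ S) (Classical.propDecidable _))

theorem ev_true (S : Lang) : ev S [(true, [])] = 1 := by
  simp [ev, sg, fv]

theorem ev_false (S : Lang) : ev S [(false, [])] = -1 := by
  simp [ev, sg, fv]

/-- the value of `expd` -/
theorem ev_expd (S : Lang) (k : ℕ) (qs : List (List Bool)) (a : List Bool)
    (h : qs.length ≤ k) : ev S (expd k qs a) = if pt S qs = a then 1 else 0 := by
  induction k generalizing qs a with
  | zero =>
    have hq : qs = [] := List.length_eq_zero_iff.1 (Nat.le_zero.1 h)
    subst hq
    cases a with
    | nil => simp [expd, pt, ev_true]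
    | cons b a => simp [expd, pt, ev_nil]
  | succ k ih =>
    cases qs with
    | nil =>
      cases a with
      | nil => simp [expd, pt, ev_true]
      | cons b a => simp [expd, pt, ev_nil]
    | cons q qs =>
      have hk : qs.length ≤ k := by
        rw [List.length_cons] at h
        omega
      cases a with
      | nil => simp [expd, pt, ev_nil]
      | cons b a =>
        have hp : pt S (q :: qs) =
            (@decide (q ∈ S) (Classical.propDecidable _)) :: pt S qs := rfl
        rw [hp]
        cases b with
        | true =>
          have e : expd (k + 1) (q :: qs) (true :: a) =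
              (expd k qs a).map fun p => (p.1, q :: p.2) := by simp [expd]
          rw [e, ev_tag, ih qs a hk]
          by_cases hq : q ∈ S <;> by_cases hs : pt S qs = a <;> simp [hq, hs]
        | false =>
          have e : expd (k + 1) (q :: qs) (false :: a) =
              expd k qs a ++ (expd k qs a).map fun p => (!p.1, q :: p.2) := by simp [expd]
          rw [e, ev_append, ev_tagn, ih qs a hk]
          by_cases hq : q ∈ S <;> by_cases hs : pt S qs = a <;> simp [hq, hs]

/-- the members of `expd` -/
theorem mem_expd (k : ℕ) (qs : List (List Bool)) (a : List Bool) (p : Bool × Feat)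
    (h : p ∈ expd k qs a) : p.2.length ≤ k ∧ ∀ q ∈ p.2, q ∈ qs := by
  induction k generalizing qs a p with
  | zero =>
    unfold expd at h
    split_ifs at h with h1
    · simp only [List.mem_singleton] at h
      subst h
      simp
    · simp at h
  | succ k ih =>
    cases qs with
    | nil =>
      cases a with
      | nil =>
        have e : expd (k + 1) [] [] = [(true, [])] := by simp [expd]
        rw [e, List.mem_singleton] at h
        subst h
        simp
      | cons b a =>
        have e : expd (k + 1) [] (b :: a) = [] := by simp [expd]
        rw [e] at h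
        simp at h
    | cons q qs =>
      cases a with
      | nil =>
        have e : expd (k + 1) (q :: qs) [] = [] := by simp [expd]
        rw [e] at h
        simp at h
      | cons b a =>
        cases b with
        | true =>
          have e : expd (k + 1) (q :: qs) (true :: a) =
              (expd k qs a).map fun p => (p.1, q :: p.2) := by simp [expd]
          rw [e, List.mem_map] at h
          obtain ⟨r, hr, rfl⟩ := h
          obtain ⟨h1, h2⟩ := ih qs a r hr
          refine ⟨by simpa using h1, ?_⟩
          intro x hx
          rcases List.mem_cons.1 hx with rfl | hx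
          · exact List.mem_cons_self
          · exact List.mem_cons_of_mem _ (h2 x hx)
        | false =>
          have e : expd (k + 1) (q :: qs) (false :: a) =
              expd k qs a ++ (expd k qs a).map fun p => (!p.1, q :: p.2) := by simp [expd]
          rw [e, List.mem_append, List.mem_map] at h
          rcases h with hr | ⟨r, hr, rfl⟩
          · obtain ⟨h1, h2⟩ := ih qs a p hr
            exact ⟨by omega, fun x hx => List.mem_cons_of_mem _ (h2 x hx)⟩
          · obtain ⟨h1, h2⟩ := ih qs a r hr
            refine ⟨by simpa using h1, ?_⟩
            intro x hx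
            rcases List.mem_cons.1 hx with rfl | hx
            · exact List.mem_cons_self
            · exact List.mem_cons_of_mem _ (h2 x hx)

/-- every pattern occurs exactly once -/
theorem count_pats (d : ℕ) (a : List Bool) :
    (pats d).count a = if a.length ≤ d then 1 else 0 := by
  induction d generalizing a with
  | zero =>
    cases a with
    | nil => simp [pats]
    | cons b a => simp [pats]
  | succ d ih =>
    have hc : ∀ (b c : Bool) (a : List Bool) (l : List (List Bool)),
        (l.map fun s => b :: s).count (c :: a) = if b = c then l.count a else 0 := by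
      intro b c a l
      induction l with
      | nil => simp
      | cons s l ih =>
        rw [List.map_cons, List.count_cons, ih, List.count_cons]
        by_cases hb : b = c <;> by_cases hs : s = a <;> simp [hb, hs]
    have hn : ∀ (b : Bool) (l : List (List Bool)),
        (l.map fun s => b :: s).count [] = 0 := by
      intro b l
      rw [List.count_eq_zero]
      simp
    cases a with
    | nil =>
      have e : pats (d + 1) = [] :: ((pats d).map (fun a => false :: a) ++
        (pats d).map fun a => true :: a) := rfl
      rw [e, List.count_cons, List.count_append, hn, hn]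
      simp
    | cons b a =>
      have e : pats (d + 1) = [] :: ((pats d).map (fun a => false :: a) ++
        (pats d).map fun a => true :: a) := rfl
      rw [e, List.count_cons, List.count_append, hc, hc, ih]
      cases b <;> simp

/-- a sum with a single nonzero term -/
theorem sum_pats (L : List (List Bool)) (A : List Bool) (P : List Bool → Prop)
    [DecidablePred P] :
    (L.map fun a => if P a then ((if A = a then 1 else 0) + (if A = a then 1 else 0) : ℤ)
      else 0).sum = (L.count A : ℤ) * (if P A then 2 else 0) := by
  induction L with
  | nil => simp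
  | cons a L ih =>
    rw [List.map_cons, List.sum_cons, ih, List.count_cons]
    by_cases ha : A = a
    · subst ha
      by_cases hP : P A
      · simp only [hP, if_true, beq_self_eq_true]
        push_cast
        ring
      · simp [hP]
    · have ha' : ¬ (a == A) = true := by
        simpa using fun h => ha h.symm
      simp [ha, ha']

/-- the value of a block -/
theorem ev_blk (S : Lang) (d : ℕ) (b : Block) (h : b.1.length ≤ d) :
    ev S (blk d b) = 2 * (if holds S b = true then 1 else 0) - 1 := by
  unfold blk
  rw [ev_append, ev_false, ev_flatMap]
  have e : (fun a => ev S (if b.2.any (fun a' => decide (a' = a)) then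
      expd d b.1 a ++ expd d b.1 a else [])) = fun a => if a ∈ b.2 then
        ((if pt S b.1 = a then 1 else 0) + (if pt S b.1 = a then 1 else 0) : ℤ) else 0 := by
    funext a
    have h1 : (b.2.any (fun a' => decide (a' = a)) = true) ↔ a ∈ b.2 := by
      simp
    by_cases ha : a ∈ b.2
    · rw [if_pos (h1.2 ha), if_pos ha, ev_append, ev_expd S d b.1 a h]
    · rw [if_neg (fun h2 => ha (h1.1 h2)), if_neg ha, ev_nil]
  rw [e, sum_pats (pats d) (pt S b.1) (fun a => a ∈ b.2), count_pats]
  have h2 : (pt S b.1).length ≤ d := by
    unfold pt
    rwa [List.length_map]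
  have h3 : holds S b = true ↔ pt S b.1 ∈ b.2 := by
    unfold holds pt
    rw [decide_eq_true_iff]
  rw [if_pos h2]
  by_cases hb : pt S b.1 ∈ b.2
  · rw [if_pos hb, if_pos (h3.2 hb)]
    norm_num
  · rw [if_neg hb, if_neg (fun h => hb (h3.1 h))]
    norm_num

/-- the value of all blocks -/
theorem ev_blks (S : Lang) (d : ℕ) (l : List Block) (h : ∀ b ∈ l, b.1.length ≤ d) :
    ev S (l.flatMap (blk d)) = 2 * (l.countP (holds S) : ℤ) - l.length := by
  induction l with
  | nil => simp [ev_nil]
  | cons b l ih =>
    rw [List.flatMap_cons, ev_append, ev_blk S d b (h b List.mem_cons_self),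
      ih fun b' hb' => h b' (List.mem_cons_of_mem _ hb'), List.countP_cons, List.length_cons]
    by_cases hb : holds S b = true
    · simp only [hb, if_true]
      push_cast
      ring
    · simp only [hb, if_false]
      push_cast
      ring

theorem mem_blk (d : ℕ) (b : Block) (p : Bool × Feat) (h : p ∈ blk d b) :
    p.2.length ≤ d ∧ ∀ q ∈ p.2, q ∈ b.1 := by
  unfold blk at h
  rw [List.mem_append, List.mem_flatMap, List.mem_singleton] at h
  rcases h with ⟨a, _, h⟩ | rfl
  · split_ifs at h with h1
    · rw [List.mem_append] at h
      exact mem_expd d b.1 a p (h.elim id id)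
    · simp at h
  · simp

end EXP_

open EXP_ in
theorem p_EXP : T_EXP := by
  intro d S l h
  refine ⟨?_, ?_⟩
  · unfold toVec
    rw [ev_append, ev_append, ev_false, ev_blks S d l h]
    ring
  · intro p hp
    have h0 : ∀ p ∈ l.flatMap (blk d), p.2.length ≤ d ∧ ∀ q ∈ p.2, ∃ b ∈ l, q ∈ b.1 := by
      intro p hp
      obtain ⟨b, hb, hp⟩ := List.mem_flatMap.1 hp
      obtain ⟨h1, h2⟩ := mem_blk d b p hp
      exact ⟨h1, fun q hq => ⟨b, hb, h2 q hq⟩⟩
    unfold toVec at hp
    rw [List.mem_append, List.mem_append, List.mem_singleton] at hp
    rcases hp with (hp | hp) | rfl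
    · exact h0 p hp
    · exact h0 p hp
    · simp

end Pool.Agent.MAJ
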