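import Pool.Agent.MAJ.Targets4
import Pool.Agent.MAJ.P_EXP

set_option autoImplicit false

/-!
# MAJ: EXU, blocks to vectors, semantics (helper14)
-/

namespace Pool.Agent.MAJ

namespace EXU_

open EXP_

/-- the step is not cut -/
theorem step_len (P : List Unit) (W : Vec) (e : List Bool × Bool) (h : W.length ≤ P.length) :
    (mulStep P W e).length ≤ 2 * W.length := by
  unfold mulStep
  rw [if_neg (Nat.not_lt.2 h)]
  split_ifs with h1
  · rw [List.length_map]
    omega
  · rw [List.length_append, List.length_map]
    omega

open Classical in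
/-- the value of one step -/
theorem ev_step (S : Lang) (P : List Unit) (W : Vec) (e : List Bool × Bool)
    (h : W.length ≤ P.length) :
    ev S (mulStep P W e) = (if decide (e.1 ∈ S) = e.2 then 1 else 0) * ev S W := by
  unfold mulStep
  rw [if_neg (Nat.not_lt.2 h)]
  obtain ⟨q, b⟩ := e
  cases b with
  | true =>
    rw [if_pos rfl, ev_tag]
    by_cases hq : q ∈ S <;> simp [hq]
  | false =>
    rw [if_neg (by simp), ev_append, ev_tagn]
    by_cases hq : q ∈ S <;> simp [hq]

/-- the value of all steps -/
theorem ev_steps (S : Lang) (P : List Unit) (z : List (List Bool × Bool)) (W : Vec)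
    (h : W.length * 2 ^ z.length ≤ P.length) :
    ev S (z.foldl (mulStep P) W) =
      (if pt S (z.map Prod.fst) = z.map Prod.snd then 1 else 0) * ev S W := by
  induction z generalizing W with
  | nil => simp [pt]
  | cons e z ih =>
    have h1 : W.length ≤ P.length :=
      le_trans (Nat.le_mul_of_pos_right _ (by positivity)) h
    have h2 : (mulStep P W e).length * 2 ^ z.length ≤ P.length := by
      refine le_trans (Nat.mul_le_mul_right _ (step_len P W e h1)) (le_trans (le_of_eq ?_) h)
      rw [List.length_cons]
      ring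
    rw [List.foldl_cons, ih _ h2, ev_step S P W e h1]
    have hp : pt S ((e :: z).map Prod.fst) =
        (@decide (e.1 ∈ S) (Classical.propDecidable _)) :: pt S (z.map Prod.fst) := rfl
    rw [hp, List.map_cons]
    by_cases h3 : (@decide (e.1 ∈ S) (Classical.propDecidable _)) = e.2 <;>
      by_cases h4 : pt S (z.map Prod.fst) = z.map Prod.snd <;> simp [h3, h4]

/-- the members of the product -/
theorem mem_steps (P : List Unit) (Q : List Bool → Prop) (z : List (List Bool × Bool)) (W : Vec)
    (k : ℕ) (hz : ∀ e ∈ z, Q e.1) (hW : ∀ p ∈ W, p.2.length ≤ k ∧ ∀ q ∈ p.2, Q q) :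
    ∀ p ∈ z.foldl (mulStep P) W, p.2.length ≤ k + z.length ∧ ∀ q ∈ p.2, Q q := by
  induction z generalizing W k with
  | nil => simpa using hW
  | cons e z ih =>
    have h1 : ∀ p ∈ mulStep P W e, p.2.length ≤ k + 1 ∧ ∀ q ∈ p.2, Q q := by
      intro p hp
      have hc : ∀ r ∈ W, (e.1 :: r.2).length ≤ k + 1 ∧ ∀ q ∈ e.1 :: r.2, Q q := by
        intro r hr
        refine ⟨by simpa using (hW r hr).1, ?_⟩
        intro q hq
        rcases List.mem_cons.1 hq with rfl | hq
        · exact hz e List.mem_cons_self
        · exact (hW r hr).2 q hq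
      unfold mulStep at hp
      split_ifs at hp with h2 h3
      · exact ⟨by have := (hW p hp).1; omega, (hW p hp).2⟩
      · obtain ⟨r, hr, rfl⟩ := List.mem_map.1 hp
        exact hc r hr
      · rcases List.mem_append.1 hp with hp | hp
        · exact ⟨by have := (hW p hp).1; omega, (hW p hp).2⟩
        · obtain ⟨r, hr, rfl⟩ := List.mem_map.1 hp
          exact hc r hr
    intro p hp
    rw [List.foldl_cons] at hp
    obtain ⟨h2, h3⟩ := ih (mulStep P W e) (k + 1)
      (fun e' he' => hz e' (List.mem_cons_of_mem _ he')) h1 p hp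
    exact ⟨by rw [List.length_cons]; omega, h3⟩

/-- the value of the product -/
theorem ev_prodU (S : Lang) (P : List Unit) (qs : List (List Bool)) (a : List Bool)
    (hl : a.length = qs.length) (h : 2 ^ qs.length ≤ P.length) :
    ev S (prodU P qs a) = if pt S qs = a then 1 else 0 := by
  unfold prodU
  have hz : (qs.zip a).length = qs.length := by
    rw [List.length_zip, hl, min_self]
  rw [ev_steps S P _ _ (by rw [hz]; simpa using h), List.map_fst_zip (le_of_eq hl.symm),
    List.map_snd_zip (le_of_eq hl), ev_true, mul_one]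

/-- the members of the product -/
theorem mem_prodU (P : List Unit) (qs : List (List Bool)) (a : List Bool) (p : Bool × Feat)
    (h : p ∈ prodU P qs a) : p.2.length ≤ qs.length ∧ ∀ q ∈ p.2, q ∈ qs := by
  unfold prodU at h
  obtain ⟨h1, h2⟩ := mem_steps P (fun q => q ∈ qs) (qs.zip a) [(true, [])] 0
    (fun e he => (List.of_mem_zip he).1) (by simp) p h
  refine ⟨le_trans h1 ?_, h2⟩
  rw [List.length_zip]
  omega

/-- the step of `dpats` -/
def dst (n : ℕ) (s : List (List Bool)) (a : List Bool) : List (List Bool) :=
  if s.any (fun a' => decide (a' = a)) || !decide (a.length = n) then s else s ++ [a]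

theorem dst_fold (n : ℕ) (l s : List (List Bool)) (hs : s.Nodup) :
    (l.foldl (dst n) s).Nodup ∧
      ∀ a, a ∈ l.foldl (dst n) s ↔ a ∈ s ∨ (a ∈ l ∧ a.length = n) := by
  induction l generalizing s with
  | nil => exact ⟨hs, by simp⟩
  | cons c l ih =>
    rw [List.foldl_cons]
    by_cases h : c ∈ s ∨ c.length ≠ n
    · have e : dst n s c = s := by
        unfold dst
        rw [if_pos]
        rcases h with h | h
        · simp [h]
        · simp [h]
      rw [e]
      refine ⟨(ih s hs).1, fun a => ?_⟩
      rw [(ih s hs).2 a, List.mem_cons]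
      constructor
      · rintro (h1 | ⟨h1, h2⟩)
        · exact Or.inl h1
        · exact Or.inr ⟨Or.inr h1, h2⟩
      · rintro (h1 | ⟨rfl | h1, h2⟩)
        · exact Or.inl h1
        · rcases h with h | h
          · exact Or.inl h
          · exact absurd h2 h
        · exact Or.inr ⟨h1, h2⟩
    · have hc : c ∉ s := fun h1 => h (Or.inl h1)
      have hn : c.length = n := by
        by_contra h1
        exact h (Or.inr h1)
      have e : dst n s c = s ++ [c] := by
        unfold dst
        rw [if_neg]
        simp [hc, hn]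
      have hs' : (s ++ [c]).Nodup := by
        rw [List.nodup_append]
        refine ⟨hs, List.nodup_singleton c, ?_⟩
        intro a ha b hb hab
        rw [List.mem_singleton] at hb
        exact hc (by rw [← hb, ← hab]; exact ha)
      rw [e]
      refine ⟨(ih _ hs').1, fun a => ?_⟩
      rw [(ih _ hs').2 a, List.mem_append, List.mem_singleton, List.mem_cons]
      constructor
      · rintro ((h1 | rfl) | ⟨h1, h2⟩)
        · exact Or.inl h1
        · exact Or.inr ⟨Or.inl rfl, hn⟩
        · exact Or.inr ⟨Or.inr h1, h2⟩
      · rintro (h1 | ⟨rfl | h1, h2⟩)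
        · exact Or.inl (Or.inl h1)
        · exact Or.inl (Or.inr rfl)
        · exact Or.inr ⟨h1, h2⟩

theorem dpats_nodup (b : Block) : (dpats b).Nodup :=
  (dst_fold b.1.length b.2 [] List.nodup_nil).1

theorem mem_dpats (b : Block) (a : List Bool) :
    a ∈ dpats b ↔ a ∈ b.2 ∧ a.length = b.1.length := by
  have h := (dst_fold b.1.length b.2 [] List.nodup_nil).2 a
  rw [show b.2.foldl (dst b.1.length) [] = dpats b from rfl] at h
  rw [h]
  simp

/-- a sum with at most one nonzero term -/
theorem sum_one (L : List (List Bool)) (A : List Bool) (f : List Bool → ℤ)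
    (hf : ∀ a ∈ L, f a = (if A = a then 1 else 0) + (if A = a then 1 else 0)) :
    (L.map f).sum = 2 * (L.count A : ℤ) := by
  induction L with
  | nil => simp
  | cons a L ih =>
    rw [List.map_cons, List.sum_cons, ih fun a' ha' => hf a' (List.mem_cons_of_mem _ ha'),
      hf a List.mem_cons_self, List.count_cons]
    by_cases ha : A = a
    · subst ha
      simp only [if_true, beq_self_eq_true]
      push_cast
      ring
    · have ha' : ¬ (a == A) = true := by
        simpa using fun h => ha h.symm
      simp [ha, ha']

/-- the value of a block -/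
theorem ev_blkU (S : Lang) (P : List Unit) (b : Block) (h : 2 ^ b.1.length ≤ P.length) :
    ev S (blkU P b) = 2 * (if holds S b = true then 1 else 0) - 1 := by
  unfold blkU
  rw [ev_append, ev_false, ev_flatMap]
  have e := sum_one (dpats b) (pt S b.1) (fun a => ev S (prodU P b.1 a ++ prodU P b.1 a))
    (fun a ha => by
      rw [ev_append, ev_prodU S P b.1 a ((mem_dpats b a).1 ha).2 h])
  rw [e]
  have h3 : holds S b = true ↔ pt S b.1 ∈ b.2 := by
    unfold holds pt
    rw [decide_eq_true_iff]
  have h4 : (pt S b.1).length = b.1.length := by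
    unfold pt
    rw [List.length_map]
  by_cases hb : pt S b.1 ∈ b.2
  · rw [List.count_eq_one_of_mem (dpats_nodup b) ((mem_dpats b _).2 ⟨hb, h4⟩),
      if_pos (h3.2 hb)]
    norm_num
  · rw [List.count_eq_zero_of_not_mem (fun h1 => hb ((mem_dpats b _).1 h1).1),
      if_neg (fun h => hb (h3.1 h))]
    norm_num

/-- the value of all blocks -/
theorem ev_blksU (S : Lang) (P : List Unit) (l : List Block)
    (h : ∀ b ∈ l, 2 ^ b.1.length ≤ P.length) :
    ev S (l.flatMap (blkU P)) = 2 * (l.countP (holds S) : ℤ) - l.length := by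
  induction l with
  | nil => simp [ev_nil]
  | cons b l ih =>
    rw [List.flatMap_cons, ev_append, ev_blkU S P b (h b List.mem_cons_self),
      ih fun b' hb' => h b' (List.mem_cons_of_mem _ hb'), List.countP_cons, List.length_cons]
    by_cases hb : holds S b = true
    · simp only [hb, if_true]
      push_cast
      ring
    · simp only [hb, if_false]
      push_cast
      ring

theorem mem_blkU (P : List Unit) (b : Block) (p : Bool × Feat) (h : p ∈ blkU P b) :
    p.2.length ≤ b.1.length ∧ ∀ q ∈ p.2, q ∈ b.1 := by
  unfold blkU at h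
  rw [List.mem_append, List.mem_flatMap, List.mem_singleton] at h
  rcases h with ⟨a, _, h⟩ | rfl
  · rw [List.mem_append] at h
    exact mem_prodU P b.1 a p (h.elim id id)
  · simp

end EXU_

open EXP_ EXU_ in
theorem p_EXU : T_EXU := by
  intro D S P l h hP
  refine ⟨?_, ?_⟩
  · unfold toVecU
    rw [ev_append, ev_append, ev_false, ev_blksU S P l fun b hb =>
      le_trans (Nat.pow_le_pow_right (by norm_num) (h b hb)) hP]
    ring
  · intro p hp
    have h0 : ∀ p ∈ l.flatMap (blkU P), p.2.length ≤ D ∧ ∀ q ∈ p.2, ∃ b ∈ l, q ∈ b.1 := by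
      intro p hp
      obtain ⟨b, hb, hp⟩ := List.mem_flatMap.1 hp
      obtain ⟨h1, h2⟩ := mem_blkU P b p hp
      exact ⟨le_trans h1 (h b hb), fun q hq => ⟨b, hb, h2 q hq⟩⟩
    unfold toVecU at hp
    rw [List.mem_append, List.mem_append, List.mem_singleton] at hp
    rcases hp with (hp | hp) | rfl
    · exact h0 p hp
    · exact h0 p hp
    · simp

end Pool.Agent.MAJ
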