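import Pool.Agent.MAJ.Targets

set_option autoImplicit false

namespace Pool.Agent.MAJ

open Pool.Agent.PT

namespace PEN_

section
variable [hC : Fact Core]

theorem encL_pt : PolyF encL := by
  unfold encL
  fun_prop

theorem takeU_pt {α : Type} [Dat α] :
    PolyF (fun p : List α × List Unit => takeU p.1 p.2) := by
  unfold takeU
  fun_prop

theorem dot_pt : PolyF (fun p : List Bool × List Bool => dot p.1 p.2) := by
  unfold dot
  fun_prop

omit hC in
theorem sz_tail {α : Type} [Dat α] (l : List α) : sz l.tail ≤ sz l := by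
  cases l with
  | nil => exact le_rfl
  | cons a l => rw [List.tail_cons, sz_cons]; omega

omit hC in
theorem sz_dropU {α : Type} [Dat α] (m : List Unit) : ∀ l : List α, sz (dropU l m) ≤ sz l := by
  induction m with
  | nil => intro l; exact le_rfl
  | cons u m ih =>
    intro l
    exact (ih l.tail).trans (sz_tail l)

omit hC in
theorem sz_takeU {α : Type} [Dat α] (l : List α) : ∀ m : List Unit, sz (takeU l m) ≤ sz l := by
  induction l with
  | nil => intro m; exact le_rfl
  | cons a l ih =>
    intro m
    cases m with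
    | nil => 
      have := sz_pos (a :: l)
      show 1 ≤ _
      omega
    | cons u m =>
      have := ih m
      show sz (a :: takeU l m) ≤ _
      rw [sz_cons, sz_cons]
      omega

theorem dropU_pt {α : Type} [Dat α] :
    PolyF (fun p : List α × List Unit => dropU p.1 p.2) := by
  unfold dropU
  refine PolyF.foldl (by fun_prop) (by fun_prop) (by fun_prop)
    (fun p : List α × List Unit => sz p.1) (PolyF.bound (by fun_prop)) ?_
  intro x l₁ _
  exact sz_dropU l₁ x.1

omit hC in
theorem foldl_sz {β α : Type} [Dat β] (f : β → α → β) (c : ℕ)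
    (h : ∀ s a, sz (f s a) ≤ sz s + c) (l : List α) : ∀ s, sz (l.foldl f s) ≤ sz s + c * l.length := by
  induction l with
  | nil => intro s; simp
  | cons a l ih =>
    intro s
    rw [List.foldl_cons, List.length_cons]
    have h1 := ih (f s a)
    have h2 := h s a
    rw [mul_add]
    omega

omit hC in
theorem sz_dec (s : Bool × List Bool × List (List Bool)) (c : Bool) :
    sz (decStep s c) ≤ sz s + 4 := by
  obtain ⟨m, w, L⟩ := s
  unfold decStep
  have h1 := sz_pos m
  have h2 := sz_append w [c]
  have h3 := sz_bool c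
  have h4 := sz_append L [w]
  have e1 : sz ([c] : List Bool) = sz c + 1 + 1 := rfl
  have e2 : sz ([w] : List (List Bool)) = sz w + 1 + 1 := rfl
  have e3 : sz false = 1 := rfl
  have e4 : sz true = 3 := rfl
  have e5 : sz ([] : List Bool) = 1 := rfl
  cases m <;> cases c <;> simp only [sz_pair, if_true, if_false, Bool.false_eq_true] <;> omega

theorem decStep_pt : PolyF (fun p : (Bool × List Bool × List (List Bool)) × Bool =>
    decStep p.1 p.2) := by
  unfold decStep
  fun_prop

theorem decL_pt : PolyF decL := by
  unfold decL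
  refine PolyF.snd (PolyF.snd ?_)
  refine PolyF.foldl (f := fun _ => decStep) ?_ (by fun_prop) (by fun_prop)
    (fun z : List Bool => 5 + 4 * sz z) ((PolyB.const 5).add ((PolyB.const 4).mul PolyB.sz)) ?_
  · exact decStep_pt.comp (g := fun p : List Bool × (Bool × List Bool × List (List Bool)) × Bool =>
      (p.2.1, p.2.2)) (by fun_prop)
  · intro x l₁ hl
    have h1 := foldl_sz decStep 4 sz_dec l₁ (false, [], [])
    have h2 := length_lt_sz l₁
    have h3 := sz_le_of_prefix hl
    have e : sz ((false, [], []) : Bool × List Bool × List (List Bool)) = 5 := rfl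
    rw [e] at h1
    have : l₁.length ≤ sz x := by omega
    omega

/-- The kind of a letter. -/
def kd (t : Tok) : ℕ := match t with
  | .bit _ => 0
  | .endQuery => 1
  | .endPattern => 2
  | .endBlock => 3

/-- The bit of a letter. -/
def bt (t : Tok) : Bool := match t with
  | .bit b => b
  | _ => false

/-- The state of the parser. -/
abbrev PSt : Type := List Bool × List (List Bool) × List (List Bool) × List Block

omit hC in
theorem parseStep_eq (s : PSt) (t : Tok) : parseStep s t =
    cond (decide (kd t = 0)) (s.1 ++ [bt t], s.2)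
      (cond (decide (kd t = 1)) ([], s.2.1 ++ [s.1], s.2.2)
        (cond (decide (kd t = 2)) ([], s.2.1, s.2.2.1 ++ [s.1], s.2.2.2)
          ([], [], [], s.2.2.2 ++ [(s.2.1, s.2.2.1)]))) := by
  cases t <;> rfl

theorem kd_pt : PolyF kd := PolyF.finite kd
theorem bt_pt : PolyF bt := PolyF.finite bt

theorem parseStep_pt : PolyF (fun p : PSt × Tok => parseStep p.1 p.2) := by
  have h1 : PolyF (fun p : PSt × Tok => kd p.2) := kd_pt.comp (by fun_prop)
  have h2 : PolyF (fun p : PSt × Tok => bt p.2) := bt_pt.comp (by fun_prop)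
  refine PolyF.congr ?_ (fun p => (parseStep_eq p.1 p.2).symm)
  refine PolyF.cond (by fun_prop) (by fun_prop) (PolyF.cond (by fun_prop) (by fun_prop)
    (PolyF.cond (by fun_prop) (by fun_prop) (by fun_prop)))

omit hC in
theorem sz_parse (s : PSt) (t : Tok) : sz (parseStep s t) ≤ sz s + 8 := by
  obtain ⟨w, q, p, L⟩ := s
  have e5 : sz ([] : List Bool) = 1 := rfl
  have e6 : sz ([] : List (List Bool)) = 1 := rfl
  have h0 := sz_pos w
  have h0' := sz_pos q
  have h0'' := sz_pos p
  cases t with
  | bit b =>
    have h1 := sz_append w [b]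
    have e1 : sz ([b] : List Bool) = sz b + 1 + 1 := rfl
    have h3 := sz_bool b
    simp only [parseStep, sz_pair]
    omega
  | endQuery =>
    have h1 := sz_append q [w]
    have e1 : sz ([w] : List (List Bool)) = sz w + 1 + 1 := rfl
    simp only [parseStep, sz_pair]
    omega
  | endPattern =>
    have h1 := sz_append p [w]
    have e1 : sz ([w] : List (List Bool)) = sz w + 1 + 1 := rfl
    simp only [parseStep, sz_pair]
    omega
  | endBlock =>
    have h1 := sz_append L [(q, p)]
    have e1 : sz ([(q, p)] : List Block) = sz (q, p) + 1 + 1 := rfl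
    have e2 : sz (q, p) = sz q + sz p + 1 := rfl
    simp only [parseStep, sz_pair]
    omega

theorem parse_pt : PolyF parse := by
  unfold parse
  refine PolyF.snd (PolyF.snd (PolyF.snd ?_))
  refine PolyF.foldl (f := fun _ => parseStep) ?_ (by fun_prop) (by fun_prop)
    (fun z : List Tok => 7 + 8 * sz z) ((PolyB.const 7).add ((PolyB.const 8).mul PolyB.sz)) ?_
  · exact parseStep_pt.comp (g := fun p : List Tok × PSt × Tok => (p.2.1, p.2.2)) (by fun_prop)
  · intro x l₁ hl
    have h1 := foldl_sz parseStep 8 sz_parse l₁ ([], [], [], [])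
    have h2 := length_lt_sz l₁
    have h3 := sz_le_of_prefix hl
    have e : sz (([], [], [], []) : PSt) = 7 := rfl
    rw [e] at h1
    have : l₁.length ≤ sz x := by omega
    omega

omit hC in
theorem chunks_sz (m : List Unit) (M : ℕ) (k : List Unit) : ∀ s : List Bool × List (List Bool),
    sz s.1 ≤ M → sz (k.foldl (fun (s : List Bool × List (List Bool)) _ =>
      (dropU s.1 m, s.2 ++ [takeU s.1 m])) s) ≤ M + sz s.2 + 1 + (M + 1) * k.length := by
  induction k with
  | nil =>
    intro s hs
    obtain ⟨a, b⟩ := s
    simp only [List.foldl_nil, sz_pair, List.length_nil] at *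
    omega
  | cons u k ih =>
    intro s hs
    rw [List.foldl_cons, List.length_cons]
    have h1 := ih (dropU s.1 m, s.2 ++ [takeU s.1 m]) ((sz_dropU m s.1).trans hs)
    have h2 := sz_append s.2 [takeU s.1 m]
    have e1 : sz ([takeU s.1 m] : List (List Bool)) = sz (takeU s.1 m) + 1 + 1 := rfl
    have h3 := sz_takeU s.1 m
    have h4 : (M + 1) * (k.length + 1) = (M + 1) * k.length + (M + 1) := by ring
    simp only at h1
    omega

theorem chunks_pt : PolyF (fun p : (List Unit × List Unit) × List Bool =>
    chunks p.1.1 p.1.2 p.2) := by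
  unfold chunks
  refine PolyF.snd ?_
  refine PolyF.foldl (γ := (List Unit × List Unit) × List Bool)
    (f := fun (x : (List Unit × List Unit) × List Bool) (s : List Bool × List (List Bool)) _ =>
      (dropU s.1 x.1.1, s.2 ++ [takeU s.1 x.1.1])) ?_ (by fun_prop) (by fun_prop)
    (fun x => sz x + 1 + 1 + (sz x + 1) * sz x)
    (((PolyB.sz.add (PolyB.const 1)).add (PolyB.const 1)).add
      ((PolyB.sz.add (PolyB.const 1)).mul PolyB.sz)) ?_
  · have h1 : PolyF (fun p : ((List Unit × List Unit) × List Bool) ×
        (List Bool × List (List Bool)) × Unit => dropU p.2.1.1 p.1.1.1) :=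
      dropU_pt.comp (g := fun p : ((List Unit × List Unit) × List Bool) ×
        (List Bool × List (List Bool)) × Unit => (p.2.1.1, p.1.1.1)) (by fun_prop)
    have h2 : PolyF (fun p : ((List Unit × List Unit) × List Bool) ×
        (List Bool × List (List Bool)) × Unit => takeU p.2.1.1 p.1.1.1) :=
      takeU_pt.comp (g := fun p : ((List Unit × List Unit) × List Bool) ×
        (List Bool × List (List Bool)) × Unit => (p.2.1.1, p.1.1.1)) (by fun_prop)
    fun_prop
  · intro x l₁ hl
    have h1 := chunks_sz x.1.1 (sz x) l₁ (x.2, []) (sz_snd x)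
    have h2 := length_lt_sz l₁
    have h3 := sz_le_of_prefix hl
    have h4 := sz_snd x.1
    have h5 := sz_fst x
    have e : sz ([] : List (List Bool)) = 1 := rfl
    simp only [e] at h1
    have h6 : l₁.length ≤ sz x := by omega
    have h7 : (sz x + 1) * l₁.length ≤ (sz x + 1) * sz x := Nat.mul_le_mul_left _ h6
    omega

omit hC in
theorem unis_sz (M : ℕ) (k : List Unit) : ∀ s : List Unit × List (List Unit),
    sz s.1 + 2 * k.length ≤ M → sz (k.foldl (fun (s : List Unit × List (List Unit)) u =>
      (u :: s.1, s.2 ++ [u :: s.1])) s) ≤ M + sz s.2 + 1 + (M + 1) * k.length := by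
  induction k with
  | nil =>
    intro s hs
    obtain ⟨a, b⟩ := s
    simp only [List.foldl_nil, sz_pair, List.length_nil] at *
    omega
  | cons u k ih =>
    intro s hs
    rw [List.foldl_cons, List.length_cons]
    rw [List.length_cons] at hs
    have e0 : sz (u :: s.1) = 1 + sz s.1 + 1 := rfl
    have h1 := ih (u :: s.1, s.2 ++ [u :: s.1]) (by simp only [e0]; omega)
    have h2 := sz_append s.2 [u :: s.1]
    have e1 : sz ([u :: s.1] : List (List Unit)) = sz (u :: s.1) + 1 + 1 := rfl
    have h4 : (M + 1) * (k.length + 1) = (M + 1) * k.length + (M + 1) := by ring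
    simp only at h1
    omega

theorem unis_pt : PolyF unis := by
  unfold unis
  refine PolyF.snd ?_
  refine PolyF.foldl (f := fun _ (s : List Unit × List (List Unit)) u =>
      (u :: s.1, s.2 ++ [u :: s.1])) (by fun_prop) (by fun_prop) (by fun_prop)
    (fun x : List Unit => (2 * sz x + 1) + 3 + 1 + ((2 * sz x + 1) + 1) * sz x)
    ((((((PolyB.const 2).mul PolyB.sz).add (PolyB.const 1)).add (PolyB.const 3)).add
      (PolyB.const 1)).add
      (((((PolyB.const 2).mul PolyB.sz).add (PolyB.const 1)).add (PolyB.const 1)).mul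
        PolyB.sz)) ?_
  intro x l₁ hl
  have h2 := length_lt_sz l₁
  have h3 := sz_le_of_prefix hl
  have h6 : l₁.length ≤ sz x := by omega
  have e0 : sz ([] : List Unit) = 1 := rfl
  have e1 : sz ([[]] : List (List Unit)) = 3 := rfl
  have h1 := unis_sz (2 * sz x + 1) l₁ ([], [[]]) (by simp only [e0]; omega)
  simp only [e1] at h1
  have h7 : (2 * sz x + 1 + 1) * l₁.length ≤ (2 * sz x + 1 + 1) * sz x :=
    Nat.mul_le_mul_left _ h6
  omega

end

end PEN_

theorem p_PEN : T_PEN := by
  have : Fact Pool.Agent.PT.Core := ⟨Pool.Agent.PT.core⟩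
  exact ⟨PEN_.encL_pt, PEN_.decL_pt, PEN_.parse_pt, fun {α} _ => PEN_.takeU_pt,
    fun {α} _ => PEN_.dropU_pt, PEN_.chunks_pt, PEN_.unis_pt, PEN_.dot_pt⟩

end Pool.Agent.MAJ
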