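import Pool.Agent.MAJ.Targets4
import Pool.Agent.MAJ.P_PEN

set_option autoImplicit false

/-!
# PDU: the quasi-polynomial in unary
-/

namespace Pool.Agent.MAJ

open Pool.Agent.PT

namespace PDU_

/-- One step of the logarithm. -/
def lgStep (u : List Unit) (s : List Unit × List Unit) : List Unit × List Unit :=
  cond (decide (s.2.length + s.2.length ≤ u.length)) (() :: s.1, s.2 ++ s.2) s

/-- The logarithm in unary. -/
def lgU (u : List Unit) : List Unit := (u.foldl (fun s _ => lgStep u s) ([], [()])).1

theorem lg_inv (u : List Unit) (hu : u ≠ []) (l : List Unit) : ∀ s : List Unit × List Unit,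
    s.1.length ≤ Nat.log 2 u.length → s.2.length = 2 ^ s.1.length →
    (l.foldl (fun s _ => lgStep u s) s).1.length = min (s.1.length + l.length)
      (Nat.log 2 u.length) ∧
    (l.foldl (fun s _ => lgStep u s) s).2.length =
      2 ^ (l.foldl (fun s _ => lgStep u s) s).1.length := by
  have hu0 : u.length ≠ 0 := by
    rwa [Ne, List.length_eq_zero_iff]
  induction l with
  | nil =>
    intro s h1 h2
    simp only [List.foldl_nil, List.length_nil, Nat.add_zero]
    exact ⟨(min_eq_left h1).symm, h2⟩
  | cons a l ih =>
    intro s h1 h2
    rw [List.foldl_cons, List.length_cons]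
    by_cases h : s.2.length + s.2.length ≤ u.length
    · have h3 : lgStep u s = (() :: s.1, s.2 ++ s.2) := by
        unfold lgStep
        rw [decide_eq_true h]
        rfl
      have h4 : s.1.length + 1 ≤ Nat.log 2 u.length := by
        apply Nat.le_log_of_pow_le (by norm_num)
        rw [pow_succ, ← h2]
        omega
      have h5 := ih (lgStep u s) (by rw [h3]; simpa using h4) (by
        rw [h3]
        simp only [List.length_append, List.length_cons]
        rw [pow_succ, h2]
        ring)
      rw [h3] at h5 ⊢
      simp only [List.length_cons] at h5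
      refine ⟨?_, h5.2⟩
      rw [h5.1]
      congr 1
      ring
    · have h3 : lgStep u s = s := by
        unfold lgStep
        rw [decide_eq_false h]
        rfl
      have h4 : s.1.length = Nat.log 2 u.length := by
        refine le_antisymm h1 ?_
        by_contra h6
        apply h
        have h7 : 2 ^ (s.1.length + 1) ≤ u.length :=
          (Nat.pow_le_pow_right (by norm_num) (by omega)).trans (Nat.pow_log_le_self 2 hu0)
        rw [pow_succ, ← h2] at h7
        omega
      have h5 := ih s h1 h2
      rw [h3]
      refine ⟨?_, h5.2⟩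
      rw [h5.1]
      omega

theorem lgU_length (u : List Unit) : (lgU u).length = Nat.log 2 u.length := by
  by_cases hu : u = []
  · subst hu
    rfl
  · unfold lgU
    have h := lg_inv u hu u ([], [()]) (by simp) (by simp)
    rw [h.1]
    have h2 : Nat.log 2 u.length ≤ u.length := Nat.log_le_self _ _
    simp only [List.length_nil, Nat.zero_add]
    omega

theorem lg_sz (u : List Unit) (l : List Unit) : ∀ s : List Unit × List Unit,
    sz s.2 ≤ 2 * sz u + 10 →
    sz (l.foldl (fun s _ => lgStep u s) s) ≤ sz s.1 + 2 * l.length + 2 * sz u + 11 := by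
  induction l with
  | nil =>
    intro s hs
    obtain ⟨a, b⟩ := s
    simp only [List.foldl_nil, sz_pair, List.length_nil] at *
    omega
  | cons a l ih =>
    intro s hs
    rw [List.foldl_cons, List.length_cons]
    by_cases h : s.2.length + s.2.length ≤ u.length
    · have h3 : lgStep u s = (() :: s.1, s.2 ++ s.2) := by
        unfold lgStep
        rw [decide_eq_true h]
        rfl
      have e0 : sz (() :: s.1) = 1 + sz s.1 + 1 := rfl
      have h5 := ih (lgStep u s) (by
        rw [h3]
        have h6 : sz (s.2 ++ s.2) ≤ (s.2 ++ s.2).length * (1 + 1) + 1 :=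
          sz_list_le fun a _ => le_rfl
        have h7 := length_lt_sz u
        rw [List.length_append] at h6
        show sz (s.2 ++ s.2) ≤ _
        omega)
      rw [h3] at h5 ⊢
      simp only [e0] at h5
      omega
    · have h3 : lgStep u s = s := by
        unfold lgStep
        rw [decide_eq_false h]
        rfl
      have h5 := ih s hs
      rw [h3]
      omega

section
variable [hC : Fact Core]

theorem lgU_pt : PolyF lgU := by
  unfold lgU
  refine PolyF.fst ?_
  refine PolyF.foldl (f := fun (u : List Unit) (s : List Unit × List Unit) (_ : Unit) =>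
    lgStep u s) ?_ (by fun_prop) (by fun_prop)
    (fun x : List Unit => 1 + 2 * sz x + 2 * sz x + 11)
    ((((PolyB.const 1).add ((PolyB.const 2).mul PolyB.sz)).add
      ((PolyB.const 2).mul PolyB.sz)).add (PolyB.const 11)) ?_
  · unfold lgStep
    refine PolyF.cond (by fun_prop) (by fun_prop) (by fun_prop)
  · intro x l₁ hl
    have h1 := lg_sz x l₁ ([], [()]) (by
      have : sz ([()] : List Unit) = 3 := rfl
      simp only [this]
      omega)
    have h2 := length_lt_sz l₁
    have h3 := sz_le_of_prefix hl
    have e : sz ([] : List Unit) = 1 := rfl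
    simp only [e] at h1
    omega

theorem takeU_length {α : Type} (l : List α) (m : List Unit) :
    (takeU l m).length = min l.length m.length := by
  unfold takeU
  rw [List.length_map, List.length_zip]

/-- Repeated doubling, cut at the length of `P`. -/
def dbl (P : List Unit) (e : List Unit) : List Unit :=
  e.foldl (fun w _ => takeU (w ++ w) P) [()]

theorem dbl_len (P : List Unit) (l : List Unit) : ∀ w : List Unit,
    w.length * 2 ^ l.length ≤ P.length →
    (l.foldl (fun w _ => takeU (w ++ w) P) w).length = w.length * 2 ^ l.length := by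
  induction l with
  | nil => intro w _; simp
  | cons a l ih =>
    intro w hw
    rw [List.foldl_cons, List.length_cons]
    rw [List.length_cons, pow_succ] at hw
    have h1 : 1 ≤ 2 ^ l.length := Nat.one_le_two_pow
    have h2 : (takeU (w ++ w) P).length = w.length + w.length := by
      rw [takeU_length, List.length_append]
      apply min_eq_left
      nlinarith
    have h3 := ih (takeU (w ++ w) P) (by rw [h2]; nlinarith)
    rw [h3, h2, pow_succ]
    ring

theorem dbl_sz (P : List Unit) (l : List Unit) : ∀ w : List Unit, w.length ≤ P.length + 1 →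
    (l.foldl (fun w _ => takeU (w ++ w) P) w).length ≤ P.length + 1 := by
  induction l with
  | nil => intro w hw; exact hw
  | cons a l ih =>
    intro w _
    rw [List.foldl_cons]
    apply ih
    rw [takeU_length]
    have := min_le_right (w ++ w).length P.length
    omega

theorem dbl_pt : PolyF (fun p : List Unit × List Unit => dbl p.1 p.2) := by
  unfold dbl
  refine PolyF.foldl (γ := List Unit × List Unit)
    (f := fun (x : List Unit × List Unit) (w : List Unit) (_ : Unit) => takeU (w ++ w) x.1)
    ?_ (by fun_prop) (by fun_prop)
    (fun x => (sz x + 1) * 2 + 1)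
    (((PolyB.sz.add (PolyB.const 1)).mul (PolyB.const 2)).add (PolyB.const 1)) ?_
  · exact (PEN_.takeU_pt (α := Unit)).comp (g := fun p : (List Unit × List Unit) ×
      (List Unit) × Unit => (p.2.1 ++ p.2.1, p.1.1)) (by fun_prop)
  · intro x l₁ _
    have h1 := dbl_sz x.1 l₁ [()] (by simp)
    have h2 := length_lt_sz x.1
    have h3 := sz_fst x
    have h4 : sz (l₁.foldl (fun w _ => takeU (w ++ w) x.1) [()]) ≤
        (l₁.foldl (fun w _ => takeU (w ++ w) x.1) [()]).length * (1 + 1) + 1 :=
      sz_list_le fun a _ => le_rfl
    refine h4.trans ?_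
    omega

end

end PDU_

open PDU_ in
theorem p_PDU : T_PDU := by
  have : Fact Pool.Agent.PT.Core := ⟨Pool.Agent.PT.core⟩
  intro c
  obtain ⟨L, hL, hLe⟩ := Pool.Agent.CookLevin.tLEN (Γ := Unit)
    (Polynomial.X ^ c + Polynomial.C c)
  refine ⟨fun p => dbl p.2 (L (lgU p.1)), ?_, ?_⟩
  · have h1 : PolyF (fun p : List Unit × List Unit => L (lgU p.1)) :=
      hL.comp (lgU_pt.comp (by fun_prop))
    exact dbl_pt.comp (g := fun p : List Unit × List Unit => (p.2, L (lgU p.1)))
      (PolyF.pair (by fun_prop) h1)
  · intro u P hP
    have h1 : (L (lgU u)).length = Nat.log 2 u.length ^ c + c := by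
      rw [hLe, lgU_length]
      simp
    have h2 := dbl_len P (L (lgU u)) [()] (by
      rw [h1]
      simpa [quasi] using hP)
    show (dbl P (L (lgU u))).length = _
    unfold dbl
    rw [h2, h1]
    simp [quasi]

end Pool.Agent.MAJ
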