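import Pool.Agent.MAJ.Targets4

/-! PTU: blocks to vectors in polynomial time, with a cap on the length -/

set_option autoImplicit false

namespace Pool.Agent.MAJ

open Pool.Agent.PT

namespace PTU_

section

theorem mul_inv (P : List Unit) (l : List (List Bool × Bool)) :
    (l.foldl (mulStep P) [(true, [])]).length ≤ 2 * P.length + 1 ∧
    ∀ p ∈ l.foldl (mulStep P) [(true, [])], sz p.2 ≤ sz l := by
  induction l using List.reverseRecOn with
  | nil =>
    refine ⟨by simp, ?_⟩
    intro p hp
    simp only [List.foldl_nil, List.mem_singleton] at hp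
    subst hp
    exact le_rfl
  | append_singleton l e ih =>
    rw [List.foldl_append, List.foldl_cons, List.foldl_nil]
    obtain ⟨h1, h2⟩ := ih
    generalize l.foldl (mulStep P) [(true, [])] = W at h1 h2
    have h3 := sz_append l [e]
    have e1 : sz ([e] : List (List Bool × Bool)) = sz e + 1 + 1 := rfl
    have e2 : sz e = sz e.1 + sz e.2 + 1 := rfl
    have h4 : ∀ p ∈ W, sz (e.1 :: p.2) ≤ sz (l ++ [e]) := by
      intro p hp
      have := h2 p hp
      rw [sz_cons]
      omega
    have h5 : ∀ p ∈ W, sz p.2 ≤ sz (l ++ [e]) := by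
      intro p hp
      have := h2 p hp
      omega
    unfold mulStep
    split_ifs with ha hb
    · exact ⟨h1, h5⟩
    · refine ⟨by rw [List.length_map]; exact h1, ?_⟩
      intro p hp
      obtain ⟨p', hp', rfl⟩ := List.mem_map.1 hp
      exact h4 p' hp'
    · refine ⟨by rw [List.length_append, List.length_map]; omega, ?_⟩
      intro p hp
      rcases List.mem_append.1 hp with hp | hp
      · exact h5 p hp
      · obtain ⟨p', hp', rfl⟩ := List.mem_map.1 hp
        exact h4 p' hp'

theorem mul_sz (P : List Unit) (l : List (List Bool × Bool)) :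
    sz (l.foldl (mulStep P) [(true, [])]) ≤ (sz l + 5) * (2 * sz P + 1) + 1 := by
  obtain ⟨h1, h2⟩ := mul_inv P l
  have h3 : ∀ p ∈ l.foldl (mulStep P) [(true, [])], sz p ≤ sz l + 4 := by
    intro p hp
    have h4 := h2 p hp
    have h5 := sz_bool p.1
    have h6 : sz p = sz p.1 + sz p.2 + 1 := rfl
    omega
  have h7 := sz_list_le h3
  have h8 := length_lt_sz P
  have h9 : (l.foldl (mulStep P) [(true, [])]).length ≤ 2 * sz P + 1 := by omega
  have h10 := Nat.mul_le_mul_left (sz l + 5) h9
  calc _ ≤ _ := h7
    _ ≤ _ := by nlinarith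

variable [hC : Fact Core]

theorem mulStep_pt : PolyF (fun p : List Unit × Vec × (List Bool × Bool) =>
    mulStep p.1 p.2.1 p.2.2) := by
  have h1 : PolyF (fun p : List Unit × Vec × (List Bool × Bool) =>
      p.2.1.map fun q => (q.1, p.2.2.1 :: q.2)) :=
    PolyF.map (f := fun (p : List Unit × Vec × (List Bool × Bool)) (q : Bool × Feat) =>
      (q.1, p.2.2.1 :: q.2)) (by fun_prop) (by fun_prop)
  have h2 : PolyF (fun p : List Unit × Vec × (List Bool × Bool) =>
      p.2.1.map fun q => (!q.1, p.2.2.1 :: q.2)) :=
    PolyF.map (f := fun (p : List Unit × Vec × (List Bool × Bool)) (q : Bool × Feat) =>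
      (!q.1, p.2.2.1 :: q.2)) (by fun_prop) (by fun_prop)
  have h3 : PolyF (fun p : List Unit × Vec × (List Bool × Bool) =>
      cond (decide (p.1.length < p.2.1.length)) p.2.1
        (cond p.2.2.2 (p.2.1.map fun q => (q.1, p.2.2.1 :: q.2))
          (p.2.1 ++ p.2.1.map fun q => (!q.1, p.2.2.1 :: q.2)))) :=
    PolyF.cond (by fun_prop) (by fun_prop) (PolyF.cond (by fun_prop) h1
      (PolyF.append (by fun_prop) h2))
  refine h3.congr fun p => ?_
  unfold mulStep
  by_cases h : p.1.length < p.2.1.length
  · rw [if_pos h, decide_eq_true h, cond_true]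
  · rw [if_neg h, decide_eq_false h, cond_false]
    cases p.2.2.2 <;> rfl

theorem prodU_pt : PolyF (fun p : List Unit × List (List Bool) × List Bool =>
    prodU p.1 p.2.1 p.2.2) := by
  unfold prodU
  have hz : PolyF (fun p : List Unit × List (List Bool) × List Bool => p.2.1.zip p.2.2) := by
    fun_prop
  refine PolyF.foldl (γ := List Unit × List (List Bool) × List Bool)
    (f := fun x W e => mulStep x.1 W e) ?_ (by fun_prop) hz
    (fun x => (sz (x.2.1.zip x.2.2) + 5) * (2 * sz x.1 + 1) + 1)
    ((((PolyF.bound hz).add (PolyB.const 5)).mul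
      (((PolyB.const 2).mul (PolyF.bound (by fun_prop))).add (PolyB.const 1))).add
      (PolyB.const 1)) ?_
  · exact mulStep_pt.comp (g := fun p : (List Unit × List (List Bool) × List Bool) × Vec ×
      (List Bool × Bool) => (p.1.1, p.2.1, p.2.2)) (by fun_prop)
  · intro x l₁ hl
    have h1 := mul_sz x.1 l₁
    have h2 := sz_le_of_prefix hl
    have h3 : (sz l₁ + 5) * (2 * sz x.1 + 1) ≤
        (sz (x.2.1.zip x.2.2) + 5) * (2 * sz x.1 + 1) :=
      Nat.mul_le_mul_right _ (by omega)
    exact h1.trans (by omega)

omit hC in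
theorem dpats_sz (n : ℕ) (l : List (List Bool)) :
    sz (l.foldl (fun s a => if s.any (fun a' => decide (a' = a)) || !decide (a.length = n)
      then s else s ++ [a]) []) ≤ sz l := by
  induction l using List.reverseRecOn with
  | nil => exact le_rfl
  | append_singleton l e ih =>
    rw [List.foldl_append, List.foldl_cons, List.foldl_nil]
    generalize l.foldl (fun s a => if s.any (fun a' => decide (a' = a)) ||
      !decide (a.length = n) then s else s ++ [a]) [] = s at ih
    have h1 := sz_append l [e]
    have h2 := sz_append s [e]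
    have h3 := sz_pos ([e] : List (List Bool))
    split_ifs
    · omega
    · omega

theorem dpats_pt : PolyF dpats := by
  unfold dpats
  have hany : PolyF (fun p : Block × List (List Bool) × List Bool =>
      p.2.1.any (fun a' => decide (a' = p.2.2))) := by
    refine PolyF.any (f := fun (p : Block × List (List Bool) × List Bool) (a' : List Bool) =>
      decide (a' = p.2.2)) ?_ (by fun_prop)
    exact PolyF.eq (by fun_prop) (by fun_prop)
  have hlen : PolyF (fun p : Block × List (List Bool) × List Bool =>
      !decide (p.2.2.length = p.1.1.length)) := by fun_prop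
  refine PolyF.foldl (γ := Block) (f := fun b (s : List (List Bool)) (a : List Bool) =>
    if s.any (fun a' => decide (a' = a)) || !decide (a.length = b.1.length)
    then s else s ++ [a]) ?_ (by fun_prop) (by fun_prop) (fun b : Block => sz b.2)
    (PolyF.bound (by fun_prop)) ?_
  · exact PolyF.iteb (PolyF.or hany hlen) (by fun_prop) (by fun_prop)
  · intro b l₁ hl
    exact (dpats_sz b.1.length l₁).trans (sz_le_of_prefix hl)

theorem blkU_pt : PolyF (fun p : List Unit × Block => blkU p.1 p.2) := by
  have h1 : PolyF (fun q : (List Unit × Block) × List Bool => prodU q.1.1 q.1.2.1 q.2) :=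
    prodU_pt.comp (g := fun q : (List Unit × Block) × List Bool => (q.1.1, q.1.2.1, q.2))
      (by fun_prop)
  have h2 : PolyF (fun p : List Unit × Block => dpats p.2) :=
    dpats_pt.comp (g := fun p : List Unit × Block => p.2) (by fun_prop)
  have h3 : PolyF (fun p : List Unit × Block =>
      (dpats p.2).flatMap fun a => prodU p.1 p.2.1 a ++ prodU p.1 p.2.1 a) :=
    PolyF.flatMap (f := fun (p : List Unit × Block) (a : List Bool) =>
      prodU p.1 p.2.1 a ++ prodU p.1 p.2.1 a) (h1.append h1) h2
  exact (h3.append (PolyF.const [(false, ([] : Feat))])).congr (fun p => by rw [blkU])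

end

end PTU_

/-- PTU. -/
theorem p_PTU : T_PTU := by
  have : Fact Core := ⟨Pool.Agent.PT.core⟩
  have h1 : PolyF (fun p : List Unit × List Block => p.2.flatMap (blkU p.1)) :=
    PolyF.flatMap (f := fun (p : List Unit × List Block) (b : Block) => blkU p.1 b)
      (PTU_.blkU_pt.comp (g := fun q : (List Unit × List Block) × Block => (q.1.1, q.2))
        (by fun_prop)) (by fun_prop)
  exact ((h1.append h1).append (PolyF.const [(false, ([] : Feat))])).congr
    (fun p => by rw [toVecU])

end Pool.Agent.MAJ
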