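import Pool.Agent.MAJ.Targets4

set_option autoImplicit false

/-!
# MAJ: closure of quasi-polynomial bounds (target `T_QCL`)
-/

namespace Pool.Agent.MAJ

namespace QCL_

/-- Polynomial bounds in `log n`. -/
def LB (e : ℕ → ℕ) : Prop := ∃ C : ℕ, ∀ n, e n ≤ Nat.log 2 n ^ C + C

theorem mono (t : ℕ) {c C : ℕ} (h : c ≤ C) : t ^ c + c ≤ t ^ C + C := by
  rcases Nat.eq_zero_or_pos t with rfl | ht
  · rcases Nat.eq_zero_or_pos c with rfl | hc
    · rcases Nat.eq_zero_or_pos C with rfl | hC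
      · exact le_rfl
      · have : (0 : ℕ) ^ C = 0 := Nat.zero_pow hC
        rw [this]
        simp
        omega
    · have h1 : (0 : ℕ) ^ c = 0 := Nat.zero_pow hc
      have h2 : (0 : ℕ) ^ C = 0 := Nat.zero_pow (by omega)
      omega
  · have := Nat.pow_le_pow_right ht h
    omega

theorem add_b (t M : ℕ) : (t ^ M + M) + (t ^ M + M) ≤ t ^ (2 * M + 2) + (2 * M + 2) := by
  rcases Nat.lt_or_ge t 2 with ht | ht
  · have : t ^ M ≤ 1 := by
      calc t ^ M ≤ 1 ^ M := Nat.pow_le_pow_left (by omega) M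
        _ = 1 := one_pow M
    omega
  · have h1 : t ^ (M + 1) ≤ t ^ (2 * M + 2) := Nat.pow_le_pow_right (by omega) (by omega)
    have h2 : 2 * t ^ M ≤ t ^ (M + 1) := by
      rw [pow_succ, mul_comm]
      exact Nat.mul_le_mul_left _ ht
    omega

theorem mul_b (t M : ℕ) : (t ^ M + M) * (t ^ M + M) ≤
    t ^ ((M + 1) ^ 2 + 2 * M + 2) + ((M + 1) ^ 2 + 2 * M + 2) := by
  rcases Nat.lt_or_ge t 2 with ht | ht
  · have : t ^ M ≤ 1 := by
      calc t ^ M ≤ 1 ^ M := Nat.pow_le_pow_left (by omega) M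
        _ = 1 := one_pow M
    have h1 : (t ^ M + M) * (t ^ M + M) ≤ (1 + M) * (1 + M) :=
      Nat.mul_le_mul (by omega) (by omega)
    have h2 : (1 + M) * (1 + M) = (M + 1) ^ 2 := by ring
    omega
  · have h0 : M ≤ t ^ M := by
      have h := Nat.lt_pow_self (n := M) (show 1 < t by omega)
      omega
    have h1 : (t ^ M + M) * (t ^ M + M) ≤ (2 * t ^ M) * (2 * t ^ M) :=
      Nat.mul_le_mul (by omega) (by omega)
    have h2 : (2 * t ^ M) * (2 * t ^ M) = 2 * 2 * t ^ (2 * M) := by ring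
    have h3 : 2 * 2 * t ^ (2 * M) ≤ t * t * t ^ (2 * M) :=
      Nat.mul_le_mul_right _ (Nat.mul_le_mul ht ht)
    have h4 : t * t * t ^ (2 * M) = t ^ (2 * M + 2) := by ring
    have h5 : t ^ (2 * M + 2) ≤ t ^ ((M + 1) ^ 2 + 2 * M + 2) :=
      Nat.pow_le_pow_right (by omega) (by omega)
    omega

theorem LB_mono {e e' : ℕ → ℕ} (h : LB e') (hh : ∀ n, e n ≤ e' n) : LB e := by
  obtain ⟨C, hC⟩ := h
  exact ⟨C, fun n => (hh n).trans (hC n)⟩

theorem LB_const (k : ℕ) : LB fun _ => k := ⟨k, fun _ => Nat.le_add_left _ _⟩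

theorem LB_log : LB fun n => Nat.log 2 n := ⟨1, fun n => by simp⟩

theorem LB_add {e f : ℕ → ℕ} (he : LB e) (hf : LB f) : LB fun n => e n + f n := by
  obtain ⟨C, hC⟩ := he
  obtain ⟨D, hD⟩ := hf
  refine ⟨2 * max C D + 2, fun n => ?_⟩
  have h1 := (hC n).trans (mono (Nat.log 2 n) (le_max_left C D))
  have h2 := (hD n).trans (mono (Nat.log 2 n) (le_max_right C D))
  exact (Nat.add_le_add h1 h2).trans (add_b _ _)

theorem LB_mul {e f : ℕ → ℕ} (he : LB e) (hf : LB f) : LB fun n => e n * f n := by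
  obtain ⟨C, hC⟩ := he
  obtain ⟨D, hD⟩ := hf
  refine ⟨(max C D + 1) ^ 2 + 2 * max C D + 2, fun n => ?_⟩
  have h1 := (hC n).trans (mono (Nat.log 2 n) (le_max_left C D))
  have h2 := (hD n).trans (mono (Nat.log 2 n) (le_max_right C D))
  exact (Nat.mul_le_mul h1 h2).trans (mul_b _ _)

theorem LB_pow {e : ℕ → ℕ} (he : LB e) (k : ℕ) : LB fun n => e n ^ k := by
  induction k with
  | zero => simpa using LB_const 1
  | succ k ih =>
    have := LB_mul ih he
    simpa [pow_succ] using this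

/-- From the exponents to the functions. -/
theorem QB_of {g e : ℕ → ℕ} (he : LB e) (h : ∀ n, g n ≤ 2 ^ e n) : QB g := by
  obtain ⟨C, hC⟩ := he
  exact ⟨C, fun n => (h n).trans (Nat.pow_le_pow_right (by norm_num) (hC n))⟩

theorem QB_to {g : ℕ → ℕ} (hg : QB g) : ∃ e, LB e ∧ ∀ n, g n ≤ 2 ^ e n := by
  obtain ⟨C, hC⟩ := hg
  exact ⟨fun n => Nat.log 2 n ^ C + C, ⟨C, fun n => le_rfl⟩, hC⟩

theorem QB_const (k : ℕ) : QB fun _ => k :=
  QB_of (LB_const k) fun _ => (Nat.lt_pow_self (by norm_num)).le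

theorem QB_id : QB fun n => n := by
  refine QB_of (LB_add LB_log (LB_const 1)) fun n => ?_
  exact (Nat.lt_pow_succ_log_self (by norm_num) n).le

theorem QB_add {g h : ℕ → ℕ} (hg : QB g) (hh : QB h) : QB fun n => g n + h n := by
  obtain ⟨a, ha, hga⟩ := QB_to hg
  obtain ⟨b, hb, hhb⟩ := QB_to hh
  refine QB_of (LB_add (LB_add ha hb) (LB_const 1)) fun n => ?_
  have h1 : 2 ^ a n ≤ 2 ^ (a n + b n) := Nat.pow_le_pow_right (by norm_num) (by omega)
  have h2 : 2 ^ b n ≤ 2 ^ (a n + b n) := Nat.pow_le_pow_right (by norm_num) (by omega)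
  have h3 : 2 ^ (a n + b n + 1) = 2 ^ (a n + b n) + 2 ^ (a n + b n) := by ring
  have h4 := hga n
  have h5 := hhb n
  show g n + h n ≤ 2 ^ (a n + b n + 1)
  omega

theorem QB_mul {g h : ℕ → ℕ} (hg : QB g) (hh : QB h) : QB fun n => g n * h n := by
  obtain ⟨a, ha, hga⟩ := QB_to hg
  obtain ⟨b, hb, hhb⟩ := QB_to hh
  refine QB_of (LB_add ha hb) fun n => ?_
  show g n * h n ≤ 2 ^ (a n + b n)
  rw [pow_add]
  exact Nat.mul_le_mul (hga n) (hhb n)

theorem QB_pow {g : ℕ → ℕ} (hg : QB g) (k : ℕ) : QB fun n => g n ^ k := by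
  induction k with
  | zero => simpa using QB_const 1
  | succ k ih =>
    have := QB_mul ih hg
    simpa [pow_succ] using this

theorem QB_poly {g : ℕ → ℕ} (hg : QB g) (p : Polynomial ℕ) : QB fun n => p.eval (g n) := by
  induction p using Polynomial.induction_on' with
  | add p q hp hq =>
    have := QB_add hp hq
    simpa [Polynomial.eval_add] using this
  | monomial k a =>
    have := QB_mul (QB_const a) (QB_pow hg k)
    simpa [Polynomial.eval_monomial] using this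

theorem log_le {g : ℕ → ℕ} {e : ℕ → ℕ} (h : ∀ n, g n ≤ 2 ^ e n) (n : ℕ) :
    Nat.log 2 (g n) ≤ e n := by
  calc Nat.log 2 (g n) ≤ Nat.log 2 (2 ^ e n) := Nat.log_mono_right (h n)
    _ = e n := Nat.log_pow (by norm_num) _

end QCL_

open QCL_ in
theorem p_QCL : T_QCL := by
  refine ⟨QB_id, fun p g hg => QB_poly hg p, fun g h hg hh => QB_add hg hh,
    fun g h hg hh => QB_mul hg hh, ?_, ?_, ?_, ?_⟩
  · intro g c hg
    obtain ⟨a, ha, hga⟩ := QB_to hg
    refine QB_of (LB_add (LB_pow ha c) (LB_const c)) fun n => ?_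
    unfold quasi
    refine Nat.pow_le_pow_right (by norm_num) ?_
    exact Nat.add_le_add_right (Nat.pow_le_pow_left (log_le hga n) c) c
  · intro g h c hg hh
    obtain ⟨a, ha, hga⟩ := QB_to hg
    obtain ⟨b, hb, hhb⟩ := QB_to hh
    refine QB_of (LB_mul ha (LB_add (LB_pow hb c) (LB_const c))) fun n => ?_
    show g n ^ (Nat.log 2 (h n) ^ c + c) ≤ 2 ^ (a n * (b n ^ c + c))
    rw [pow_mul]
    calc g n ^ (Nat.log 2 (h n) ^ c + c) ≤ (2 ^ a n) ^ (Nat.log 2 (h n) ^ c + c) :=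
          Nat.pow_le_pow_left (hga n) _
      _ ≤ (2 ^ a n) ^ (b n ^ c + c) :=
          Nat.pow_le_pow_right (Nat.pow_pos (by norm_num))
            (Nat.add_le_add_right (Nat.pow_le_pow_left (log_le hhb n) c) c)
  · intro c C n h
    unfold quasi
    exact Nat.pow_le_pow_right (by norm_num) (mono _ h)
  · intro c a b h
    unfold quasi
    exact Nat.pow_le_pow_right (by norm_num)
      (Nat.add_le_add_right (Nat.pow_le_pow_left (Nat.log_mono_right h) c) c)

end Pool.Agent.MAJ
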