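import Pool.Agent.MAJ.Targets4

set_option autoImplicit false

/-!
# MAJ, target SZQ
-/

namespace Pool.Agent.MAJ

open Pool.Agent.PT (Dat PolyF sz)

namespace SZQ_

open Pool.Agent.PT

theorem sz_units (l : List Unit) : sz l = 2 * l.length + 1 := by
  induction l with
  | nil => rfl
  | cons a l ih =>
    rw [sz_cons, ih, List.length_cons]
    have h : sz a = 1 := rfl
    omega

theorem sz_le (m : ℕ) (x R a : List Bool) (P : List Unit) (rows : List (List Bool))
    (hx : x.length ≤ m) (h1 : rows.length ≤ m) (h2 : ∀ r ∈ rows, r.length ≤ m)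
    (h3 : R.length ≤ m) (h5 : P.length ≤ m) (h4 : a.length ≤ m) :
    sz ((((x, rows), R), P), a) + 2 ≤ 14 * m + m * (4 * m + 2) + 11 := by
  have e1 := sz_bits_le x
  have e2 := sz_bits_le a
  have e5 := sz_bits_le R
  have e6 := sz_units P
  have e3 : sz rows ≤ rows.length * ((4 * m + 1) + 1) + 1 := by
    refine sz_list_le fun r hr => ?_
    have := sz_bits_le r
    have := h2 r hr
    omega
  have e4 : rows.length * ((4 * m + 1) + 1) ≤ m * (4 * m + 2) :=
    Nat.mul_le_mul_right _ h1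
  rw [sz_pair, sz_pair, sz_pair, sz_pair]
  omega

end SZQ_

theorem p_SZQ : T_SZQ := by
  intro β _ h hh
  have hcore : Fact Pool.Agent.PT.Core := ⟨Pool.Agent.PT.core⟩
  obtain ⟨c, hc⟩ := hh.bound
  refine ⟨(14 * Polynomial.X + Polynomial.X * (4 * Polynomial.X + 2) + 11) ^ c, ?_⟩
  intro m x rows R P a h1 h2 h3 h4 h5 h6
  have e1 := hc ((((x, rows), R), P), a)
  have e2 := SZQ_.sz_le m x R a P rows h1 h2 h3 h4 h5 h6
  refine e1.trans ?_
  have e3 : Polynomial.eval m
      ((14 * Polynomial.X + Polynomial.X * (4 * Polynomial.X + 2) + 11) ^ c)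
      = (14 * m + m * (4 * m + 2) + 11) ^ c := by
    simp [Polynomial.eval_pow, Polynomial.eval_add, Polynomial.eval_mul]
  rw [e3]
  exact Nat.pow_le_pow_left e2 c

end Pool.Agent.MAJ
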