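import Pool.Agent.MAJ.Assembly4
import Pool.Agent.MAJ.Assembly5
import Pool.Agent.MAJ.DefsM
import Pool.Agent.MAJ.P_CRQ
import Pool.Agent.MAJ.P_EXU
import Pool.Agent.MAJ.P_PDU
import Pool.Agent.MAJ.P_PTU
import Pool.Agent.MAJ.P_QCL
import Pool.Agent.MAJ.P_SZQ

set_option autoImplicit false

/-!
# MAJ, part 6: listing small sets of witnesses in quasi-polynomial time
-/

namespace Pool.Agent.MAJ

open Pool.Agent.PT (Dat PolyF sz Core length_lt_sz sz_mem sz_snd)

namespace QL_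

/-! ### Machines -/

/-- The letters of the string. -/
def u1 (t : Option Bool) : List Bool := match t with
  | some b => [b]
  | none => []

/-- The letters of the unary number. -/
def u2 (t : Option Bool) : List Unit := match t with
  | some _ => []
  | none => [()]

theorem u1_a (l : List Bool) : (l.map some).flatMap u1 = l := by
  induction l with
  | nil => rfl
  | cons b l ih =>
    rw [List.map_cons, List.flatMap_cons, ih]
    rfl

theorem u1_b (l : List Unit) : (l.map fun _ => (none : Option Bool)).flatMap u1 = [] := by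
  induction l with
  | nil => rfl
  | cons b l ih =>
    rw [List.map_cons, List.flatMap_cons, ih]
    rfl

theorem u2_a (l : List Bool) : (l.map some).flatMap u2 = [] := by
  induction l with
  | nil => rfl
  | cons b l ih =>
    rw [List.map_cons, List.flatMap_cons, ih]
    rfl

theorem u2_b (l : List Unit) : (l.map fun _ => (none : Option Bool)).flatMap u2 = l := by
  induction l with
  | nil => rfl
  | cons b l ih =>
    rw [List.map_cons, List.flatMap_cons, ih]
    rfl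

theorem dec_un (p : List Bool × List Unit) :
    ((encUn p).flatMap u1, (encUn p).flatMap u2) = p := by
  obtain ⟨x, u⟩ := p
  unfold encUn
  simp only [List.flatMap_append, u1_a, u1_b, u2_a, u2_b, List.append_nil, List.nil_append]

theorem pt_encUn : PolyF encUn := by
  have : Fact Core := ⟨Pool.Agent.PT.core⟩
  have h1 : PolyF (fun b : Bool => (some b : Option Bool)) := PolyF.finite _
  unfold encUn
  refine PolyF.append ?_ ?_
  · exact PolyF.map (f := fun _ b => some b) (h1.comp (by fun_prop)) (by fun_prop)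
  · exact PolyF.map (f := fun _ _ => none) (PolyF.const _) (by fun_prop)

theorem pt_dec : PolyF (fun l : List (Option Bool) => (l.flatMap u1, l.flatMap u2)) := by
  have : Fact Core := ⟨Pool.Agent.PT.core⟩
  have h1 : PolyF u1 := PolyF.finite _
  have h2 : PolyF u2 := PolyF.finite _
  refine PolyF.pair ?_ ?_
  · exact PolyF.flatMap (f := fun _ b => u1 b) (h1.comp (by fun_prop)) (by fun_prop)
  · exact PolyF.flatMap (f := fun _ b => u2 b) (h2.comp (by fun_prop)) (by fun_prop)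

theorem polyF_encList {γ : Type} [Dat γ] {F : γ → List (List Bool)} (hF : PolyF F) :
    PolyF (fun x => encList (F x)) := by
  have : Fact Core := ⟨Pool.Agent.PT.core⟩
  have h2 : PolyF (fun b : Bool => Tok.bit b) := PolyF.finite _
  unfold encList encStr
  refine PolyF.flatMap (f := fun (_ : γ) (s : List Bool) =>
    s.map Tok.bit ++ [Tok.endQuery]) ?_ hF
  refine PolyF.append ?_ (PolyF.const _)
  exact PolyF.map (f := fun (_ : γ × List Bool) (b : Bool) => Tok.bit b)
    (h2.comp (PolyF.snd PolyF.id)) (PolyF.snd PolyF.id)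

theorem tm_un {F : List Bool × List Unit → List (List Bool)} (hF : PolyF F) :
    PolyTime encUn encList F := by
  have : Fact Core := ⟨Pool.Agent.PT.core⟩
  have h1 : PolyF (fun l : List (Option Bool) => encList (F (l.flatMap u1, l.flatMap u2))) :=
    polyF_encList (hF.comp pt_dec)
  refine Pool.Agent.PT.tm_of_polyF h1 encUn encList F fun p => ?_
  simp only [dec_un]

theorem un_polyF {F : List Bool × List Unit → List Block} (h : PolyTime encUn encBlocks F) :
    PolyF F := by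
  have : Fact Core := ⟨Pool.Agent.PT.core⟩
  obtain ⟨G, hG, e⟩ := Pool.Agent.DHD.tSIMF encUn encBlocks F h
  have h1 : PolyF (fun p => parse (G (encUn p))) := p_PEN.2.2.1.comp (hG.comp pt_encUn)
  refine h1.congr fun p => ?_
  rw [e p, p_ENC.2.1]

/-! ### The solver -/

theorem sl3L (S : Lang) {γ : Type} [Dat γ] (ns ps : γ → List Unit) (vec : γ × List Bool → Vec)
    (K : Polynomial ℕ) (hns : PolyF ns) (hps : PolyF ps) (hvec : PolyF vec) :
    ∃ G : γ → List (List Bool), PolyF G ∧ ∀ (c : γ) (w : List Bool), w.length = (ns c).length →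
      (∀ a : List Bool, a.length ≤ (ns c).length → sz (vec (c, a)) ≤ K.eval (ps c).length) →
      (∃ F : Finset Feat, F.card ≤ (ps c).length ∧ ∀ a : List Bool, a.length ≤ (ns c).length →
        ∀ p ∈ vec (c, a), fv S p.2 ≠ 0 → p.2 ∈ F) →
      (∀ a : List Bool, a.length ≤ (ns c).length → 1 ≤ sg (dot a w) * ev S (vec (c, a))) →
      w ∈ G c := by
  have : Fact Core := ⟨Pool.Agent.PT.core⟩
  set μP : Polynomial ℕ := K ^ 2 * Polynomial.X with hμP
  set BP : Polynomial ℕ := K ^ 2 * (μP * K ^ 2) + 1 with hBP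
  set TP : Polynomial ℕ := 2 * BP * (μP + 1) with hTP
  obtain ⟨Lμ, hLμ, eμ⟩ := Pool.Agent.CookLevin.tLEN (Γ := Unit) μP
  obtain ⟨LB, hLB, eB⟩ := Pool.Agent.CookLevin.tLEN (Γ := Unit) BP
  obtain ⟨LT, hLT, eT⟩ := Pool.Agent.CookLevin.tLEN (Γ := Unit) TP
  have h1 : PolyF (fun c : γ => search (fun a => vec (c, a)) (LB (ps c))
      (Lμ (ps c)).length (LT (ps c)) (ns c)) :=
    f_PSR (fun (c : γ) (a : List Bool) => vec (c, a)) (fun c => LB (ps c))
      (fun c => (Lμ (ps c)).length) (fun c => LT (ps c)) ns hvec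
      (hLB.comp hps) (PolyF.length (hLμ.comp hps)) (hLT.comp hps) hns
  refine ⟨fun c => search (fun a => vec (c, a)) (LB (ps c))
      (Lμ (ps c)).length (LT (ps c)) (ns c), h1, ?_⟩
  intro c w hw hsz hFF hdots
  obtain ⟨F, hF, hF'⟩ := hFF
  obtain ⟨k, hk⟩ : ∃ k : ℕ, k = K.eval (ps c).length := ⟨_, rfl⟩
  rw [← hk] at hsz
  refine f_SRC S F (fun a => vec (c, a)) (k ^ 2) (Lμ (ps c)).length (LB (ps c)) (LT (ps c))
    (ns c) w hw ?_ ?_ ?_ ?_ ?_ ?_
  · intro a ha
    have h2 := p_IPA.2.2.2.2.2.1 (vec (c, a))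
    have h3 : (vec (c, a)).length ≤ k := (length_lt_sz _).le.trans (hsz a ha)
    have h4 : ((vec (c, a)).length : ℤ) ≤ (k : ℤ) := by exact_mod_cast h3
    push_cast
    nlinarith
  · intro a ha pr hpr hfv
    exact hF' a ha pr hpr hfv
  · rw [eμ]
    have h2 : μP.eval (ps c).length = k ^ 2 * (ps c).length := by
      rw [hμP]
      simp [hk]
    rw [h2]
    exact Nat.mul_le_mul_left _ hF
  · rw [eμ, eB]
    rw [hBP]
    simp [hk]
  · rw [eμ, eB, eT]
    rw [hTP]
    simp
  · intro a ha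
    exact hdots a ha

/-! ### Numbers -/

/-- The range of the moduli. -/
def Mf (q : Polynomial ℕ) (k n : ℕ) : ℕ := 2 * (q.eval n * quasi k n + 1)

/-- The length of the inputs with a residue condition. -/
def xb (q : Polynomial ℕ) (k n : ℕ) : ℕ := 2 * n + 4 * Mf q k n + 2

/-- The length of the questions. -/
def zb (q : Polynomial ℕ) (k n : ℕ) : ℕ := 2 * xb q k n + 2 * q.eval (xb q k n) + 2

/-- The size of the small pad. -/
def Ga (q : Polynomial ℕ) (k c₀ c n : ℕ) : ℕ :=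
  quasi c₀ (zb q k n) + quasi c (zb q k n) + (xb q k n + q.eval (xb q k n)) + (quasi k n + n)

/-- The size of the large pad. -/
def Gb (q K : Polynomial ℕ) (k c c₂ C₁ n : ℕ) : ℕ :=
  ((K.eval (quasi C₁ n) + 1) * quasi c₂ (K.eval (quasi C₁ n)) + 1) ^
      (Nat.log 2 (zb q k n) ^ c + c) + quasi C₁ n

theorem qb_quasi (k : ℕ) : QB fun n => quasi k n := p_QCL.2.2.2.2.1 (fun n => n) k p_QCL.1

theorem qb_k (m : ℕ) : QB fun _ => m := qb_const p_QCL m

theorem qb_Mf (q : Polynomial ℕ) (k : ℕ) : QB (Mf q k) := by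
  have h1 : QB fun n => q.eval n * quasi k n :=
    p_QCL.2.2.2.1 (fun n => q.eval n) _ (p_QCL.2.1 q _ p_QCL.1) (qb_quasi k)
  have h2 : QB fun n => q.eval n * quasi k n + 1 := p_QCL.2.2.1 _ _ h1 (qb_k 1)
  exact p_QCL.2.2.2.1 _ _ (qb_k 2) h2

theorem qb_xb (q : Polynomial ℕ) (k : ℕ) : QB (xb q k) := by
  have h1 : QB fun n => 2 * n := p_QCL.2.2.2.1 (fun _ => 2) (fun n => n) (qb_k 2) p_QCL.1
  have h2 : QB fun n => 4 * Mf q k n := p_QCL.2.2.2.1 (fun _ => 4) _ (qb_k 4) (qb_Mf q k)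
  have h3 : QB fun n => 2 * n + 4 * Mf q k n := p_QCL.2.2.1 _ _ h1 h2
  exact p_QCL.2.2.1 _ _ h3 (qb_k 2)

theorem qb_zb (q : Polynomial ℕ) (k : ℕ) : QB (zb q k) := by
  have h0 : QB fun n => q.eval (xb q k n) := p_QCL.2.1 q _ (qb_xb q k)
  have h1 : QB fun n => 2 * xb q k n := p_QCL.2.2.2.1 (fun _ => 2) _ (qb_k 2) (qb_xb q k)
  have h2 : QB fun n => 2 * q.eval (xb q k n) := p_QCL.2.2.2.1 (fun _ => 2) _ (qb_k 2) h0
  have h3 : QB fun n => 2 * xb q k n + 2 * q.eval (xb q k n) := p_QCL.2.2.1 _ _ h1 h2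
  exact p_QCL.2.2.1 _ _ h3 (qb_k 2)

theorem qb_Ga (q : Polynomial ℕ) (k c₀ c : ℕ) : QB (Ga q k c₀ c) := by
  have h1 : QB fun n => quasi c₀ (zb q k n) := p_QCL.2.2.2.2.1 _ c₀ (qb_zb q k)
  have h2 : QB fun n => quasi c (zb q k n) := p_QCL.2.2.2.2.1 _ c (qb_zb q k)
  have h3 : QB fun n => xb q k n + q.eval (xb q k n) :=
    p_QCL.2.2.1 _ _ (qb_xb q k) (p_QCL.2.1 q _ (qb_xb q k))
  have h4 : QB fun n => quasi k n + n := p_QCL.2.2.1 _ (fun n => n) (qb_quasi k) p_QCL.1
  exact p_QCL.2.2.1 _ _ (p_QCL.2.2.1 _ _ (p_QCL.2.2.1 _ _ h1 h2) h3) h4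

theorem qb_Gb (q K : Polynomial ℕ) (k c c₂ C₁ : ℕ) : QB (Gb q K k c c₂ C₁) := by
  have hK : QB fun n => K.eval (quasi C₁ n) := p_QCL.2.1 K _ (qb_quasi C₁)
  have hs : QB fun n => quasi c₂ (K.eval (quasi C₁ n)) := p_QCL.2.2.2.2.1 _ c₂ hK
  have h1 : QB fun n => K.eval (quasi C₁ n) + 1 := p_QCL.2.2.1 _ _ hK (qb_k 1)
  have h2 : QB fun n => (K.eval (quasi C₁ n) + 1) * quasi c₂ (K.eval (quasi C₁ n)) :=
    p_QCL.2.2.2.1 _ _ h1 hs
  have h3 : QB fun n => (K.eval (quasi C₁ n) + 1) * quasi c₂ (K.eval (quasi C₁ n)) + 1 :=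
    p_QCL.2.2.1 _ _ h2 (qb_k 1)
  have h4 := p_QCL.2.2.2.2.2.1 _ (zb q k) c h3 (qb_zb q k)
  exact p_QCL.2.2.1 _ _ h4 (qb_quasi C₁)

theorem len_two (x R : List Bool) : (encL [x, R]).length = 2 * x.length + 2 * R.length + 2 := by
  rw [LNZ_.len_cons, LNZ_.len_cons]
  simp [encL]
  omega

theorem RR_length (p : List Unit × List Unit) : (RR p).length = p.1.length + p.2.length := by
  unfold RR
  simp

end QL_

end Pool.Agent.MAJ
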