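import Pool.Agent.MAJ.Assembly6

set_option autoImplicit false

/-!
# MAJ, part 7: listing small sets of witnesses in quasi-polynomial time, the main theorem
-/

namespace Pool.Agent.MAJ

open Pool.Agent.PT (Dat PolyF sz Core length_lt_sz sz_mem sz_snd)

namespace QL_

/-- The blocks of the question `a`. -/
def blL (c0 : List Unit × List Unit → List Unit) (F : List Bool × List Unit → List Block)
    (p : (List Bool × List Unit) × List Bool) : List Block :=
  F (encL [p.1.1, p.2], c0 (len1 (encL [p.1.1, p.2]), p.1.2))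

theorem polyF_blL (c0 : List Unit × List Unit → List Unit) (hc0 : PolyF c0)
    (F : List Bool × List Unit → List Block) (hF : PolyF F) : PolyF (blL c0 F) := by
  have : Fact Core := ⟨Pool.Agent.PT.core⟩
  unfold blL
  have hz : PolyF (fun p : (List Bool × List Unit) × List Bool => encL [p.1.1, p.2]) :=
    p_PEN.1.comp (by fun_prop)
  exact hF.comp (PolyF.pair hz (hc0.comp (PolyF.pair (polyF_len1.comp hz) (by fun_prop))))

/-- The context of the solver is good. -/
theorem ctx_list (S : Lang) (c₂ : ℕ)
    (hc₂ : ∀ n, {w : List Bool | w ∈ S ∧ w.length = n}.ncard ≤ quasi c₂ n)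
    (q : Polynomial ℕ) (k c₀ c C₁ : ℕ) (f : List Bool → List Block)
    (F : List Bool × List Unit → List Block) (hfF : ∀ x, f x = F (x, una (quasi c₀ x.length)))
    (hD : ∀ x, ∀ b ∈ f x, b.1.length ≤ Nat.log 2 x.length ^ c + c)
    (c0 : List Unit × List Unit → List Unit)
    (hc0 : ∀ u P : List Unit, quasi c₀ u.length ≤ P.length →
      (c0 (u, P)).length = quasi c₀ u.length)
    (VR : List Bool × List Bool → Bool)
    (hred : ∀ z, z ∈ langU q VR ↔ (f z).length < 2 * (f z).countP (holds S))
    (K : Polynomial ℕ) (hK : ∀ (m : ℕ) (x : List Bool) (P : List Unit) (a : List Bool),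
      x.length ≤ m → P.length ≤ m → a.length ≤ m →
        sz (toVecU P (blL c0 F ((x, P), a))) ≤ K.eval m)
    (hGa : ∀ n, Ga q k c₀ c n ≤ quasi C₁ n) (n : ℕ) (x' : List Bool)
    (hx' : x'.length ≤ xb q k n) (P1 P : List Unit) (hP1 : P1.length = quasi C₁ n)
    (hP : Gb q K k c c₂ C₁ n ≤ P.length) (u : List Bool) (hu : u.length = q.eval x'.length)
    (hVu : VR (x', u) = true)
    (huniq : ∀ u', u'.length = q.eval x'.length → VR (x', u') = true → u' = u) :
    (∀ a : List Bool, a.length ≤ q.eval x'.length →
      sz (toVecU P1 (blL c0 F ((x', P1), a))) ≤ K.eval P.length) ∧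
    (∃ Fs : Finset Feat, Fs.card ≤ P.length ∧ ∀ a : List Bool, a.length ≤ q.eval x'.length →
      ∀ p ∈ toVecU P1 (blL c0 F ((x', P1), a)), fv S p.2 ≠ 0 → p.2 ∈ Fs) ∧
    (∀ a : List Bool, a.length ≤ q.eval x'.length →
      1 ≤ sg (dot a u) * ev S (toVecU P1 (blL c0 F ((x', P1), a)))) := by
  have hG := hGa n
  unfold Ga at hG
  unfold Gb at hP
  have hqx : q.eval x'.length ≤ q.eval (xb q k n) := ASN_.eval_mono q hx'
  have hz : ∀ a : List Bool, a.length ≤ q.eval x'.length →
      (encL [x', a]).length ≤ zb q k n := by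
    intro a ha
    rw [len_two]
    unfold zb
    omega
  have hbl : ∀ a : List Bool, a.length ≤ q.eval x'.length →
      blL c0 F ((x', P1), a) = f (encL [x', a]) := by
    intro a ha
    have h1 : (len1 (encL [x', a])).length = (encL [x', a]).length := by
      unfold len1
      rw [List.length_map]
    have h2 : quasi c₀ (encL [x', a]).length ≤ P1.length := by
      have := quasi_mono c₀ (hz a ha)
      omega
    unfold blL
    simp only
    rw [hfF, unit_list (c0 (len1 (encL [x', a]), P1)), hc0 _ P1 (by rw [h1]; exact h2), h1]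
  have hD' : ∀ a : List Bool, a.length ≤ q.eval x'.length → ∀ b ∈ blL c0 F ((x', P1), a),
      b.1.length ≤ Nat.log 2 (zb q k n) ^ c + c := by
    intro a ha b hb
    rw [hbl a ha] at hb
    refine (hD _ b hb).trans ?_
    exact Nat.add_le_add_right (Nat.pow_le_pow_left (Nat.log_mono_right (hz a ha)) c) c
  have h2D : 2 ^ (Nat.log 2 (zb q k n) ^ c + c) ≤ P1.length := by
    have h1 : 2 ^ (Nat.log 2 (zb q k n) ^ c + c) = quasi c (zb q k n) := rfl
    rw [h1]
    omega
  have hszK : ∀ a : List Bool, a.length ≤ q.eval x'.length →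
      sz (toVecU P1 (blL c0 F ((x', P1), a))) ≤ K.eval (quasi C₁ n) := by
    intro a ha
    refine hK _ x' P1 a ?_ ?_ ?_
    · omega
    · omega
    · omega
  refine ⟨fun a ha => (hszK a ha).trans (ASN_.eval_mono K (by omega)), ?_, ?_⟩
  · obtain ⟨Fs, hF, hF'⟩ := p_CRQ S (K.eval (quasi C₁ n)) (quasi c₂ (K.eval (quasi C₁ n)))
      (Nat.log 2 (zb q k n) ^ c + c) (fun j hj => (hc₂ j).trans (quasi_mono c₂ hj))
    refine ⟨Fs, by omega, fun a ha p hp hfv => ?_⟩
    have h2 := (p_EXU _ S P1 (blL c0 F ((x', P1), a)) (hD' a ha) h2D).2 p hp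
    refine hF' p.2 h2.1 (fun s hs => ?_) hfv
    have h3 : sz s < sz p.2 := sz_mem hs
    have h4 : sz p.2 ≤ sz p := sz_snd p
    have h5 : sz p < sz (toVecU P1 (blL c0 F ((x', P1), a))) := sz_mem hp
    have h6 := hszK a ha
    have h7 := length_lt_sz s
    omega
  · intro a ha
    have h2 := (p_EXU _ S P1 (blL c0 F ((x', P1), a)) (hD' a ha) h2D).1
    have h3 := hred (encL [x', a])
    rw [h2, hbl a ha]
    by_cases hdot : dot a u = true
    · have h5 : encL [x', a] ∈ langU q VR :=
        ⟨x', a, [], p_ENC.1 _, u, hu, hVu, hdot, by simp⟩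
      have h6 := h3.1 h5
      rw [hdot]
      simp only [sg, if_true]
      zify at h6
      omega
    · have h5 : encL [x', a] ∉ langU q VR := by
        rintro ⟨x₁, a', rows', he, w', hw', hVw', hdot', hwr'⟩
        rw [p_ENC.1] at he
        simp only [List.cons.injEq] at he
        obtain ⟨rfl, rfl, rfl⟩ := he
        have := huniq w' hw' hVw'
        rw [this] at hdot'
        exact hdot hdot'
      have h6 := mt h3.2 h5
      rw [Bool.not_eq_true] at hdot
      rw [hdot]
      simp only [sg, Bool.false_eq_true, if_false]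
      rw [not_lt] at h6
      zify at h6
      omega

/-- The range of the moduli, in unary. -/
def LMu (Lq : List Bool → List Unit) (pk : List Unit × List Unit → List Unit)
    (p : List Bool × List Unit) : List Unit :=
  (() :: mulU (Lq p.1) (pk (len1 p.1, p.2))) ++ (() :: mulU (Lq p.1) (pk (len1 p.1, p.2)))

theorem polyF_LMu (Lq : List Bool → List Unit) (hLq : PolyF Lq)
    (pk : List Unit × List Unit → List Unit) (hpk : PolyF pk) : PolyF (LMu Lq pk) := by
  have : Fact Core := ⟨Pool.Agent.PT.core⟩
  unfold LMu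
  have h1 : PolyF (fun p : List Bool × List Unit => mulU (Lq p.1) (pk (len1 p.1, p.2))) :=
    polyF_mulU (hLq.comp (by fun_prop))
      (hpk.comp (PolyF.pair (polyF_len1.comp (by fun_prop)) (by fun_prop)))
  exact PolyF.append (PolyF.cons (PolyF.const _) h1) (PolyF.cons (PolyF.const _) h1)

/-- The algorithm. -/
def algL (Lq : List Bool → List Unit) (pk p1 : List Unit × List Unit → List Unit)
    (G : (List Bool × List Unit) × List Unit → List (List Bool))
    (V : List Bool × List Bool → Bool) (p : List Bool × List Unit) : List (List Bool) :=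
  ((unis (LMu Lq pk (p.1, p1 (len1 p.1, p.2)))).flatMap fun m =>
    (unis (LMu Lq pk (p.1, p1 (len1 p.1, p.2)))).flatMap fun r =>
      (G ((encL [p.1, RR (r, m)], p1 (len1 p.1, p.2)), p.2)).map fun u => takeU u (Lq p.1)).filter
    fun w => decide (w.length = (Lq p.1).length) && V (p.1, w)

theorem polyF_algL (Lq : List Bool → List Unit) (hLq : PolyF Lq)
    (pk p1 : List Unit × List Unit → List Unit) (hpk : PolyF pk) (hp1 : PolyF p1)
    (G : (List Bool × List Unit) × List Unit → List (List Bool)) (hG : PolyF G)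
    (V : List Bool × List Bool → Bool) (hV : PolyF V) : PolyF (algL Lq pk p1 G V) := by
  have : Fact Core := ⟨Pool.Agent.PT.core⟩
  have hun := p_PEN.2.2.2.2.2.2.1
  have htk : PolyF (fun p : List Bool × List Unit => takeU p.1 p.2) := p_PEN.2.2.2.1
  have hP1 : PolyF (fun p : List Bool × List Unit => p1 (len1 p.1, p.2)) :=
    hp1.comp (PolyF.pair (polyF_len1.comp (by fun_prop)) (by fun_prop))
  have hM : PolyF (fun p : List Bool × List Unit =>
      unis (LMu Lq pk (p.1, p1 (len1 p.1, p.2)))) :=
    hun.comp ((polyF_LMu Lq hLq pk hpk).comp (PolyF.pair (by fun_prop) hP1))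
  unfold algL
  refine PolyF.filter (f := fun (p : List Bool × List Unit) (w : List Bool) =>
      decide (w.length = (Lq p.1).length) && V (p.1, w)) ?_ ?_
  · exact PolyF.and (PolyF.eq_nat (PolyF.length (PolyF.snd PolyF.id))
      (PolyF.length (hLq.comp (PolyF.fst (PolyF.fst PolyF.id))))) (hV.comp (by fun_prop))
  · refine PolyF.flatMap (f := fun (p : List Bool × List Unit) (m : List Unit) =>
      (unis (LMu Lq pk (p.1, p1 (len1 p.1, p.2)))).flatMap fun r =>
        (G ((encL [p.1, RR (r, m)], p1 (len1 p.1, p.2)), p.2)).map fun u => takeU u (Lq p.1))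
      ?_ hM
    refine PolyF.flatMap (f := fun (p : (List Bool × List Unit) × List Unit) (r : List Unit) =>
        (G ((encL [p.1.1, RR (r, p.2)], p1 (len1 p.1.1, p.1.2)), p.1.2)).map fun u =>
          takeU u (Lq p.1.1)) ?_ (hM.comp (PolyF.fst PolyF.id))
    refine PolyF.map (f := fun (p : ((List Bool × List Unit) × List Unit) × List Unit)
      (u : List Bool) => takeU u (Lq p.1.1.1)) ?_ ?_
    · exact htk.comp (PolyF.pair (by fun_prop) (hLq.comp (by fun_prop)))
    · refine hG.comp (PolyF.pair (PolyF.pair (p_PEN.1.comp ?_) ?_) (by fun_prop))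
      · have hx : PolyF (fun p : ((List Bool × List Unit) × List Unit) × List Unit =>
            p.1.1.1) := by fun_prop
        have hR : PolyF (fun p : ((List Bool × List Unit) × List Unit) × List Unit =>
            RR (p.2, p.1.2)) := polyF_RR.comp (by fun_prop)
        exact PolyF.cons hx (PolyF.cons hR (PolyF.const _))
      · exact hP1.comp (PolyF.fst (PolyF.fst PolyF.id))

end QL_

open QL_ LST_ ASM_ in
/-- A quasi-polynomially sparse set hard for NP under quasi-polynomial time majorities of truth tables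
with polylogarithmically many queries: witness sets with at most quasi-polynomially many members can
be listed in quasi-polynomial time. -/
theorem final_qlist (S : Lang) (hS : QuasiSparse S) (H : ∀ L, InNP L → QMajReduces L S)
    (q : Polynomial ℕ) (k : ℕ) (V : List Bool × List Bool → Bool)
    (hV : PolyTime encPair encBool V) :
    ∃ F : List Bool → List (List Bool), QTime encList F ∧
      ∀ x, (∀ w ∈ F x, w ∈ Wit q V x) ∧
        ((Wit q V x).ncard ≤ quasi k x.length → ∀ w ∈ Wit q V x, w ∈ F x) := by
  have : Fact Core := ⟨Pool.Agent.PT.core⟩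
  have hV' : PolyF V := (f_TMP.1 V).1 hV
  obtain ⟨Lq, hLq, eLq⟩ := Pool.Agent.CookLevin.tLEN (Γ := Bool) q
  have hver : PolyF (verR V Lq) := VRR_.verR_polyF p_PEN f_MOD V hV' Lq hLq
  obtain ⟨c, f, ⟨c₀, F, hF, hfF⟩, hD, hred⟩ := H _ (f_LNP q (verR V Lq) hver).1
  have hF' : PolyF F := un_polyF hF
  obtain ⟨c₂, hc₂⟩ := hS
  obtain ⟨C₁, hC₁⟩ := qb_Ga q k c₀ c
  obtain ⟨pc, hpc, epc⟩ := p_PDU c₀
  obtain ⟨pk, hpk, epk⟩ := p_PDU k
  obtain ⟨p1, hp1, ep1⟩ := p_PDU C₁
  have hbl := polyF_blL pc hpc F hF'
  have hvec5 := polyF_vec p_PTU (fun p : (((List Bool × List (List Bool)) × List Bool) ×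
    List Unit) × List Bool => p.1.2) (by fun_prop)
    (fun p => blL pc F ((p.1.1.1.1, p.1.2), p.2))
    (hbl.comp (PolyF.pair (PolyF.pair (by fun_prop) (by fun_prop)) (by fun_prop)))
  obtain ⟨K, hK⟩ := p_SZQ _ hvec5
  obtain ⟨C, hC⟩ := qb_Gb q K k c c₂ C₁
  have hvec2 := polyF_vec p_PTU (fun p : ((List Bool × List Unit) × List Unit) × List Bool =>
    p.1.1.2) (by fun_prop) (fun p => blL pc F (p.1.1, p.2))
    (hbl.comp (PolyF.pair (by fun_prop) (by fun_prop)))
  obtain ⟨G, hG, hc⟩ := sl3L S (γ := (List Bool × List Unit) × List Unit)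
    (fun d => Lq d.1.1) (fun d => d.2) (fun p => toVecU p.1.1.2 (blL pc F (p.1.1, p.2))) K
    (hLq.comp (by fun_prop)) (by fun_prop) hvec2
  refine ⟨fun x => algL Lq pk p1 G V (x, una (quasi C x.length)),
    ⟨C, algL Lq pk p1 G V, tm_un (polyF_algL Lq hLq pk p1 hpk hp1 G hG V hV'), fun x => rfl⟩,
    fun x => ⟨fun w hw => ?_, fun hcard w hw => ?_⟩⟩
  · -- soundness
    unfold algL at hw
    rw [List.mem_filter, Bool.and_eq_true, decide_eq_true_iff, eLq] at hw
    exact hw.2
  · -- completeness
    obtain ⟨hw, hVw⟩ := hw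
    have hfin : {w : List Bool | w.length = q.eval x.length ∧ V (x, w) = true}.Finite :=
      finite_len _ _
    have hmem : ∀ w, w ∈ hfin.toFinset ↔ w.length = q.eval x.length ∧ V (x, w) = true :=
      fun w => by simp
    obtain ⟨m, hm1, hm2, hiso⟩ := p_ISO (q.eval x.length) (quasi k x.length) hfin.toFinset num
      (fun w hw => by
        rw [← ((hmem w).1 hw).1]
        exact f_MOD.2.1 w)
      (fun w hw w' hw' h => f_MOD.2.2.1 w w' (by rw [((hmem w).1 hw).1, ((hmem w').1 hw').1]) h)
      (by rw [← Set.ncard_eq_toFinset_card _ hfin]; exact hcard)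
      w ((hmem w).2 ⟨hw, hVw⟩)
    have hPl : (una (quasi C x.length)).length = quasi C x.length := by simp [una]
    have hl1 : (len1 x).length = x.length := by simp [len1]
    have hGa := hC₁ x.length
    have hGb := hC x.length
    have hG1 : quasi C₁ x.length ≤ quasi C x.length := by
      unfold Gb at hGb
      omega
    have hP1 : (p1 (len1 x, una (quasi C x.length))).length = quasi C₁ x.length := by
      rw [ep1 _ _ (by rw [hl1, hPl]; exact hG1), hl1]
    have hKk : (pk (len1 x, p1 (len1 x, una (quasi C x.length)))).length =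
        quasi k x.length := by
      rw [epk _ _ (by
        rw [hl1, hP1]
        unfold Ga at hGa
        omega), hl1]
    have hMx : (LMu Lq pk (x, p1 (len1 x, una (quasi C x.length)))).length =
        Mf q k x.length := by
      unfold LMu Mf
      simp only
      rw [List.length_append, List.length_cons, mulU_length, eLq, hKk]
      ring
    have hmr : m ∈ (unis (LMu Lq pk (x, p1 (len1 x, una (quasi C x.length))))).map
        List.length := by
      rw [p_ENC.2.2.2.2.2.2, List.mem_range, hMx]
      unfold Mf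
      omega
    have hrr : num w % m ∈ (unis (LMu Lq pk (x, p1 (len1 x, una (quasi C x.length))))).map
        List.length := by
      rw [p_ENC.2.2.2.2.2.2, List.mem_range, hMx]
      have := Nat.mod_lt (num w) hm1
      unfold Mf
      omega
    obtain ⟨um, hum, em⟩ := List.mem_map.1 hmr
    obtain ⟨ur, hur, er⟩ := List.mem_map.1 hrr
    unfold algL
    rw [List.mem_filter, Bool.and_eq_true, decide_eq_true_iff, eLq]
    refine ⟨?_, hw, hVw⟩
    rw [List.mem_flatMap]
    refine ⟨um, hum, ?_⟩
    rw [List.mem_flatMap]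
    refine ⟨ur, hur, ?_⟩
    have hres : ∀ v : List Bool, resid v (RR (ur, um)) = true ↔ num v % m = num w % m := by
      intro v
      unfold resid
      have hl : (((RR (ur, um)).filter fun b => !b).map fun _ => ()).length = m := by
        rw [List.length_map, RR_false, em]
      rw [decide_eq_true_iff, f_MOD.1 _ _ (by rw [hl]; exact hm1), hl, RR_true, er]
    obtain ⟨hv2, hq2⟩ := vr_two p_ENC q V Lq eLq x (RR (ur, um)) w hw hVw ((hres w).2 rfl)
    rw [List.mem_map]
    refine ⟨w ++ List.replicate (q.eval (encL [x, RR (ur, um)]).length - q.eval x.length) false,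
      ?_, ?_⟩
    · have hul : (w ++ List.replicate (q.eval (encL [x, RR (ur, um)]).length -
          q.eval x.length) false).length = q.eval (encL [x, RR (ur, um)]).length := by
        rw [List.length_append, List.length_replicate, hw]
        omega
      have hrm : num w % m ≤ m := (Nat.mod_lt (num w) hm1).le
      have hxl : (encL [x, RR (ur, um)]).length ≤ xb q k x.length := by
        rw [len_two, RR_length]
        simp only
        rw [em, er]
        unfold xb Mf
        omega
      obtain ⟨k1, k2, k3⟩ := ctx_list S c₂ hc₂ q k c₀ c C₁ f F hfF hD pc epc (verR V Lq) hred K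
        (fun m x P a h1 h2 h3 => hK m x [] [] P a h1 (Nat.zero_le _) (by simp) (Nat.zero_le _)
          h2 h3) hC₁ x.length (encL [x, RR (ur, um)]) hxl
        (p1 (len1 x, una (quasi C x.length))) (una (quasi C x.length)) hP1
        (by rw [hPl]; exact hGb) _ hul hv2 (by
          intro u hu hVu
          obtain ⟨x', R', hdec, hlen, hVx, hre, heq⟩ := vr_one p_ENC q V Lq eLq _ u hu hVu
          rw [p_ENC.1] at hdec
          simp only [List.cons.injEq, and_true] at hdec
          obtain ⟨rfl, rfl⟩ := hdec
          have := hiso _ ((hmem _).2 ⟨hlen, hVx⟩) ((hres _).1 hre)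
          rw [heq, this])
      refine hc ((encL [x, RR (ur, um)], p1 (len1 x, una (quasi C x.length))),
        una (quasi C x.length)) _ ?_ ?_ ?_ ?_
      · simp only
        rw [eLq]
        exact hul
      · simp only
        rw [eLq]
        exact k1
      · simp only
        rw [eLq]
        exact k2
      · simp only
        rw [eLq]
        exact k3
    · rw [p_ENC.2.2.2.1, eLq, ← hw, List.take_left]

end Pool.Agent.MAJ
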