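import Mathlib

set_option autoImplicit false

/-!
# Sparse sets and majority truth-table reductions: all definitions used in the main statement

Languages are sets of bit strings; polynomial time refers to Mathlib's Turing machines
(`Turing.TM2ComputableInPolyTime`).
-/

namespace Pool.Agent.MAJ

/-- Languages over the binary alphabet. -/
abbrev Lang : Type := Set (List Bool)

/-- `f` is computed by a Turing machine in polynomial time; the input `a` is written as `ea a`, the
output `b` as `eb b`. -/
def PolyTime {α β Γ Δ : Type} (ea : α → List Γ) (eb : β → List Δ) (f : α → β) : Prop :=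
  Nonempty (Turing.TM2ComputableInPolyTime ea eb f)

/-- A pair of bit strings as input of a machine: the second string is written with two separate
letters. -/
def encPair (p : List Bool × List Bool) : List (Bool ⊕ Bool) :=
  p.1.map Sum.inl ++ p.2.map Sum.inr

/-- The answer of a machine. -/
def encBool (b : Bool) : List Bool := [b]

/-! ## The classes P, NP, UP, RP -/

/-- The class P. -/
def InP (L : Lang) : Prop :=
  ∃ f : List Bool → Bool, PolyTime id encBool f ∧ ∀ x, x ∈ L ↔ f x = true

/-- The class NP: witnesses are strings of length `q (|x|)`, for a polynomial `q`. -/
def InNP (L : Lang) : Prop :=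
  ∃ (q : Polynomial ℕ) (V : List Bool × List Bool → Bool), PolyTime encPair encBool V ∧
    ∀ x, x ∈ L ↔ ∃ w, w.length = q.eval x.length ∧ V (x, w) = true

/-- The class UP: as NP, but every string has at most one witness. -/
def InUP (L : Lang) : Prop :=
  ∃ (q : Polynomial ℕ) (V : List Bool × List Bool → Bool), PolyTime encPair encBool V ∧
    ∀ x, (x ∈ L ↔ ∃ w, w.length = q.eval x.length ∧ V (x, w) = true) ∧
      ∀ w w', w.length = q.eval x.length → w'.length = q.eval x.length →
        V (x, w) = true → V (x, w') = true → w = w'

/-- The class RP: if `x ∈ L` then at least half of the strings of length `q (|x|)` are accepted, if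
`x ∉ L` then none. -/
def InRP (L : Lang) : Prop :=
  ∃ (q : Polynomial ℕ) (V : List Bool × List Bool → Bool), PolyTime encPair encBool V ∧
    ∀ x, (x ∈ L → 2 ^ (q.eval x.length) ≤
        2 * {w : List Bool | w.length = q.eval x.length ∧ V (x, w) = true}.ncard) ∧
      (x ∉ L → ∀ w, w.length = q.eval x.length → V (x, w) = false)

/-! ## Sparse sets -/

/-- Sparse: at most `p n` strings of length `n`, for a polynomial `p`. -/
def Sparse (S : Lang) : Prop :=
  ∃ p : Polynomial ℕ, ∀ n, {w : List Bool | w ∈ S ∧ w.length = n}.ncard ≤ p.eval n

/-! ## Majority truth-table reductions -/

/-- A block: a list of query strings, and a truth table, given as the list of the accepted patterns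
of answers. -/
abbrev Block : Type := List (List Bool) × List (List Bool)

open Classical in
/-- The block `b` is true when its queries are answered by `S`. -/
noncomputable def holds (S : Lang) (b : Block) : Bool :=
  decide (b.1.map (fun q => decide (q ∈ S)) ∈ b.2)

/-- The letters used for writing lists of blocks. -/
inductive Tok
  | bit (b : Bool)
  | endQuery | endPattern | endBlock
  deriving DecidableEq, Fintype

/-- A string, closed by the letter `e`. -/
def encStr (e : Tok) (s : List Bool) : List Tok := s.map Tok.bit ++ [e]

/-- A block: its queries, then its accepted patterns. -/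
def encBlock (b : Block) : List Tok :=
  b.1.flatMap (encStr .endQuery) ++ b.2.flatMap (encStr .endPattern) ++ [.endBlock]

/-- A list of blocks. -/
def encBlocks (l : List Block) : List Tok := l.flatMap encBlock

/-- `A` reduces to `S` by a majority of `d`-query truth tables: on input `x` a polynomial time
machine writes a list of blocks, each with at most `d` queries, and `x ∈ A` iff more than half of
these blocks are true when the queries are answered by `S`. -/
def MajReduces (d : ℕ) (A S : Lang) : Prop :=
  ∃ f : List Bool → List Block, PolyTime id encBlocks f ∧
    (∀ x, ∀ b ∈ f x, b.1.length ≤ d) ∧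
    ∀ x, x ∈ A ↔ (f x).length < 2 * (f x).countP (holds S)

end Pool.Agent.MAJ
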