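import Pool.Agent.MAJ.Targets

set_option autoImplicit false

/-!
# MAJ-AMP: six repetitions
-/

namespace Pool.Agent.MAJ

namespace AMP_

theorem pieces_succ (m k : ℕ) (l : List Bool) :
    pieces m (k + 1) l = l.take m :: pieces m k (l.drop m) := by
  unfold pieces
  rw [List.range_succ_eq_map, List.map_cons, List.map_map]
  simp only [Nat.zero_mul, List.drop_zero]
  congr 1
  apply List.map_congr_left
  intro i _
  simp only [Function.comp]
  rw [List.drop_drop, Nat.succ_eq_add_one]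
  congr 2
  ring

theorem fin_len (n : ℕ) : {ρ : List Bool | ρ.length = n}.Finite := List.finite_length_eq Bool n

theorem card_len (n : ℕ) : {ρ : List Bool | ρ.length = n}.ncard = 2 ^ n := by
  have h : Nat.card (List.Vector Bool n) = 2 ^ n := by
    rw [Nat.card_eq_fintype_card, card_vector]
    rfl
  rw [← h]
  rfl

/-- The strings without good piece. -/
def bad (m : ℕ) (P : List Bool → Prop) (k : ℕ) : Set (List Bool) :=
  {ρ : List Bool | ρ.length = k * m ∧ ∀ σ ∈ pieces m k ρ, ¬ P σ}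

/-- The bad strings of length `m`. -/
def bad1 (m : ℕ) (P : List Bool → Prop) : Set (List Bool) :=
  {ρ : List Bool | ρ.length = m ∧ ¬ P ρ}

theorem bad_fin (m : ℕ) (P : List Bool → Prop) (k : ℕ) : (bad m P k).Finite :=
  (fin_len (k * m)).subset fun _ h => h.1

theorem bad1_fin (m : ℕ) (P : List Bool → Prop) : (bad1 m P).Finite :=
  (fin_len m).subset fun _ h => h.1

theorem bad_succ (m : ℕ) (P : List Bool → Prop) (k : ℕ) :
    (bad m P (k + 1)).ncard ≤ (bad1 m P).ncard * (bad m P k).ncard := by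
  rw [← Set.ncard_prod]
  have hsub : bad m P (k + 1) ⊆
      (fun p : List Bool × List Bool => p.1 ++ p.2) '' (bad1 m P ×ˢ bad m P k) := by
    rintro ρ ⟨hl, hb⟩
    have hl' : ρ.length = k * m + m := by rw [hl]; ring
    rw [pieces_succ] at hb
    refine ⟨(ρ.take m, ρ.drop m), ⟨⟨?_, ?_⟩, ⟨?_, ?_⟩⟩, ?_⟩
    · simp only [List.length_take]
      omega
    · exact hb _ List.mem_cons_self
    · simp only [List.length_drop]
      omega
    · intro σ hσ
      exact hb σ (List.mem_cons_of_mem _ hσ)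
    · simp only [List.take_append_drop]
  exact (Set.ncard_le_ncard hsub (((bad1_fin m P).prod (bad_fin m P k)).image _)).trans
    (Set.ncard_image_le ((bad1_fin m P).prod (bad_fin m P k)))

theorem bad_bound (m : ℕ) (P : List Bool → Prop) (h : 8 * (bad1 m P).ncard ≤ 7 * 2 ^ m) (k : ℕ) :
    8 ^ k * (bad m P k).ncard ≤ 7 ^ k * 2 ^ (k * m) := by
  induction k with
  | zero =>
    have : (bad m P 0).ncard ≤ {ρ : List Bool | ρ.length = 0}.ncard := by
      apply Set.ncard_le_ncard _ (fin_len 0)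
      rintro ρ ⟨hl, _⟩
      simpa using hl
    rw [card_len] at this
    simpa using this
  | succ k ih =>
    calc 8 ^ (k + 1) * (bad m P (k + 1)).ncard
        ≤ 8 ^ (k + 1) * ((bad1 m P).ncard * (bad m P k).ncard) :=
          Nat.mul_le_mul_left _ (bad_succ m P k)
      _ = (8 * (bad1 m P).ncard) * (8 ^ k * (bad m P k).ncard) := by ring
      _ ≤ (7 * 2 ^ m) * (7 ^ k * 2 ^ (k * m)) := Nat.mul_le_mul h ih
      _ = 7 ^ (k + 1) * 2 ^ ((k + 1) * m) := by ring

theorem split (n : ℕ) (Q : List Bool → Prop) :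
    {ρ : List Bool | ρ.length = n ∧ Q ρ}.ncard + {ρ : List Bool | ρ.length = n ∧ ¬ Q ρ}.ncard =
      2 ^ n := by
  rw [← card_len n]
  have hd : Disjoint {ρ : List Bool | ρ.length = n ∧ Q ρ} {ρ : List Bool | ρ.length = n ∧ ¬ Q ρ} := by
    rw [Set.disjoint_left]
    rintro ρ ⟨_, h1⟩ ⟨_, h2⟩
    exact h2 h1
  rw [← Set.ncard_union_eq hd ((fin_len n).subset fun _ h => h.1)
    ((fin_len n).subset fun _ h => h.1)]
  congr 1
  ext ρ
  simp only [Set.mem_union, Set.mem_ofPred_eq]
  tauto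

end AMP_

open AMP_ in
theorem p_AMP : T_AMP := by
  intro m P h
  have h1 := split m P
  have hb1 : 8 * (bad1 m P).ncard ≤ 7 * 2 ^ m := by
    change 8 * {ρ : List Bool | ρ.length = m ∧ ¬ P ρ}.ncard ≤ 7 * 2 ^ m
    omega
  have h6 := bad_bound m P hb1 6
  have h2 := split (6 * m) (fun ρ => ∃ σ ∈ pieces m 6 ρ, P σ)
  have h3 : {ρ : List Bool | ρ.length = 6 * m ∧ ¬ ∃ σ ∈ pieces m 6 ρ, P σ} = bad m P 6 := by
    ext ρ
    simp only [bad, Set.mem_ofPred_eq, not_exists, not_and]
  rw [h3] at h2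
  have h4 : 2 * (bad m P 6).ncard ≤ 2 ^ (6 * m) := by
    have : 262144 * (bad m P 6).ncard ≤ 117649 * 2 ^ (6 * m) := by
      simpa using h6
    omega
  omega

end Pool.Agent.MAJ
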