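import Pool.Agent.MAJ.Targets2
import Pool.Agent.MAJ.P_AMP

set_option autoImplicit false

/-!
# MAJ-AM2: twelve repetitions
-/

namespace Pool.Agent.MAJ

namespace AM2_

open AMP_

theorem bad_bound (m : ℕ) (P : List Bool → Prop) (h : 16 * (bad1 m P).ncard ≤ 15 * 2 ^ m)
    (k : ℕ) : 16 ^ k * (bad m P k).ncard ≤ 15 ^ k * 2 ^ (k * m) := by
  induction k with
  | zero =>
    have : (bad m P 0).ncard ≤ {ρ : List Bool | ρ.length = 0}.ncard := by
      apply Set.ncard_le_ncard _ (fin_len 0)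
      rintro ρ ⟨hl, _⟩
      simpa using hl
    rw [card_len] at this
    simpa using this
  | succ k ih =>
    calc 16 ^ (k + 1) * (bad m P (k + 1)).ncard
        ≤ 16 ^ (k + 1) * ((bad1 m P).ncard * (bad m P k).ncard) :=
          Nat.mul_le_mul_left _ (bad_succ m P k)
      _ = (16 * (bad1 m P).ncard) * (16 ^ k * (bad m P k).ncard) := by ring
      _ ≤ (15 * 2 ^ m) * (15 ^ k * 2 ^ (k * m)) := Nat.mul_le_mul h ih
      _ = 15 ^ (k + 1) * 2 ^ ((k + 1) * m) := by ring

end AM2_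

open AMP_ in
theorem p_AM2 : T_AM2 := by
  intro m P h
  have h1 := split m P
  have hb1 : 16 * (bad1 m P).ncard ≤ 15 * 2 ^ m := by
    change 16 * {ρ : List Bool | ρ.length = m ∧ ¬ P ρ}.ncard ≤ 15 * 2 ^ m
    omega
  have h6 := AM2_.bad_bound m P hb1 12
  have h2 := split (12 * m) (fun ρ => ∃ σ ∈ pieces m 12 ρ, P σ)
  have h3 : {ρ : List Bool | ρ.length = 12 * m ∧ ¬ ∃ σ ∈ pieces m 12 ρ, P σ} = bad m P 12 := by
    ext ρ
    simp only [bad, Set.mem_ofPred_eq, not_exists, not_and]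
  rw [h3] at h2
  have h4 : 2 * (bad m P 12).ncard ≤ 2 ^ (12 * m) := by
    have : 281474976710656 * (bad m P 12).ncard ≤ 129746337890625 * 2 ^ (12 * m) := by
      have e1 : (16 : ℕ) ^ 12 = 281474976710656 := by norm_num
      have e2 : (15 : ℕ) ^ 12 = 129746337890625 := by norm_num
      rw [← e1, ← e2]
      exact h6
    omega
  omega

end Pool.Agent.MAJ
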