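import Pool.Agent.MAJ.Targets

set_option autoImplicit false

namespace Pool.Agent.MAJ

namespace ENC_

theorem dec_str (s cur : List Bool) (acc : List (List Bool)) :
    (s.flatMap (fun b => [true, b])).foldl decStep (false, cur, acc) = (false, cur ++ s, acc) := by
  induction s generalizing cur with
  | nil => simp
  | cons b s ih =>
    rw [List.flatMap_cons, List.foldl_append]
    have h1 : [true, b].foldl decStep (false, cur, acc) = (false, cur ++ [b], acc) := by
      simp [decStep]
    rw [h1, ih, List.append_assoc]
    rfl

theorem dec_list (l acc : List (List Bool)) :
    (encL l).foldl decStep (false, [], acc) = (false, [], acc ++ l) := by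
  induction l generalizing acc with
  | nil => simp [encL]
  | cons s l ih =>
    have h1 : encL (s :: l) = (s.flatMap (fun b => [true, b]) ++ [false]) ++ encL l := by
      unfold encL
      rw [List.flatMap_cons]
    rw [h1, List.foldl_append, List.foldl_append, dec_str]
    have h2 : [false].foldl decStep (false, [] ++ s, acc) = (false, [], acc ++ [s]) := by
      simp [decStep]
    rw [h2, ih, List.append_assoc]
    rfl

theorem parse_query (s cur : List Bool) (Q P : List (List Bool)) (B : List Block) :
    (s.map Tok.bit).foldl parseStep (cur, Q, P, B) = (cur ++ s, Q, P, B) := by
  induction s generalizing cur with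
  | nil => simp
  | cons b s ih =>
    rw [List.map_cons, List.foldl_cons]
    have h1 : parseStep (cur, Q, P, B) (Tok.bit b) = (cur ++ [b], Q, P, B) := rfl
    rw [h1, ih, List.append_assoc]
    rfl

theorem parse_queries (l Q P : List (List Bool)) (B : List Block) :
    (l.flatMap (encStr .endQuery)).foldl parseStep ([], Q, P, B) = ([], Q ++ l, P, B) := by
  induction l generalizing Q with
  | nil => simp
  | cons s l ih =>
    rw [List.flatMap_cons, List.foldl_append]
    unfold encStr
    rw [List.foldl_append, parse_query]
    have h1 : [Tok.endQuery].foldl parseStep ([] ++ s, Q, P, B) = ([], Q ++ [s], P, B) := by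
      simp [parseStep]
    rw [h1]
    have h2 := ih (Q ++ [s])
    unfold encStr at h2
    rw [h2, List.append_assoc]
    rfl

theorem parse_patterns (l Q P : List (List Bool)) (B : List Block) :
    (l.flatMap (encStr .endPattern)).foldl parseStep ([], Q, P, B) = ([], Q, P ++ l, B) := by
  induction l generalizing P with
  | nil => simp
  | cons s l ih =>
    rw [List.flatMap_cons, List.foldl_append]
    unfold encStr
    rw [List.foldl_append, parse_query]
    have h1 : [Tok.endPattern].foldl parseStep ([] ++ s, Q, P, B) = ([], Q, P ++ [s], B) := by
      simp [parseStep]
    rw [h1]
    have h2 := ih (P ++ [s])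
    unfold encStr at h2
    rw [h2, List.append_assoc]
    rfl

theorem parse_blocks (l B : List Block) :
    (encBlocks l).foldl parseStep ([], [], [], B) = ([], [], [], B ++ l) := by
  induction l generalizing B with
  | nil => simp [encBlocks]
  | cons b l ih =>
    have h1 : encBlocks (b :: l) = encBlock b ++ encBlocks l := by
      unfold encBlocks
      rw [List.flatMap_cons]
    rw [h1, List.foldl_append]
    have h2 : (encBlock b).foldl parseStep ([], [], [], B) = ([], [], [], B ++ [b]) := by
      unfold encBlock
      rw [List.foldl_append, List.foldl_append, parse_queries, parse_patterns]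
      simp [parseStep]
    rw [h2, ih, List.append_assoc]
    rfl

theorem dec_len (z : List Bool) (st : Bool × List Bool × List (List Bool)) (n : ℕ)
    (h1 : st.2.1.length ≤ n) (h2 : ∀ s ∈ st.2.2, s.length ≤ n) :
    ∀ s ∈ (z.foldl decStep st).2.2, s.length ≤ n + z.length := by
  induction z generalizing st n with
  | nil =>
    intro s hs
    simpa using h2 s hs
  | cons c z ih =>
    intro s hs
    rw [List.foldl_cons] at hs
    rw [List.length_cons]
    have h3 := ih (decStep st c) (n + 1) (by
      unfold decStep
      split_ifs
      · simp only [List.length_append, List.length_singleton]
        omega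
      · simp only
        omega
      · simp) (by
      intro s hs
      unfold decStep at hs
      split_ifs at hs
      · have := h2 s hs
        omega
      · have := h2 s hs
        omega
      · simp only [List.mem_append, List.mem_singleton] at hs
        rcases hs with hs | rfl
        · have := h2 s hs
          omega
        · omega) s hs
    omega

theorem takeU_eq {α : Type} (l : List α) (m : List Unit) : takeU l m = l.take m.length := by
  unfold takeU
  induction l generalizing m with
  | nil => simp
  | cons a l ih =>
    cases m with
    | nil => simp
    | cons u m => simp [ih]

theorem dropU_eq {α : Type} (l : List α) (m : List Unit) : dropU l m = l.drop m.length := by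
  unfold dropU
  induction m generalizing l with
  | nil => simp
  | cons u m ih =>
    rw [List.foldl_cons, ih, List.length_cons]
    cases l with
    | nil => simp
    | cons a l => simp

theorem chunks_fold (m k : List Unit) (l : List Bool) (acc : List (List Bool)) :
    (k.foldl (fun (s : List Bool × List (List Bool)) _ => (dropU s.1 m, s.2 ++ [takeU s.1 m]))
      (l, acc)).2 = acc ++ pieces m.length k.length l := by
  induction k generalizing l acc with
  | nil => simp [pieces]
  | cons u k ih =>
    rw [List.foldl_cons, ih, dropU_eq, takeU_eq, List.append_assoc]
    congr 1
    unfold pieces
    rw [List.length_cons, List.range_succ_eq_map, List.map_cons, List.map_map]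
    simp only [zero_mul, List.drop_zero, List.singleton_append, List.cons.injEq, true_and]
    apply List.map_congr_left
    intro i _
    simp only [Function.comp_apply, List.drop_drop]
    congr 2
    rw [Nat.succ_mul, add_comm]

theorem unis_fold (k s : List Unit) (acc : List (List Unit)) :
    ((k.foldl (fun (s : List Unit × List (List Unit)) u => (u :: s.1, s.2 ++ [u :: s.1]))
      (s, acc)).2).map List.length = acc.map List.length ++
        (List.range k.length).map (fun i => s.length + 1 + i) := by
  induction k generalizing s acc with
  | nil => simp
  | cons u k ih =>
    rw [List.foldl_cons, ih]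
    have e1 : List.range (u :: k).length = 0 :: (List.range k.length).map Nat.succ := by
      rw [List.length_cons, List.range_succ_eq_map]
    rw [e1, List.map_cons, List.map_map, List.map_append, List.append_assoc]
    congr 1
    simp only [List.map_cons, List.map_nil, List.length_cons, add_zero, List.singleton_append,
      List.cons.injEq, true_and]
    apply List.map_congr_left
    intro i _
    simp only [Function.comp_apply]
    omega

end ENC_

open ENC_

theorem p_ENC : T_ENC := by
  refine ⟨?_, ?_, ?_, ?_, ?_, ?_, ?_⟩
  · intro l
    unfold decL
    rw [dec_list]
    rfl
  · intro l
    unfold parse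
    rw [parse_blocks]
    rfl
  · intro z s hs
    have h1 := dec_len z (false, [], []) 0 (by simp) (by simp) s hs
    omega
  · intro α l m
    exact takeU_eq l m
  · intro α l m
    exact dropU_eq l m
  · intro m k l
    unfold chunks
    rw [chunks_fold, List.nil_append]
  · intro k
    unfold unis
    rw [unis_fold, List.range_succ_eq_map]
    simp only [List.map_cons, List.map_nil, List.length_nil, List.singleton_append,
      List.cons.injEq, true_and]
    apply List.map_congr_left
    intro i _
    omega

end Pool.Agent.MAJ
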