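import Pool.Agent.MAJ.P_IPA

set_option autoImplicit false

/-!
# MAJ, target EVA: the value of a vector
-/

namespace Pool.Agent.MAJ

lemma EVA_cons (S : Lang) (p : Bool × Feat) (W : Vec) :
    ev S (p :: W) = sg p.1 * fv S p.2 + ev S W := by
  simp [ev]

lemma EVA_fv_sq (S : Lang) (l : Feat) : fv S l ^ 2 ≤ 1 := by
  unfold fv
  split_ifs <;> norm_num

lemma EVA_sum (S : Lang) (F : Finset Feat) (W : Vec) (hF : ∀ p ∈ W, fv S p.2 ≠ 0 → p.2 ∈ F) :
    ev S W = ∑ l ∈ F, IPA_cf W l * fv S l := by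
  induction W with
  | nil => simp [ev, IPA_cf]
  | cons p W ih =>
    rw [EVA_cons, ih fun q hq => hF q (List.mem_cons_of_mem _ hq)]
    simp only [IPA_cf_cons, add_mul, Finset.sum_add_distrib]
    congr 1
    by_cases h0 : fv S p.2 = 0
    · rw [h0, mul_zero]
      symm
      refine Finset.sum_eq_zero fun l _ => ?_
      by_cases hl : p.2 = l
      · rw [← hl, h0, mul_zero]
      · rw [if_neg hl, zero_mul]
    · rw [Finset.sum_eq_single_of_mem p.2 (hF p List.mem_cons_self h0)]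
      · rw [if_pos rfl]
      · intro b _ hb
        rw [if_neg (fun h => hb h.symm), zero_mul]

theorem p_EVA : T_EVA := by
  classical
  intro S
  refine ⟨?_, ?_, ?_⟩
  · intro W W'
    simp [ev]
  · intro W
    induction W with
    | nil => simp [ev, negV]
    | cons p W ih =>
      have h1 : negV (p :: W) = (!p.1, p.2) :: negV W := rfl
      rw [h1, EVA_cons, EVA_cons, ih]
      rcases p with ⟨b, f⟩
      cases b <;> simp [sg] <;> ring
  · intro W F hF
    rw [EVA_sum S F W hF]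
    have h1 := Finset.sum_mul_sq_le_sq_mul_sq F (IPA_cf W) (fun l => fv S l)
    have h2 : ∑ l ∈ F, fv S l ^ 2 ≤ (F.card : ℤ) := by
      calc ∑ l ∈ F, fv S l ^ 2 ≤ ∑ l ∈ F, (1 : ℤ) := Finset.sum_le_sum fun l _ => EVA_fv_sq S l
        _ = F.card := by simp
    have h3 : ∑ l ∈ F, IPA_cf W l ^ 2 ≤ ip W W := by
      rw [IPA_sum (F ∪ IPA_F W W) W W
        (fun p hp => Finset.mem_union_right _ (IPA_F_left W W p hp))]
      have h4 : ∀ l, IPA_cf W l * IPA_cf W l = IPA_cf W l ^ 2 := fun l => by ring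
      simp only [h4]
      exact Finset.sum_le_sum_of_subset_of_nonneg Finset.subset_union_left
        fun l _ _ => sq_nonneg _
    have h5 : (0 : ℤ) ≤ ∑ l ∈ F, IPA_cf W l ^ 2 := Finset.sum_nonneg fun l _ => sq_nonneg _
    have h6 : (0 : ℤ) ≤ F.card := Int.natCast_nonneg _
    calc (∑ l ∈ F, IPA_cf W l * fv S l) ^ 2
        ≤ (∑ l ∈ F, IPA_cf W l ^ 2) * ∑ l ∈ F, fv S l ^ 2 := h1
      _ ≤ (∑ l ∈ F, IPA_cf W l ^ 2) * F.card := mul_le_mul_of_nonneg_left h2 h5
      _ ≤ ip W W * F.card := mul_le_mul_of_nonneg_right h3 h6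

end Pool.Agent.MAJ
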