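import Pool.Agent.MAJ.Targets

set_option autoImplicit false

/-!
# MAJ, target IPA: the scalar product of signed lists
-/

namespace Pool.Agent.MAJ

/-- The coefficient of a feature. -/
def IPA_cf (W : Vec) (l : Feat) : ℤ := (W.map fun p => if p.2 = l then sg p.1 else 0).sum

lemma IPA_cf_cons (p : Bool × Feat) (W : Vec) (l : Feat) :
    IPA_cf (p :: W) l = (if p.2 = l then sg p.1 else 0) + IPA_cf W l := by
  simp [IPA_cf]

lemma IPA_count (p : Bool × Feat) (h : Vec) :
    ((h.countP fun q => decide (p.2 = q.2) && decide (p.1 = q.1) : ℕ) : ℤ) -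
      ((h.countP fun q => decide (p.2 = q.2) && !decide (p.1 = q.1) : ℕ) : ℤ) =
      sg p.1 * IPA_cf h p.2 := by
  induction h with
  | nil => simp [IPA_cf]
  | cons q h ih =>
    rw [List.countP_cons, List.countP_cons, IPA_cf_cons]
    push_cast
    rw [mul_add, ← ih]
    by_cases h1 : p.2 = q.2
    · have h1' : q.2 = p.2 := h1.symm
      rcases p with ⟨b, f⟩
      rcases q with ⟨b', f'⟩
      simp only at h1 h1'
      subst h1
      cases b <;> cases b' <;> simp [sg] <;> ring
    · have h1' : ¬ q.2 = p.2 := fun h => h1 h.symm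
      simp [h1, h1']

lemma IPA_ip_cons (p : Bool × Feat) (W h : Vec) :
    ip (p :: W) h = sg p.1 * IPA_cf h p.2 + ip W h := by
  unfold ip posC negC
  rw [List.flatMap_cons, List.countP_append, List.countP_append, List.countP_map, List.countP_map,
    ← IPA_count p h]
  push_cast
  simp only [Function.comp_def]
  ring

lemma IPA_ip_nil (h : Vec) : ip [] h = 0 := by
  simp [ip, posC, negC]

lemma IPA_sum (F : Finset Feat) (W h : Vec) (hF : ∀ p ∈ W, p.2 ∈ F) :
    ip W h = ∑ l ∈ F, IPA_cf W l * IPA_cf h l := by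
  induction W with
  | nil => simp [IPA_ip_nil, IPA_cf]
  | cons p W ih =>
    rw [IPA_ip_cons, ih fun q hq => hF q (List.mem_cons_of_mem _ hq)]
    simp only [IPA_cf_cons, add_mul, Finset.sum_add_distrib]
    congr 1
    have hp : p.2 ∈ F := hF p List.mem_cons_self
    rw [Finset.sum_eq_single_of_mem p.2 hp]
    · rw [if_pos rfl]
    · intro b _ hb
      rw [if_neg (fun h => hb h.symm), zero_mul]

/-- All features of two vectors. -/
def IPA_F (W h : Vec) : Finset Feat := (W.map Prod.snd ++ h.map Prod.snd).toFinset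

lemma IPA_F_left (W h : Vec) : ∀ p ∈ W, p.2 ∈ IPA_F W h := by
  intro p hp
  simp only [IPA_F, List.mem_toFinset, List.mem_append, List.mem_map]
  exact Or.inl ⟨p, hp, rfl⟩

lemma IPA_F_right (W h : Vec) : ∀ p ∈ h, p.2 ∈ IPA_F W h := by
  intro p hp
  simp only [IPA_F, List.mem_toFinset, List.mem_append, List.mem_map]
  exact Or.inr ⟨p, hp, rfl⟩

lemma IPA_cf_map (h : Vec) (s t : List Bool) (l : Feat) :
    IPA_cf (h.map fun p => (p.1, t :: p.2)) (s :: l) = if s = t then IPA_cf h l else 0 := by
  induction h with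
  | nil => simp [IPA_cf]
  | cons q h ih =>
    rw [List.map_cons, IPA_cf_cons, IPA_cf_cons, ih]
    by_cases hst : s = t
    · subst hst
      simp
    · have hts : ¬ t = s := fun h => hst h.symm
      simp [hst, hts]

theorem p_IPA : T_IPA := by
  refine ⟨?_, ?_, ?_, ?_, ?_, ?_, ?_⟩
  · intro W W' h
    induction W with
    | nil => simp [IPA_ip_nil]
    | cons p W ih =>
      rw [List.cons_append, IPA_ip_cons, IPA_ip_cons, ih]
      ring
  · intro W h
    rw [IPA_sum (IPA_F W h) W h (IPA_F_left W h), IPA_sum (IPA_F W h) h W (IPA_F_right W h)]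
    exact Finset.sum_congr rfl fun l _ => mul_comm _ _
  · intro W h
    induction W with
    | nil => simp [negV, IPA_ip_nil]
    | cons p W ih =>
      have h1 : negV (p :: W) = (!p.1, p.2) :: negV W := rfl
      rw [h1, IPA_ip_cons, IPA_ip_cons, ih]
      rcases p with ⟨b, f⟩
      cases b <;> simp [sg] <;> ring
  · intro W h
    rw [IPA_sum (IPA_F W h) W h (IPA_F_left W h), IPA_sum (IPA_F W h) W W (IPA_F_left W h),
      IPA_sum (IPA_F W h) h h (IPA_F_right W h)]
    have := Finset.sum_mul_sq_le_sq_mul_sq (IPA_F W h) (IPA_cf W) (IPA_cf h)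
    simpa only [sq] using this
  · intro W
    rw [IPA_sum (IPA_F W W) W W (IPA_F_left W W)]
    exact Finset.sum_nonneg fun l _ => mul_self_nonneg _
  · intro W
    have h1 : posC W W ≤ W.length * W.length := by
      unfold posC
      refine List.countP_le_length.trans ?_
      rw [List.length_flatMap]
      simp
    unfold ip
    have h2 : (posC W W : ℤ) ≤ (W.length : ℤ) * W.length := by exact_mod_cast h1
    have h3 : (0 : ℤ) ≤ (negC W W : ℤ) := by positivity
    rw [sq]
    linarith
  · intro W h s t
    induction W with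
    | nil => simp [IPA_ip_nil]
    | cons p W ih =>
      rw [List.map_cons, IPA_ip_cons, ih, IPA_cf_map, IPA_ip_cons]
      by_cases hst : s = t
      · simp [hst]
      · simp [hst]

end Pool.Agent.MAJ
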