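import Pool.Agent.MAJ.Targets2

set_option autoImplicit false

/-!
# MAJ-JNT: two stages
-/

namespace Pool.Agent.MAJ

namespace JNT_

theorem fin_len (n : ℕ) : {ρ : List Bool | ρ.length = n}.Finite := List.finite_length_eq Bool n

theorem fin_and (n : ℕ) (Q : List Bool → Prop) : {ρ : List Bool | ρ.length = n ∧ Q ρ}.Finite :=
  (fin_len n).subset fun _ h => h.1

end JNT_

open JNT_ in
theorem p_JNT : T_JNT := by
  intro m1 m2 A G h1 h2
  classical
  have hS := fin_and m1 A
  have hT : ∀ ρ : List Bool, {R : List Bool | R.length = m2 ∧ G ρ R}.Finite :=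
    fun ρ => fin_and m2 (G ρ)
  have hU : {σ : List Bool | σ.length = m1 + m2 ∧ A (σ.take m1) ∧
    G (σ.take m1) (σ.drop m1)}.Finite := (fin_len (m1 + m2)).subset fun _ h => h.1
  have hcard : (hS.toFinset.sigma (fun ρ => (hT ρ).toFinset)).card ≤ hU.toFinset.card := by
    apply Finset.card_le_card_of_injOn (fun p : (Σ _ : List Bool, List Bool) => p.1 ++ p.2)
    · rintro ⟨ρ, R⟩ hp
      rw [Finset.mem_coe, Finset.mem_sigma] at hp
      obtain ⟨ha, hb⟩ := hp
      rw [Set.Finite.mem_toFinset] at ha hb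
      obtain ⟨ha1, ha2⟩ := ha
      obtain ⟨hb1, hb2⟩ := hb
      rw [Finset.mem_coe, Set.Finite.mem_toFinset]
      simp only [] at ha1 ha2 hb1 hb2
      refine ⟨?_, ?_, ?_⟩
      · simp only [List.length_append, ha1, hb1]
      · simp only [← ha1, List.take_left']
        exact ha2
      · simp only [← ha1, List.take_left', List.drop_left']
        exact hb2
    · rintro ⟨ρ, R⟩ hp ⟨ρ', R'⟩ hp' he
      rw [Finset.mem_coe, Finset.mem_sigma, Set.Finite.mem_toFinset,
        Set.Finite.mem_toFinset] at hp hp'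
      have hl : ρ.length = ρ'.length := by
        rw [show ρ.length = m1 from hp.1.1, show ρ'.length = m1 from hp'.1.1]
      obtain ⟨e1, e2⟩ := List.append_inj he hl
      subst e1
      subst e2
      rfl
  rw [Finset.card_sigma] at hcard
  have hsum : hS.toFinset.card * 2 ^ m2 ≤ 2 * ∑ ρ ∈ hS.toFinset, (hT ρ).toFinset.card := by
    rw [Finset.mul_sum, ← smul_eq_mul, ← Finset.sum_const]
    apply Finset.sum_le_sum
    intro ρ hρ
    rw [Set.Finite.mem_toFinset] at hρ
    have h3 := h2 ρ hρ.1 hρ.2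
    rwa [Set.ncard_eq_toFinset_card _ (hT ρ)] at h3
  rw [Set.ncard_eq_toFinset_card _ hS] at h1
  rw [Set.ncard_eq_toFinset_card _ hU]
  have h4 : 2 ^ (m1 + m2) ≤ 8 * hS.toFinset.card * 2 ^ m2 := by
    rw [pow_add]
    exact Nat.mul_le_mul_right _ h1
  calc 2 ^ (m1 + m2) ≤ 8 * hS.toFinset.card * 2 ^ m2 := h4
    _ = 8 * (hS.toFinset.card * 2 ^ m2) := by ring
    _ ≤ 8 * (2 * ∑ ρ ∈ hS.toFinset, (hT ρ).toFinset.card) := Nat.mul_le_mul_left _ hsum
    _ ≤ 8 * (2 * hU.toFinset.card) := by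
      apply Nat.mul_le_mul_left
      apply Nat.mul_le_mul_left
      exact hcard
    _ = 16 * hU.toFinset.card := by ring

end Pool.Agent.MAJ
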