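import Pool.Agent.MAJ.Targets

set_option autoImplicit false

/-!
# MAJ: the language of the questions is in NP / UP (LNP)
-/

namespace Pool.Agent.MAJ

open Pool.Agent.PT (Dat PolyF sz Core)

namespace LNP_

lemma eval_mono (q : Polynomial ℕ) {a b : ℕ} (h : a ≤ b) : q.eval a ≤ q.eval b := by
  rw [Polynomial.eval_eq_sum_range, Polynomial.eval_eq_sum_range]
  exact Finset.sum_le_sum fun i _ => Nat.mul_le_mul_left _ (Nat.pow_le_pow_left h i)

/-- The verifier. -/
def ver (V : List Bool × List Bool → Bool) (L : List Bool → List Unit)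
    (p : List Bool × List Bool) : Bool :=
  decide (2 ≤ (decL p.1).length) &&
    (V ((decL p.1).headD [], takeU p.2 (L ((decL p.1).headD []))) &&
    (dot ((decL p.1).tail.headD []) (takeU p.2 (L ((decL p.1).headD []))) &&
    (((decL p.1).tail.tail.all
        fun r => !dot r (takeU p.2 (L ((decL p.1).headD [])) ++ [true])) &&
    decide (p.2.countP (fun b => b) =
      (takeU p.2 (L ((decL p.1).headD []))).countP (fun b => b)))))

theorem ver_polyF (h_PEN : T_PEN) (V : List Bool × List Bool → Bool) (hV : PolyF V)
    (L : List Bool → List Unit) (hL : PolyF L) : PolyF (ver V L) := by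
  have : Fact Core := ⟨Pool.Agent.PT.core⟩
  obtain ⟨-, hdec, -, htake, -, -, -, hdot⟩ := h_PEN
  have h1 : PolyF (fun p : List Bool × List Bool => decL p.1) :=
    PolyF.comp hdec (PolyF.fst PolyF.id)
  have h2 : PolyF (fun p : List Bool × List Bool => (decL p.1).headD []) :=
    PolyF.headD h1 (PolyF.const _)
  have h3 : PolyF (fun p : List Bool × List Bool => takeU p.2 (L ((decL p.1).headD []))) :=
    PolyF.comp (f := fun p : List Bool × List Unit => takeU p.1 p.2)
      (g := fun p : List Bool × List Bool => (p.2, L ((decL p.1).headD []))) (htake (α := Bool))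
      (PolyF.pair (PolyF.snd PolyF.id) (PolyF.comp hL h2))
  have h4 : PolyF (fun p : List Bool × List Bool =>
      V ((decL p.1).headD [], takeU p.2 (L ((decL p.1).headD [])))) :=
    PolyF.comp hV (PolyF.pair h2 h3)
  have h5 : PolyF (fun p : List Bool × List Bool =>
      dot ((decL p.1).tail.headD []) (takeU p.2 (L ((decL p.1).headD [])))) :=
    PolyF.comp hdot (PolyF.pair (PolyF.headD (PolyF.tail h1) (PolyF.const _)) h3)
  have h6 : PolyF (fun p : List Bool × List Bool => (decL p.1).tail.tail.all
        fun r => !dot r (takeU p.2 (L ((decL p.1).headD [])) ++ [true])) := by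
    refine PolyF.all (f := fun (p : List Bool × List Bool) (r : List Bool) =>
      !dot r (takeU p.2 (L ((decL p.1).headD [])) ++ [true])) ?_ (PolyF.tail (PolyF.tail h1))
    refine PolyF.not ?_
    exact PolyF.comp hdot (PolyF.pair (PolyF.snd PolyF.id)
      (PolyF.append (PolyF.comp h3 (PolyF.fst PolyF.id)) (PolyF.const _)))
  have h7 : PolyF (fun p : List Bool × List Bool => decide (p.2.countP (fun b => b) =
      (takeU p.2 (L ((decL p.1).headD []))).countP (fun b => b))) := by
    refine PolyF.eq_nat ?_ ?_
    · exact PolyF.countP (f := fun (_ : List Bool × List Bool) (b : Bool) => b)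
        (PolyF.snd PolyF.id) (PolyF.snd PolyF.id)
    · exact PolyF.countP (f := fun (_ : List Bool × List Bool) (b : Bool) => b)
        (PolyF.snd PolyF.id) h3
  have h8 : PolyF (fun p : List Bool × List Bool => decide (2 ≤ (decL p.1).length)) :=
    PolyF.nat_le (PolyF.const _) (PolyF.length h1)
  exact PolyF.and h8 (PolyF.and h4 (PolyF.and h5 (PolyF.and h6 h7)))

lemma no_true {l : List Bool} (h : l.countP (fun b => b) = 0) :
    l = List.replicate l.length false := by
  rw [List.eq_replicate_iff]
  refine ⟨rfl, fun b hb => ?_⟩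
  rw [List.countP_eq_zero] at h
  have := h b hb
  simpa using this

lemma count_split (u : List Bool) (n : ℕ)
    (h : u.countP (fun b => b) = (u.take n).countP (fun b => b)) :
    u = u.take n ++ List.replicate (u.length - n) false := by
  have h1 : u.countP (fun b => b) =
      (u.take n).countP (fun b => b) + (u.drop n).countP (fun b => b) := by
    rw [← List.countP_append, List.take_append_drop]
  have h2 : (u.drop n).countP (fun b => b) = 0 := by omega
  have h3 := no_true h2
  rw [List.length_drop] at h3
  conv_lhs => rw [← List.take_append_drop n u]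
  rw [← h3]

/-- What acceptance means. -/
lemma ver_iff (h_ENC : T_ENC) (V : List Bool × List Bool → Bool) (L : List Bool → List Unit)
    (z u : List Bool) : ver V L (z, u) = true ↔
      ∃ x a rows, decL z = x :: a :: rows ∧ V (x, u.take (L x).length) = true ∧
        dot a (u.take (L x).length) = true ∧
        (∀ r ∈ rows, dot r (u.take (L x).length ++ [true]) = false) ∧
        u.countP (fun b => b) = (u.take (L x).length).countP (fun b => b) := by
  have ht : ∀ m : List Unit, takeU u m = u.take m.length := h_ENC.2.2.2.1 u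
  unfold ver
  simp only [Bool.and_eq_true, decide_eq_true_eq, List.all_eq_true, Bool.not_eq_true', ht]
  constructor
  · rintro ⟨h1, h2, h3, h4, h5⟩
    rcases hD : decL z with _ | ⟨x, _ | ⟨a, rows⟩⟩
    · rw [hD] at h1; simp at h1
    · rw [hD] at h1; simp at h1
    · rw [hD] at h2 h3 h4 h5
      exact ⟨x, a, rows, rfl, h2, h3, h4, h5⟩
  · rintro ⟨x, a, rows, hD, h2, h3, h4, h5⟩
    rw [hD]
    refine ⟨by simp, h2, h3, h4, h5⟩

theorem main (h_ENC : T_ENC) (q : Polynomial ℕ) (V : List Bool × List Bool → Bool)
    (L : List Bool → List Unit) (eL : ∀ x, (L x).length = q.eval x.length) (z : List Bool) :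
    z ∈ langU q V ↔ ∃ u : List Bool, u.length = q.eval z.length ∧ ver V L (z, u) = true := by
  constructor
  · rintro ⟨x, a, rows, hD, w, hw, h1, h2, h3⟩
    have hx : x.length ≤ z.length := h_ENC.2.2.1 z x (by rw [hD]; simp)
    have hq : q.eval x.length ≤ q.eval z.length := eval_mono q hx
    refine ⟨w ++ List.replicate (q.eval z.length - w.length) false, ?_, ?_⟩
    · rw [List.length_append, List.length_replicate]; omega
    · rw [ver_iff h_ENC]
      have ht : (w ++ List.replicate (q.eval z.length - w.length) false).take (L x).length = w := by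
        rw [eL, ← hw, List.take_left]
      refine ⟨x, a, rows, hD, ?_⟩
      rw [ht]
      refine ⟨h1, h2, h3, ?_⟩
      rw [List.countP_append]
      have : (List.replicate (q.eval z.length - w.length) false).countP (fun b => b) = 0 := by
        rw [List.countP_eq_zero]
        intro b hb
        have := List.eq_of_mem_replicate hb
        rw [this]; simp
      omega
  · rintro ⟨u, hu, hv⟩
    rw [ver_iff h_ENC] at hv
    obtain ⟨x, a, rows, hD, h1, h2, h3, -⟩ := hv
    have hx : x.length ≤ z.length := h_ENC.2.2.1 z x (by rw [hD]; simp)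
    have hq : q.eval x.length ≤ q.eval z.length := eval_mono q hx
    refine ⟨x, a, rows, hD, u.take (L x).length, ?_, h1, h2, h3⟩
    rw [List.length_take, eL]; omega

theorem uniq (h_ENC : T_ENC) (q : Polynomial ℕ) (V : List Bool × List Bool → Bool)
    (L : List Bool → List Unit) (eL : ∀ x, (L x).length = q.eval x.length)
    (hV : ∀ x w w', w.length = q.eval x.length → w'.length = q.eval x.length →
      V (x, w) = true → V (x, w') = true → w = w')
    (z u u' : List Bool) (hu : u.length = q.eval z.length) (hu' : u'.length = q.eval z.length)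
    (h : ver V L (z, u) = true) (h' : ver V L (z, u') = true) : u = u' := by
  rw [ver_iff h_ENC] at h h'
  obtain ⟨x, a, rows, hD, h1, -, -, h4⟩ := h
  obtain ⟨x', a', rows', hD', h1', -, -, h4'⟩ := h'
  have hxx : x = x' := by
    rw [hD] at hD'
    exact (List.cons.inj hD').1
  subst hxx
  have hx : x.length ≤ z.length := h_ENC.2.2.1 z x (by rw [hD]; simp)
  have hq : q.eval x.length ≤ q.eval z.length := eval_mono q hx
  have hw : u.take (L x).length = u'.take (L x).length := by
    refine hV x _ _ ?_ ?_ h1 h1'
    · rw [List.length_take, eL]; omega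
    · rw [List.length_take, eL]; omega
  rw [count_split u _ h4, count_split u' _ h4', hw, hu, hu']

end LNP_

theorem p_LNP (h_TMP : T_TMP) (h_ENC : T_ENC) (h_PEN : T_PEN) : T_LNP := by
  intro q V hV
  obtain ⟨L, hL, eL⟩ := Pool.Agent.CookLevin.tLEN (Γ := Bool) q
  have hp : PolyTime encPair encBool (LNP_.ver V L) :=
    (h_TMP.1 _).2 (LNP_.ver_polyF h_PEN V hV L hL)
  refine ⟨⟨q, LNP_.ver V L, hp, fun z => LNP_.main h_ENC q V L eL z⟩, fun hU => ?_⟩
  exact ⟨q, LNP_.ver V L, hp, fun z => ⟨LNP_.main h_ENC q V L eL z,
    fun w w' hw hw' h h' => LNP_.uniq h_ENC q V L eL hU z w w' hw hw' h h'⟩⟩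

end Pool.Agent.MAJ
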