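import Pool.Agent.MAJ.Targets2

set_option autoImplicit false

/-!
# MAJ, part 2: length of the questions
-/

namespace Pool.Agent.MAJ

namespace LNZ_

theorem len_pairs (s : List Bool) : (s.flatMap fun b => [true, b]).length = 2 * s.length := by
  induction s with
  | nil => simp
  | cons b s ih =>
    rw [List.flatMap_cons, List.length_append, ih]
    simp
    omega

theorem len_cons (s : List Bool) (l : List (List Bool)) :
    (encL (s :: l)).length = (2 * s.length + 1) + (encL l).length := by
  unfold encL
  rw [List.flatMap_cons, List.length_append, List.length_append, len_pairs]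
  simp

theorem len_le (n : ℕ) : ∀ rows : List (List Bool), (∀ r ∈ rows, r.length ≤ n + 1) →
    (encL rows).length ≤ rows.length * (2 * (n + 1) + 1) := by
  intro rows
  induction rows with
  | nil =>
    intro _
    simp [encL]
  | cons r rows ih =>
    intro h
    have h1 := h r (by simp)
    have h2 := ih fun s hs => h s (by simp [hs])
    rw [len_cons, List.length_cons, Nat.add_mul, one_mul]
    omega

end LNZ_

theorem p_LNZ : T_LNZ := by
  intro x a rows n ha hr hrows
  have h1 := LNZ_.len_le n rows hrows
  have h2 : rows.length * (2 * (n + 1) + 1) ≤ (n + 2) * (2 * (n + 1) + 1) :=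
    Nat.mul_le_mul_right _ hr
  rw [LNZ_.len_cons, LNZ_.len_cons]
  omega

end Pool.Agent.MAJ
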