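import Pool.Agent.MAJ.Targets2
import Pool.Agent.PT.Gen

set_option autoImplicit false

/-!
# MAJ-M2R: a majority reduction is a randomised reduction
-/

namespace Pool.Agent.MAJ

open Pool.Agent.PT (Dat PolyF sz Core length_lt_sz sz_bits_le)

namespace M2R_

/-! ## Machine side -/

/-- The first string of the written pair. -/
def dl (t : Bool ⊕ Bool) : List Bool := Sum.elim (fun b => [b]) (fun _ => []) t

/-- The second string of the written pair. -/
def dr (t : Bool ⊕ Bool) : List Bool := Sum.elim (fun _ => []) (fun b => [b]) t

theorem dl_enc (p : List Bool × List Bool) : (encPair p).flatMap dl = p.1 := by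
  unfold encPair
  rw [List.flatMap_append]
  have h1 : ∀ l : List Bool, (l.map (Sum.inl : Bool → Bool ⊕ Bool)).flatMap dl = l := by
    intro l
    induction l with
    | nil => rfl
    | cons a l ih => rw [List.map_cons, List.flatMap_cons, ih]; rfl
  have h2 : ∀ l : List Bool, (l.map (Sum.inr : Bool → Bool ⊕ Bool)).flatMap dl = [] := by
    intro l
    induction l with
    | nil => rfl
    | cons a l ih => rw [List.map_cons, List.flatMap_cons, ih]; rfl
  rw [h1, h2, List.append_nil]

theorem dr_enc (p : List Bool × List Bool) : (encPair p).flatMap dr = p.2 := by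
  unfold encPair
  rw [List.flatMap_append]
  have h1 : ∀ l : List Bool, (l.map (Sum.inl : Bool → Bool ⊕ Bool)).flatMap dr = [] := by
    intro l
    induction l with
    | nil => rfl
    | cons a l ih => rw [List.map_cons, List.flatMap_cons, ih]; rfl
  have h2 : ∀ l : List Bool, (l.map (Sum.inr : Bool → Bool ⊕ Bool)).flatMap dr = l := by
    intro l
    induction l with
    | nil => rfl
    | cons a l ih => rw [List.map_cons, List.flatMap_cons, ih]; rfl
  rw [h1, h2, List.nil_append]

theorem encStr_pt (e : Tok) : PolyF (encStr e) := by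
  have : Fact Core := ⟨Pool.Agent.PT.core⟩
  have hb : PolyF (Tok.bit) := PolyF.finite _
  have h1 : PolyF (fun s : List Bool => s.map Tok.bit) :=
    PolyF.map (f := fun _ => Tok.bit) (hb.comp (PolyF.snd PolyF.id)) PolyF.id
  exact PolyF.append h1 (PolyF.const _)

theorem encBlock_pt : PolyF encBlock := by
  have : Fact Core := ⟨Pool.Agent.PT.core⟩
  have h1 : PolyF (fun b : Block => b.1.flatMap (encStr .endQuery)) :=
    PolyF.flatMap (f := fun _ => encStr .endQuery) ((encStr_pt _).comp (PolyF.snd PolyF.id))
      (PolyF.fst PolyF.id)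
  have h2 : PolyF (fun b : Block => b.2.flatMap (encStr .endPattern)) :=
    PolyF.flatMap (f := fun _ => encStr .endPattern) ((encStr_pt _).comp (PolyF.snd PolyF.id))
      (PolyF.snd PolyF.id)
  exact PolyF.append (PolyF.append h1 h2) (PolyF.const _)

theorem tm_pair {g : List Bool × List Bool → Block} (hg : PolyF g) :
    PolyTime encPair encBlock g := by
  have : Fact Core := ⟨Pool.Agent.PT.core⟩
  have hl : PolyF dl := PolyF.finite _
  have hr : PolyF dr := PolyF.finite _
  have h1 : PolyF (fun w : List (Bool ⊕ Bool) => w.flatMap dl) :=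
    PolyF.flatMap (f := fun _ => dl) (hl.comp (PolyF.snd PolyF.id)) PolyF.id
  have h2 : PolyF (fun w : List (Bool ⊕ Bool) => w.flatMap dr) :=
    PolyF.flatMap (f := fun _ => dr) (hr.comp (PolyF.snd PolyF.id)) PolyF.id
  refine Pool.Agent.PT.tm_of_polyF
    (F := fun w : List (Bool ⊕ Bool) => encBlock (g (w.flatMap dl, w.flatMap dr))) ?_ _ _ _ ?_
  · exact encBlock_pt.comp (hg.comp (PolyF.pair h1 h2))
  · intro p
    rw [dl_enc, dr_enc]

/-! ## The reduction -/

/-- Four copies and two false blocks. -/
def lB (l : List Block) : List Block := l ++ l ++ l ++ l ++ [([], []), ([], [])]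

/-- The block with the number `j`. -/
def bk (l : List Block) (j : ℕ) : Block :=
  if j < l.length then l.getD j ([], []) else if j % 2 = 1 then ([], []) else ([], [[]])

/-- The randomised reduction. -/
def red1 (f : List Bool → List Block) (p : List Bool × List Bool) : Block :=
  bk (lB (f p.1)) (Pool.Agent.PT.val ((p.2.zip (lB (f p.1)).length.bits).map Prod.fst))

theorem red1_pt {f : List Bool → List Block} (hf : PolyF f) : PolyF (red1 f) := by
  have : Fact Core := ⟨Pool.Agent.PT.core⟩
  have h1 : PolyF (fun p : List Bool × List Bool => f p.1) := hf.comp (PolyF.fst PolyF.id)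
  have h2 : PolyF (fun p : List Bool × List Bool => lB (f p.1)) :=
    PolyF.append (PolyF.append (PolyF.append (PolyF.append h1 h1) h1) h1) (PolyF.const _)
  have h3 : PolyF (fun p : List Bool × List Bool => (lB (f p.1)).length) := PolyF.length h2
  have h4 : PolyF (fun p : List Bool × List Bool =>
      (p.2.zip (lB (f p.1)).length.bits).map Prod.fst) :=
    PolyF.map (f := fun (_ : List Bool × List Bool) (q : Bool × Bool) => q.1)
      (PolyF.fst (PolyF.snd PolyF.id)) (PolyF.zip (PolyF.snd PolyF.id) (PolyF.bits h3))
  have h5 : PolyF (fun p : List Bool × List Bool =>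
      Pool.Agent.PT.val ((p.2.zip (lB (f p.1)).length.bits).map Prod.fst)) := PolyF.val h4
  have h6 : PolyF (fun p : List Bool × List Bool =>
      if decide (Pool.Agent.PT.val ((p.2.zip (lB (f p.1)).length.bits).map Prod.fst) <
        (lB (f p.1)).length) = true then
        (lB (f p.1)).getD (Pool.Agent.PT.val ((p.2.zip (lB (f p.1)).length.bits).map Prod.fst))
          (([], []) : Block)
      else if decide (Pool.Agent.PT.val ((p.2.zip (lB (f p.1)).length.bits).map Prod.fst) % 2 = 1)
        = true then ([], []) else ([], [[]])) :=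
    PolyF.iteb (PolyF.nat_lt h5 h3) (PolyF.getD h2 h5 (PolyF.const _))
      (PolyF.iteb (PolyF.nat_odd h5) (PolyF.const _) (PolyF.const _))
  refine h6.congr fun p => ?_
  unfold red1 bk
  simp only [decide_eq_true_eq]

theorem map_fst_zip {α β : Type} (l : List α) : ∀ m : List β,
    (l.zip m).map Prod.fst = l.take m.length := by
  induction l with
  | nil => intro m; simp
  | cons a l ih =>
    intro m
    cases m with
    | nil => simp
    | cons b m => simp only [List.zip_cons_cons, List.map_cons, List.length_cons,
        List.take_succ_cons, ih]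

theorem red1_eq (f : List Bool → List Block) (x r : List Bool) : red1 f (x, r) =
    bk (lB (f x)) (Pool.Agent.PT.val (r.take (Nat.size (lB (f x)).length))) := by
  unfold red1
  rw [map_fst_zip, Nat.size_eq_bits_len]

/-! ## Numbers and strings -/

theorem val_lt (r : List Bool) : Pool.Agent.PT.val r < 2 ^ r.length := by
  induction r with
  | nil => simp [Pool.Agent.PT.val]
  | cons b r ih =>
    rw [List.length_cons, pow_succ]
    cases b <;> simp only [Pool.Agent.PT.val, Bool.false_eq_true, if_false, if_true] <;> omega

theorem val_inj (r : List Bool) : ∀ s : List Bool, r.length = s.length →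
    Pool.Agent.PT.val r = Pool.Agent.PT.val s → r = s := by
  induction r with
  | nil =>
    intro s h _
    exact (List.eq_nil_of_length_eq_zero h.symm).symm
  | cons b r ih =>
    intro s h hv
    cases s with
    | nil => simp at h
    | cons c s =>
      simp only [List.length_cons, Nat.add_right_cancel_iff] at h
      have h1 : b = c ∧ Pool.Agent.PT.val r = Pool.Agent.PT.val s := by
        cases b <;> cases c <;>
          simp only [Pool.Agent.PT.val, Bool.false_eq_true, if_false, if_true] at hv <;>
          simp <;> omega
      rw [h1.1, ih s h h1.2]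

theorem val_surj (m : ℕ) : ∀ j, j < 2 ^ m → ∃ r : List Bool, r.length = m ∧
    Pool.Agent.PT.val r = j := by
  induction m with
  | zero =>
    intro j hj
    refine ⟨[], rfl, ?_⟩
    simp only [pow_zero] at hj
    simp only [Pool.Agent.PT.val]
    omega
  | succ m ih =>
    intro j hj
    rw [pow_succ] at hj
    obtain ⟨r, h1, h2⟩ := ih (j / 2) (by omega)
    refine ⟨decide (j % 2 = 1) :: r, by simp [h1], ?_⟩
    rcases Nat.mod_two_eq_zero_or_one j with h | h
    · simp only [Pool.Agent.PT.val, h, h2]
      norm_num
      omega
    · simp only [Pool.Agent.PT.val, h, h2]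
      norm_num
      omega

/-- Counting strings by their numbers. -/
theorem count_val (m : ℕ) (Q : ℕ → Prop) [DecidablePred Q] :
    {r : List Bool | r.length = m ∧ Q (Pool.Agent.PT.val r)}.ncard =
      ((Finset.range (2 ^ m)).filter Q).card := by
  rw [← Set.ncard_coe_finset]
  refine Set.ncard_congr (fun r _ => Pool.Agent.PT.val r) ?_ ?_ ?_
  · rintro r ⟨h1, h2⟩
    rw [Finset.mem_coe, Finset.mem_filter, Finset.mem_range]
    exact ⟨h1 ▸ val_lt r, h2⟩
  · rintro r s ⟨h1, _⟩ ⟨h2, _⟩ h
    exact val_inj r s (h1.trans h2.symm) h
  · intro j hj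
    rw [Finset.mem_coe, Finset.mem_filter, Finset.mem_range] at hj
    obtain ⟨r, h1, h2⟩ := val_surj m j hj.1
    exact ⟨r, ⟨h1, by rw [h2]; exact hj.2⟩, h2⟩

/-! ## Counting the true blocks -/

open Classical in
theorem card_range (N : ℕ) (h : ℕ → Bool) :
    ((Finset.range N).filter fun j => h j = true).card = (List.range N).countP h := by
  rw [List.countP_eq_length_filter]
  induction N with
  | zero => simp
  | succ N ih =>
    rw [Finset.range_add_one, Finset.filter_insert, List.range_succ, List.filter_append,
      List.length_append, ← ih]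
    by_cases hN : h N = true
    · rw [if_pos hN, Finset.card_insert_of_notMem (by simp)]
      simp [hN]
    · rw [if_neg hN]
      simp [hN]

theorem map_getD {α : Type} (l : List α) (d : α) :
    (List.range l.length).map (fun j => l.getD j d) = l := by
  apply List.ext_getElem
  · simp
  · intro i h1 h2
    simp only [List.getElem_map, List.getElem_range]
    rw [List.getD_eq_getElem _ _ h2]

theorem holds_true (S : Lang) : holds S ([], [[]]) = true := by
  simp [holds]

theorem holds_false (S : Lang) : holds S ([], []) = false := by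
  simp [holds]

theorem count_pad (S : Lang) (l : List Block) (E : ℕ) (hl : l.length % 2 = 0) :
    (List.range (2 * E)).countP (fun j => holds S (bk l (l.length + j))) = E := by
  induction E with
  | zero => simp
  | succ E ih =>
    have e : 2 * (E + 1) = 2 * E + 1 + 1 := by ring
    rw [e, List.range_succ, List.range_succ, List.countP_append, List.countP_append, ih]
    have h1 : holds S (bk l (l.length + 2 * E)) = true := by
      unfold bk
      rw [if_neg (by omega), if_neg (by omega), holds_true]
    have h2 : holds S (bk l (l.length + (2 * E + 1))) = false := by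
      unfold bk
      rw [if_neg (by omega), if_pos (by omega), holds_false]
    simp [h1, h2]

theorem count_main (S : Lang) (l : List Block) (E : ℕ) (hl : l.length % 2 = 0) :
    (List.range (l.length + 2 * E)).countP (fun j => holds S (bk l j)) =
      l.countP (holds S) + E := by
  rw [List.range_add, List.countP_append, List.countP_map]
  congr 1
  · have h1 : (List.range l.length).countP (fun j => holds S (bk l j)) =
        ((List.range l.length).map (fun j => l.getD j (([], []) : Block))).countP (holds S) := by
      rw [List.countP_map]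
      apply List.countP_congr
      intro j hj
      rw [List.mem_range] at hj
      simp only [Function.comp, bk, if_pos hj]
    rw [h1, map_getD]
  · exact count_pad S l E hl

theorem countP_lB (S : Lang) (l : List Block) :
    (lB l).countP (holds S) = 4 * l.countP (holds S) := by
  unfold lB
  simp only [List.countP_append]
  have : ([([], []), ([], [])] : List Block).countP (holds S) = 0 := by
    simp [holds_false]
  rw [this]
  ring

theorem length_lB (l : List Block) : (lB l).length = 4 * l.length + 2 := by
  unfold lB
  simp only [List.length_append, List.length_cons, List.length_nil]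
  ring

open Classical in
/-- The number of the correct strings. -/
theorem correct (S : Lang) (l : List Block) (P : Prop)
    (hP : P ↔ l.length < 2 * l.countP (holds S)) :
    2 ^ (Nat.size (lB l).length) + 2 ≤ 2 * ((Finset.range (2 ^ (Nat.size (lB l).length))).filter
      fun j => (holds S (bk (lB l) j) = true ↔ P)).card := by
  set n := (lB l).length with hn
  have hn2 : n = 4 * l.length + 2 := length_lB l
  have hlt : n < 2 ^ Nat.size n := Nat.lt_size_self n
  have hs : 1 ≤ Nat.size n := Nat.lt_size.2 (by simp; omega)
  obtain ⟨s, hs'⟩ := Nat.exists_eq_add_of_le hs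
  have hev : 2 ^ Nat.size n = 2 * 2 ^ s := by rw [hs', pow_add, pow_one]
  obtain ⟨E, hE⟩ : ∃ E, 2 ^ Nat.size n = n + 2 * E := ⟨2 ^ s - (2 * l.length + 1), by omega⟩
  have hc := count_main S (lB l) E (by rw [← hn]; omega)
  rw [← hn, ← hE, ← card_range, countP_lB] at hc
  have hcl : l.countP (holds S) ≤ l.length := List.countP_le_length
  by_cases hp : P
  · have h1 := hP.1 hp
    have h2 : ((Finset.range (2 ^ Nat.size n)).filter
        fun j => (holds S (bk (lB l) j) = true ↔ P)) =
        (Finset.range (2 ^ Nat.size n)).filter fun j => holds S (bk (lB l) j) = true := by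
      apply Finset.filter_congr
      intro j _
      simp [hp]
    rw [h2, hc]
    omega
  · have h1 : 2 * l.countP (holds S) ≤ l.length := by
      by_contra h
      exact hp (hP.2 (by omega))
    have h2 : ((Finset.range (2 ^ Nat.size n)).filter
        fun j => (holds S (bk (lB l) j) = true ↔ P)) =
        (Finset.range (2 ^ Nat.size n)).filter fun j => ¬ holds S (bk (lB l) j) = true := by
      apply Finset.filter_congr
      intro j _
      simp [hp]
    have h3 := Finset.card_filter_add_card_filter_not (s := Finset.range (2 ^ Nat.size n))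
      (fun j => holds S (bk (lB l) j) = true)
    rw [Finset.card_range, hc] at h3
    rw [h2]
    omega

theorem size_pow_le {n : ℕ} (hn : n ≠ 0) : 2 ^ Nat.size n ≤ 2 * n := by
  have h1 : Nat.size n ≠ 0 := fun h => hn (Nat.size_eq_zero.1 h)
  obtain ⟨s, hs⟩ := Nat.exists_eq_succ_of_ne_zero h1
  have h2 : 2 ^ s ≤ n := Nat.lt_size.1 (by omega)
  rw [hs, pow_succ]
  omega

theorem blk_length (d : ℕ) (l : List Block) (hl : ∀ b ∈ l, b.1.length ≤ d) (j : ℕ) :
    (bk (lB l) j).1.length ≤ d := by
  unfold bk
  split_ifs with h1 h2
  · rw [List.getD_eq_getElem _ _ h1]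
    have h3 := List.getElem_mem h1
    generalize (lB l)[j] = b at h3
    unfold lB at h3
    simp only [List.mem_append, List.mem_cons, List.not_mem_nil, or_false] at h3
    rcases h3 with (((h | h) | h) | h) | (h | h)
    · exact hl b h
    · exact hl b h
    · exact hl b h
    · exact hl b h
    · rw [h]; simp
    · rw [h]; simp
  · simp
  · simp

end M2R_

open M2R_ in
/-- A majority reduction is a randomised reduction. -/
theorem p_M2R (h_TMP : T_TMP) (h_TKE : T_TKE) : T_M2R := by
  classical
  rintro d A S ⟨f, hf, hd, hA⟩
  have : Fact Core := ⟨Pool.Agent.PT.core⟩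
  have hfp : PolyF f := h_TMP.2.2 f hf
  have hlB : PolyF (fun x => lB (f x)) :=
    PolyF.append (PolyF.append (PolyF.append (PolyF.append hfp hfp) hfp) hfp) (PolyF.const _)
  obtain ⟨c, hc⟩ := hlB.bound
  set K : Polynomial ℕ := (4 * Polynomial.X + 3) ^ c with hK
  have hKe : ∀ n : ℕ, K.eval n = (4 * n + 3) ^ c := by
    intro n
    simp [hK]
  have hlen : ∀ x : List Bool, (lB (f x)).length ≤ K.eval x.length := by
    intro x
    have h1 := length_lt_sz (lB (f x))
    have h2 : sz (lB (f x)) ≤ (sz x + 2) ^ c := hc x
    have h3 : (sz x + 2) ^ c ≤ (4 * x.length + 3) ^ c :=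
      Nat.pow_le_pow_left (by have := sz_bits_le x; omega) c
    rw [hKe]
    omega
  refine ⟨K, 2 * K, red1 f, tm_pair (red1_pt hfp), ?_, ?_⟩
  · intro x r
    rw [red1_eq]
    exact blk_length d (f x) (hd x) _
  · intro x
    set l := f x with hl
    set n := (lB l).length with hn
    set m := Nat.size n with hm
    set M := K.eval x.length with hM
    have hn2 : n = 4 * l.length + 2 := length_lB l
    have hnM : n ≤ M := hlen x
    have hmM : m ≤ M := le_trans (Nat.size_le.2 Nat.lt_two_pow_self) hnM
    have hpow : 2 ^ m ≤ 2 * n := size_pow_le (by omega)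
    have hset : {r : List Bool | r.length = M ∧ (holds S (red1 f (x, r)) = true ↔ x ∈ A)} =
        {r : List Bool | r.length = M ∧
          (fun r' : List Bool => holds S (bk (lB l) (Pool.Agent.PT.val r')) = true ↔ x ∈ A)
            (r.take m)} := by
      ext r
      simp only [Set.mem_ofPred_eq, red1_eq]
      rfl
    have htke := h_TKE m M
      (fun r' : List Bool => holds S (bk (lB l) (Pool.Agent.PT.val r')) = true ↔ x ∈ A) hmM
    rw [hset, htke]
    have hcv := count_val m (fun j => holds S (bk (lB l) j) = true ↔ x ∈ A)
    rw [hcv]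
    have hcor := correct S l (x ∈ A) (hA x)
    rw [← hn, ← hm] at hcor
    generalize ((Finset.range (2 ^ m)).filter
      fun j => (holds S (bk (lB l) j) = true ↔ x ∈ A)).card = C at hcor
    have h1 : (2 * K).eval x.length = 2 * M := by
      rw [Polynomial.eval_mul, ← hM]
      simp
    rw [h1]
    have h2 : (2 : ℝ) ^ M = 2 ^ (M - m) * 2 ^ m := by
      rw [← pow_add, Nat.sub_add_cancel hmM]
    have h3 : (2 : ℝ) ^ m ≤ 2 * M := by
      have : 2 ^ m ≤ 2 * M := le_trans hpow (by omega)
      exact_mod_cast this
    have h4 : (2 : ℝ) ^ m + 2 ≤ 2 * C := by exact_mod_cast hcor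
    have hM0 : (0 : ℝ) < 2 * M + 1 := by positivity
    have h5 : 1 / (2 * (M : ℝ) + 1) * 2 ^ m ≤ 1 := by
      rw [div_mul_eq_mul_div, one_mul, div_le_one hM0]
      linarith
    have h6 : (0 : ℝ) < 2 ^ (M - m) := by positivity
    push_cast
    rw [h2]
    have h7 : (1 / 2 + 1 / (2 * (M : ℝ) + 1)) * (2 ^ (M - m) * 2 ^ m) =
        2 ^ (M - m) * (2 ^ m / 2 + 1 / (2 * (M : ℝ) + 1) * 2 ^ m) := by ring
    rw [h7]
    exact mul_le_mul_of_nonneg_left (by linarith) h6.le

end Pool.Agent.MAJ
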