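import Pool.Agent.MAJ.Targets

set_option autoImplicit false

/-!
# PCK: the choice of the question (conditional expectations)
-/

namespace Pool.Agent.MAJ

namespace PCK_

/-- Sum over pairs with equal strings. -/
def G (l l' : List (List Bool × Vec)) : ℤ :=
  (l.map fun e => (l'.map fun e' => if e.1 = e'.1 then ip e.2 e'.2 else 0).sum).sum

/-- Signed sum over all pairs. -/
def Q (c : List Bool) (l l' : List (List Bool × Vec)) : ℤ :=
  (l.map fun e => (l'.map fun e' => sg (dot c e.1) * sg (dot c e'.1) * ip e.2 e'.2).sum).sum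

theorem ip_nil (h : T_IPA) (W : Vec) : ip [] W = 0 := by
  have h1 := h.1 [] [] W
  simp only [List.append_nil] at h1
  omega

theorem ip_flat {α : Type} (h : T_IPA) (f : α → Vec) (W : Vec) (l : List α) :
    ip (l.flatMap f) W = (l.map fun e => ip (f e) W).sum := by
  induction l with
  | nil => simpa using ip_nil h W
  | cons a l ih => rw [List.flatMap_cons, h.1, ih, List.map_cons, List.sum_cons]

theorem ip_flat2 {α : Type} (h : T_IPA) (f : α → Vec) (l l' : List α) :
    ip (l.flatMap f) (l'.flatMap f) =
      (l.map fun e => (l'.map fun e' => ip (f e) (f e')).sum).sum := by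
  rw [ip_flat h]
  congr 1
  apply List.map_congr_left
  intro e _
  rw [h.2.1, ip_flat h]
  congr 1
  apply List.map_congr_left
  intro e' _
  rw [h.2.1]

theorem ip_tag (h : T_IPA) (l l' : List (List Bool × Vec)) : ip (tag l) (tag l') = G l l' := by
  unfold tag G
  rw [ip_flat2 h]
  congr 1
  apply List.map_congr_left
  intro e _
  congr 1
  apply List.map_congr_left
  intro e' _
  exact h.2.2.2.2.2.2 e.2 e'.2 e.1 e'.1

theorem ip_sv (h : T_IPA) (b b' : Bool) (W W' : Vec) : ip (sv b W) (sv b' W') =
    sg b * sg b' * ip W W' := by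
  have h1 : ∀ (b : Bool) (W W' : Vec), ip (sv b W) W' = sg b * ip W W' := by
    intro b W W'
    cases b
    · simp only [sv, sg, Bool.false_eq_true, if_false]
      rw [h.2.2.1]
      ring
    · simp only [sv, sg, if_true]
      ring
  rw [h1, h.2.1, h1, h.2.1]
  ring

theorem ip_U (h : T_IPA) (c : List Bool) (l l' : List (List Bool × Vec)) :
    ip (l.flatMap fun e => sv (dot c e.1) e.2) (l'.flatMap fun e => sv (dot c e.1) e.2) =
      Q c l l' := by
  unfold Q
  rw [ip_flat2 h]
  congr 1
  apply List.map_congr_left
  intro e _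
  congr 1
  apply List.map_congr_left
  intro e' _
  exact ip_sv h _ _ _ _

theorem phiLe_iff (l l' : List (List Bool × Vec)) :
    phiLe l l' = true ↔ ip (tag l) (tag l) ≤ ip (tag l') (tag l') := by
  unfold phiLe ip
  rw [decide_eq_true_iff]
  omega

theorem dot_cons (b h : Bool) (c t : List Bool) :
    dot (b :: c) (h :: t) = xor (b && h) (dot c t) := by
  unfold dot
  rw [List.zip_cons_cons, List.countP_cons]
  cases hb : (b && h)
  · simp
  · simp only [if_true]
    by_cases hk : (List.countP (fun p => p.1 && p.2) (c.zip t)) % 2 = 1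
    · have h2 : ¬ ((List.countP (fun p => p.1 && p.2) (c.zip t)) + 1) % 2 = 1 := by omega
      rw [decide_eq_false h2, decide_eq_true hk]
      rfl
    · have h2 : ((List.countP (fun p => p.1 && p.2) (c.zip t)) + 1) % 2 = 1 := by omega
      rw [decide_eq_true h2, decide_eq_false hk]
      rfl

theorem sg_xor (x y : Bool) : sg (xor x y) = -sg x * sg y := by
  cases x <;> cases y <;> simp [sg]

theorem ip_neg_if (h : T_IPA) (x y : Bool) (W W' : Vec) :
    ip (if x then negV W else W) (if y then negV W' else W') = sg x * sg y * ip W W' := by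
  have h1 : ∀ (b : Bool) (W W' : Vec), ip (if b then negV W else W) W' = -sg b * ip W W' := by
    intro b W W'
    cases b
    · simp only [sg, Bool.false_eq_true, if_false]
      ring
    · simp only [sg, if_true]
      rw [h.2.2.1]
      ring
  rw [h1, h.2.1, h1, h.2.1]
  ring

theorem Q_step (h : T_IPA) (b : Bool) (c : List Bool) (l : List (List Bool × Vec))
    (hl : ∀ e ∈ l, e.1 ≠ []) : Q c (stepB b l) (stepB b l) = Q (b :: c) l l := by
  unfold Q stepB
  rw [List.map_map]
  congr 1
  apply List.map_congr_left
  intro e he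
  simp only [Function.comp]
  rw [List.map_map]
  congr 1
  apply List.map_congr_left
  intro e' he'
  simp only [Function.comp]
  rw [ip_neg_if h]
  obtain ⟨s, W⟩ := e
  obtain ⟨s', W'⟩ := e'
  have h1 := hl _ he
  have h2 := hl _ he'
  cases s with
  | nil => exact absurd rfl h1
  | cons x t =>
    cases s' with
    | nil => exact absurd rfl h2
    | cons x' t' =>
      simp only [List.tail_cons, List.headD_cons]
      rw [dot_cons, dot_cons, sg_xor, sg_xor]
      ring

theorem G_step (h : T_IPA) (l l' : List (List Bool × Vec)) (hl : ∀ e ∈ l, e.1 ≠ [])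
    (hl' : ∀ e ∈ l', e.1 ≠ []) :
    G (stepB true l) (stepB true l') + G (stepB false l) (stepB false l') = 2 * G l l' := by
  unfold G stepB
  rw [← List.sum_map_mul_left]
  simp only [List.map_map]
  rw [← List.sum_map_add]
  congr 1
  apply List.map_congr_left
  intro e he
  simp only [Function.comp]
  rw [← List.sum_map_mul_left, ← List.sum_map_add]
  congr 1
  apply List.map_congr_left
  intro e' he'
  simp only [Function.comp]
  rw [ip_neg_if h, ip_neg_if h]
  obtain ⟨s, W⟩ := e
  obtain ⟨s', W'⟩ := e'
  have h1 := hl _ he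
  have h2 := hl' _ he'
  cases s with
  | nil => exact absurd rfl h1
  | cons x t =>
    cases s' with
    | nil => exact absurd rfl h2
    | cons x' t' =>
      simp only [List.tail_cons, List.headD_cons, List.cons.injEq]
      by_cases ht : t = t'
      · cases x <;> cases x' <;> simp [ht, sg] <;> ring
      · simp [ht]

theorem G_pick (h : T_IPA) (l : List (List Bool × Vec)) (hl : ∀ e ∈ l, e.1 ≠ []) (b : Bool)
    (hb : b = phiLe (stepB true l) (stepB false l)) :
    G (stepB b l) (stepB b l) ≤ G l l := by
  have h1 := G_step h l l hl hl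
  have h2 := phiLe_iff (stepB true l) (stepB false l)
  rw [ip_tag h, ip_tag h, ← hb] at h2
  cases b
  · have h3 : ¬ G (stepB true l) (stepB true l) ≤ G (stepB false l) (stepB false l) := by
      intro h4
      have h5 := h2.2 h4
      exact absurd h5 (by simp)
    omega
  · have h3 := h2.1 rfl
    omega

theorem main (h : T_IPA) : ∀ (n : List Bool) (c : List Bool) (l : List (List Bool × Vec)),
    (∀ e ∈ l, e.1.length = n.length) →
    ∃ d : List Bool, d.length = n.length ∧
      (n.foldl (fun s _ => pickStep s) (c, l)).1 = c ++ d ∧ Q d l l ≤ G l l := by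
  intro n
  induction n with
  | nil =>
    intro c l hl
    refine ⟨[], rfl, by simp, ?_⟩
    apply le_of_eq
    unfold Q G
    congr 1
    apply List.map_congr_left
    intro e he
    congr 1
    apply List.map_congr_left
    intro e' he'
    have h1 : e.1 = [] := List.eq_nil_of_length_eq_zero (hl e he)
    have h2 : e'.1 = [] := List.eq_nil_of_length_eq_zero (hl e' he')
    rw [h1, h2]
    simp [dot, sg]
  | cons a n ih =>
    intro c l hl
    have hne : ∀ e ∈ l, e.1 ≠ [] := by
      intro e he h0
      have h1 := hl e he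
      rw [h0] at h1
      simp at h1
    obtain ⟨b, hb⟩ : ∃ b, b = phiLe (stepB true l) (stepB false l) := ⟨_, rfl⟩
    have hlen : ∀ e ∈ stepB b l, e.1.length = n.length := by
      intro e he
      unfold stepB at he
      obtain ⟨e', he', rfl⟩ := List.mem_map.1 he
      have h1 := hl e' he'
      simp only [List.length_tail, List.length_cons] at h1 ⊢
      omega
    obtain ⟨d, hd1, hd2, hd3⟩ := ih (c ++ [b]) (stepB b l) hlen
    refine ⟨b :: d, by simp [hd1], ?_, ?_⟩
    · rw [List.foldl_cons]
      have h2 : pickStep (c, l) = (c ++ [b], stepB b l) := by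
        unfold pickStep
        rw [hb]
      rw [h2, hd2]
      simp
    · rw [← Q_step h b d l hne]
      exact le_trans hd3 (G_pick h l hne b hb)

theorem G_nodup : ∀ l : List (List Bool × Vec), (l.map Prod.fst).Nodup →
    G l l = (l.map fun e => ip e.2 e.2).sum := by
  intro l
  have aux : ∀ (s : List Bool) (W : Vec) (l : List (List Bool × Vec)), s ∉ l.map Prod.fst →
      (l.map fun e' => if s = e'.1 then ip W e'.2 else 0).sum = 0 := by
    intro s W l hs
    apply List.sum_eq_zero
    intro x hx
    obtain ⟨e', he', rfl⟩ := List.mem_map.1 hx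
    rw [if_neg]
    intro h0
    exact hs (List.mem_map.2 ⟨e', he', h0.symm⟩)
  have aux2 : ∀ (s : List Bool) (W : Vec) (l : List (List Bool × Vec)), s ∉ l.map Prod.fst →
      (l.map fun e' => if e'.1 = s then ip e'.2 W else 0).sum = 0 := by
    intro s W l hs
    apply List.sum_eq_zero
    intro x hx
    obtain ⟨e', he', rfl⟩ := List.mem_map.1 hx
    rw [if_neg]
    intro h0
    exact hs (List.mem_map.2 ⟨e', he', h0⟩)
  induction l with
  | nil => simp [G]
  | cons a l ih =>
    intro hn
    rw [List.map_cons, List.nodup_cons] at hn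
    have h1 := ih hn.2
    unfold G at h1 ⊢
    simp only [List.map_cons, List.sum_cons, if_true]
    rw [List.sum_map_add, aux _ _ _ hn.1, aux2 _ _ _ hn.1, h1]
    ring

end PCK_

theorem p_PCK (h_IPA : T_IPA) : T_PCK := by
  intro i l n hn hl hnd
  have hl' : ∀ e ∈ l, e.1.length = n.length := by
    intro e he
    rw [hl e he, hn]
  obtain ⟨d, hd1, hd2, hd3⟩ := PCK_.main h_IPA n [] l hl'
  have hp : pick n l = d := by
    unfold pick
    rw [hd2]
    simp
  rw [hp]
  refine ⟨by omega, ?_⟩
  rw [PCK_.ip_U h_IPA, ← PCK_.G_nodup l hnd]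
  exact hd3

end Pool.Agent.MAJ
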