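import Pool.Agent.MAJ.Targets

set_option autoImplicit false

/-!
# PPK: the choice of the question in polynomial time
-/

namespace Pool.Agent.MAJ

open Pool.Agent.PT (Dat PolyF PolyB sz sz_pair sz_nil sz_cons sz_bool sz_append sz_pos sz_bits_le
  length_lt_sz)

namespace PPK_

/-- All signs are changed to `+`. -/
def posV (W : Vec) : Vec := W.map fun p => (true, p.2)

/-- All signs in the list are changed to `+`. -/
def posL (l : List (List Bool × Vec)) : List (List Bool × Vec) := l.map fun e => (e.1, posV e.2)

theorem posV_negV (W : Vec) : posV (negV W) = posV W := by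
  unfold posV negV
  rw [List.map_map]
  rfl

theorem sz_true : sz true = 3 := rfl

theorem sz_le_posV (W : Vec) : sz W ≤ sz (posV W) := by
  unfold posV
  induction W with
  | nil => exact le_rfl
  | cons p W ih =>
    rw [List.map_cons, sz_cons, sz_cons]
    have h : sz p ≤ sz (true, p.2) := by
      obtain ⟨s, f⟩ := p
      rw [sz_pair, sz_pair, sz_true]
      have := sz_bool s
      simp only
      omega
    omega

theorem sz_posV_le (W : Vec) : sz (posV W) ≤ 3 * sz W := by
  unfold posV
  induction W with
  | nil => rw [List.map_nil, sz_nil]; omega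
  | cons p W ih =>
    rw [List.map_cons, sz_cons, sz_cons]
    have h : sz (true, p.2) ≤ 3 * sz p := by
      obtain ⟨s, f⟩ := p
      rw [sz_pair, sz_pair, sz_true]
      have := sz_pos s
      simp only
      omega
    omega

theorem sz_le_posL (l : List (List Bool × Vec)) : sz l ≤ sz (posL l) := by
  unfold posL
  induction l with
  | nil => exact le_rfl
  | cons e l ih =>
    rw [List.map_cons, sz_cons, sz_cons]
    have h : sz e ≤ sz (e.1, posV e.2) := by
      obtain ⟨s, f⟩ := e
      rw [sz_pair, sz_pair]
      have := sz_le_posV f
      simp only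
      omega
    omega

theorem sz_posL_le (l : List (List Bool × Vec)) : sz (posL l) ≤ 3 * sz l := by
  unfold posL
  induction l with
  | nil => rw [List.map_nil, sz_nil]; omega
  | cons e l ih =>
    rw [List.map_cons, sz_cons, sz_cons]
    have h : sz (e.1, posV e.2) ≤ 3 * sz e := by
      obtain ⟨s, f⟩ := e
      rw [sz_pair, sz_pair]
      have := sz_posV_le f
      simp only
      omega
    omega

theorem sz_tail_le (l : List Bool) : sz l.tail ≤ sz l := by
  cases l with
  | nil => exact le_rfl
  | cons a l => rw [List.tail_cons, sz_cons]; omega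

theorem sz_posL_stepB (b : Bool) (l : List (List Bool × Vec)) :
    sz (posL (stepB b l)) ≤ sz (posL l) := by
  unfold posL stepB
  induction l with
  | nil => exact le_rfl
  | cons e l ih =>
    rw [List.map_cons, List.map_cons, List.map_cons, sz_cons, sz_cons]
    have h : sz (e.1.tail, posV (if (b && e.1.headD false) = true then negV e.2 else e.2)) ≤
        sz (e.1, posV e.2) := by
      have h1 : posV (if (b && e.1.headD false) = true then negV e.2 else e.2) = posV e.2 := by
        split
        · exact posV_negV _
        · rfl
      rw [h1, sz_pair, sz_pair]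
      have := sz_tail_le e.1
      omega
    simp only at h ⊢
    omega

/-- The state after some steps. -/
theorem state_le (n : List Bool) (s : List Bool × List (List Bool × Vec)) :
    (n.foldl (fun s _ => pickStep s) s).1.length = s.1.length + n.length ∧
      sz (posL (n.foldl (fun s _ => pickStep s) s).2) ≤ sz (posL s.2) := by
  induction n generalizing s with
  | nil => exact ⟨rfl, le_rfl⟩
  | cons a n ih =>
    rw [List.foldl_cons]
    have h := ih (pickStep s)
    refine ⟨?_, h.2.trans (sz_posL_stepB _ _)⟩
    rw [h.1]
    unfold pickStep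
    simp only [List.length_append, List.length_cons, List.length_nil]
    omega

theorem sz_state_le (n : List Bool) (l : List (List Bool × Vec)) :
    sz (n.foldl (fun s _ => pickStep s) (([] : List Bool), l)) ≤ 4 * sz n + 3 * sz l + 2 := by
  have h := state_le n ([], l)
  have h1 := sz_bits_le (n.foldl (fun s _ => pickStep s) (([] : List Bool), l)).1
  have h2 := sz_le_posL (n.foldl (fun s _ => pickStep s) (([] : List Bool), l)).2
  have h3 := sz_posL_le l
  have h4 := length_lt_sz n
  have h5 : sz (n.foldl (fun s _ => pickStep s) (([] : List Bool), l)) =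
      sz (n.foldl (fun s _ => pickStep s) (([] : List Bool), l)).1 +
        sz (n.foldl (fun s _ => pickStep s) (([] : List Bool), l)).2 + 1 := rfl
  have h6 := h.1
  have h7 := h.2
  simp only [List.length_nil] at h6
  simp only at h7
  omega

section
variable {γ : Type} [Dat γ] [hC : Fact Pool.Agent.PT.Core]

theorem pickStep_pt
    (h1 : PolyF (fun p : Bool × List (List Bool × Vec) => stepB p.1 p.2))
    (h2 : PolyF (fun p : List (List Bool × Vec) × List (List Bool × Vec) => phiLe p.1 p.2)) :
    PolyF pickStep := by
  have ht : PolyF (fun s : List Bool × List (List Bool × Vec) => stepB true s.2) :=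
    h1.comp ((PolyF.const true).pair (PolyF.snd PolyF.id))
  have hf : PolyF (fun s : List Bool × List (List Bool × Vec) => stepB false s.2) :=
    h1.comp ((PolyF.const false).pair (PolyF.snd PolyF.id))
  have hp : PolyF (fun s : List Bool × List (List Bool × Vec) =>
      phiLe (stepB true s.2) (stepB false s.2)) := h2.comp (ht.pair hf)
  have hs : PolyF (fun s : List Bool × List (List Bool × Vec) =>
      stepB (phiLe (stepB true s.2) (stepB false s.2)) s.2) :=
    h1.comp (hp.pair (PolyF.snd PolyF.id))
  have ha : PolyF (fun s : List Bool × List (List Bool × Vec) =>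
      s.1 ++ [phiLe (stepB true s.2) (stepB false s.2)]) :=
    PolyF.append (PolyF.fst PolyF.id) (PolyF.cons hp (PolyF.const []))
  exact ha.pair hs

theorem pick_pt (hs : PolyF pickStep) :
    PolyF (fun p : List Bool × List (List Bool × Vec) => pick p.1 p.2) := by
  have h : PolyF (fun p : List Bool × List (List Bool × Vec) =>
      p.1.foldl (fun s _ => pickStep s) (([] : List Bool), p.2)) := by
    refine PolyF.foldl
      (f := fun (_ : List Bool × List (List Bool × Vec)) s (_ : Bool) => pickStep s)
      (hs.comp (PolyF.fst (PolyF.snd PolyF.id)))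
      ((PolyF.const []).pair (PolyF.snd PolyF.id)) (PolyF.fst PolyF.id)
      (fun p => 4 * sz p + 3 * sz p + 2) ?_ ?_
    · exact (((PolyB.const 4).mul PolyB.sz).add ((PolyB.const 3).mul PolyB.sz)).add (PolyB.const 2)
    · intro x l₁ hl
      have h1 := sz_state_le l₁ x.2
      have h2 := Pool.Agent.PT.sz_le_of_prefix hl
      have h3 := Pool.Agent.PT.sz_fst x
      have h4 := Pool.Agent.PT.sz_snd x
      omega
  exact h.fst

end

end PPK_

theorem p_PPK (h_PVC : T_PVC) : T_PPK := by
  have : Fact Pool.Agent.PT.Core := ⟨Pool.Agent.PT.core⟩
  obtain ⟨-, -, -, -, -, h1, h2⟩ := h_PVC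
  exact PPK_.pick_pt (PPK_.pickStep_pt h1 h2)

end Pool.Agent.MAJ

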