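import Pool.Agent.MAJ.Targets

set_option autoImplicit false

/-!
# MAJ: the target T_PPR
-/

namespace Pool.Agent.MAJ

open Pool.Agent.PT

namespace PPR_

lemma sz_not (b : Bool) : sz (!b) ≤ 3 * sz b := by
  have h := sz_bool (!b)
  have h' := sz_pos b
  omega

lemma sz_negV (W : Vec) : sz (negV W) ≤ 3 * sz W := by
  induction W with
  | nil => show sz ([] : Vec) ≤ _; rw [sz_nil]; omega
  | cons p W ih =>
    have h1 : negV (p :: W) = (!p.1, p.2) :: negV W := rfl
    have h2 : sz p = sz p.1 + sz p.2 + 1 := rfl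
    rw [h1, sz_cons, sz_cons, sz_pair, h2]
    have h3 := sz_not p.1
    omega

lemma sz_sv (b : Bool) (W : Vec) : sz (sv b W) ≤ 3 * sz W := by
  unfold sv
  split_ifs
  · omega
  · exact sz_negV W

lemma pick_length_aux (n : List Bool) (s : List Bool × List (List Bool × Vec)) :
    (n.foldl (fun s _ => pickStep s) s).1.length = s.1.length + n.length := by
  induction n generalizing s with
  | nil => simp
  | cons b n ih =>
    rw [List.foldl_cons, ih]
    simp only [pickStep, List.length_append, List.length_cons, List.length_nil]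
    omega

lemma pick_length (n : List Bool) (l : List (List Bool × Vec)) :
    (pick n l).length = n.length := by
  unfold pick
  rw [pick_length_aux]
  simp

/-- the invariant of the rounds -/
def Inv (ys : List (List Bool)) (R j : ℕ) (st : List Cand) : Prop :=
  st.length ≤ ys.length ∧ ∀ e ∈ st, e.1 ∈ ys ∧ sz e.2.1 ≤ 1 + j * (3 * R) ∧ e.2.2 ≤ j

lemma quest_length {ys : List (List Bool)} {m : ℕ} (hm : ∀ y ∈ ys, y.length ≤ m) {R j : ℕ}
    {st : List Cand} (h : Inv ys R j st) : (quest st).length ≤ m := by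
  unfold quest
  rw [pick_length]
  cases st with
  | nil => simp
  | cons e st => exact hm _ (h.2 e (by simp)).1

lemma inv_step {ys : List (List Bool)} {m R : ℕ} {red : List Bool → Vec}
    (hm : ∀ y ∈ ys, y.length ≤ m) (hR : ∀ a : List Bool, a.length ≤ m → sz (red a) ≤ R)
    {j : ℕ} {st : List Cand} (B μ : ℕ) (h : Inv ys R j st) :
    Inv ys R (j + 1) (rnd red B μ st) := by
  have hq := hR _ (quest_length hm h)
  have hj : (j + 1) * (3 * R) = j * (3 * R) + 3 * R := by ring
  unfold rnd
  split_ifs with hlen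
  · refine ⟨h.1, fun e he => ?_⟩
    obtain ⟨h1, h2, h3⟩ := h.2 e he
    exact ⟨h1, by omega, by omega⟩
  · refine ⟨?_, fun e he => ?_⟩
    · refine (List.length_filter_le _ _).trans ?_
      rw [List.length_map]
      exact h.1
    · rw [List.mem_filter, List.mem_map] at he
      obtain ⟨⟨e', he', rfl⟩, _⟩ := he
      obtain ⟨h1, h2, h3⟩ := h.2 e' he'
      unfold upd
      split_ifs
      · refine ⟨h1, ?_, ?_⟩
        · show sz (e'.2.1 ++ sv (dot (quest st) e'.1) (red (quest st))) ≤ _
          have h4 := sz_append e'.2.1 (sv (dot (quest st) e'.1) (red (quest st)))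
          have h5 := sz_sv (dot (quest st) e'.1) (red (quest st))
          omega
        · show e'.2.2 + 1 ≤ _
          omega
      · exact ⟨h1, by omega, by omega⟩

lemma inv_foldl {ys : List (List Bool)} {m R : ℕ} {red : List Bool → Vec}
    (hm : ∀ y ∈ ys, y.length ≤ m) (hR : ∀ a : List Bool, a.length ≤ m → sz (red a) ≤ R)
    (B μ : ℕ) (l : List Unit) {j : ℕ} {st : List Cand} (h : Inv ys R j st) :
    Inv ys R (j + l.length) (l.foldl (fun st _ => rnd red B μ st) st) := by
  induction l generalizing j st with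
  | nil => simpa using h
  | cons u l ih =>
    rw [List.foldl_cons, List.length_cons]
    have := ih (inv_step hm hR B μ h)
    rw [show j + (l.length + 1) = j + 1 + l.length by ring]
    exact this

lemma inv_init (ys : List (List Bool)) (R : ℕ) :
    Inv ys R 0 (ys.map fun y => ((y, [], 0) : Cand)) := by
  refine ⟨by simp, fun e he => ?_⟩
  rw [List.mem_map] at he
  obtain ⟨y, hy, rfl⟩ := he
  refine ⟨hy, ?_, le_refl _⟩
  show sz ([] : Vec) ≤ _
  rw [sz_nil]
  omega

lemma sz_of_inv {ys : List (List Bool)} {R j J : ℕ} (hj : j ≤ J) {st : List Cand}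
    (h : Inv ys R j st) :
    sz st ≤ sz ys * (sz ys + (1 + J * (3 * R)) + (4 * J + 1) + 2 + 1) + 1 := by
  have h1 : sz st ≤ st.length * (sz ys + (1 + J * (3 * R)) + (4 * J + 1) + 2 + 1) + 1 := by
    apply sz_list_le
    intro e he
    obtain ⟨h2, h3, h4⟩ := h.2 e he
    have h5 : sz e = sz e.1 + (sz e.2.1 + sz e.2.2 + 1) + 1 := rfl
    have h6 := sz_mem h2
    have h7 := sz_nat_le e.2.2
    have h8 : j * (3 * R) ≤ J * (3 * R) := Nat.mul_le_mul_right _ hj
    omega
  have h2 : st.length ≤ sz ys := h.1.trans (length_lt_sz ys).le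
  exact h1.trans (Nat.add_le_add_right (Nat.mul_le_mul_right _ h2) 1)

end PPR_

open PPR_

theorem p_PPR (h_PRD : T_PRD) : T_PPR := by
  intro γ _ red B μ T hred hB hμ hT
  have : Fact Pool.Agent.PT.Core := ⟨Pool.Agent.PT.core⟩
  have hrnd := h_PRD red B μ hred hB hμ
  obtain ⟨c, hc⟩ := hred.bound
  have hT' : PolyF (fun p : γ × List (List Bool) => T p.1) := hT.comp (PolyF.id.fst)
  have hstep : PolyF (fun q : (γ × List (List Bool)) × List Cand × Unit =>
      rnd (red q.1.1) (B q.1.1) (μ q.1.1) q.2.1) :=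
    PolyF.comp (g := fun q : (γ × List (List Bool)) × List Cand × Unit => (q.1.1, q.2.1)) hrnd
      (by fun_prop)
  have hinit : PolyF (fun p : γ × List (List Bool) =>
      p.2.map fun y => ((y, [], 0) : Cand)) := by
    fun_prop
  -- the bounds
  set R : γ × List (List Bool) → ℕ := fun p => (sz p.1 + (4 * sz p.2 + 1) + 1 + 2) ^ c with hR
  have hRB : PolyB R := by
    refine PolyB.pow ?_ c
    refine PolyB.add (PolyB.add (PolyB.add ?_ (PolyB.add (PolyB.mul (PolyB.const 4) ?_)
      (PolyB.const 1))) (PolyB.const 1)) (PolyB.const 2)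
    · exact PolyB.sz.of_le fun p => sz_fst p
    · exact PolyB.sz.of_le fun p => sz_snd p
  have hys : PolyB (fun p : γ × List (List Bool) => sz p.2) := PolyB.sz.of_le fun p => sz_snd p
  have hTB : PolyB (fun p : γ × List (List Bool) => (T p.1).length) :=
    hT'.bound.of_le fun p => (length_lt_sz _).le
  have hbound : PolyB (fun p : γ × List (List Bool) =>
      sz p.2 * (sz p.2 + (1 + (T p.1).length * (3 * R p)) + (4 * (T p.1).length + 1) + 2 + 1)
        + 1) := by
    refine PolyB.add (PolyB.mul hys (PolyB.add (PolyB.add (PolyB.add (PolyB.add hys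
      (PolyB.add (PolyB.const 1) (PolyB.mul hTB (PolyB.mul (PolyB.const 3) hRB))))
      (PolyB.add (PolyB.mul (PolyB.const 4) hTB) (PolyB.const 1))) (PolyB.const 2))
      (PolyB.const 1))) (PolyB.const 1)
  have hfold : PolyF (fun p : γ × List (List Bool) =>
      (T p.1).foldl (fun st _ => rnd (red p.1) (B p.1) (μ p.1) st)
        (p.2.map fun y => ((y, [], 0) : Cand))) := by
    refine PolyF.foldl (f := fun (p : γ × List (List Bool)) (st : List Cand) (_ : Unit) =>
      rnd (red p.1) (B p.1) (μ p.1) st) hstep hinit hT' _ hbound ?_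
    intro p l₁ hl₁
    have hm : ∀ y ∈ p.2, y.length ≤ sz p.2 := by
      intro y hy
      have h1 := sz_mem hy
      have h2 := length_lt_sz y
      omega
    have hRa : ∀ a : List Bool, a.length ≤ sz p.2 → sz (red p.1 a) ≤ R p := by
      intro a ha
      refine (hc (p.1, a)).trans (Nat.pow_le_pow_left ?_ c)
      have h1 := sz_bits_le a
      rw [sz_pair]
      omega
    have hinv := inv_foldl hm hRa (B p.1) (μ p.1) l₁ (inv_init p.2 (R p))
    rw [Nat.zero_add] at hinv
    exact sz_of_inv hl₁.length_le hinv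
  have hfst : PolyF (fun p : γ × List (List Bool) =>
      ((T p.1).foldl (fun st _ => rnd (red p.1) (B p.1) (μ p.1) st)
        (p.2.map fun y => ((y, [], 0) : Cand))).map Prod.fst) :=
    PolyF.map (f := fun (_ : γ × List (List Bool)) (e : Cand) => e.1) (by fun_prop) hfold
  exact hfst

end Pool.Agent.MAJ
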