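import Pool.Agent.MAJ.Targets

set_option autoImplicit false

/-!
# MAJ PRN: pruning
-/

namespace Pool.Agent.MAJ

namespace PRN_

/-- The potential. -/
def pot (μ : ℕ) (st : List Cand) : ℕ := (st.map fun e => μ + 1 - e.2.2).sum

/-- The condition on the true candidate. -/
def Tru (S : Lang) (F : Finset Feat) (R2 : ℕ) (w : List Bool) (st : List Cand) : Prop :=
  ∃ e ∈ st, e.1 = w ∧ (e.2.2 : ℤ) ≤ ev S e.2.1 ∧ ip e.2.1 e.2.1 ≤ (e.2.2 : ℤ) * R2 ∧
    ∀ p ∈ e.2.1, fv S p.2 ≠ 0 → p.2 ∈ F

lemma run (hR : T_RND) (red : List Bool → Vec) (R2 B μ i : ℕ)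
    (hred : ∀ a : List Bool, a.length = i → ip (red a) (red a) ≤ R2)
    (hB : R2 * (μ * R2) ≤ B) (T : List Unit) : ∀ st : List Cand, Good R2 μ i st →
    Good R2 μ i (T.foldl (fun st _ => rnd red B μ st) st) ∧
    (T.foldl (fun st _ => rnd red B μ st) st).length ≤ st.length ∧
    (∀ y ∈ (T.foldl (fun st _ => rnd red B μ st) st).map Prod.fst, y ∈ st.map Prod.fst) ∧
    (B < (T.foldl (fun st _ => rnd red B μ st) st).length →
      pot μ (T.foldl (fun st _ => rnd red B μ st) st) + T.length ≤ pot μ st) := by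
  induction T with
  | nil =>
    intro st hst
    exact ⟨hst, le_rfl, fun y hy => hy, fun _ => le_rfl⟩
  | cons u T ih =>
    intro st hst
    obtain ⟨h1, h2, h3, h4⟩ := hR red R2 B μ i st hred hB hst
    obtain ⟨k1, k2, k3, k4⟩ := ih (rnd red B μ st) h1
    rw [List.foldl_cons]
    refine ⟨k1, k2.trans h2, fun y hy => h3 y (k3 y hy), fun hlt => ?_⟩
    have hlt2 : B < st.length := lt_of_lt_of_le hlt (k2.trans h2)
    have h5 := k4 hlt
    have h6 := h4 hlt2
    have h6' : pot μ (rnd red B μ st) < pot μ st := h6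
    rw [List.length_cons]
    omega

lemma quest_length (hP : T_PCK) (R2 μ i : ℕ) (st : List Cand) (hst : Good R2 μ i st)
    (hne : st ≠ []) : (quest st).length = i := by
  unfold quest
  refine (hP i (st.map fun e => (e.1, e.2.1)) (st.headD ([], [], 0)).1 ?_ ?_ ?_).1
  · cases st with
    | nil => exact absurd rfl hne
    | cons e st => exact (hst.1 e (by simp)).1
  · intro e he
    rw [List.mem_map] at he
    obtain ⟨e', he', rfl⟩ := he
    exact (hst.1 e' he').1
  · have : (st.map fun e => (e.1, e.2.1)).map Prod.fst = st.map Prod.fst := by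
      rw [List.map_map]
      rfl
    rw [this]
    exact hst.2

lemma run_tru (hR : T_RND) (hT : T_TRU) (hP : T_PCK) (S : Lang) (F : Finset Feat)
    (red : List Bool → Vec) (R2 B μ i : ℕ) (w : List Bool)
    (hred : ∀ a : List Bool, a.length = i → ip (red a) (red a) ≤ R2)
    (hF : ∀ a : List Bool, a.length = i → ∀ p ∈ red a, fv S p.2 ≠ 0 → p.2 ∈ F)
    (hw : ∀ a : List Bool, a.length = i → 1 ≤ sg (dot a w) * ev S (red a))
    (hμ : R2 * F.card ≤ μ) (hB : R2 * (μ * R2) ≤ B) (T : List Unit) :
    ∀ st : List Cand, Good R2 μ i st → Tru S F R2 w st →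
      Tru S F R2 w (T.foldl (fun st _ => rnd red B μ st) st) := by
  induction T with
  | nil => exact fun st _ h => h
  | cons u T ih =>
    intro st hst htru
    rw [List.foldl_cons]
    apply ih _ (hR red R2 B μ i st hred hB hst).1
    by_cases hle : st.length ≤ B
    · have : rnd red B μ st = st := by
        unfold rnd
        rw [if_pos hle]
      rw [this]
      exact htru
    · have hne : st ≠ [] := by
        rintro rfl
        exact hle (by simp)
      exact hT S F red R2 B μ i w st hred hF hw hμ hst.2 (fun e he => (hst.1 e he).1) htru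
        (quest_length hP R2 μ i st hst hne)

lemma map_start (ys : List (List Bool)) :
    ((ys.map fun y => ((y, [], 0) : Cand)).map Prod.fst) = ys := by
  rw [List.map_map]
  have : (Prod.fst ∘ fun y : List Bool => ((y, [], 0) : Cand)) = id := by
    funext y
    rfl
  rw [this, List.map_id]

lemma good_start (R2 μ i : ℕ) (ys : List (List Bool)) (hnd : ys.Nodup)
    (hlen : ∀ y ∈ ys, y.length = i) : Good R2 μ i (ys.map fun y => ((y, [], 0) : Cand)) := by
  refine ⟨?_, ?_⟩
  · intro e he
    rw [List.mem_map] at he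
    obtain ⟨y, hy, rfl⟩ := he
    refine ⟨hlen y hy, ?_, Nat.zero_le _⟩
    show ip ([] : Vec) [] ≤ ((0 : ℕ) : ℤ) * R2
    have : ip ([] : Vec) [] = 0 := rfl
    rw [this]
    simp
  · rw [map_start]
    exact hnd

lemma pot_start (μ : ℕ) (ys : List (List Bool)) :
    pot μ (ys.map fun y => ((y, [], 0) : Cand)) = ys.length * (μ + 1) := by
  unfold pot
  induction ys with
  | nil => simp
  | cons y ys ih =>
    rw [List.map_cons, List.map_cons, List.sum_cons, ih, List.length_cons]
    show μ + 1 - 0 + ys.length * (μ + 1) = (ys.length + 1) * (μ + 1)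
    rw [Nat.sub_zero]
    ring

lemma pot_pos (R2 μ i : ℕ) (st : List Cand) (hst : Good R2 μ i st) (hne : st ≠ []) :
    1 ≤ pot μ st := by
  cases st with
  | nil => exact absurd rfl hne
  | cons e st =>
    have h := (hst.1 e (by simp)).2.2
    unfold pot
    rw [List.map_cons, List.sum_cons]
    omega

end PRN_

open PRN_ in
theorem p_PRN (h_RND : T_RND) (h_TRU : T_TRU) (h_PCK : T_PCK) : T_PRN := by
  intro S F red R2 B μ i T ys hred hF hμ hB hT hys hnd hlen
  have hg := good_start R2 μ i ys hnd hlen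
  obtain ⟨k1, k2, k3, k4⟩ := run h_RND red R2 B μ i hred hB T _ hg
  unfold prune
  rw [List.length_map]
  refine ⟨?_, k1.2, ?_, ?_⟩
  · by_contra hcon
    have hlt := not_le.mp hcon
    have h5 := k4 hlt
    rw [pot_start] at h5
    have hne : T.foldl (fun st _ => rnd red B μ st) (ys.map fun y => ((y, [], 0) : Cand)) ≠ [] := by
      intro h0
      rw [h0] at hlt
      simp at hlt
    have h6 := pot_pos R2 μ i _ k1 hne
    have h7 : ys.length * (μ + 1) ≤ 2 * B * (μ + 1) := Nat.mul_le_mul_right _ hys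
    omega
  · intro y hy
    have := k3 y hy
    rwa [map_start] at this
  · intro w hw hwa
    have htru : Tru S F R2 w (ys.map fun y => ((y, [], 0) : Cand)) := by
      refine ⟨(w, [], 0), List.mem_map.mpr ⟨w, hw, rfl⟩, rfl, ?_, ?_, ?_⟩
      · show ((0 : ℕ) : ℤ) ≤ ev S ([] : Vec)
        have : ev S ([] : Vec) = 0 := by
          unfold ev
          simp
        rw [this]
        simp
      · show ip ([] : Vec) [] ≤ ((0 : ℕ) : ℤ) * R2
        have : ip ([] : Vec) [] = 0 := rfl
        rw [this]
        simp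
      · intro p hp
        exact absurd hp (by simp)
    obtain ⟨e, he, hew, -⟩ := run_tru h_RND h_TRU h_PCK S F red R2 B μ i w hred hF hwa hμ hB T _
      hg htru
    exact List.mem_map.mpr ⟨e, he, hew⟩

end Pool.Agent.MAJ
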