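import Pool.Agent.MAJ.Targets

set_option autoImplicit false

namespace Pool.Agent.MAJ

open Pool.Agent.PT (Dat PolyF sz PolyB)
open Pool.Agent.PT

namespace PSR_

theorem upd_fst (W : Vec) (a : List Bool) (e : Cand) : (upd W a e).1 = e.1 := by
  unfold upd
  split <;> rfl

theorem rnd_mem (red : List Bool → Vec) (B μ : ℕ) (st : List Cand) (y : List Bool)
    (hy : y ∈ (rnd red B μ st).map Prod.fst) : y ∈ st.map Prod.fst := by
  unfold rnd at hy
  split at hy
  · exact hy
  · obtain ⟨e, he, rfl⟩ := List.mem_map.mp hy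
    obtain ⟨e0, he0, rfl⟩ := List.mem_map.mp (List.mem_filter.mp he).1
    rw [upd_fst]
    exact List.mem_map.mpr ⟨e0, he0, rfl⟩

theorem fold_mem (red : List Bool → Vec) (B μ : ℕ) (T : List Unit) : ∀ (st : List Cand)
    (y : List Bool), y ∈ (T.foldl (fun st _ => rnd red B μ st) st).map Prod.fst →
      y ∈ st.map Prod.fst := by
  induction T with
  | nil => intro st y hy; exact hy
  | cons u T ih =>
    intro st y hy
    rw [List.foldl_cons] at hy
    exact rnd_mem red B μ st y (ih _ y hy)

theorem prune_mem (red : List Bool → Vec) (B μ : ℕ) (T : List Unit) (ys : List (List Bool))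
    (y : List Bool) (hy : y ∈ prune red B μ T ys) : y ∈ ys := by
  have h := fold_mem red B μ T _ y hy
  rw [List.map_map] at h
  obtain ⟨z, hz, rfl⟩ := List.mem_map.mp h
  exact hz

theorem takeU_mem {α : Type} (l : List α) (m : List Unit) (a : α) (h : a ∈ takeU l m) :
    a ∈ l := by
  obtain ⟨p, hp, rfl⟩ := List.mem_map.mp h
  exact (List.of_mem_zip (a := p.1) (b := p.2) hp).1

theorem takeU_length {α : Type} (l : List α) (m : List Unit) :
    (takeU l m).length ≤ m.length := by
  unfold takeU
  rw [List.length_map, List.length_zip]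
  exact Nat.min_le_right _ _

theorem ext_length (ys : List (List Bool)) (k : ℕ) (h : ∀ y ∈ ys, y.length ≤ k) :
    ∀ y ∈ ext ys, y.length ≤ k + 1 := by
  intro y hy
  obtain ⟨z, hz, hy⟩ := List.mem_flatMap.mp hy
  have := h z hz
  rcases List.mem_cons.mp hy with rfl | hy
  · simpa using this
  · rcases List.mem_cons.mp hy with rfl | hy
    · simpa using this
    · simp at hy

/-- the state of the search -/
theorem state (red : List Bool → Vec) (B T : List Unit) (μ : ℕ) (N : List Unit) :
    ∀ (ys : List (List Bool)) (k : ℕ), ys.length ≤ B.length + 1 →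
      (∀ y ∈ ys, y.length ≤ k) →
      (N.foldl (fun ys _ => takeU (prune red B.length μ T (ext ys)) B) ys).length ≤
        B.length + 1 ∧
      ∀ y ∈ N.foldl (fun ys _ => takeU (prune red B.length μ T (ext ys)) B) ys,
        y.length ≤ k + N.length := by
  induction N with
  | nil => intro ys k h1 h2; exact ⟨h1, by simpa using h2⟩
  | cons u N ih =>
    intro ys k h1 h2
    rw [List.foldl_cons]
    have h3 := ih (takeU (prune red B.length μ T (ext ys)) B) (k + 1)
      ((takeU_length _ _).trans (Nat.le_succ _))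
      (fun y hy => ext_length ys k h2 y (prune_mem _ _ _ _ _ _ (takeU_mem _ _ _ hy)))
    refine ⟨h3.1, fun y hy => (h3.2 y hy).trans ?_⟩
    rw [List.length_cons]
    omega

theorem sz_str (s : List Bool) : sz s ≤ s.length * 4 + 1 :=
  sz_list_le (M := 3) fun b _ => sz_bool b

end PSR_

open PSR_ in
theorem p_PSR (h_PPR : T_PPR) (h_PEN : T_PEN) : T_PSR := by
  have : Fact Pool.Agent.PT.Core := ⟨Pool.Agent.PT.core⟩
  intro γ _ red B μ T N hred hB hμ hT hN
  obtain ⟨-, -, -, hTk, -⟩ := h_PEN
  have hpr : PolyF (fun p : γ × List (List Bool) =>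
      prune (red p.1) (B p.1).length (μ p.1) (T p.1) p.2) :=
    h_PPR red (fun x => (B x).length) μ T hred hB.length hμ hT
  have hext : PolyF ext := by
    unfold ext
    fun_prop
  have hstep : PolyF (fun p : γ × List (List Bool) × Unit =>
      takeU (prune (red p.1) (B p.1).length (μ p.1) (T p.1) (ext p.2.1)) (B p.1)) := by
    have h1 : PolyF (fun p : γ × List (List Bool) × Unit => (p.1, ext p.2.1)) := by fun_prop
    have h2 : PolyF (fun p : γ × List (List Bool) × Unit =>
        prune (red p.1) (B p.1).length (μ p.1) (T p.1) (ext p.2.1)) := hpr.comp h1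
    have h3 : PolyF (fun p : γ × List (List Bool) × Unit => B p.1) := by fun_prop
    exact (hTk (α := List Bool)).comp (h2.pair h3)
  unfold search
  refine PolyF.foldl (f := fun x ys _ =>
    takeU (prune (red x) (B x).length (μ x) (T x) (ext ys)) (B x)) hstep (by fun_prop) hN
    (fun x => (sz (B x) + 1) * (sz (N x) * 4 + 2) + 1)
    (((hB.bound.add (PolyB.const 1)).mul (((hN.bound.mul (PolyB.const 4))).add
      (PolyB.const 2))).add (PolyB.const 1)) ?_
  intro x l₁ hl₁
  obtain ⟨h1, h2⟩ := state (red x) (B x) (T x) (μ x) l₁ [[]] 0 (by simp) (by simp)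
  have h3 : l₁.length ≤ (N x).length := hl₁.length_le
  have h4 := length_lt_sz (N x)
  have h5 := length_lt_sz (B x)
  refine (sz_list_le (M := sz (N x) * 4 + 1) ?_).trans ?_
  · intro y hy
    have h6 := sz_str y
    have h7 := h2 y hy
    omega
  · refine Nat.add_le_add_right (Nat.mul_le_mul ?_ (le_refl _)) 1
    omega

end Pool.Agent.MAJ
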