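import Pool.Agent.MAJ.Targets

set_option autoImplicit false

namespace Pool.Agent.MAJ

open Pool.Agent.PT (Dat PolyF sz Core)

namespace PTV_

variable {γ : Type} [Dat γ] [hC : Fact Core]

theorem expd_pt (k : ℕ) :
    PolyF (fun p : List (List Bool) × List Bool => expd k p.1 p.2) := by
  induction k with
  | zero =>
    have h : PolyF (fun p : List (List Bool) × List Bool =>
        if (p.1.isEmpty && p.2.isEmpty) = true then [(true, ([] : Feat))] else []) := by
      exact PolyF.iteb (by fun_prop) (by fun_prop) (by fun_prop)
    exact h.congr (fun p => by rw [expd])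
  | succ k ih =>
    have h1 : PolyF (fun p : List (List Bool) × List Bool => expd k p.1.tail p.2.tail) :=
      PolyF.comp (g := fun p : List (List Bool) × List Bool => (p.1.tail, p.2.tail)) ih
        (by fun_prop)
    have h2 : PolyF (fun p : List (List Bool) × List Bool =>
        (expd k p.1.tail p.2.tail).map fun q => (q.1, p.1.headD [] :: q.2)) :=
      PolyF.map (f := fun (p : List (List Bool) × List Bool) (q : Bool × Feat) =>
        (q.1, p.1.headD [] :: q.2)) (by fun_prop) h1
    have h3 : PolyF (fun p : List (List Bool) × List Bool =>
        (expd k p.1.tail p.2.tail).map fun q => (!q.1, p.1.headD [] :: q.2)) :=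
      PolyF.map (f := fun (p : List (List Bool) × List Bool) (q : Bool × Feat) =>
        (!q.1, p.1.headD [] :: q.2)) (by fun_prop) h1
    have h4 : PolyF (fun p : List (List Bool) × List Bool => p.2.headD false) := by fun_prop
    have h5 : PolyF (fun p : List (List Bool) × List Bool => p.1.isEmpty && p.2.isEmpty) := by
      fun_prop
    have h6 : PolyF (fun p : List (List Bool) × List Bool => p.1.isEmpty || p.2.isEmpty) := by
      fun_prop
    have h : PolyF (fun p : List (List Bool) × List Bool =>
        if (p.1.isEmpty && p.2.isEmpty) = true then [(true, ([] : Feat))]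
        else if (p.1.isEmpty || p.2.isEmpty) = true then []
        else if p.2.headD false = true then
          (expd k p.1.tail p.2.tail).map fun q => (q.1, p.1.headD [] :: q.2)
        else expd k p.1.tail p.2.tail ++
          (expd k p.1.tail p.2.tail).map fun q => (!q.1, p.1.headD [] :: q.2)) :=
      PolyF.iteb h5 (by fun_prop) (PolyF.iteb h6 (by fun_prop)
        (PolyF.iteb h4 h2 (h1.append h3)))
    exact h.congr (fun p => by rw [expd])

theorem blk_pt (d : ℕ) : PolyF (blk d) := by
  have he : PolyF (fun p : Block × List Bool => expd d p.1.1 p.2) :=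
    PolyF.comp (g := fun p : Block × List Bool => (p.1.1, p.2)) (expd_pt d) (by fun_prop)
  have hany : PolyF (fun p : Block × List Bool => p.1.2.any (fun a' => decide (a' = p.2))) := by
    refine PolyF.any (f := fun (p : Block × List Bool) (a' : List Bool) => decide (a' = p.2)) ?_
      (by fun_prop)
    exact PolyF.eq (by fun_prop) (by fun_prop)
  have h1 : PolyF (fun p : Block × List Bool =>
      if p.1.2.any (fun a' => decide (a' = p.2)) = true then
        expd d p.1.1 p.2 ++ expd d p.1.1 p.2 else []) :=
    PolyF.iteb hany (he.append he) (by fun_prop)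
  have h2 : PolyF (fun b : Block => (pats d).flatMap fun a =>
      if b.2.any (fun a' => decide (a' = a)) = true then
        expd d b.1 a ++ expd d b.1 a else []) :=
    PolyF.flatMap (f := fun (b : Block) (a : List Bool) =>
      if b.2.any (fun a' => decide (a' = a)) = true then
        expd d b.1 a ++ expd d b.1 a else []) h1 (PolyF.const (pats d))
  exact (h2.append (PolyF.const [(false, ([] : Feat))])).congr (fun b => by rw [blk])

end PTV_

/-- PTV. Blocks to vectors in polynomial time. -/
theorem p_PTV : T_PTV := by
  intro d
  have : Fact Core := ⟨Pool.Agent.PT.core⟩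
  have h1 : PolyF (fun l : List Block => l.flatMap (blk d)) :=
    PolyF.flatMap (f := fun (_ : List Block) (b : Block) => blk d b)
      ((PTV_.blk_pt d).comp (by fun_prop)) (by fun_prop)
  exact ((h1.append h1).append (PolyF.const [(false, ([] : Feat))])).congr
    (fun l => by rw [toVec])

end Pool.Agent.MAJ
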