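import Pool.Agent.MAJ.Targets

set_option autoImplicit false

/-!
# PVC: vectors in polynomial time
-/

namespace Pool.Agent.MAJ

open Pool.Agent.PT (Dat PolyF sz)

namespace PVC_

section
variable {γ : Type} [Dat γ] [hC : Fact Pool.Agent.PT.Core]

@[fun_prop] theorem eq_feat {f g : γ → Feat} (hf : PolyF f) (hg : PolyF g) :
    PolyF (fun a => decide (f a = g a)) := PolyF.eq hf hg

theorem posC_pt : PolyF (fun p : Vec × Vec => posC p.1 p.2) := by
  unfold posC
  fun_prop

theorem negC_pt : PolyF (fun p : Vec × Vec => negC p.1 p.2) := by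
  unfold negC
  fun_prop

@[fun_prop] theorem posC_pt' {f g : γ → Vec} (hf : PolyF f) (hg : PolyF g) :
    PolyF (fun x => posC (f x) (g x)) := posC_pt.comp (hf.pair hg)

@[fun_prop] theorem negC_pt' {f g : γ → Vec} (hf : PolyF f) (hg : PolyF g) :
    PolyF (fun x => negC (f x) (g x)) := negC_pt.comp (hf.pair hg)

theorem negV_pt : PolyF negV := by
  have h : PolyF (fun W : Vec => W.map fun p => (!p.1, p.2)) := by fun_prop
  exact h

@[fun_prop] theorem negV_pt' {f : γ → Vec} (hf : PolyF f) :
    PolyF (fun x => negV (f x)) := negV_pt.comp hf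

theorem sv_pt : PolyF (fun p : Bool × Vec => sv p.1 p.2) := by
  unfold sv
  fun_prop

theorem tag_pt : PolyF tag := by
  have h : PolyF (fun l : List (List Bool × Vec) =>
      l.flatMap fun e => e.2.map fun p => (p.1, e.1 :: p.2)) := by fun_prop
  exact h

@[fun_prop] theorem tag_pt' {f : γ → List (List Bool × Vec)} (hf : PolyF f) :
    PolyF (fun x => tag (f x)) := tag_pt.comp hf

theorem stepB_pt : PolyF (fun p : Bool × List (List Bool × Vec) => stepB p.1 p.2) := by
  unfold stepB
  fun_prop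

theorem phiLe_pt :
    PolyF (fun p : List (List Bool × Vec) × List (List Bool × Vec) => phiLe p.1 p.2) := by
  unfold phiLe
  fun_prop

end

end PVC_

theorem p_PVC : T_PVC := by
  have : Fact Pool.Agent.PT.Core := ⟨Pool.Agent.PT.core⟩
  exact ⟨PVC_.posC_pt, PVC_.negC_pt, PVC_.negV_pt, PVC_.sv_pt, PVC_.tag_pt, PVC_.stepB_pt,
    PVC_.phiLe_pt⟩

end Pool.Agent.MAJ
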