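import Pool.Agent.MAJ.Targets

set_option autoImplicit false

/-!
# MAJ-RND: one round of the search

In a round with more than `B` candidates some candidate makes a mistake, so the sum of
`μ + 1 - mistakes` decreases; the invariant `Good` is preserved.
-/

namespace Pool.Agent.MAJ

namespace RND_

theorem ip_nil (W : Vec) : ip W [] = 0 := by
  have h : (W.flatMap fun p => ([] : Vec).map fun q => (p, q)) = [] := by
    induction W with
    | nil => rfl
    | cons x t ih => rw [List.flatMap_cons, ih]; rfl
  rw [ip, posC, negC, h]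
  rfl

theorem ip_sv (h_IPA : T_IPA) (b : Bool) (W h : Vec) : ip (sv b W) h = sg b * ip W h := by
  obtain ⟨_, _, h3, _⟩ := h_IPA
  cases b with
  | true => simp [sv, sg]
  | false => simp [sv, sg, h3]

theorem ip_sv' (h_IPA : T_IPA) (b : Bool) (W h : Vec) : ip W (sv b h) = sg b * ip W h := by
  rw [h_IPA.2.1 W (sv b h), ip_sv h_IPA, h_IPA.2.1 h W]

theorem sg_sq (b : Bool) : sg b * sg b = 1 := by
  cases b <;> simp [sg]

theorem ip_flatMap (h_IPA : T_IPA) {α : Type} (W : Vec) (f : α → Vec) (l : List α) :
    ip W (l.flatMap f) = (l.map fun e => ip W (f e)).sum := by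
  induction l with
  | nil => simp [ip_nil]
  | cons x t ih =>
    rw [List.flatMap_cons, h_IPA.2.1, h_IPA.1, h_IPA.2.1 (f x) W, h_IPA.2.1 _ W, ih,
      List.map_cons, List.sum_cons]

/-- If no mistake is made then the signed product is at least `1`. -/
theorem one_le_of_not_mist (W : Vec) (a : List Bool) (e : Cand) (h : mist W a e = false) :
    1 ≤ sg (dot a e.1) * ip W e.2.1 := by
  unfold mist at h
  cases hd : dot a e.1 with
  | true =>
    rw [hd] at h
    simp only [if_true, decide_eq_false_iff_not, not_le] at h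
    simp only [sg, ip, if_true]
    omega
  | false =>
    rw [hd] at h
    simp only [Bool.false_eq_true, if_false, decide_eq_false_iff_not, not_le] at h
    simp only [sg, ip, Bool.false_eq_true, if_false]
    omega

/-- If a mistake is made then the signed product is at most `0`. -/
theorem le_zero_of_mist (W : Vec) (a : List Bool) (e : Cand) (h : mist W a e = true) :
    sg (dot a e.1) * ip W e.2.1 ≤ 0 := by
  unfold mist at h
  cases hd : dot a e.1 with
  | true =>
    rw [hd] at h
    simp only [if_true, decide_eq_true_eq] at h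
    simp only [sg, ip, if_true]
    omega
  | false =>
    rw [hd] at h
    simp only [Bool.false_eq_true, if_false, decide_eq_true_eq] at h
    simp only [sg, ip, Bool.false_eq_true, if_false]
    omega

theorem upd_fst (W : Vec) (a : List Bool) (e : Cand) : (upd W a e).1 = e.1 := by
  unfold upd
  split_ifs <;> rfl

theorem upd_cnt_ge (W : Vec) (a : List Bool) (e : Cand) : e.2.2 ≤ (upd W a e).2.2 := by
  unfold upd
  split_ifs
  · exact Nat.le_succ _
  · exact le_rfl

theorem upd_norm (h_IPA : T_IPA) (W : Vec) (a : List Bool) (e : Cand) (R2 : ℕ)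
    (hW : ip W W ≤ R2) (he : ip e.2.1 e.2.1 ≤ (e.2.2 : ℤ) * R2) :
    ip (upd W a e).2.1 (upd W a e).2.1 ≤ ((upd W a e).2.2 : ℤ) * R2 := by
  unfold upd
  split_ifs with hm
  · have h0 := le_zero_of_mist W a e hm
    have hexp : ip (e.2.1 ++ sv (dot a e.1) W) (e.2.1 ++ sv (dot a e.1) W) =
        ip e.2.1 e.2.1 + 2 * (sg (dot a e.1) * ip W e.2.1) + ip W W := by
      rw [h_IPA.1, h_IPA.2.1 e.2.1 (_ ++ _), h_IPA.1, h_IPA.2.1 (sv (dot a e.1) W) (_ ++ _),
        h_IPA.1, ip_sv h_IPA, ip_sv h_IPA, ip_sv' h_IPA, ip_sv' h_IPA, h_IPA.2.1 e.2.1 W]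
      have := sg_sq (dot a e.1)
      linear_combination (ip W W) * this
    show ip (e.2.1 ++ sv (dot a e.1) W) (e.2.1 ++ sv (dot a e.1) W) ≤ ((e.2.2 + 1 : ℕ) : ℤ) * R2
    rw [hexp]
    push_cast
    linarith
  · exact he

theorem sum_filter (μ : ℕ) (L : List Cand) :
    ((L.filter fun e => decide (e.2.2 ≤ μ)).map fun e => μ + 1 - e.2.2).sum =
      (L.map fun e => μ + 1 - e.2.2).sum := by
  induction L with
  | nil => rfl
  | cons x t ih =>
    by_cases hx : x.2.2 ≤ μ
    · rw [List.filter_cons_of_pos (by simpa using hx), List.map_cons, List.sum_cons, ih,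
        List.map_cons, List.sum_cons]
    · rw [List.filter_cons_of_neg (by simpa using hx), ih, List.map_cons, List.sum_cons]
      have : μ + 1 - x.2.2 = 0 := by omega
      rw [this, Nat.zero_add]

theorem sum_ge (l : List Cand) (f : Cand → ℤ) (h : ∀ e ∈ l, 1 ≤ f e) :
    (l.length : ℤ) ≤ (l.map f).sum := by
  induction l with
  | nil => simp
  | cons x t ih =>
    rw [List.map_cons, List.sum_cons, List.length_cons]
    have h1 := h x List.mem_cons_self
    have h2 := ih fun e he => h e (List.mem_cons_of_mem _ he)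
    push_cast
    linarith

theorem sum_le (l : List Cand) (f : Cand → ℤ) (c : ℤ) (h : ∀ e ∈ l, f e ≤ c) :
    (l.map f).sum ≤ (l.length : ℤ) * c := by
  induction l with
  | nil => simp
  | cons x t ih =>
    rw [List.map_cons, List.sum_cons, List.length_cons]
    have h1 := h x List.mem_cons_self
    have h2 := ih fun e he => h e (List.mem_cons_of_mem _ he)
    push_cast
    linarith

/-- The length of the question and the bound for the signed sum. -/
theorem quest_spec (h_PCK : T_PCK) (R2 μ i : ℕ) (st : List Cand) (hne : st ≠ [])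
    (hG : Good R2 μ i st) : (quest st).length = i ∧
      ip (st.flatMap fun e => sv (dot (quest st) e.1) e.2.1)
        (st.flatMap fun e => sv (dot (quest st) e.1) e.2.1) ≤ (st.length : ℤ) * (μ * R2) := by
  obtain ⟨hG1, hG2⟩ := hG
  obtain ⟨e0, t, rfl⟩ := List.exists_cons_of_ne_nil hne
  have hn : ((e0 :: t : List Cand).headD ([], [], 0)).1.length = i :=
    (hG1 e0 List.mem_cons_self).1
  obtain ⟨h1, h2⟩ := h_PCK i ((e0 :: t : List Cand).map fun e => (e.1, e.2.1))
    ((e0 :: t : List Cand).headD ([], [], 0)).1 hn (by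
      intro e he
      obtain ⟨e', he', rfl⟩ := List.mem_map.1 he
      exact (hG1 e' he').1) (by
      rw [List.map_map]
      exact hG2)
  refine ⟨h1, ?_⟩
  have h3 : (((e0 :: t : List Cand).map fun e => (e.1, e.2.1)).flatMap
      fun e => sv (dot (quest (e0 :: t)) e.1) e.2) =
      (e0 :: t : List Cand).flatMap fun e => sv (dot (quest (e0 :: t)) e.1) e.2.1 := by
    rw [List.flatMap_map]
  rw [← h3]
  refine le_trans h2 ?_
  rw [List.map_map]
  refine sum_le _ _ _ ?_
  intro e he
  have h4 := (hG1 e he).2.1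
  have h5 := (hG1 e he).2.2
  have h6 : (e.2.2 : ℤ) ≤ μ := by exact_mod_cast h5
  show ip e.2.1 e.2.1 ≤ (μ : ℤ) * R2
  have h7 : (0 : ℤ) ≤ R2 := Int.natCast_nonneg _
  nlinarith

/-- A mistake exists. -/
theorem exists_mist (h_IPA : T_IPA) (h_PCK : T_PCK) (red : List Bool → Vec) (R2 B μ i : ℕ)
    (st : List Cand) (hred : ∀ a : List Bool, a.length = i → ip (red a) (red a) ≤ R2)
    (hB : R2 * (μ * R2) ≤ B) (hG : Good R2 μ i st) (hlt : B < st.length) :
    ∃ e ∈ st, mist (red (quest st)) (quest st) e = true := by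
  by_contra hcon
  have hne : st ≠ [] := by
    rintro rfl
    simp at hlt
  obtain ⟨hlen, hU⟩ := quest_spec h_PCK R2 μ i st hne hG
  have hall : ∀ e ∈ st, 1 ≤ ip (red (quest st)) (sv (dot (quest st) e.1) e.2.1) := by
    intro e he
    have : mist (red (quest st)) (quest st) e = false := by
      by_contra h
      exact hcon ⟨e, he, by simpa using h⟩
    rw [ip_sv' h_IPA]
    exact one_le_of_not_mist _ _ _ this
  have h1 : (st.length : ℤ) ≤ ip (red (quest st))
      (st.flatMap fun e => sv (dot (quest st) e.1) e.2.1) := by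
    rw [ip_flatMap h_IPA]
    exact sum_ge _ _ hall
  have h2 := h_IPA.2.2.2.1 (red (quest st)) (st.flatMap fun e => sv (dot (quest st) e.1) e.2.1)
  have h3 := hred _ hlen
  have h4 := h_IPA.2.2.2.2.1 (red (quest st))
  have h5 := h_IPA.2.2.2.2.1 (st.flatMap fun e => sv (dot (quest st) e.1) e.2.1)
  generalize ip (red (quest st)) (st.flatMap fun e => sv (dot (quest st) e.1) e.2.1) = X at h1 h2
  generalize ip (st.flatMap fun e => sv (dot (quest st) e.1) e.2.1)
    (st.flatMap fun e => sv (dot (quest st) e.1) e.2.1) = Y at hU h2 h5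
  generalize ip (red (quest st)) (red (quest st)) = Z at h2 h3 h4
  have hm : (0 : ℤ) < st.length := by
    have : 0 < st.length := by omega
    exact_mod_cast this
  have hlt' : (B : ℤ) < st.length := by exact_mod_cast hlt
  have hB' : (R2 : ℤ) * (μ * R2) ≤ B := by exact_mod_cast hB
  generalize (st.length : ℤ) = m at h1 hU hm hlt'
  have h6 : m ^ 2 ≤ X ^ 2 := by nlinarith
  have h7 : Z * Y ≤ (R2 : ℤ) * (m * (μ * R2)) :=
    mul_le_mul h3 hU h5 (Int.natCast_nonneg _)
  have h8 : m * m ≤ m * ((R2 : ℤ) * (μ * R2)) := by nlinarith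
  have h9 : m ≤ (R2 : ℤ) * (μ * R2) := le_of_mul_le_mul_left h8 hm
  linarith

end RND_

open RND_ in
/-- One round: the invariant is preserved, and the potential decreases. -/
theorem p_RND (h_IPA : T_IPA) (h_PCK : T_PCK) : T_RND := by
  intro red R2 B μ i st hred hB hG
  unfold rnd
  split_ifs with hle
  · exact ⟨hG, le_rfl, fun y hy => hy, fun h => absurd h (by omega)⟩
  · have hlt : B < st.length := not_le.1 hle
    have hne : st ≠ [] := by
      rintro rfl
      simp at hlt
    obtain ⟨hlen, _⟩ := quest_spec h_PCK R2 μ i st hne hG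
    have hW := hred _ hlen
    obtain ⟨e1, he1, hm1⟩ := exists_mist h_IPA h_PCK red R2 B μ i st hred hB hG hlt
    have hfst : (st.map (upd (red (quest st)) (quest st))).map Prod.fst = st.map Prod.fst := by
      rw [List.map_map]
      exact List.map_congr_left fun e _ => upd_fst _ _ e
    have hsub : (((st.map (upd (red (quest st)) (quest st))).filter
        fun e => decide (e.2.2 ≤ μ)).map Prod.fst).Sublist (st.map Prod.fst) := by
      rw [← hfst]
      exact List.filter_sublist.map _
    refine ⟨⟨?_, hG.2.sublist hsub⟩, ?_, fun y hy => hsub.subset hy, fun _ => ?_⟩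
    · intro e he
      obtain ⟨he', hμ⟩ := List.mem_filter.1 he
      obtain ⟨e', he'', rfl⟩ := List.mem_map.1 he'
      refine ⟨?_, ?_, by simpa using hμ⟩
      · rw [upd_fst]
        exact (hG.1 e' he'').1
      · exact upd_norm h_IPA _ _ _ _ hW (hG.1 e' he'').2.1
    · refine le_trans (List.length_filter_le _ _) ?_
      rw [List.length_map]
    · rw [sum_filter, List.map_map]
      refine List.sum_lt_sum _ _ ?_ ⟨e1, he1, ?_⟩
      · intro e _
        exact Nat.sub_le_sub_left (upd_cnt_ge _ _ e) _
      · have h1 := (hG.1 e1 he1).2.2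
        show μ + 1 - (upd (red (quest st)) (quest st) e1).2.2 < μ + 1 - e1.2.2
        have h2 : (upd (red (quest st)) (quest st) e1).2.2 = e1.2.2 + 1 := by
          unfold upd
          rw [if_pos hm1]
        rw [h2]
        omega

end Pool.Agent.MAJ
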