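import Pool.Agent.MAJ.Targets2
import Pool.Agent.MAJ.P_AMP

set_option autoImplicit false

/-!
# MAJ-SMP: a sample which is correct for all short strings at the same time
-/

namespace Pool.Agent.MAJ

namespace SMP_

open AMP_

/-- The strings of length `n` as a finite set. -/
noncomputable def LS (n : ℕ) : Finset (List Bool) := (fin_len n).toFinset

theorem mem_LS (n : ℕ) (l : List Bool) : l ∈ LS n ↔ l.length = n := by
  unfold LS
  rw [Set.Finite.mem_toFinset]
  rfl

theorem card_LS (n : ℕ) : (LS n).card = 2 ^ n := by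
  unfold LS
  rw [← Set.ncard_eq_toFinset_card _ (fin_len n), card_len]

/-- A sum over strings split in two parts. -/
theorem sum_split (m k : ℕ) (f g : List Bool → ℝ) :
    ∑ R ∈ LS (k * m + m), f (R.take m) * g (R.drop m) =
      (∑ a ∈ LS m, f a) * ∑ b ∈ LS (k * m), g b := by
  rw [Finset.sum_mul_sum, ← Finset.sum_product']
  refine Finset.sum_nbij' (fun R => (R.take m, R.drop m)) (fun p => p.1 ++ p.2) ?_ ?_ ?_ ?_ ?_
  · intro R hR
    rw [mem_LS] at hR
    rw [Finset.mem_product, mem_LS, mem_LS]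
    simp only [List.length_take, List.length_drop]
    omega
  · rintro ⟨a, b⟩ h
    rw [Finset.mem_product, mem_LS, mem_LS] at h
    rw [mem_LS, List.length_append]
    simp only at h ⊢
    omega
  · intro R _
    simp only [List.take_append_drop]
  · rintro ⟨a, b⟩ h
    rw [Finset.mem_product, mem_LS, mem_LS] at h
    simp only at h
    simp only
    rw [List.take_left' h.1, List.drop_left' h.1]
  · intro R _
    rfl

/-- The weight of a piece. -/
noncomputable def wt (p : List Bool → Bool) (lam : ℝ) (r : List Bool) : ℝ :=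
  if p r = true then lam else lam⁻¹

theorem sum_pieces (p : List Bool → Bool) (lam : ℝ) (m k : ℕ) :
    ∑ R ∈ LS (k * m), ((pieces m k R).map (wt p lam)).prod = (∑ r ∈ LS m, wt p lam r) ^ k := by
  induction k with
  | zero =>
    have h : LS (0 * m) = {[]} := by
      ext l
      rw [mem_LS, Finset.mem_singleton, Nat.zero_mul, List.length_eq_zero_iff]
    rw [h, Finset.sum_singleton, pow_zero]
    rfl
  | succ k ih =>
    have e : (k + 1) * m = k * m + m := by ring
    rw [e, pow_succ', ← ih, ← sum_split m k (wt p lam)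
      (fun R => ((pieces m k R).map (wt p lam)).prod)]
    refine Finset.sum_congr rfl fun R _ => ?_
    rw [pieces_succ, List.map_cons, List.prod_cons]

theorem prod_mul (p : List Bool → Bool) {lam : ℝ} (h : lam ≠ 0) (l : List (List Bool)) :
    (l.map (wt p lam)).prod * lam ^ l.length = lam ^ (2 * l.countP p) := by
  induction l with
  | nil => simp
  | cons r l ih =>
    rw [List.map_cons, List.prod_cons, List.length_cons, pow_succ]
    have e : wt p lam r * (l.map (wt p lam)).prod * (lam ^ l.length * lam) =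
        (wt p lam r * lam) * ((l.map (wt p lam)).prod * lam ^ l.length) := by ring
    rw [e, ih]
    unfold wt
    by_cases hr : p r = true
    · rw [if_pos hr, List.countP_cons_of_pos hr]
      ring
    · rw [if_neg hr, List.countP_cons_of_neg hr, inv_mul_cancel₀ h, one_mul]

theorem length_pieces (m t : ℕ) (R : List Bool) : (pieces m t R).length = t := by
  unfold pieces
  rw [List.length_map, List.length_range]

theorem one_le_prod (p : List Bool → Bool) {lam : ℝ} (h0 : 0 < lam) (h1 : lam ≤ 1)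
    (l : List (List Bool)) (hl : 2 * l.countP p ≤ l.length) :
    1 ≤ (l.map (wt p lam)).prod := by
  have h2 := prod_mul p h0.ne' l
  have h3 : lam ^ l.length ≤ lam ^ (2 * l.countP p) := pow_le_pow_of_le_one h0.le h1 hl
  have h4 : 0 < lam ^ l.length := pow_pos h0 _
  rw [← h2] at h3
  by_contra hcon
  have h5 := mul_lt_mul_of_pos_right (not_le.1 hcon) h4
  linarith

theorem prod_nonneg' (p : List Bool → Bool) {lam : ℝ} (h0 : 0 < lam) (l : List (List Bool)) :
    0 ≤ (l.map (wt p lam)).prod := by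
  apply List.prod_nonneg
  intro a ha
  obtain ⟨r, _, rfl⟩ := List.mem_map.1 ha
  unfold wt
  split
  · exact h0.le
  · exact (inv_pos.2 h0).le

/-- The expected weight. -/
theorem sum_wt (p : List Bool → Bool) {ε : ℝ} (m : ℕ) (h0 : 0 < ε) (h1 : ε ≤ 1 / 2)
    (hg : (1 / 2 + ε) * 2 ^ m ≤ ({r : List Bool | r.length = m ∧ p r = true}.ncard : ℝ)) :
    ∑ r ∈ LS m, wt p (1 - ε) r ≤ 2 ^ m * (1 - ε ^ 2) := by
  have hl : 0 < 1 - ε := by linarith
  have e1 : ∑ r ∈ LS m, wt p (1 - ε) r =
      (((LS m).filter fun r => p r = true).card : ℝ) * (1 - ε) +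
        (((LS m).filter fun r => ¬ p r = true).card : ℝ) * (1 - ε)⁻¹ := by
    unfold wt
    rw [Finset.sum_ite, Finset.sum_const, Finset.sum_const, nsmul_eq_mul, nsmul_eq_mul]
  have e2 : {r : List Bool | r.length = m ∧ p r = true}.ncard =
      ((LS m).filter fun r => p r = true).card := by
    rw [← Set.ncard_coe_finset]
    congr 1
    ext r
    rw [Finset.mem_coe, Finset.mem_filter, mem_LS]
    rfl
  have e3 : ((LS m).filter fun r => p r = true).card +
      ((LS m).filter fun r => ¬ p r = true).card = 2 ^ m := by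
    rw [Finset.card_filter_add_card_filter_not, card_LS]
  rw [e2] at hg
  rw [e1]
  obtain ⟨g, hgd⟩ : ∃ g : ℝ, g = (((LS m).filter fun r => p r = true).card : ℝ) := ⟨_, rfl⟩
  obtain ⟨b, hbd⟩ : ∃ b : ℝ, b = (((LS m).filter fun r => ¬ p r = true).card : ℝ) := ⟨_, rfl⟩
  have e4 : g + b = 2 ^ m := by
    rw [hgd, hbd]
    exact_mod_cast e3
  rw [← hgd] at hg
  rw [← hgd, ← hbd]
  have h2 : (0 : ℝ) < 2 ^ m := by positivity
  rw [← mul_le_mul_iff_of_pos_right hl]
  have e5 : (g * (1 - ε) + b * (1 - ε)⁻¹) * (1 - ε) = g * (1 - ε) ^ 2 + b := by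
    field_simp
  rw [e5]
  have e6 : b = 2 ^ m - g := by linarith
  rw [e6]
  have h3 : 0 ≤ 1 - (1 - ε) ^ 2 := by nlinarith
  have h4 := mul_le_mul_of_nonneg_right hg h3
  have h5 : 0 ≤ ε ^ 2 / 2 * 2 ^ m := by positivity
  nlinarith

/-- The Chernoff bound. -/
theorem chern (p : List Bool → Bool) {ε : ℝ} (m t : ℕ) (h0 : 0 < ε) (h1 : ε ≤ 1 / 2)
    (hg : (1 / 2 + ε) * 2 ^ m ≤ ({r : List Bool | r.length = m ∧ p r = true}.ncard : ℝ)) :
    (((LS (t * m)).filter fun R => 2 * (pieces m t R).countP p ≤ t).card : ℝ) ≤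
      2 ^ (t * m) * (1 - ε ^ 2) ^ t := by
  have hl : 0 < 1 - ε := by linarith
  have h2 : (((LS (t * m)).filter fun R => 2 * (pieces m t R).countP p ≤ t).card : ℝ) ≤
      ∑ R ∈ LS (t * m), ((pieces m t R).map (wt p (1 - ε))).prod := by
    rw [Finset.card_eq_sum_ones, Nat.cast_sum, Finset.sum_filter]
    refine Finset.sum_le_sum fun R _ => ?_
    split
    · rename_i h
      rw [Nat.cast_one]
      refine one_le_prod p hl (by linarith) _ ?_
      rw [length_pieces]
      exact h
    · exact prod_nonneg' p hl _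
  refine h2.trans ?_
  rw [sum_pieces]
  have h3 : 0 ≤ ∑ r ∈ LS m, wt p (1 - ε) r := by
    refine Finset.sum_nonneg fun r _ => ?_
    unfold wt
    split
    · exact hl.le
    · exact (inv_pos.2 hl).le
  refine (pow_le_pow_left₀ h3 (sum_wt p m h0 h1 hg) t).trans (le_of_eq ?_)
  rw [mul_pow, ← pow_mul, mul_comm m t]

/-- The bound by a power of two. -/
theorem pow_bound (E n t : ℕ) (ht : (n + 2) * (E + 1) ^ 2 ≤ t) (h1 : 1 / ((E : ℝ) + 1) ≤ 1 / 2) :
    2 ^ (n + 2) * (1 - (1 / ((E : ℝ) + 1)) ^ 2) ^ t ≤ 1 := by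
  obtain ⟨ε, hε⟩ : ∃ ε : ℝ, ε = 1 / ((E : ℝ) + 1) := ⟨_, rfl⟩
  have hE : (0 : ℝ) < (E : ℝ) + 1 := by positivity
  have hε0 : 0 < ε := by rw [hε]; positivity
  rw [← hε] at h1 ⊢
  have h2 : 1 - ε ^ 2 ≤ Real.exp (-(ε ^ 2)) := by
    have := Real.add_one_le_exp (-(ε ^ 2))
    linarith
  have h3 : 0 ≤ 1 - ε ^ 2 := by nlinarith
  have h4 : (1 - ε ^ 2) ^ t ≤ Real.exp (-(ε ^ 2)) ^ t := pow_le_pow_left₀ h3 h2 t
  have h5 : Real.exp (-(ε ^ 2)) ^ t = Real.exp (-(ε ^ 2 * t)) := by
    rw [← Real.exp_nat_mul]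
    congr 1
    ring
  have h6 : ((n : ℝ) + 2) ≤ ε ^ 2 * t := by
    have h7 : (((n + 2) * (E + 1) ^ 2 : ℕ) : ℝ) ≤ (t : ℝ) := by exact_mod_cast ht
    push_cast at h7
    have h8 : ε ^ 2 * (((n : ℝ) + 2) * ((E : ℝ) + 1) ^ 2) = (n : ℝ) + 2 := by
      rw [hε]
      field_simp
    rw [← h8]
    exact mul_le_mul_of_nonneg_left h7 (by positivity)
  have h7 : Real.exp (-(ε ^ 2 * t)) ≤ Real.exp (-((n : ℝ) + 2)) :=
    Real.exp_le_exp.2 (by linarith)
  have h8 : Real.exp (-((n : ℝ) + 2)) = (Real.exp (-1)) ^ (n + 2) := by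
    rw [← Real.exp_nat_mul]
    congr 1
    push_cast
    ring
  have h9 : Real.exp (-1) ≤ 1 / 2 := by
    have h10 : (1 : ℝ) + 1 ≤ Real.exp 1 := Real.add_one_le_exp 1
    rw [Real.exp_neg, ← one_div]
    exact one_div_le_one_div_of_le (by norm_num) (by linarith)
  have h10 : (Real.exp (-1)) ^ (n + 2) ≤ (1 / 2) ^ (n + 2) :=
    pow_le_pow_left₀ (Real.exp_pos _).le h9 _
  have h11 : (1 - ε ^ 2) ^ t ≤ (1 / 2) ^ (n + 2) := by
    calc (1 - ε ^ 2) ^ t ≤ Real.exp (-(ε ^ 2)) ^ t := h4
      _ = Real.exp (-(ε ^ 2 * t)) := h5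
      _ ≤ Real.exp (-((n : ℝ) + 2)) := h7
      _ = (Real.exp (-1)) ^ (n + 2) := h8
      _ ≤ _ := h10
  calc (2 : ℝ) ^ (n + 2) * (1 - ε ^ 2) ^ t ≤ 2 ^ (n + 2) * (1 / 2) ^ (n + 2) :=
        mul_le_mul_of_nonneg_left h11 (by positivity)
    _ = 1 := by rw [← mul_pow]; norm_num

/-- The strings of length at most `n`. -/
noncomputable def SS (n : ℕ) : Finset (List Bool) := (Finset.range (n + 1)).biUnion LS

theorem mem_SS (n : ℕ) (a : List Bool) : a ∈ SS n ↔ a.length ≤ n := by
  unfold SS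
  rw [Finset.mem_biUnion]
  constructor
  · rintro ⟨j, hj, ha⟩
    rw [mem_LS] at ha
    rw [Finset.mem_range] at hj
    omega
  · intro h
    exact ⟨a.length, Finset.mem_range.2 (by omega), (mem_LS _ _).2 rfl⟩

theorem card_SS (n : ℕ) : (SS n).card ≤ 2 ^ (n + 1) := by
  unfold SS
  refine Finset.card_biUnion_le.trans ?_
  simp only [card_LS]
  have h : ∀ k : ℕ, ∑ j ∈ Finset.range k, 2 ^ j + 1 = 2 ^ k := by
    intro k
    induction k with
    | zero => simp
    | succ k ih =>
      rw [Finset.sum_range_succ, pow_succ]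
      omega
  have := h (n + 1)
  omega

end SMP_

open SMP_ AMP_ in
theorem p_SMP : T_SMP := by
  classical
  intro mm t E n C hC ht
  have hE : (0 : ℝ) < 1 / ((E : ℝ) + 1) := by positivity
  have h2m : (0 : ℝ) < 2 ^ mm := by positivity
  -- the bias is at most one half
  have hε : 1 / ((E : ℝ) + 1) ≤ 1 / 2 := by
    have h1 := hC [] (Nat.zero_le _)
    have h2 : ({r : List Bool | r.length = mm ∧ C [] r}.ncard : ℝ) ≤ 2 ^ mm := by
      have h3 : {r : List Bool | r.length = mm ∧ C [] r}.ncard ≤ 2 ^ mm := by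
        rw [← card_len mm]
        exact Set.ncard_le_ncard (fun r hr => hr.1) (fin_len mm)
      exact_mod_cast h3
    have h4 := h1.trans h2
    by_contra hcon
    have h5 : (1 : ℝ) < 1 / 2 + 1 / ((E : ℝ) + 1) := by linarith [not_le.1 hcon]
    nlinarith
  -- one string
  have hone : ∀ a : List Bool, a.length ≤ n →
      2 ^ (n + 2) * ((LS (t * mm)).filter fun R =>
        2 * (pieces mm t R).countP (fun r => decide (C a r)) ≤ t).card ≤ 2 ^ (t * mm) := by
    intro a ha
    have hset : {r : List Bool | r.length = mm ∧ C a r} =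
        {r : List Bool | r.length = mm ∧ decide (C a r) = true} := by
      ext r
      simp only [Set.mem_ofPred_eq, decide_eq_true_eq]
    have h1 := hC a ha
    rw [hset] at h1
    have h2 := chern (fun r => decide (C a r)) mm t hE hε h1
    have h3 := pow_bound E n t ht hε
    have h4 : (2 : ℝ) ^ (n + 2) * (((LS (t * mm)).filter fun R =>
        2 * (pieces mm t R).countP (fun r => decide (C a r)) ≤ t).card : ℝ) ≤
          2 ^ (t * mm) := by
      calc (2 : ℝ) ^ (n + 2) * (((LS (t * mm)).filter fun R =>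
            2 * (pieces mm t R).countP (fun r => decide (C a r)) ≤ t).card : ℝ)
          ≤ 2 ^ (n + 2) * (2 ^ (t * mm) * (1 - (1 / ((E : ℝ) + 1)) ^ 2) ^ t) :=
            mul_le_mul_of_nonneg_left h2 (by positivity)
        _ = 2 ^ (t * mm) * (2 ^ (n + 2) * (1 - (1 / ((E : ℝ) + 1)) ^ 2) ^ t) := by ring
        _ ≤ 2 ^ (t * mm) * 1 := mul_le_mul_of_nonneg_left h3 (by positivity)
        _ = 2 ^ (t * mm) := mul_one _
    exact_mod_cast h4
  -- the union
  have hsub : {R : List Bool | R.length = t * mm ∧ ∃ a : List Bool, a.length ≤ n ∧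
      2 * (pieces mm t R).countP (fun r => decide (C a r)) ≤ t} ⊆
      (((SS n).biUnion fun a => (LS (t * mm)).filter fun R =>
        2 * (pieces mm t R).countP (fun r => decide (C a r)) ≤ t : Finset (List Bool)) :
          Set (List Bool)) := by
    rintro R ⟨hR, a, ha, hb⟩
    rw [Finset.mem_coe, Finset.mem_biUnion]
    exact ⟨a, (mem_SS _ _).2 ha, Finset.mem_filter.2 ⟨(mem_LS _ _).2 hR, hb⟩⟩
  have hcard := Set.ncard_le_ncard hsub (Finset.finite_toSet _)
  rw [Set.ncard_coe_finset] at hcard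
  have hsum : 2 ^ (n + 2) * ((SS n).biUnion fun a => (LS (t * mm)).filter fun R =>
      2 * (pieces mm t R).countP (fun r => decide (C a r)) ≤ t).card ≤
        2 ^ (n + 1) * 2 ^ (t * mm) := by
    calc 2 ^ (n + 2) * ((SS n).biUnion fun a => (LS (t * mm)).filter fun R =>
          2 * (pieces mm t R).countP (fun r => decide (C a r)) ≤ t).card
        ≤ 2 ^ (n + 2) * ∑ a ∈ SS n, ((LS (t * mm)).filter fun R =>
          2 * (pieces mm t R).countP (fun r => decide (C a r)) ≤ t).card :=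
          Nat.mul_le_mul_left _ Finset.card_biUnion_le
      _ = ∑ a ∈ SS n, 2 ^ (n + 2) * ((LS (t * mm)).filter fun R =>
          2 * (pieces mm t R).countP (fun r => decide (C a r)) ≤ t).card := Finset.mul_sum _ _ _
      _ ≤ ∑ _a ∈ SS n, 2 ^ (t * mm) :=
          Finset.sum_le_sum fun a ha => hone a ((mem_SS _ _).1 ha)
      _ = (SS n).card * 2 ^ (t * mm) := by rw [Finset.sum_const, smul_eq_mul]
      _ ≤ 2 ^ (n + 1) * 2 ^ (t * mm) := Nat.mul_le_mul_right _ (card_SS n)
  have e : 2 ^ (n + 2) = 2 ^ (n + 1) * 2 := by rw [pow_succ]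
  rw [e, mul_assoc] at hsum
  have h5 := Nat.le_of_mul_le_mul_left hsum (by positivity)
  exact le_trans (Nat.mul_le_mul_left 2 hcard) h5

end Pool.Agent.MAJ
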