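import Pool.Agent.MAJ.Targets

set_option autoImplicit false

/-!
# MAJ: SRC, the search keeps the witness (helper21)
-/

namespace Pool.Agent.MAJ

namespace SRC_

/-- the invariant of the search -/
def Inv (B : ℕ) (w : List Bool) (i : ℕ) (ys : List (List Bool)) : Prop :=
  ys.length ≤ B ∧ ys.Nodup ∧ (∀ y ∈ ys, y.length = i) ∧ w.take i ∈ ys

theorem zip_take (a w : List Bool) : a.zip (w.take a.length) = a.zip w := by
  induction a generalizing w with
  | nil => simp
  | cons x a ih =>
    cases w with
    | nil => simp
    | cons y w => simp [ih]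

theorem dot_take (a w : List Bool) (i : ℕ) (h : a.length = i) :
    dot a (w.take i) = dot a w := by
  subst h
  unfold dot
  rw [zip_take]

theorem ext_length (ys : List (List Bool)) : (ext ys).length = 2 * ys.length := by
  induction ys with
  | nil => rfl
  | cons y ys ih =>
    have h : ext (y :: ys) = [y ++ [false], y ++ [true]] ++ ext ys := rfl
    rw [h, List.length_append, ih]
    simp
    ring

theorem mem_ext {ys : List (List Bool)} {z : List Bool} :
    z ∈ ext ys ↔ ∃ y ∈ ys, ∃ b : Bool, z = y ++ [b] := by
  unfold ext
  simp only [List.mem_flatMap, List.mem_cons, List.not_mem_nil, or_false]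
  constructor
  · rintro ⟨y, hy, h | h⟩
    · exact ⟨y, hy, false, h⟩
    · exact ⟨y, hy, true, h⟩
  · rintro ⟨y, hy, b, h⟩
    cases b
    · exact ⟨y, hy, Or.inl h⟩
    · exact ⟨y, hy, Or.inr h⟩

theorem ext_nodup {ys : List (List Bool)} (h : ys.Nodup) : (ext ys).Nodup := by
  induction ys with
  | nil => exact List.nodup_nil
  | cons y ys ih =>
    have h1 := List.nodup_cons.1 h
    have h2 : ext (y :: ys) = (y ++ [false]) :: (y ++ [true]) :: ext ys := rfl
    rw [h2]
    have h3 : ∀ b : Bool, y ++ [b] ∉ ext ys := by
      intro b hb
      obtain ⟨y', hy', b', e⟩ := mem_ext.1 hb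
      have e1 := (List.append_inj' e rfl).1
      exact h1.1 (e1 ▸ hy')
    refine List.nodup_cons.2 ⟨?_, List.nodup_cons.2 ⟨h3 true, ih h1.2⟩⟩
    intro hm
    rcases List.mem_cons.1 hm with e | hm
    · have e1 := (List.append_inj' e rfl).2
      simp at e1
    · exact h3 false hm

theorem take_mem_ext {ys : List (List Bool)} {w : List Bool} {i : ℕ} (hi : i < w.length)
    (h : w.take i ∈ ys) : w.take (i + 1) ∈ ext ys :=
  mem_ext.2 ⟨_, h, w[i], by rw [List.take_concat_get' w i hi]⟩

end SRC_

open SRC_ in
theorem p_SRC (h_PRN : T_PRN) (h_ENC : T_ENC) : T_SRC := by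
  intro S F red R2 μ B T N w hw h1 h2 h3 h4 h5 h6
  have key : ∀ M : List Unit, M.length ≤ N.length →
      Inv B.length w M.length (search red B μ T M) := by
    intro M
    induction M using List.reverseRecOn with
    | nil =>
      intro _
      refine ⟨?_, ?_, ?_, ?_⟩
      · show ([[]] : List (List Bool)).length ≤ B.length
        simp only [List.length_singleton]
        omega
      · show ([[]] : List (List Bool)).Nodup
        simp
      · intro y hy
        have hy' : y ∈ ([[]] : List (List Bool)) := hy
        simp only [List.mem_singleton] at hy'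
        rw [hy']
        rfl
      · show w.take 0 ∈ ([[]] : List (List Bool))
        simp
    | append_singleton M u ih =>
      intro hM
      rw [List.length_append, List.length_singleton] at hM ⊢
      obtain ⟨i1, i2, i3, i4⟩ := ih (by omega)
      have e : search red B μ T (M ++ [u]) =
          takeU (prune red B.length μ T (ext (search red B μ T M))) B := by
        unfold search
        rw [List.foldl_append]
        rfl
      rw [e, h_ENC.2.2.2.1]
      set ys := search red B μ T M with hys
      have hl : ∀ y ∈ ext ys, y.length = M.length + 1 := by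
        intro y hy
        obtain ⟨y', hy', b, rfl⟩ := mem_ext.1 hy
        rw [List.length_append, i3 y' hy']
        rfl
      have hp := h_PRN S F red R2 B.length μ (M.length + 1) T (ext ys)
        (fun a ha => h1 a (by omega)) (fun a ha => h2 a (by omega)) h3 (by omega) h5
        (by rw [ext_length]; omega) (ext_nodup i2) hl
      rw [List.take_of_length_le hp.1]
      refine ⟨hp.1, hp.2.1, fun y hy => hl y (hp.2.2.1 y hy), ?_⟩
      refine hp.2.2.2 _ (take_mem_ext (by omega) i4) ?_
      intro a ha
      rw [dot_take a w _ ha]
      exact h6 a (by omega)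
  have hk := (key N le_rfl).2.2.2
  rwa [← hw, List.take_length] at hk

end Pool.Agent.MAJ
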