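import Pool.Agent.MAJ.Targets2

set_option autoImplicit false

/-!
# MAJ, target SZ2
-/

namespace Pool.Agent.MAJ

open Pool.Agent.PT (Dat PolyF sz)

namespace SZ2_

open Pool.Agent.PT

theorem sz_le (q n B : ℕ) (x R a : List Bool) (rows : List (List Bool)) (hx : x.length = n)
    (h1 : rows.length ≤ q + 2) (h2 : ∀ r ∈ rows, r.length ≤ q + 1) (h3 : R.length ≤ B)
    (h4 : a.length ≤ q) :
    sz (((x, rows), R), a) + 2 ≤
      4 * n + 4 * q + 4 * B + (q + 2) * (4 * q + 6) + 9 := by
  have e1 := sz_bits_le x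
  have e2 := sz_bits_le a
  have e5 := sz_bits_le R
  have e3 : sz rows ≤ rows.length * ((4 * q + 5) + 1) + 1 := by
    refine sz_list_le fun r hr => ?_
    have := sz_bits_le r
    have := h2 r hr
    omega
  have e4 : rows.length * ((4 * q + 5) + 1) ≤ (q + 2) * (4 * q + 6) :=
    Nat.mul_le_mul_right _ h1
  rw [sz_pair, sz_pair, sz_pair]
  omega

end SZ2_

theorem p_SZ2 : T_SZ2 := by
  intro β _ h hh q B
  have hcore : Fact Pool.Agent.PT.Core := ⟨Pool.Agent.PT.core⟩
  obtain ⟨c, hc⟩ := hh.bound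
  refine ⟨(4 * Polynomial.X + 4 * q + 4 * B + (q + 2) * (4 * q + 6) + 9) ^ c, ?_⟩
  intro x rows R a h1 h2 h3 h4
  have e1 := hc (((x, rows), R), a)
  have e2 := SZ2_.sz_le (q.eval x.length) x.length (B.eval x.length) x R a rows rfl h1 h2 h3 h4
  refine e1.trans ?_
  have e3 : Polynomial.eval x.length
      ((4 * Polynomial.X + 4 * q + 4 * B + (q + 2) * (4 * q + 6) + 9) ^ c)
      = (4 * x.length + 4 * q.eval x.length + 4 * B.eval x.length + (q.eval x.length + 2) *
        (4 * q.eval x.length + 6) + 9) ^ c := by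
    simp [Polynomial.eval_pow, Polynomial.eval_add, Polynomial.eval_mul]
  rw [e3]
  exact Nat.pow_le_pow_left e2 c

end Pool.Agent.MAJ
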