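import Pool.Agent.MAJ.Targets

set_option autoImplicit false

/-!
# MAJ, target SZR
-/

namespace Pool.Agent.MAJ

open Pool.Agent.PT (Dat PolyF sz)

namespace SZR_

open Pool.Agent.PT

theorem sz_le (q n : ℕ) (x a : List Bool) (rows : List (List Bool)) (hx : x.length = n)
    (h1 : rows.length ≤ q + 2) (h2 : ∀ r ∈ rows, r.length ≤ q + 1) (h3 : a.length ≤ q) :
    sz (x :: a :: rows) + 2 ≤
      4 * n + 4 * q + (q + 2) * (4 * q + 6) + 7 := by
  have e1 := sz_bits_le x
  have e2 := sz_bits_le a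
  have e3 : sz rows ≤ rows.length * ((4 * q + 5) + 1) + 1 := by
    refine sz_list_le fun r hr => ?_
    have := sz_bits_le r
    have := h2 r hr
    omega
  have e4 : rows.length * ((4 * q + 5) + 1) ≤ (q + 2) * (4 * q + 6) :=
    Nat.mul_le_mul_right _ h1
  rw [sz_cons, sz_cons]
  omega

end SZR_

theorem p_SZR (h_PTV : T_PTV) (h_PEN : T_PEN) : T_SZR := by
  intro d f q hf
  have hcore : Fact Pool.Agent.PT.Core := ⟨Pool.Agent.PT.core⟩
  have hg : PolyF (fun l : List (List Bool) => toVec d (f (encL l))) :=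
    (h_PTV d).comp (hf.comp h_PEN.1)
  obtain ⟨c, hc⟩ := hg.bound
  refine ⟨(4 * Polynomial.X + 4 * q + (q + 2) * (4 * q + 6) + 7) ^ c, ?_⟩
  intro x rows a h1 h2 h3
  have e1 := hc (x :: a :: rows)
  have e2 := SZR_.sz_le (q.eval x.length) x.length x a rows rfl h1 h2 h3
  refine e1.trans ?_
  have e3 : Polynomial.eval x.length ((4 * Polynomial.X + 4 * q + (q + 2) * (4 * q + 6) + 7) ^ c)
      = (4 * x.length + 4 * q.eval x.length + (q.eval x.length + 2) *
        (4 * q.eval x.length + 6) + 7) ^ c := by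
    simp [Polynomial.eval_pow, Polynomial.eval_add, Polynomial.eval_mul]
  rw [e3]
  exact Nat.pow_le_pow_left e2 c

end Pool.Agent.MAJ
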