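import Pool.Agent.MAJ.Targets2

set_option autoImplicit false

/-!
# MAJ, TKE: unused random bits
-/

namespace Pool.Agent.MAJ

namespace TKE_

/-- the number of strings of length `k` -/
theorem card_len (k : ℕ) : {r : List Bool | r.length = k}.ncard = 2 ^ k := by
  have h1 : Nat.card {r : List Bool | r.length = k} = Nat.card (List.Vector Bool k) := rfl
  rw [← Nat.card_coe_set_eq, h1, Nat.card_eq_fintype_card, card_vector]
  simp

end TKE_

theorem p_TKE : T_TKE := by
  intro m mm P hm
  have h1 : {r : List Bool | r.length = mm ∧ P (r.take m)} =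
      (fun x : List Bool × List Bool => x.1 ++ x.2) ''
        ({r : List Bool | r.length = m ∧ P r} ×ˢ {r : List Bool | r.length = mm - m}) := by
    ext r
    constructor
    · rintro ⟨hr, hP⟩
      refine ⟨(r.take m, r.drop m), ⟨⟨?_, hP⟩, ?_⟩, List.take_append_drop m r⟩
      · show (r.take m).length = m
        rw [List.length_take]
        omega
      · show (r.drop m).length = mm - m
        rw [List.length_drop, hr]
    · rintro ⟨⟨a, b⟩, ⟨⟨ha, hP⟩, hb⟩, rfl⟩
      have ha' : a.length = m := ha
      have hb' : b.length = mm - m := hb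
      refine ⟨?_, ?_⟩
      · show (a ++ b).length = mm
        rw [List.length_append]
        omega
      · show P ((a ++ b).take m)
        rw [← ha', List.take_left]
        exact hP
  rw [h1, Set.ncard_image_of_injOn, Set.ncard_prod, TKE_.card_len, mul_comm]
  rintro ⟨a, b⟩ ⟨⟨ha, -⟩, -⟩ ⟨a', b'⟩ ⟨⟨ha', -⟩, -⟩ h
  have ha1 : a.length = m := ha
  have ha2 : a'.length = m := ha'
  have h2 : a ++ b = a' ++ b' := h
  obtain ⟨h3, h4⟩ := List.append_inj h2 (ha1.trans ha2.symm)
  rw [h3, h4]

end Pool.Agent.MAJ
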