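import Pool.Agent.MAJ.Targets

set_option autoImplicit false

namespace Pool.Agent.MAJ

open Pool.Agent.PT (Dat PolyF sz)

namespace TMP_

/-- The letters of the first string. -/
def lft (t : Bool ⊕ Bool) : List Bool := Sum.elim (fun b => [b]) (fun _ => []) t

/-- The letters of the second string. -/
def rgt (t : Bool ⊕ Bool) : List Bool := Sum.elim (fun _ => []) (fun b => [b]) t

theorem lft_inl (l : List Bool) : (l.map Sum.inl).flatMap lft = l := by
  induction l with
  | nil => rfl
  | cons b l ih =>
    rw [List.map_cons, List.flatMap_cons, ih]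
    rfl

theorem lft_inr (l : List Bool) : (l.map Sum.inr).flatMap lft = [] := by
  induction l with
  | nil => rfl
  | cons b l ih =>
    rw [List.map_cons, List.flatMap_cons, ih]
    rfl

theorem rgt_inl (l : List Bool) : (l.map Sum.inl).flatMap rgt = [] := by
  induction l with
  | nil => rfl
  | cons b l ih =>
    rw [List.map_cons, List.flatMap_cons, ih]
    rfl

theorem rgt_inr (l : List Bool) : (l.map Sum.inr).flatMap rgt = l := by
  induction l with
  | nil => rfl
  | cons b l ih =>
    rw [List.map_cons, List.flatMap_cons, ih]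
    rfl

theorem dec_pair (p : List Bool × List Bool) :
    ((encPair p).flatMap lft, (encPair p).flatMap rgt) = p := by
  obtain ⟨x, w⟩ := p
  unfold encPair
  simp only [List.flatMap_append, lft_inl, lft_inr, rgt_inl, rgt_inr, List.append_nil,
    List.nil_append]

theorem pt_encPair : PolyF encPair := by
  have : Fact Pool.Agent.PT.Core := ⟨Pool.Agent.PT.core⟩
  have h1 : PolyF (fun b : Bool => (Sum.inl b : Bool ⊕ Bool)) := PolyF.finite _
  have h2 : PolyF (fun b : Bool => (Sum.inr b : Bool ⊕ Bool)) := PolyF.finite _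
  unfold encPair
  refine PolyF.append ?_ ?_
  · exact PolyF.map (f := fun _ b => Sum.inl b) (h1.comp (by fun_prop)) (by fun_prop)
  · exact PolyF.map (f := fun _ b => Sum.inr b) (h2.comp (by fun_prop)) (by fun_prop)

theorem pt_dec : PolyF (fun l : List (Bool ⊕ Bool) => (l.flatMap lft, l.flatMap rgt)) := by
  have : Fact Pool.Agent.PT.Core := ⟨Pool.Agent.PT.core⟩
  have h1 : PolyF lft := PolyF.finite _
  have h2 : PolyF rgt := PolyF.finite _
  refine PolyF.pair ?_ ?_
  · exact PolyF.flatMap (f := fun _ b => lft b) (h1.comp (by fun_prop)) (by fun_prop)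
  · exact PolyF.flatMap (f := fun _ b => rgt b) (h2.comp (by fun_prop)) (by fun_prop)

end TMP_

open TMP_ in
theorem p_TMP (h_ENC : T_ENC) (h_PEN : T_PEN) : T_TMP := by
  have hC : Fact Pool.Agent.PT.Core := ⟨Pool.Agent.PT.core⟩
  refine ⟨fun V => ⟨fun h => ?_, fun h => ?_⟩, fun f => ⟨fun h => ?_, fun h => ?_⟩,
    fun f h => ?_⟩
  · obtain ⟨F, hF, e⟩ := Pool.Agent.DHD.tSIMF encPair encBool V h
    have h1 : PolyF (fun p => (F (encPair p)).headD false) :=
      PolyF.headD (hF.comp pt_encPair) (PolyF.const _)
    refine h1.congr fun p => ?_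
    rw [e p]
    rfl
  · have h1 : PolyF (fun l : List (Bool ⊕ Bool) => [V (l.flatMap lft, l.flatMap rgt)]) :=
      PolyF.cons (h.comp pt_dec) (PolyF.const _)
    refine Pool.Agent.PT.tm_of_polyF h1 encPair encBool V fun p => ?_
    simp only [dec_pair]
    rfl
  · obtain ⟨F, hF, e⟩ := Pool.Agent.DHD.tSIMF (id : List Bool → List Bool) encBool f h
    have h1 : PolyF (fun p => (F p).headD false) := PolyF.headD hF (PolyF.const _)
    refine h1.congr fun p => ?_
    have := e p
    simp only [id_eq] at this
    rw [this]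
    rfl
  · have h1 : PolyF (fun l : List Bool => [f l]) := PolyF.cons h (PolyF.const _)
    exact Pool.Agent.PT.tm_of_polyF h1 id encBool f fun p => rfl
  · obtain ⟨F, hF, e⟩ := Pool.Agent.DHD.tSIMF (id : List Bool → List Bool) encBlocks f h
    have h1 : PolyF (fun p => parse (F p)) := h_PEN.2.2.1.comp hF
    refine h1.congr fun p => ?_
    have := e p
    simp only [id_eq] at this
    rw [this, h_ENC.2.1]

end Pool.Agent.MAJ
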