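import Pool.Agent.MAJ.Targets

set_option autoImplicit false

/-!
# MAJ target TRU: the true candidate survives (perceptron mistake bound)
-/

namespace Pool.Agent.MAJ

namespace TRU_

/-- Features of a signed vector. -/
theorem feat_sv (b : Bool) (W : Vec) (p : Bool × Feat) (hp : p ∈ sv b W) :
    ∃ q ∈ W, q.2 = p.2 := by
  cases b with
  | true => exact ⟨p, by simpa [sv] using hp, rfl⟩
  | false =>
    simp only [sv, negV, Bool.false_eq_true, if_false, List.mem_map] at hp
    obtain ⟨q, hq, rfl⟩ := hp
    exact ⟨q, hq, rfl⟩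

/-- The norm after a correction. -/
theorem norm_sv (h_IPA : T_IPA) (b : Bool) (W h : Vec) :
    ip (h ++ sv b W) (h ++ sv b W) = ip h h + 2 * (sg b * ip W h) + ip W W := by
  obtain ⟨hadd, hsym, hneg, -⟩ := h_IPA
  have key : ∀ X : Vec, ip (h ++ X) (h ++ X) = ip h h + 2 * ip X h + ip X X := by
    intro X
    rw [hadd, hsym h (h ++ X), hsym X (h ++ X), hadd, hadd, hsym h X]
    ring
  rw [key]
  cases b with
  | true => simp [sv, sg]
  | false =>
    have e2 : ip (negV W) (negV W) = ip W W := by
      rw [hneg, hsym W (negV W), hneg]; ring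
    simp only [sv, sg, Bool.false_eq_true, if_false, e2, hneg]
    ring

/-- The value after a correction. -/
theorem ev_sv (h_EVA : T_EVA) (S : Lang) (b : Bool) (W h : Vec) :
    ev S (h ++ sv b W) = ev S h + sg b * ev S W := by
  obtain ⟨hadd, hneg, -⟩ := h_EVA S
  rw [hadd]
  cases b with
  | true => simp [sv, sg]
  | false =>
    simp only [sv, sg, Bool.false_eq_true, if_false, hneg]
    ring

/-- A mistake means a nonpositive signed product. -/
theorem mist_le (W : Vec) (a : List Bool) (e : Cand) (h : mist W a e = true) :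
    sg (dot a e.1) * ip W e.2.1 ≤ 0 := by
  unfold mist at h
  unfold ip
  cases hd : dot a e.1 with
  | true =>
    rw [hd] at h
    simp only [if_true, decide_eq_true_eq] at h
    simp only [sg, if_true, one_mul]
    have : (posC W e.2.1 : ℤ) ≤ negC W e.2.1 := by exact_mod_cast h
    linarith
  | false =>
    rw [hd] at h
    simp only [Bool.false_eq_true, if_false, decide_eq_true_eq] at h
    simp only [sg, Bool.false_eq_true, if_false]
    have : (negC W e.2.1 : ℤ) ≤ posC W e.2.1 := by exact_mod_cast h
    linarith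

end TRU_

/-- TRU. -/
theorem p_TRU (h_IPA : T_IPA) (h_EVA : T_EVA) : T_TRU := by
  intro S F red R2 B μ i w st hR hF hV hμ _ _ hex hq
  obtain ⟨e, he, hew, hk, hip, hf⟩ := hex
  unfold rnd
  split_ifs with hB
  · exact ⟨e, he, hew, hk, hip, hf⟩
  · have hinv : (upd (red (quest st)) (quest st) e).1 = w ∧
        (((upd (red (quest st)) (quest st) e).2.2 : ℕ) : ℤ) ≤
          ev S (upd (red (quest st)) (quest st) e).2.1 ∧
        ip (upd (red (quest st)) (quest st) e).2.1 (upd (red (quest st)) (quest st) e).2.1 ≤
          (((upd (red (quest st)) (quest st) e).2.2 : ℕ) : ℤ) * R2 ∧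
        ∀ p ∈ (upd (red (quest st)) (quest st) e).2.1, fv S p.2 ≠ 0 → p.2 ∈ F := by
      unfold upd
      split_ifs with hm
      · refine ⟨hew, ?_, ?_, ?_⟩
        · rw [TRU_.ev_sv h_EVA]
          have h1 := hV (quest st) hq
          rw [← hew] at h1
          push_cast
          linarith
        · rw [TRU_.norm_sv h_IPA]
          have h1 := TRU_.mist_le _ _ _ hm
          have h2 := hR (quest st) hq
          push_cast
          linarith
        · intro p hp hfv
          rw [List.mem_append] at hp
          rcases hp with hp | hp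
          · exact hf p hp hfv
          · obtain ⟨r, hr, hrp⟩ := TRU_.feat_sv _ _ _ hp
            rw [← hrp] at hfv ⊢
            exact hF _ hq r hr hfv
      · exact ⟨hew, hk, hip, hf⟩
    refine ⟨upd (red (quest st)) (quest st) e, ?_, hinv⟩
    obtain ⟨-, h1, h2, h3⟩ := hinv
    rw [List.mem_filter]
    refine ⟨List.mem_map_of_mem he, ?_⟩
    have h4 := (h_EVA S).2.2 _ F h3
    rw [decide_eq_true_eq]
    generalize (upd (red (quest st)) (quest st) e).2.2 = k at h1 h2 ⊢
    generalize ev S (upd (red (quest st)) (quest st) e).2.1 = v at h1 h4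
    generalize ip (upd (red (quest st)) (quest st) e).2.1
      (upd (red (quest st)) (quest st) e).2.1 = m at h2 h4
    by_contra hlt
    push Not at hlt
    have hk0 : (0 : ℤ) < k := by exact_mod_cast lt_of_le_of_lt (Nat.zero_le _) hlt
    have hc : (0 : ℤ) ≤ F.card := by positivity
    have h5 : (k : ℤ) ^ 2 ≤ v ^ 2 := by
      apply pow_le_pow_left₀ hk0.le h1
    have h6 : m * F.card ≤ (k * R2) * F.card := mul_le_mul_of_nonneg_right h2 hc
    have h7 : (k : ℤ) ^ 2 ≤ k * (R2 * F.card) := by
      calc (k : ℤ) ^ 2 ≤ v ^ 2 := h5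
        _ ≤ m * F.card := h4
        _ ≤ (k * R2) * F.card := h6
        _ = k * (R2 * F.card) := by ring
    have h8 : (k : ℤ) ≤ R2 * F.card := by
      by_contra h9
      push Not at h9
      have : k * (R2 * F.card) < (k : ℤ) * k := mul_lt_mul_of_pos_left h9 hk0
      nlinarith
    have h9 : ((R2 * F.card : ℕ) : ℤ) ≤ μ := by exact_mod_cast hμ
    have h10 : (μ : ℤ) < k := by exact_mod_cast hlt
    push_cast at h9
    linarith

end Pool.Agent.MAJ
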