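import Pool.Agent.MAJ.Targets

set_option autoImplicit false

/-!
# MAJ: isolation with random linear rows (job VVL)
-/

namespace Pool.Agent.MAJ

namespace VVL_

open Finset

/-- The value of a bit in `ZMod 2`. -/
def bz (b : Bool) : ZMod 2 := if b then 1 else 0

/-- The scalar product. -/
def dz {M : ℕ} (r v : Fin M → Bool) : ZMod 2 := ∑ i, bz (r i) * bz (v i)

theorem bz_not (b : Bool) : bz (!b) = bz b + 1 := by cases b <;> decide

theorem z2_cases : ∀ x : ZMod 2, x = 0 ∨ x = 1 := by decide

theorem z2_flip : ∀ x : ZMod 2, x + 1 = 0 ↔ ¬ x = 0 := by decide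

/-- Change the bit `i`. -/
def fl {M : ℕ} (i : Fin M) (r : Fin M → Bool) : Fin M → Bool := Function.update r i (!r i)

theorem fl_fl {M : ℕ} (i : Fin M) (r : Fin M → Bool) : fl i (fl i r) = r := by
  funext j
  by_cases h : j = i
  · subst h; simp [fl]
  · simp [fl, h]

theorem dz_fl {M : ℕ} (i : Fin M) (r v : Fin M → Bool) :
    dz (fl i r) v = dz r v + bz (v i) := by
  unfold dz
  rw [← Finset.add_sum_erase univ (fun j => bz (fl i r j) * bz (v j)) (mem_univ i),
    ← Finset.add_sum_erase univ (fun j => bz (r j) * bz (v j)) (mem_univ i)]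
  have h1 : ∑ x ∈ univ.erase i, bz (fl i r x) * bz (v x) =
      ∑ x ∈ univ.erase i, bz (r x) * bz (v x) := by
    refine Finset.sum_congr rfl fun x hx => ?_
    have hx' : x ≠ i := (Finset.mem_erase.mp hx).1
    simp [fl, hx']
  have h2 : bz (fl i r i) = bz (r i) + 1 := by
    simp only [fl, Function.update_self, bz_not]
  rw [h1, h2]
  ring

theorem half {M : ℕ} (v : Fin M → Bool) (i : Fin M) (hi : v i = true)
    (Q : (Fin M → Bool) → Prop) [DecidablePred Q] (hQ : ∀ r, Q (fl i r) ↔ Q r) :
    2 * (univ.filter fun r => Q r ∧ dz r v = 0).card = (univ.filter fun r => Q r).card := by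
  have h1 : (univ.filter fun r => Q r ∧ dz r v = 0).card =
      (univ.filter fun r => Q r ∧ ¬ dz r v = 0).card := by
    refine Finset.card_nbij' (fl i) (fl i) ?_ ?_ ?_ ?_
    · intro r hr
      simp only [coe_filter, mem_univ, true_and, Set.mem_ofPred_eq] at hr ⊢
      refine ⟨(hQ r).mpr hr.1, ?_⟩
      rw [dz_fl, hi, hr.2]
      decide
    · intro r hr
      simp only [coe_filter, mem_univ, true_and, Set.mem_ofPred_eq] at hr ⊢
      refine ⟨(hQ r).mpr hr.1, ?_⟩
      rw [dz_fl, hi]
      exact (z2_flip _).mpr hr.2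
    · intro r _; exact fl_fl i r
    · intro r _; exact fl_fl i r
  have h2 := Finset.card_filter_add_card_filter_not (s := univ.filter fun r => Q r)
    (fun r => dz r v = 0)
  rw [Finset.filter_filter, Finset.filter_filter] at h2
  omega

/-- The rows with scalar product zero. -/
def Z {M : ℕ} (v : Fin M → Bool) : Finset (Fin M → Bool) := univ.filter fun r => dz r v = 0

theorem card_Z {M : ℕ} (v : Fin M → Bool) (i : Fin M) (hi : v i = true) :
    2 * (Z v).card = 2 ^ M := by
  have h := half v i hi (fun _ => True) (fun _ => Iff.rfl)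
  simp only [true_and, filter_true, card_univ, Fintype.card_fun, Fintype.card_bool,
    Fintype.card_fin] at h
  exact h

theorem card_ZZ {M : ℕ} (v v' : Fin M → Bool) (i : Fin M) (hi : v i = true) (hi' : v' i = false)
    (j : Fin M) (hj : v' j = true) : 4 * (Z v ∩ Z v').card = 2 ^ M := by
  have h := half v i hi (fun r => dz r v' = 0) (fun r => by rw [dz_fl, hi']; simp [bz])
  have h1 : (univ.filter fun r => dz r v' = 0 ∧ dz r v = 0) = Z v ∩ Z v' := by
    ext r; simp only [Z, mem_filter, mem_univ, true_and, mem_inter]; tauto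
  rw [h1] at h
  have h2 := card_Z v' j hj
  change _ = (Z v').card at h
  omega

/-- All matrices whose first `s` rows lie in `C`. -/
def box (T s : ℕ) {M : ℕ} (C : Finset (Fin M → Bool)) : Finset (Fin T → Fin M → Bool) :=
  Fintype.piFinset fun i => if i.1 < s then C else univ

theorem mem_box {T s M : ℕ} (C : Finset (Fin M → Bool)) (x : Fin T → Fin M → Bool) :
    x ∈ box T s C ↔ ∀ i : Fin T, i.1 < s → x i ∈ C := by
  rw [box, Fintype.mem_piFinset]
  refine forall_congr' fun i => ?_
  by_cases h : i.1 < s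
  · simp [h]
  · simp [h]

theorem box_inter {T s M : ℕ} (C C' : Finset (Fin M → Bool)) :
    box T s C ∩ box T s C' = box T s (C ∩ C') := by
  ext x
  simp only [mem_inter, mem_box]
  exact ⟨fun h i hi => ⟨h.1 i hi, h.2 i hi⟩, fun h => ⟨fun i hi => (h i hi).1,
    fun i hi => (h i hi).2⟩⟩

theorem prod_two {T s : ℕ} (hs : s ≤ T) (q : ℕ) :
    ∏ i : Fin T, (if i.1 < s then q else 1) = q ^ s := by
  rw [Finset.prod_ite, Finset.prod_const, Finset.prod_const_one, mul_one]
  congr 1
  have h : (univ.filter fun i : Fin T => i.1 < s) =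
      (univ : Finset (Fin s)).map (Fin.castLEEmb hs) := by
    ext i
    simp only [mem_filter, mem_univ, true_and, mem_map]
    constructor
    · intro h
      exact ⟨⟨i.1, h⟩, by ext; simp⟩
    · rintro ⟨k, hk⟩
      rw [← hk]
      simp
  rw [h, card_map, card_univ, Fintype.card_fin]

theorem card_box {T s M : ℕ} (hs : s ≤ T) (C : Finset (Fin M → Bool)) (q : ℕ)
    (hC : q * C.card = 2 ^ M) : q ^ s * (box T s C).card = 2 ^ (M * T) := by
  rw [box, Fintype.card_piFinset, ← prod_two hs q, ← Finset.prod_mul_distrib]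
  have h : ∀ i : Fin T, (if i.1 < s then q else 1) *
      (if i.1 < s then C else univ : Finset (Fin M → Bool)).card = 2 ^ M := by
    intro i
    by_cases h : i.1 < s
    · rw [if_pos h, if_pos h, hC]
    · rw [if_neg h, if_neg h, one_mul, card_univ, Fintype.card_fun, Fintype.card_bool,
        Fintype.card_fin]
  rw [Finset.prod_congr rfl fun i _ => h i, Finset.prod_const, card_univ, Fintype.card_fin,
    ← pow_mul]

/-- The inclusion-exclusion inequality. -/
theorem incl {X ι : Type} [Fintype X] [DecidableEq X] [DecidableEq ι] (W : Finset ι)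
    (A : ι → Finset X) :
    (∑ w ∈ W, ((A w).card : ℤ)) - ∑ p ∈ W.offDiag, ((A p.1 ∩ A p.2).card : ℤ) ≤
      ((univ.filter fun x => (W.filter fun w => x ∈ A w).card = 1).card : ℤ) := by
  have h1 : ∀ B : Finset X, (B.card : ℤ) = ∑ x : X, if x ∈ B then (1 : ℤ) else 0 := by
    intro B; simp
  have h2 : ∑ w ∈ W, ((A w).card : ℤ) = ∑ x : X, ((W.filter fun w => x ∈ A w).card : ℤ) := by
    rw [Finset.sum_congr rfl fun w _ => h1 (A w), Finset.sum_comm]
    refine Finset.sum_congr rfl fun x _ => ?_
    rw [Finset.card_filter]; push_cast; rfl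
  have h3 : ∑ p ∈ W.offDiag, ((A p.1 ∩ A p.2).card : ℤ) =
      ∑ x : X, (((W.filter fun w => x ∈ A w).offDiag).card : ℤ) := by
    rw [Finset.sum_congr rfl fun p _ => h1 (A p.1 ∩ A p.2), Finset.sum_comm]
    refine Finset.sum_congr rfl fun x _ => ?_
    have h4 : (W.filter fun w => x ∈ A w).offDiag =
        W.offDiag.filter fun p => x ∈ A p.1 ∩ A p.2 := by
      ext p
      simp only [mem_offDiag, mem_filter, mem_inter]
      tauto
    rw [h4, Finset.card_filter]; push_cast; rfl
  have h5 : ((univ.filter fun x => (W.filter fun w => x ∈ A w).card = 1).card : ℤ) =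
      ∑ x : X, if (W.filter fun w => x ∈ A w).card = 1 then (1 : ℤ) else 0 := by
    rw [Finset.card_filter]; push_cast; rfl
  rw [h2, h3, h5, ← Finset.sum_sub_distrib]
  refine Finset.sum_le_sum fun x _ => ?_
  rw [Finset.offDiag_card]
  set n := (W.filter fun w => x ∈ A w).card
  have h6 : n ≤ n * n := Nat.le_mul_self n
  rw [Nat.cast_sub h6]
  push_cast
  rcases Nat.lt_or_ge n 2 with h | h
  · interval_cases n <;> simp
  · rw [if_neg (by omega)]
    have : (2 : ℤ) ≤ n := by exact_mod_cast h
    nlinarith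

/-- A matrix as a string. -/
def Phi {T M : ℕ} (x : Fin T → Fin M → Bool) : List Bool :=
  List.ofFn fun k : Fin (T * M) => x k.divNat k.modNat

theorem Phi_inj {T M : ℕ} : Function.Injective (Phi (T := T) (M := M)) := by
  intro x y h
  have h1 := List.ofFn_injective h
  funext i j
  have h2 := congrFun h1 (finProdFinEquiv (i, j))
  have h3 : ((finProdFinEquiv (i, j)).divNat, (finProdFinEquiv (i, j)).modNat) = (i, j) :=
    finProdFinEquiv.symm_apply_apply (i, j)
  have h4 : (finProdFinEquiv (i, j)).divNat = i := congrArg Prod.fst h3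
  have h5 : (finProdFinEquiv (i, j)).modNat = j := congrArg Prod.snd h3
  rw [h4, h5] at h2
  exact h2

theorem Phi_row {T M : ℕ} (x : Fin T → Fin M → Bool) (i : Fin T) :
    ((Phi x).drop (i.1 * M)).take M = List.ofFn (x i) := by
  have hi : i.1 * M + M ≤ T * M := by
    have := Nat.mul_le_mul_right M (Nat.succ_le_of_lt i.2)
    rw [Nat.succ_mul] at this
    exact this
  apply List.ext_getElem
  · simp only [List.length_take, List.length_drop, Phi, List.length_ofFn]
    omega
  · intro j h1 h2
    have hj : j < M := by simpa using h2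
    rw [List.getElem_take, List.getElem_drop]
    simp only [Phi, List.getElem_ofFn]
    have e1 : (i.1 * M + j) / M = i.1 := by
      rw [Nat.mul_comm, Nat.mul_add_div (by omega), Nat.div_eq_of_lt hj, Nat.add_zero]
    have e2 : (i.1 * M + j) % M = j := by
      rw [Nat.mul_comm, Nat.mul_add_mod, Nat.mod_eq_of_lt hj]
    exact congrArg₂ (fun a b => x a b) (Fin.ext e1) (Fin.ext e2)

theorem dot_ofFn {M : ℕ} (r : Fin M → Bool) (l : List Bool) (hl : l.length = M) :
    dot (List.ofFn r) l = false ↔ dz r (fun i => l[i.1]'(by rw [hl]; exact i.2)) = 0 := by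
  subst hl
  set v : Fin l.length → Bool := fun i => l[i.1]'i.2
  have h1 : (List.ofFn r).zip l = List.ofFn fun i => (r i, v i) := by
    apply List.ext_getElem
    · simp
    · intro j h1 h2
      simp [v]
  have h2 : ((List.ofFn r).zip l).countP (fun p => p.1 && p.2) =
      (univ.filter fun i => r i = true ∧ v i = true).card := by
    rw [h1, List.ofFn_eq_map, List.countP_map]
    have h3 : (univ.filter fun i => r i = true ∧ v i = true).card =
        Multiset.countP (fun i => r i = true ∧ v i = true) (univ : Finset (Fin l.length)).val := by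
      rw [Multiset.countP_eq_card_filter]; rfl
    rw [h3]
    change _ = Multiset.countP _ ((List.finRange l.length : List (Fin l.length)) :
      Multiset (Fin l.length))
    rw [Multiset.coe_countP]
    refine List.countP_congr fun i _ => ?_
    simp
  have h4 : dz r v = (((List.ofFn r).zip l).countP (fun p => p.1 && p.2) : ℕ) := by
    rw [h2, Finset.card_filter]
    push_cast
    unfold dz
    refine Finset.sum_congr rfl fun i _ => ?_
    cases r i <;> cases v i <;> simp [bz]
  rw [h4, dot, decide_eq_false_iff_not, ZMod.natCast_eq_zero_iff]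
  omega

end VVL_

open VVL_ in
theorem p_VVL : T_VVL := by
  intro N W hW hlen
  classical
  -- the size
  set k := Nat.log 2 W.card with hk
  have hpos : W.card ≠ 0 := by rw [Ne, Finset.card_eq_zero]; exact hW.ne_empty
  have hk1 : 2 ^ k ≤ W.card := Nat.pow_log_le_self 2 hpos
  have hk2 : W.card < 2 ^ (k + 1) := Nat.lt_pow_succ_log_self (by norm_num) _
  have hWN : W.card ≤ 2 ^ N := by
    have h1 : W ⊆ ((Finset.univ : Finset (Fin N → Bool)).image List.ofFn) := by
      intro w hw
      rw [Finset.mem_image]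
      refine ⟨fun i => w[i.1]'(by rw [hlen w hw]; exact i.2), Finset.mem_univ _, ?_⟩
      apply List.ext_getElem
      · simp [hlen w hw]
      · intro j h1 h2; simp
    calc W.card ≤ _ := Finset.card_le_card h1
      _ ≤ (Finset.univ : Finset (Fin N → Bool)).card := Finset.card_image_le
      _ = 2 ^ N := by simp
  have hkN : k ≤ N := (Nat.pow_le_pow_iff_right (by norm_num : 1 < 2)).mp (hk1.trans hWN)
  -- the vectors
  have hlen' : ∀ w ∈ W, (w ++ [true]).length = N + 1 := by
    intro w hw; simp [hlen w hw]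
  set vv : List Bool → Fin (N + 1) → Bool := fun w i => (w ++ [true]).getD i.1 false with hvv
  have hvlast : ∀ w ∈ W, vv w (Fin.last N) = true := by
    intro w hw
    simp [hvv, List.getD_eq_getElem?_getD, ← hlen w hw]
  have hvdiff : ∀ w ∈ W, ∀ w' ∈ W, w ≠ w' → ∃ i, vv w i ≠ vv w' i := by
    intro w hw w' hw' hne
    by_contra hcon
    push Not at hcon
    apply hne
    apply List.ext_getElem
    · rw [hlen w hw, hlen w' hw']
    · intro j h1 h2
      have hj : j < N + 1 := by rw [hlen w hw] at h1; omega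
      have h3 := hcon ⟨j, hj⟩
      simp only [hvv, List.getD_eq_getElem?_getD, List.getElem?_append_left h1,
        List.getElem?_append_left h2, List.getElem?_eq_getElem h1,
        List.getElem?_eq_getElem h2, Option.getD_some] at h3
      exact h3
  set s := k + 2 with hs
  have hsN : s ≤ N + 2 := by omega
  set A : List Bool → Finset (Fin (N + 2) → Fin (N + 1) → Bool) :=
    fun w => box (N + 2) s (Z (vv w)) with hA
  have hA1 : ∀ w ∈ W, 2 ^ s * (A w).card = 2 ^ ((N + 1) * (N + 2)) := fun w hw =>
    card_box hsN (Z (vv w)) 2 (card_Z (vv w) (Fin.last N) (hvlast w hw))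
  have hA2 : ∀ p ∈ W.offDiag, 4 ^ s * (A p.1 ∩ A p.2).card = 2 ^ ((N + 1) * (N + 2)) := by
    rintro ⟨w, w'⟩ hp
    obtain ⟨hw, hw', hne⟩ := Finset.mem_offDiag.mp hp
    obtain ⟨i, hi⟩ := hvdiff w hw w' hw' hne
    change 4 ^ s * (box (N + 2) s (Z (vv w)) ∩ box (N + 2) s (Z (vv w'))).card = _
    rw [box_inter]
    apply card_box hsN
    rcases Bool.eq_false_or_eq_true (vv w i) with h | h
    · have h' : vv w' i = false := by
        rcases Bool.eq_false_or_eq_true (vv w' i) with h2 | h2
        · exact absurd (h.trans h2.symm) hi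
        · exact h2
      exact card_ZZ _ _ i h h' (Fin.last N) (hvlast w' hw')
    · have h' : vv w' i = true := by
        rcases Bool.eq_false_or_eq_true (vv w' i) with h2 | h2
        · exact h2
        · exact absurd (h.trans h2.symm) hi
      rw [Finset.inter_comm]
      exact card_ZZ _ _ i h' h (Fin.last N) (hvlast w hw)
  have hI := incl W A
  set G := Finset.univ.filter fun x => (W.filter fun w => x ∈ A w).card = 1 with hG
  -- the final inequality
  have hfin : 2 ^ ((N + 2) * (N + 1)) ≤ 8 * G.card := by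
    have e1 : (2 : ℝ) ^ s * ∑ w ∈ W, ((A w).card : ℝ) = W.card * 2 ^ ((N + 1) * (N + 2)) := by
      rw [Finset.mul_sum, Finset.sum_congr rfl (g := fun _ => (2 : ℝ) ^ ((N + 1) * (N + 2)))
        (fun w hw => by exact_mod_cast hA1 w hw), Finset.sum_const, nsmul_eq_mul]
    have e2 : (4 : ℝ) ^ s * ∑ p ∈ W.offDiag, ((A p.1 ∩ A p.2).card : ℝ) =
        (W.card * W.card - W.card) * 2 ^ ((N + 1) * (N + 2)) := by
      rw [Finset.mul_sum, Finset.sum_congr rfl (g := fun _ => (2 : ℝ) ^ ((N + 1) * (N + 2)))
        (fun p hp => by exact_mod_cast hA2 p hp), Finset.sum_const, nsmul_eq_mul,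
        Finset.offDiag_card, Nat.cast_sub (Nat.le_mul_self _)]
      push_cast; ring
    have hI' : (∑ w ∈ W, ((A w).card : ℝ)) - ∑ p ∈ W.offDiag, ((A p.1 ∩ A p.2).card : ℝ) ≤
        (G.card : ℝ) := by exact_mod_cast hI
    have hk1' : (2 : ℝ) ^ k ≤ W.card := by exact_mod_cast hk1
    have hk2' : (W.card : ℝ) < 2 ^ (k + 1) := by exact_mod_cast hk2
    have e3 : (2 : ℝ) ^ s = 4 * 2 ^ k := by rw [hs, pow_add]; ring
    have e4 : (4 : ℝ) ^ s = (4 * 2 ^ k) ^ 2 := by
      rw [← e3, ← pow_mul, mul_comm s 2, pow_mul]; norm_num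
    rw [e3] at e1
    rw [e4] at e2
    have hcomm : (N + 2) * (N + 1) = (N + 1) * (N + 2) := Nat.mul_comm _ _
    rw [hcomm]
    have hgoal : (2 : ℝ) ^ ((N + 1) * (N + 2)) ≤ 8 * G.card := by
      set a : ℝ := (2 : ℝ) ^ k with ha
      have ha0 : 0 < a := by positivity
      set t : ℝ := (W.card : ℝ) with ht
      set S1 := ∑ w ∈ W, ((A w).card : ℝ)
      set S2 := ∑ p ∈ W.offDiag, ((A p.1 ∩ A p.2).card : ℝ)
      set B : ℝ := (2 : ℝ) ^ ((N + 1) * (N + 2)) with hB
      have hB0 : 0 < B := by positivity
      have ht2 : t < 2 * a := by rw [pow_succ] at hk2'; linarith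
      have f1 : S1 = t * B / (4 * a) := by
        rw [eq_div_iff (by positivity)]; linarith
      have f2 : S2 = (t * t - t) * B / (4 * a) ^ 2 := by
        rw [eq_div_iff (by positivity)]; linarith
      have f3 : B / 8 ≤ S1 - S2 := by
        rw [f1, f2]
        have f4 : t * B / (4 * a) - (t * t - t) * B / (4 * a) ^ 2 =
            B * (4 * a * t - t * t + t) / (4 * a) ^ 2 := by
          field_simp
          ring
        rw [f4, le_div_iff₀ (by positivity)]
        have f5 : 2 * a ^ 2 ≤ 4 * a * t - t * t + t := by nlinarith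
        calc B / 8 * (4 * a) ^ 2 = B * (2 * a ^ 2) := by ring
          _ ≤ _ := mul_le_mul_of_nonneg_left f5 hB0.le
      linarith
    exact_mod_cast hgoal
  refine hfin.trans (Nat.mul_le_mul_left 8 ?_)
  -- transport to strings
  rw [← Finset.card_image_of_injective G (Phi_inj (T := N + 2) (M := N + 1)),
    ← Set.ncard_coe_finset]
  apply Set.ncard_le_ncard
  · intro ρ hρ
    obtain ⟨x, hx, rfl⟩ := Finset.mem_image.mp (Finset.mem_coe.mp hρ)
    refine ⟨by rw [Phi, List.length_ofFn], s, hsN, ?_⟩
    obtain ⟨w, hw⟩ := Finset.card_eq_one.mp (Finset.mem_filter.mp hx).2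
    have hw1 : w ∈ W ∧ x ∈ A w := by
      have : w ∈ W.filter fun w => x ∈ A w := by rw [hw]; exact Finset.mem_singleton_self w
      exact Finset.mem_filter.mp this
    refine ⟨w, hw1.1, fun w' hw' => ?_⟩
    have key : (∀ r ∈ pieces (N + 1) s (Phi x), dot r (w' ++ [true]) = false) ↔ x ∈ A w' := by
      change _ ↔ x ∈ box (N + 2) s (Z (vv w'))
      rw [mem_box]
      simp only [pieces, List.mem_map, List.mem_range, forall_exists_index, and_imp,
        forall_apply_eq_imp_iff₂]
      have hrow : ∀ i : Fin (N + 2), dot (((Phi x).drop (i.1 * (N + 1))).take (N + 1))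
          (w' ++ [true]) = false ↔ x i ∈ Z (vv w') := by
        intro i
        rw [Phi_row, dot_ofFn (x i) (w' ++ [true]) (hlen' w' hw'), Z, Finset.mem_filter]
        have hv : (fun i : Fin (N + 1) => (w' ++ [true])[i.1]'(by
            rw [hlen' w' hw']; exact i.2)) = vv w' := by
          funext i
          rw [hvv]
          exact (List.getD_eq_getElem _ _ _).symm
        rw [hv]
        simp
      constructor
      · intro h i hi
        exact (hrow i).mp (h i.1 hi)
      · intro h i hi
        exact (hrow ⟨i, lt_of_lt_of_le hi hsN⟩).mpr (h ⟨i, lt_of_lt_of_le hi hsN⟩ hi)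
    rw [key]
    constructor
    · intro h
      have : w' ∈ W.filter fun w => x ∈ A w := Finset.mem_filter.mpr ⟨hw', h⟩
      rw [hw] at this
      exact Finset.mem_singleton.mp this
    · rintro rfl
      exact hw1.2
  · exact (List.finite_length_eq Bool ((N + 2) * (N + 1))).subset fun ρ hρ => hρ.1

end Pool.Agent.MAJ
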