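import Pool.Agent.MAJ.Assembly
import Pool.Agent.MAJ.Assembly2
import Pool.Agent.MAJ.P_AM2
import Pool.Agent.MAJ.P_CRD
import Pool.Agent.MAJ.P_ENC
import Pool.Agent.MAJ.P_EVA
import Pool.Agent.MAJ.P_EXP
import Pool.Agent.MAJ.P_IPA
import Pool.Agent.MAJ.P_JNT
import Pool.Agent.MAJ.P_LNP
import Pool.Agent.MAJ.P_LNZ
import Pool.Agent.MAJ.P_M2R
import Pool.Agent.MAJ.P_PCK
import Pool.Agent.MAJ.P_PEN
import Pool.Agent.MAJ.P_PPK
import Pool.Agent.MAJ.P_PPR
import Pool.Agent.MAJ.P_PRD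
import Pool.Agent.MAJ.P_PRN
import Pool.Agent.MAJ.P_PSR
import Pool.Agent.MAJ.P_PTV
import Pool.Agent.MAJ.P_PVC
import Pool.Agent.MAJ.P_RND
import Pool.Agent.MAJ.P_SMP
import Pool.Agent.MAJ.P_SRC
import Pool.Agent.MAJ.P_SZ2
import Pool.Agent.MAJ.P_SZR
import Pool.Agent.MAJ.P_TKE
import Pool.Agent.MAJ.P_TMP
import Pool.Agent.MAJ.P_TRU
import Pool.Agent.MAJ.P_VVL

set_option autoImplicit false

/-!
# MAJ: the final theorems
-/

namespace Pool.Agent.MAJ

theorem f_TMP : T_TMP := p_TMP p_ENC p_PEN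

theorem f_LNP : T_LNP := p_LNP f_TMP p_ENC p_PEN

theorem f_PCK : T_PCK := p_PCK p_IPA

theorem f_PRN : T_PRN := p_PRN (p_RND p_IPA f_PCK) (p_TRU p_IPA p_EVA) f_PCK

theorem f_SRC : T_SRC := p_SRC f_PRN p_ENC

theorem f_PSR : T_PSR := p_PSR (p_PPR (p_PRD p_PVC (p_PPK p_PVC) p_PEN)) p_PEN

/-- A sparse set hard for UP under majorities of bounded truth tables gives P = UP. -/
theorem final_up (S : Lang) (hS : Sparse S) (H : ∀ L, InUP L → ∃ d, MajReduces d L S)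
    (L : Lang) (hL : InUP L) : InP L :=
  up_main p_IPA f_SRC p_EXP p_CRD p_ENC p_PEN f_PSR p_PTV (p_SZR p_PTV p_PEN) f_TMP f_LNP
    S hS H L hL

/-- A sparse set hard for NP under randomised reductions with boundedly many queries gives
NP = RP. -/
theorem final_rand (S : Lang) (hS : Sparse S) (H : ∀ L, InNP L → ∃ d, RandReduces d L S)
    (L : Lang) (hL : InNP L) : InRP L :=
  rand_main p_IPA f_SRC p_EXP p_CRD p_ENC p_PEN f_PSR p_PTV f_TMP f_LNP p_VVL p_TKE p_SMP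
    p_JNT p_AM2 p_SZ2 p_LNZ S hS H L hL

/-- A majority of bounded truth tables is a randomised reduction. -/
theorem final_m2r : T_M2R := p_M2R f_TMP p_TKE

/-- Both kinds of reductions, NP. -/
theorem final_np (S : Lang) (hS : Sparse S)
    (H : ∀ L, InNP L → ∃ d, RandReduces d L S ∨ MajReduces d L S) (L : Lang) :
    InNP L ↔ InRP L := by
  refine ⟨fun hL => final_rand S hS (fun L' hL' => ?_) L hL, ASM_.rp_np⟩
  obtain ⟨d, h | h⟩ := H L' hL'
  · exact ⟨d, h⟩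
  · exact ⟨d, final_m2r d L' S h⟩

/-- Majority reductions, UP. -/
theorem final_upp (S : Lang) (hS : Sparse S) (H : ∀ L, InUP L → ∃ d, MajReduces d L S)
    (L : Lang) : InUP L ↔ InP L :=
  ⟨final_up S hS H L, ASM_.p_up f_TMP⟩

end Pool.Agent.MAJ
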