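import Pool.Agent.MAJ.Targets3

set_option autoImplicit false

/-!
# MAJ, part 3: deterministic isolation by a small modulus
-/

namespace Pool.Agent.MAJ

namespace ISO_

/-- A number divisible by all `m` with `1 ≤ m ≤ 2 h` is larger than `2 ^ (h - 1)`. -/
theorem big (h P : ℕ) (hh : 0 < h) (hP : 0 < P) (hd : ∀ m, 1 ≤ m → m ≤ 2 * h → m ∣ P) :
    2 ^ (h - 1) < P := by
  have hdvd : Nat.centralBinom h ∣ P := by
    rw [← Nat.factorization_prime_le_iff_dvd (Nat.centralBinom_ne_zero h) hP.ne']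
    intro p hp
    rw [← hp.pow_dvd_iff_le_factorization hP.ne']
    apply hd
    · exact Nat.one_le_pow _ _ hp.pos
    · rw [Nat.centralBinom_eq_two_mul_choose]
      exact Nat.pow_factorization_choose_le (by omega)
  have h1 := Nat.le_of_dvd hP hdvd
  have h2 := Nat.four_pow_le_two_mul_self_mul_centralBinom h hh
  by_contra hcon
  push Not at hcon
  have h3 : 4 ^ h ≤ 2 * h * 2 ^ (h - 1) := h2.trans (Nat.mul_le_mul_left _ (h1.trans hcon))
  have h4 : 2 * h * 2 ^ (h - 1) = h * 2 ^ h := by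
    obtain ⟨k, rfl⟩ : ∃ k, h = k + 1 := ⟨h - 1, by omega⟩
    rw [Nat.add_sub_cancel, pow_succ]
    ring
  have h5 : (4 : ℕ) ^ h = 2 ^ h * 2 ^ h := by
    rw [← mul_pow]
    norm_num
  rw [h4, h5] at h3
  have h6 : 2 ^ h ≤ h := Nat.le_of_mul_le_mul_right h3 (by positivity)
  exact absurd h6 (not_le.2 Nat.lt_two_pow_self)

end ISO_

theorem p_ISO : T_ISO := by
  classical
  intro n N W f hf hinj hcard w hw
  by_contra hcon
  push Not at hcon
  set D : List Bool → ℕ := fun w' => ((f w' : ℤ) - f w).natAbs with hD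
  set P : ℕ := ∏ w' ∈ W.erase w, D w' with hP
  have hDpos : ∀ w' ∈ W.erase w, 0 < D w' := by
    intro w' hw'
    rw [Finset.mem_erase] at hw'
    rw [hD]
    rw [Int.natAbs_pos]
    intro h
    apply hw'.1
    apply hinj w' hw'.2 w hw
    omega
  have hDle : ∀ w' ∈ W.erase w, D w' ≤ 2 ^ n := by
    intro w' hw'
    rw [Finset.mem_erase] at hw'
    have h1 := hf w' hw'.2
    have h2 := hf w hw
    simp only [hD]
    omega
  have hPpos : 0 < P := Finset.prod_pos hDpos
  have hPle : P ≤ 2 ^ (n * N) := by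
    have h1 : P ≤ (2 ^ n) ^ (W.erase w).card := Finset.prod_le_pow_card _ _ _ hDle
    have h2 : (W.erase w).card ≤ N := (Finset.card_le_card (Finset.erase_subset _ _)).trans hcard
    calc P ≤ (2 ^ n) ^ (W.erase w).card := h1
      _ ≤ (2 ^ n) ^ N := Nat.pow_le_pow_right (by positivity) h2
      _ = 2 ^ (n * N) := by rw [← pow_mul]
  have hdvd : ∀ m, 1 ≤ m → m ≤ 2 * (n * N + 1) → m ∣ P := by
    intro m hm hm2
    obtain ⟨w', hw', hmod, hne⟩ := hcon m hm hm2
    have hmem : w' ∈ W.erase w := Finset.mem_erase.2 ⟨hne, hw'⟩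
    refine Dvd.dvd.trans ?_ (Finset.dvd_prod_of_mem D hmem)
    have h1 : (f w : ℤ) ≡ f w' [ZMOD m] := by
      have h2 : f w ≡ f w' [MOD m] := hmod.symm
      exact (Int.natCast_modEq_iff).2 h2
    have h2 := h1.dvd
    simp only [hD]
    exact Int.natCast_dvd.1 h2
  have h1 := ISO_.big (n * N + 1) P (by omega) hPpos hdvd
  rw [Nat.add_sub_cancel] at h1
  exact absurd hPle (not_le.2 h1)

end Pool.Agent.MAJ
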