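import Pool.Agent.MAJ.Targets3
import Pool.Agent.MAJ.P_LNP

set_option autoImplicit false

/-!
# MAJ: the language of the questions is in FewP (LNF)
-/

namespace Pool.Agent.MAJ

open Pool.Agent.PT (Dat PolyF sz Core)

namespace LNF_

theorem count (h_ENC : T_ENC) (q k : Polynomial ℕ) (V : List Bool × List Bool → Bool)
    (L : List Bool → List Unit) (eL : ∀ x, (L x).length = q.eval x.length)
    (hV : ∀ x, {w : List Bool | w.length = q.eval x.length ∧ V (x, w) = true}.ncard ≤
      k.eval x.length) (z : List Bool) :
    {u : List Bool | u.length = q.eval z.length ∧ LNP_.ver V L (z, u) = true}.ncard ≤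
      k.eval z.length := by
  by_cases hz : ∃ x a rows, decL z = x :: a :: rows
  · obtain ⟨x, a, rows, hD⟩ := hz
    have hx : x.length ≤ z.length := h_ENC.2.2.1 z x (by rw [hD]; simp)
    have hq : q.eval x.length ≤ q.eval z.length := LNP_.eval_mono q hx
    have key : ∀ u : List Bool, LNP_.ver V L (z, u) = true →
        V (x, u.take (L x).length) = true ∧
        u.countP (fun b => b) = (u.take (L x).length).countP (fun b => b) := by
      intro u hu
      rw [LNP_.ver_iff h_ENC] at hu
      obtain ⟨x', a', rows', hD', h1, -, -, h4⟩ := hu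
      have hxx : x = x' := by
        rw [hD] at hD'
        exact (List.cons.inj hD').1
      subst hxx
      exact ⟨h1, h4⟩
    have hfin : {w : List Bool | w.length = q.eval x.length ∧ V (x, w) = true}.Finite :=
      (List.finite_length_eq Bool (q.eval x.length)).subset fun w hw => hw.1
    have h1 : {u : List Bool | u.length = q.eval z.length ∧ LNP_.ver V L (z, u) = true}.ncard ≤
        {w : List Bool | w.length = q.eval x.length ∧ V (x, w) = true}.ncard := by
      refine Set.ncard_le_ncard_of_injOn (fun u : List Bool => u.take (L x).length) ?_ ?_ hfin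
      · rintro u ⟨hu, hv⟩
        refine ⟨?_, (key u hv).1⟩
        change (u.take (L x).length).length = q.eval x.length
        rw [List.length_take, eL]; omega
      · rintro u ⟨hu, hv⟩ u' ⟨hu', hv'⟩ he
        have he' : u.take (L x).length = u'.take (L x).length := he
        rw [LNP_.count_split u _ (key u hv).2, LNP_.count_split u' _ (key u' hv').2, he', hu, hu']
    exact h1.trans ((hV x).trans (LNP_.eval_mono k hx))
  · have : {u : List Bool | u.length = q.eval z.length ∧ LNP_.ver V L (z, u) = true} = ∅ := by
      ext u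
      constructor
      · rintro ⟨-, hv⟩
        rw [LNP_.ver_iff h_ENC] at hv
        obtain ⟨x, a, rows, hD, -⟩ := hv
        exact (hz ⟨x, a, rows, hD⟩).elim
      · intro h
        exact h.elim
    rw [this, Set.ncard_empty]
    exact Nat.zero_le _

end LNF_

theorem p_LNF (h_TMP : T_TMP) (h_ENC : T_ENC) (h_PEN : T_PEN) : T_LNF := by
  intro q k V hV hk
  obtain ⟨L, hL, eL⟩ := Pool.Agent.CookLevin.tLEN (Γ := Bool) q
  have hp : PolyTime encPair encBool (LNP_.ver V L) :=
    (h_TMP.1 _).2 (LNP_.ver_polyF h_PEN V hV L hL)
  exact ⟨q, k, LNP_.ver V L, hp, fun z => ⟨LNP_.main h_ENC q V L eL z,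
    LNF_.count h_ENC q k V L eL hk z⟩⟩

end Pool.Agent.MAJ
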