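import Pool.Agent.MAJ.Targets3

set_option autoImplicit false

/-!
# MAJ-MOD: residues of binary numbers
-/

namespace Pool.Agent.MAJ

open Pool.Agent.PT

namespace MOD_

theorem modU_snoc (w : List Bool) (b : Bool) (m : List Unit) :
    modU (w ++ [b]) m = modStep m (modU w m) b := by
  unfold modU
  rw [List.foldl_append]
  rfl

theorem num_snoc (w : List Bool) (b : Bool) : num (w ++ [b]) = 2 * num w + (if b then 1 else 0) := by
  unfold num
  rw [List.foldl_append]
  rfl

theorem step_len (h_ENC : T_ENC) (m s : List Unit) (b : Bool) : (modStep m s b).length =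
    if 2 * s.length + (if b then 1 else 0) < m.length then 2 * s.length + (if b then 1 else 0)
    else min m.length (2 * s.length + (if b then 1 else 0) - m.length) := by
  obtain ⟨-, -, -, hT, hD, -⟩ := h_ENC
  unfold modStep
  have h1 : (s ++ s ++ (if b then [()] else [])).length =
      2 * s.length + (if b then 1 else 0) := by
    cases b <;> simp <;> omega
  by_cases h : 2 * s.length + (if b then 1 else 0) < m.length
  · rw [if_pos (by rw [h1]; exact h), if_pos h, h1]
  · rw [if_neg (by rw [h1]; exact h), if_neg h, hT, hD, List.length_take, List.length_drop, h1]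

theorem mod_len (h_ENC : T_ENC) (w : List Bool) (m : List Unit) (hm : 1 ≤ m.length) :
    (modU w m).length = num w % m.length := by
  induction w using List.reverseRecOn with
  | nil =>
    show 0 = 0 % m.length
    rw [Nat.zero_mod]
  | append_singleton w b ih =>
    rw [modU_snoc, num_snoc, step_len h_ENC, ih]
    have hr : num w % m.length < m.length := Nat.mod_lt _ hm
    have hc : (if b then 1 else 0 : ℕ) ≤ 1 := by cases b <;> simp
    generalize (if b then 1 else 0 : ℕ) = c at hc ⊢
    have h1 : (2 * num w + c) % m.length = (2 * (num w % m.length) + c) % m.length := by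
      conv_lhs => rw [← Nat.div_add_mod (num w) m.length]
      rw [show 2 * (m.length * (num w / m.length) + num w % m.length) + c =
        (2 * (num w % m.length) + c) + m.length * (2 * (num w / m.length)) by ring,
        Nat.add_mul_mod_self_left]
    rw [h1]
    by_cases h : 2 * (num w % m.length) + c < m.length
    · rw [if_pos h, Nat.mod_eq_of_lt h]
    · have h2 : 2 * (num w % m.length) + c - m.length < m.length := by omega
      rw [if_neg h, Nat.mod_eq_sub_mod (not_lt.1 h), Nat.mod_eq_of_lt h2]
      exact min_eq_right h2.le

theorem num_lt (w : List Bool) : num w < 2 ^ w.length := by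
  induction w using List.reverseRecOn with
  | nil => show 0 < 1; omega
  | append_singleton w b ih =>
    rw [num_snoc, List.length_append, List.length_singleton, pow_succ]
    have hc : (if b then 1 else 0 : ℕ) ≤ 1 := by cases b <;> simp
    omega

theorem num_inj (w : List Bool) : ∀ w' : List Bool, w.length = w'.length → num w = num w' →
    w = w' := by
  induction w using List.reverseRecOn with
  | nil =>
    intro w' h _
    exact (List.eq_nil_of_length_eq_zero h.symm).symm
  | append_singleton w b ih =>
    intro w' h hn
    induction w' using List.reverseRecOn with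
    | nil => simp at h
    | append_singleton w' b' _ =>
      rw [List.length_append, List.length_append, List.length_singleton,
        List.length_singleton] at h
      rw [num_snoc, num_snoc] at hn
      have hb : b = b' := by
        cases b <;> cases b' <;> simp at hn ⊢ <;> omega
      subst hb
      rw [ih w' (by omega) (by omega)]

/-- The size of a unary number. -/
theorem sz_unit (l : List Unit) : sz l = 2 * l.length + 1 := by
  induction l with
  | nil => rfl
  | cons u l ih =>
    have e : sz u = 1 := rfl
    rw [sz_cons, ih, e, List.length_cons]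
    ring

theorem fold_len (h_ENC : T_ENC) (m : List Unit) (l : List Bool) : ∀ s : List Unit,
    s.length ≤ m.length → (l.foldl (modStep m) s).length ≤ m.length := by
  induction l with
  | nil => intro s hs; exact hs
  | cons b l ih =>
    intro s _
    rw [List.foldl_cons]
    refine ih _ ?_
    rw [step_len h_ENC]
    generalize 2 * s.length + (if b then 1 else 0 : ℕ) = k
    by_cases h : k < m.length
    · rw [if_pos h]
      exact h.le
    · rw [if_neg h]
      exact min_le_left _ _

theorem modStep_eq (m s : List Unit) (b : Bool) : modStep m s b =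
    cond (decide ((s ++ s ++ cond b [()] []).length < m.length)) (s ++ s ++ cond b [()] [])
      (takeU (dropU (s ++ s ++ cond b [()] []) m) m) := by
  unfold modStep
  have e : (if b then [()] else [] : List Unit) = cond b [()] [] := by cases b <;> rfl
  rw [e, Bool.cond_decide]

section
variable [hC : Fact Core]

theorem modStep_pt (h_PEN : T_PEN) : PolyF (fun p : (List Bool × List Unit) × List Unit × Bool =>
    modStep p.1.2 p.2.1 p.2.2) := by
  obtain ⟨-, -, -, hT, hD, -⟩ := h_PEN
  have h0 : PolyF (fun p : (List Bool × List Unit) × List Unit × Bool =>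
      p.2.1 ++ p.2.1 ++ cond p.2.2 [()] []) := by fun_prop
  have h1 : PolyF (fun p : (List Bool × List Unit) × List Unit × Bool =>
      dropU (p.2.1 ++ p.2.1 ++ cond p.2.2 [()] []) p.1.2) :=
    hD.comp (g := fun p : (List Bool × List Unit) × List Unit × Bool =>
      (p.2.1 ++ p.2.1 ++ cond p.2.2 [()] [], p.1.2)) (h0.pair (by fun_prop))
  have h2 : PolyF (fun p : (List Bool × List Unit) × List Unit × Bool =>
      takeU (dropU (p.2.1 ++ p.2.1 ++ cond p.2.2 [()] []) p.1.2) p.1.2) :=
    hT.comp (g := fun p : (List Bool × List Unit) × List Unit × Bool =>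
      (dropU (p.2.1 ++ p.2.1 ++ cond p.2.2 [()] []) p.1.2, p.1.2)) (h1.pair (by fun_prop))
  refine PolyF.congr ?_ (fun p => (modStep_eq p.1.2 p.2.1 p.2.2).symm)
  exact PolyF.cond ((PolyF.length h0).nat_lt (by fun_prop)) h0 h2

theorem modU_pt (h_ENC : T_ENC) (h_PEN : T_PEN) :
    PolyF (fun p : List Bool × List Unit => modU p.1 p.2) := by
  unfold modU
  refine PolyF.foldl (γ := List Bool × List Unit) (f := fun x => modStep x.2)
    (modStep_pt h_PEN) (by fun_prop) (by fun_prop)
    (fun x => 2 * sz x + 1) (((PolyB.const 2).mul PolyB.sz).add (PolyB.const 1)) ?_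
  intro x l₁ _
  rw [sz_unit]
  have h1 := fold_len h_ENC x.2 l₁ [] (Nat.zero_le _)
  have h2 := length_lt_sz x.2
  have h3 := sz_snd x
  omega

theorem resid_pt (h_ENC : T_ENC) (h_PEN : T_PEN) :
    PolyF (fun p : List Bool × List Bool => resid p.1 p.2) := by
  unfold resid
  have h1 : PolyF (fun p : List Bool × List Bool =>
      modU p.1 ((p.2.filter fun b => !b).map fun _ => ())) :=
    (modU_pt h_ENC h_PEN).comp (g := fun p : List Bool × List Bool =>
      (p.1, (p.2.filter fun b => !b).map fun _ => ())) (by fun_prop)
  exact PolyF.eq_nat (PolyF.length h1) (by fun_prop)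

end

end MOD_

open MOD_ in
theorem p_MOD (h_ENC : T_ENC) (h_PEN : T_PEN) : T_MOD := by
  have : Fact Pool.Agent.PT.Core := ⟨Pool.Agent.PT.core⟩
  exact ⟨mod_len h_ENC, num_lt, num_inj, modU_pt h_ENC h_PEN, resid_pt h_ENC h_PEN⟩

end Pool.Agent.MAJ
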