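import Pool.Agent.MAJ.Targets3
import Pool.Agent.MAJ.P_LNP

set_option autoImplicit false

/-!
# MAJ: the verifier with a residue condition (VRR)
-/

namespace Pool.Agent.MAJ

open Pool.Agent.PT (Dat PolyF sz Core)

namespace VRR_

theorem verR_polyF (h_PEN : T_PEN) (h_MOD : T_MOD) (V : List Bool × List Bool → Bool)
    (hV : PolyF V) (L : List Bool → List Unit) (hL : PolyF L) : PolyF (verR V L) := by
  have : Fact Core := ⟨Pool.Agent.PT.core⟩
  obtain ⟨-, hdec, -, htake, -, -, -, -⟩ := h_PEN
  obtain ⟨-, -, -, -, hres⟩ := h_MOD
  have h1 : PolyF (fun p : List Bool × List Bool => decL p.1) :=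
    PolyF.comp hdec (PolyF.fst PolyF.id)
  have h2 : PolyF (fun p : List Bool × List Bool => (decL p.1).headD []) :=
    PolyF.headD h1 (PolyF.const _)
  have h3 : PolyF (fun p : List Bool × List Bool => takeU p.2 (L ((decL p.1).headD []))) :=
    PolyF.comp (f := fun p : List Bool × List Unit => takeU p.1 p.2)
      (g := fun p : List Bool × List Bool => (p.2, L ((decL p.1).headD []))) (htake (α := Bool))
      (PolyF.pair (PolyF.snd PolyF.id) (PolyF.comp hL h2))
  have h4 : PolyF (fun p : List Bool × List Bool =>
      V ((decL p.1).headD [], takeU p.2 (L ((decL p.1).headD [])))) :=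
    PolyF.comp hV (PolyF.pair h2 h3)
  have h5 : PolyF (fun p : List Bool × List Bool =>
      resid (takeU p.2 (L ((decL p.1).headD []))) ((decL p.1).tail.headD [])) :=
    PolyF.comp (f := fun p : List Bool × List Bool => resid p.1 p.2)
      (g := fun p : List Bool × List Bool =>
        (takeU p.2 (L ((decL p.1).headD [])), (decL p.1).tail.headD [])) hres
      (PolyF.pair h3 (PolyF.headD (PolyF.tail h1) (PolyF.const _)))
  have h7 : PolyF (fun p : List Bool × List Bool => decide (p.2.countP (fun b => b) =
      (takeU p.2 (L ((decL p.1).headD []))).countP (fun b => b))) := by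
    refine PolyF.eq_nat ?_ ?_
    · exact PolyF.countP (f := fun (_ : List Bool × List Bool) (b : Bool) => b)
        (PolyF.snd PolyF.id) (PolyF.snd PolyF.id)
    · exact PolyF.countP (f := fun (_ : List Bool × List Bool) (b : Bool) => b)
        (PolyF.snd PolyF.id) h3
  have h8 : PolyF (fun p : List Bool × List Bool => decide ((decL p.1).length = 2)) :=
    PolyF.eq_nat (PolyF.length h1) (PolyF.const _)
  exact PolyF.and h8 (PolyF.and h4 (PolyF.and h5 h7))

/-- What acceptance means. -/
lemma verR_iff (h_ENC : T_ENC) (V : List Bool × List Bool → Bool) (L : List Bool → List Unit)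
    (z u : List Bool) : verR V L (z, u) = true ↔
      ∃ x R, decL z = [x, R] ∧ V (x, u.take (L x).length) = true ∧
        resid (u.take (L x).length) R = true ∧
        u.countP (fun b => b) = (u.take (L x).length).countP (fun b => b) := by
  have ht : ∀ m : List Unit, takeU u m = u.take m.length := h_ENC.2.2.2.1 u
  unfold verR
  simp only [Bool.and_eq_true, decide_eq_true_eq, ht]
  constructor
  · rintro ⟨h1, h2, h3, h5⟩
    rcases hD : decL z with _ | ⟨x, _ | ⟨R, _ | ⟨r, rows⟩⟩⟩
    · rw [hD] at h1; simp at h1
    · rw [hD] at h1; simp at h1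
    · rw [hD] at h2 h3 h5
      exact ⟨x, R, rfl, h2, h3, h5⟩
    · rw [hD] at h1; simp at h1
  · rintro ⟨x, R, hD, h2, h3, h5⟩
    rw [hD]
    exact ⟨rfl, h2, h3, h5⟩

end VRR_

open VRR_

theorem p_VRR (h_ENC : T_ENC) (h_PEN : T_PEN) (h_MOD : T_MOD) : T_VRR := by
  intro q k V L hV hL eL hk
  have hle : ∀ x' x R, decL x' = [x, R] → x.length ≤ x'.length := fun x' x R hD =>
    h_ENC.2.2.1 x' x (by rw [hD]; simp)
  have part3 : ∀ x' u, u.length = q.eval x'.length → verR V L (x', u) = true →
      ∃ x R, decL x' = [x, R] ∧ (u.take (q.eval x.length)).length = q.eval x.length ∧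
      V (x, u.take (q.eval x.length)) = true ∧ resid (u.take (q.eval x.length)) R = true ∧
      u = u.take (q.eval x.length) ++
        List.replicate (q.eval x'.length - q.eval x.length) false := by
    intro x' u hu hv
    rw [verR_iff h_ENC] at hv
    obtain ⟨x, R, hD, h1, h2, h3⟩ := hv
    rw [eL] at h1 h2 h3
    have hq : q.eval x.length ≤ q.eval x'.length := LNP_.eval_mono q (hle x' x R hD)
    refine ⟨x, R, hD, ?_, h1, h2, ?_⟩
    · rw [List.length_take]; omega
    · rw [← hu]
      exact LNP_.count_split u _ h3
  refine ⟨verR_polyF h_PEN h_MOD V hV L hL, ?_, part3, ?_⟩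
  · intro x'
    by_cases hD : ∃ x R, decL x' = [x, R]
    · obtain ⟨x, R, hD⟩ := hD
      have hx := hle x' x R hD
      refine le_trans ?_ (LNP_.eval_mono k hx)
      refine le_trans ?_ (hk x)
      have key : ∀ u ∈ {u : List Bool | u.length = q.eval x'.length ∧ verR V L (x', u) = true},
          (u.take (q.eval x.length)).length = q.eval x.length ∧
          V (x, u.take (q.eval x.length)) = true ∧
          u = u.take (q.eval x.length) ++
            List.replicate (q.eval x'.length - q.eval x.length) false := by
        rintro u ⟨hu, hv⟩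
        obtain ⟨y, S, hD', h1, h2, -, h4⟩ := part3 x' u hu hv
        have hxy : x = y := by
          rw [hD] at hD'
          exact (List.cons.inj hD').1
        subst hxy
        exact ⟨h1, h2, h4⟩
      refine Set.ncard_le_ncard_of_injOn (fun u => u.take (q.eval x.length)) ?_ ?_ ?_
      · intro u hu
        exact ⟨(key u hu).1, (key u hu).2.1⟩
      · intro u hu u' hu' h
        have h' : u.take (q.eval x.length) = u'.take (q.eval x.length) := h
        rw [(key u hu).2.2, (key u' hu').2.2, h']
      · exact (List.finite_length_eq Bool (q.eval x.length)).subset fun w hw => hw.1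
    · have : {u : List Bool | u.length = q.eval x'.length ∧ verR V L (x', u) = true} = ∅ := by
        ext u
        simp only [Set.mem_setOf_eq, Set.mem_empty_iff_false, iff_false]
        rintro ⟨hu, hv⟩
        obtain ⟨x, R, h, -⟩ := part3 x' u hu hv
        exact hD ⟨x, R, h⟩
      rw [this, Set.ncard_empty]
      exact Nat.zero_le _
  · intro x R w hw h1 h2
    have hD : decL (encL [x, R]) = [x, R] := h_ENC.1 _
    have hq : q.eval x.length ≤ q.eval (encL [x, R]).length :=
      LNP_.eval_mono q (hle _ x R hD)
    refine ⟨?_, hq⟩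
    rw [verR_iff h_ENC]
    have ht : (w ++ List.replicate (q.eval (encL [x, R]).length - q.eval x.length) false).take
        (L x).length = w := by
      rw [eL, ← hw, List.take_left]
    refine ⟨x, R, hD, ?_⟩
    rw [ht]
    refine ⟨h1, h2, ?_⟩
    rw [List.countP_append]
    have : (List.replicate (q.eval (encL [x, R]).length - q.eval x.length) false).countP
        (fun b => b) = 0 := by
      rw [List.countP_eq_zero]
      intro b hb
      have := List.eq_of_mem_replicate hb
      rw [this]; simp
    omega

end Pool.Agent.MAJ
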