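import Pool.Agent.MAJ.Final
import Pool.Agent.MAJ.Assembly3
import Pool.Agent.MAJ.P_MOD
import Pool.Agent.MAJ.P_ISO
import Pool.Agent.MAJ.P_LNF
import Pool.Agent.MAJ.P_VRR

set_option autoImplicit false

/-!
# MAJ: the final theorem, FewP
-/

namespace Pool.Agent.MAJ

theorem f_MOD : T_MOD := p_MOD p_ENC p_PEN

/-- A sparse set hard for FewP under majorities of bounded truth tables gives P = FewP. -/
theorem final_few (S : Lang) (hS : Sparse S) (H : ∀ L, InFewP L → ∃ d, MajReduces d L S)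
    (L : Lang) : InFewP L ↔ InP L :=
  ⟨few_main p_IPA f_SRC p_EXP p_CRD p_ENC p_PEN f_PSR p_PTV (p_SZR p_PTV p_PEN) f_TMP f_MOD
    p_ISO (p_LNF f_TMP p_ENC p_PEN) (p_VRR p_ENC p_PEN f_MOD) S hS H L, p_few f_TMP⟩

end Pool.Agent.MAJ
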