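import Pool.Agent.MAJ.Targets

set_option autoImplicit false

/-!
# MAJ: proof of PRD (a round in polynomial time)
-/

namespace Pool.Agent.MAJ

open Pool.Agent.PT (Dat PolyF sz)

namespace PRD_

theorem polyF_quest (hPPK : T_PPK) : PolyF (fun st : List Cand => quest st) := by
  have : Fact Pool.Agent.PT.Core := ⟨Pool.Agent.PT.core⟩
  have h1 : PolyF (fun st : List Cand => (st.headD ([], [], 0)).1) :=
    PolyF.fst (PolyF.headD PolyF.id (PolyF.const _))
  have h2 : PolyF (fun st : List Cand => st.map fun e => (e.1, e.2.1)) := by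
    refine PolyF.map (f := fun (_ : List Cand) (e : Cand) => (e.1, e.2.1)) ?_ PolyF.id
    exact PolyF.pair (PolyF.fst (PolyF.snd PolyF.id)) (PolyF.fst (PolyF.snd (PolyF.snd PolyF.id)))
  exact PolyF.comp (f := fun p : List Bool × List (List Bool × Vec) => pick p.1 p.2) hPPK
    (PolyF.pair h1 h2)

theorem polyF_mist (hPVC : T_PVC) (hPEN : T_PEN) :
    PolyF (fun r : (Vec × List Bool) × Cand => mist r.1.1 r.1.2 r.2) := by
  have : Fact Pool.Agent.PT.Core := ⟨Pool.Agent.PT.core⟩
  have hpos := hPVC.1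
  have hneg := hPVC.2.1
  have hdot := hPEN.2.2.2.2.2.2.2
  have hW : PolyF (fun r : (Vec × List Bool) × Cand => r.1.1) := PolyF.fst (PolyF.fst PolyF.id)
  have ha : PolyF (fun r : (Vec × List Bool) × Cand => r.1.2) := PolyF.snd (PolyF.fst PolyF.id)
  have hs : PolyF (fun r : (Vec × List Bool) × Cand => r.2.1) := PolyF.fst (PolyF.snd PolyF.id)
  have hv : PolyF (fun r : (Vec × List Bool) × Cand => r.2.2.1) :=
    PolyF.fst (PolyF.snd (PolyF.snd PolyF.id))
  have hd : PolyF (fun r : (Vec × List Bool) × Cand => dot r.1.2 r.2.1) :=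
    PolyF.comp hdot (PolyF.pair ha hs)
  have hp : PolyF (fun r : (Vec × List Bool) × Cand => posC r.1.1 r.2.2.1) :=
    PolyF.comp (f := fun p : Vec × Vec => posC p.1 p.2) hpos (PolyF.pair hW hv)
  have hn : PolyF (fun r : (Vec × List Bool) × Cand => negC r.1.1 r.2.2.1) :=
    PolyF.comp (f := fun p : Vec × Vec => negC p.1 p.2) hneg (PolyF.pair hW hv)
  exact PolyF.iteb hd (PolyF.nat_le hp hn) (PolyF.nat_le hn hp)

theorem polyF_upd (hPVC : T_PVC) (hPEN : T_PEN) :
    PolyF (fun r : (Vec × List Bool) × Cand => upd r.1.1 r.1.2 r.2) := by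
  have : Fact Pool.Agent.PT.Core := ⟨Pool.Agent.PT.core⟩
  have hsv := hPVC.2.2.2.1
  have hdot := hPEN.2.2.2.2.2.2.2
  have hW : PolyF (fun r : (Vec × List Bool) × Cand => r.1.1) := PolyF.fst (PolyF.fst PolyF.id)
  have ha : PolyF (fun r : (Vec × List Bool) × Cand => r.1.2) := PolyF.snd (PolyF.fst PolyF.id)
  have he : PolyF (fun r : (Vec × List Bool) × Cand => r.2) := PolyF.snd PolyF.id
  have hs : PolyF (fun r : (Vec × List Bool) × Cand => r.2.1) := PolyF.fst (PolyF.snd PolyF.id)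
  have hv : PolyF (fun r : (Vec × List Bool) × Cand => r.2.2.1) :=
    PolyF.fst (PolyF.snd (PolyF.snd PolyF.id))
  have hk : PolyF (fun r : (Vec × List Bool) × Cand => r.2.2.2) :=
    PolyF.snd (PolyF.snd (PolyF.snd PolyF.id))
  have hd : PolyF (fun r : (Vec × List Bool) × Cand => dot r.1.2 r.2.1) :=
    PolyF.comp hdot (PolyF.pair ha hs)
  have hw : PolyF (fun r : (Vec × List Bool) × Cand => sv (dot r.1.2 r.2.1) r.1.1) :=
    PolyF.comp hsv (PolyF.pair hd hW)
  exact PolyF.iteb (polyF_mist hPVC hPEN)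
    (PolyF.pair hs (PolyF.pair (PolyF.append hv hw) (PolyF.nat_add hk (PolyF.const 1)))) he

end PRD_

open PRD_ in
theorem p_PRD (hPVC : T_PVC) (hPPK : T_PPK) (hPEN : T_PEN) : T_PRD := by
  intro γ _ red B μ hred hB hμ
  have : Fact Pool.Agent.PT.Core := ⟨Pool.Agent.PT.core⟩
  have hq : PolyF (fun p : γ × List Cand => quest p.2) :=
    PolyF.comp (polyF_quest hPPK) (PolyF.snd PolyF.id)
  have hW : PolyF (fun p : γ × List Cand => red p.1 (quest p.2)) :=
    PolyF.comp hred (PolyF.pair (PolyF.fst PolyF.id) hq)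
  have hst : PolyF (fun p : γ × List Cand => p.2) := PolyF.snd PolyF.id
  have hmap : PolyF (fun p : γ × List Cand =>
      p.2.map (upd (red p.1 (quest p.2)) (quest p.2))) := by
    refine PolyF.map (f := fun (p : γ × List Cand) (e : Cand) =>
      upd (red p.1 (quest p.2)) (quest p.2) e) ?_ hst
    have hf : PolyF (fun r : (γ × List Cand) × Cand => r.1) := PolyF.fst PolyF.id
    exact PolyF.comp (polyF_upd hPVC hPEN) (PolyF.pair (PolyF.pair (PolyF.comp hW hf)
      (PolyF.comp hq hf)) (PolyF.snd PolyF.id))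
  have hfil : PolyF (fun p : γ × List Cand =>
      (p.2.map (upd (red p.1 (quest p.2)) (quest p.2))).filter
        fun e => decide (e.2.2 ≤ μ p.1)) := by
    refine PolyF.filter (f := fun (p : γ × List Cand) (e : Cand) => decide (e.2.2 ≤ μ p.1)) ?_ hmap
    exact PolyF.nat_le (PolyF.snd (PolyF.snd (PolyF.snd PolyF.id)))
      (PolyF.comp hμ (PolyF.fst (PolyF.fst PolyF.id)))
  exact PolyF.ite' (p := fun p : γ × List Cand => p.2.length ≤ B p.1)
    (PolyF.nat_le (PolyF.length hst) (PolyF.comp hB (PolyF.fst PolyF.id))) hst hfil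

end Pool.Agent.MAJ
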