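import Pool.Agent.MAJ.Targets4

set_option autoImplicit false

/-!
# MAJ: target SL3, the unique solver with a general size parameter
-/

namespace Pool.Agent.MAJ

open Pool.Agent.PT (Dat PolyF sz Core length_lt_sz sz_mem sz_snd)

theorem p_SL3 (h_IPA : T_IPA) (h_SRC : T_SRC) (h_PSR : T_PSR) : T_SL3 := by
  intro S γ _ ns ps vec W K hns hps hvec hW
  have : Fact Core := ⟨Pool.Agent.PT.core⟩
  set μP : Polynomial ℕ := K ^ 2 * Polynomial.X with hμP
  set BP : Polynomial ℕ := K ^ 2 * (μP * K ^ 2) + 1 with hBP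
  set TP : Polynomial ℕ := 2 * BP * (μP + 1) with hTP
  obtain ⟨Lμ, hLμ, eμ⟩ := Pool.Agent.CookLevin.tLEN (Γ := Unit) μP
  obtain ⟨LB, hLB, eB⟩ := Pool.Agent.CookLevin.tLEN (Γ := Unit) BP
  obtain ⟨LT, hLT, eT⟩ := Pool.Agent.CookLevin.tLEN (Γ := Unit) TP
  have h1 : PolyF (fun c : γ => search (fun a => vec (c, a)) (LB (ps c))
      (Lμ (ps c)).length (LT (ps c)) (ns c)) :=
    h_PSR (fun (c : γ) (a : List Bool) => vec (c, a)) (fun c => LB (ps c))
      (fun c => (Lμ (ps c)).length) (fun c => LT (ps c)) ns hvec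
      (hLB.comp hps) (PolyF.length (hLμ.comp hps)) (hLT.comp hps) hns
  refine ⟨fun c => (search (fun a => vec (c, a)) (LB (ps c))
      (Lμ (ps c)).length (LT (ps c)) (ns c)).any
    fun y => decide (y.length = (ns c).length) && W (c, y), ?_, ?_, ?_⟩
  · refine PolyF.any (f := fun (c : γ) (y : List Bool) =>
      decide (y.length = (ns c).length) && W (c, y)) ?_ h1
    refine PolyF.and (PolyF.eq_nat (PolyF.length (PolyF.snd PolyF.id))
      (PolyF.length (hns.comp (PolyF.fst PolyF.id)))) (hW.comp ?_)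
    exact PolyF.pair (PolyF.fst PolyF.id) (PolyF.snd PolyF.id)
  · intro c h
    rw [List.any_eq_true] at h
    obtain ⟨y, -, hy⟩ := h
    rw [Bool.and_eq_true, decide_eq_true_iff] at hy
    exact ⟨y, hy.1, hy.2⟩
  · intro c w hw hVw hsz hFF hdots
    rw [List.any_eq_true]
    obtain ⟨F, hF, hF'⟩ := hFF
    obtain ⟨k, hk⟩ : ∃ k : ℕ, k = K.eval (ps c).length := ⟨_, rfl⟩
    rw [← hk] at hsz
    refine ⟨w, ?_, ?_⟩
    · refine h_SRC S F (fun a => vec (c, a)) (k ^ 2) (Lμ (ps c)).length (LB (ps c)) (LT (ps c))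
        (ns c) w hw ?_ ?_ ?_ ?_ ?_ ?_
      · intro a ha
        have h2 := h_IPA.2.2.2.2.2.1 (vec (c, a))
        have h3 : (vec (c, a)).length ≤ k := (length_lt_sz _).le.trans (hsz a ha)
        have h4 : ((vec (c, a)).length : ℤ) ≤ (k : ℤ) := by exact_mod_cast h3
        push_cast
        nlinarith
      · intro a ha pr hpr hfv
        exact hF' a ha pr hpr hfv
      · rw [eμ]
        have h2 : μP.eval (ps c).length = k ^ 2 * (ps c).length := by
          rw [hμP]
          simp [hk]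
        rw [h2]
        exact Nat.mul_le_mul_left _ hF
      · rw [eμ, eB]
        rw [hBP]
        simp [hk]
      · rw [eμ, eB, eT]
        rw [hTP]
        simp
      · intro a ha
        exact hdots a ha
    · rw [Bool.and_eq_true, decide_eq_true_iff]
      exact ⟨hw, hVw⟩

end Pool.Agent.MAJ
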