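import Pool.Agent.MAJ.Targets4
import Pool.Agent.MAJ.P_TMP
import Pool.Agent.MAJ.P_ENC
import Pool.Agent.MAJ.P_PEN

set_option autoImplicit false

namespace Pool.Agent.MAJ

open Pool.Agent.PT (Dat PolyF sz)

namespace TMQ_

/-- The letters of the first string. -/
def tl1 (t : Bool ⊕ Option Bool) : List Bool := Sum.elim (fun b => [b]) (fun _ => []) t

/-- The letters of the unary number. -/
def tl2 (t : Bool ⊕ Option Bool) : List Unit := match t with
  | .inl _ => []
  | .inr none => [()]
  | .inr (some _) => []

/-- The letters of the second string. -/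
def tl3 (t : Bool ⊕ Option Bool) : List Bool := match t with
  | .inl _ => []
  | .inr none => []
  | .inr (some b) => [b]

theorem tl1_a (l : List Bool) : (l.map Sum.inl).flatMap tl1 = l := by
  induction l with
  | nil => rfl
  | cons b l ih =>
    rw [List.map_cons, List.flatMap_cons, ih]
    rfl

theorem tl1_b (l : List Unit) : (l.map fun _ => Sum.inr none).flatMap tl1 = [] := by
  induction l with
  | nil => rfl
  | cons b l ih =>
    rw [List.map_cons, List.flatMap_cons, ih]
    rfl

theorem tl1_c (l : List Bool) : (l.map fun b => Sum.inr (some b)).flatMap tl1 = [] := by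
  induction l with
  | nil => rfl
  | cons b l ih =>
    rw [List.map_cons, List.flatMap_cons, ih]
    rfl

theorem tl2_a (l : List Bool) : (l.map Sum.inl).flatMap tl2 = [] := by
  induction l with
  | nil => rfl
  | cons b l ih =>
    rw [List.map_cons, List.flatMap_cons, ih]
    rfl

theorem tl2_b (l : List Unit) : (l.map fun _ => Sum.inr none).flatMap tl2 = l := by
  induction l with
  | nil => rfl
  | cons b l ih =>
    rw [List.map_cons, List.flatMap_cons, ih]
    rfl

theorem tl2_c (l : List Bool) : (l.map fun b => Sum.inr (some b)).flatMap tl2 = [] := by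
  induction l with
  | nil => rfl
  | cons b l ih =>
    rw [List.map_cons, List.flatMap_cons, ih]
    rfl

theorem tl3_a (l : List Bool) : (l.map Sum.inl).flatMap tl3 = [] := by
  induction l with
  | nil => rfl
  | cons b l ih =>
    rw [List.map_cons, List.flatMap_cons, ih]
    rfl

theorem tl3_b (l : List Unit) : (l.map fun _ => Sum.inr none).flatMap tl3 = [] := by
  induction l with
  | nil => rfl
  | cons b l ih =>
    rw [List.map_cons, List.flatMap_cons, ih]
    rfl

theorem tl3_c (l : List Bool) : (l.map fun b => Sum.inr (some b)).flatMap tl3 = l := by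
  induction l with
  | nil => rfl
  | cons b l ih =>
    rw [List.map_cons, List.flatMap_cons, ih]
    rfl

theorem dec_tri (p : (List Bool × List Unit) × List Bool) :
    (((encTri p).flatMap tl1, (encTri p).flatMap tl2), (encTri p).flatMap tl3) = p := by
  obtain ⟨⟨x, u⟩, w⟩ := p
  unfold encTri
  simp only [List.flatMap_append, tl1_a, tl1_b, tl1_c, tl2_a, tl2_b, tl2_c, tl3_a, tl3_b, tl3_c,
    List.append_nil, List.nil_append]

theorem pt_encTri : PolyF encTri := by
  have : Fact Pool.Agent.PT.Core := ⟨Pool.Agent.PT.core⟩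
  have h1 : PolyF (fun b : Bool => (Sum.inl b : Bool ⊕ Option Bool)) := PolyF.finite _
  have h3 : PolyF (fun b : Bool => (Sum.inr (some b) : Bool ⊕ Option Bool)) := PolyF.finite _
  unfold encTri
  refine PolyF.append (PolyF.append ?_ ?_) ?_
  · exact PolyF.map (f := fun _ b => Sum.inl b) (h1.comp (by fun_prop)) (by fun_prop)
  · exact PolyF.map (f := fun _ _ => Sum.inr none) (PolyF.const _) (by fun_prop)
  · exact PolyF.map (f := fun _ b => Sum.inr (some b)) (h3.comp (by fun_prop)) (by fun_prop)

theorem pt_dec : PolyF (fun l : List (Bool ⊕ Option Bool) =>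
    ((l.flatMap tl1, l.flatMap tl2), l.flatMap tl3)) := by
  have : Fact Pool.Agent.PT.Core := ⟨Pool.Agent.PT.core⟩
  have h1 : PolyF tl1 := PolyF.finite _
  have h2 : PolyF tl2 := PolyF.finite _
  have h3 : PolyF tl3 := PolyF.finite _
  refine PolyF.pair (PolyF.pair ?_ ?_) ?_
  · exact PolyF.flatMap (f := fun _ b => tl1 b) (h1.comp (by fun_prop)) (by fun_prop)
  · exact PolyF.flatMap (f := fun _ b => tl2 b) (h2.comp (by fun_prop)) (by fun_prop)
  · exact PolyF.flatMap (f := fun _ b => tl3 b) (h3.comp (by fun_prop)) (by fun_prop)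

end TMQ_

open TMQ_ in
theorem p_TMQ : T_TMQ := by
  have hC : Fact Pool.Agent.PT.Core := ⟨Pool.Agent.PT.core⟩
  refine ⟨fun V h => ?_, fun f h => ?_⟩
  · have h1 : PolyF (fun l : List (Bool ⊕ Option Bool) =>
        [V ((l.flatMap tl1, l.flatMap tl2), l.flatMap tl3)]) :=
      PolyF.cons (h.comp pt_dec) (PolyF.const _)
    refine Pool.Agent.PT.tm_of_polyF h1 encTri encBool V fun p => ?_
    simp only [dec_tri]
    rfl
  · obtain ⟨F, hF, hFe⟩ := Pool.Agent.DHD.tSIMF encTri encBlock f h
    have h2 : PolyF (fun p => (parse (F (encTri p))).headD ([], [])) :=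
      PolyF.headD (p_PEN.2.2.1.comp (hF.comp pt_encTri)) (PolyF.const _)
    refine h2.congr fun p => ?_
    rw [hFe p]
    have h3 := p_ENC.2.1 [f p]
    have h4 : encBlocks [f p] = encBlock (f p) := by simp [encBlocks]
    rw [h4] at h3
    rw [h3]
    rfl

end Pool.Agent.MAJ
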