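import Pool.Agent.MAJ.Algo

set_option autoImplicit false

/-!
# MAJ targets (MP_ce7d1b_lc): sparse hard sets under majority truth-table reductions

Every target has its proof in the docstring. `PolyF` is the class of polynomial time functions
between `Dat` types (PT library: `PolyF.foldl`, `PolyF.map`, `PolyF.filter`, ..., tag `fun_prop`,
they need `have : Fact Pool.Agent.PT.Core := ⟨Pool.Agent.PT.core⟩`); examples of use:
`DHD/SIMF.lean`, `CookLevin/LEN.lean`, `DHD/PTT.lean`, `DHD/CNFPT.lean`.
-/

namespace Pool.Agent.MAJ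

open Pool.Agent.PT (Dat PolyF sz)

/-! ## Vectors and perceptrons -/

/-- IPA. The scalar product. PROOF. `cf W l = ∑ p ∈ W with p.2 = l, sg p.1`; for every finite set
`F` which contains the features of `W` one has `ip W h = ∑ l ∈ F, cf W l * cf h l` (induction over
`W`, `h`; `posC`, `negC` count pairs). All claims follow, (4) by `Finset.sum_mul_sq_le_sq_mul_sq`,
(6) from `posC W W ≤ W.length * W.length`. -/
def T_IPA : Prop := (∀ W W' h : Vec, ip (W ++ W') h = ip W h + ip W' h) ∧
  (∀ W h : Vec, ip W h = ip h W) ∧ (∀ W h : Vec, ip (negV W) h = -ip W h) ∧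
  (∀ W h : Vec, ip W h ^ 2 ≤ ip W W * ip h h) ∧ (∀ W : Vec, 0 ≤ ip W W) ∧
  (∀ W : Vec, ip W W ≤ (W.length : ℤ) ^ 2) ∧
  (∀ W h : Vec, ∀ s : List Bool, ∀ t : List Bool,
    ip (W.map fun p => (p.1, s :: p.2)) (h.map fun p => (p.1, t :: p.2)) =
      if s = t then ip W h else 0)

/-- EVA. The value of a vector. PROOF. As IPA: if `F` contains all features `l` of `W` with
`fv S l ≠ 0` then `ev S W = ∑ l ∈ F, cf W l * fv S l` and `∑ l ∈ F, (fv S l)^2 ≤ F.card`,
`∑ l ∈ F, (cf W l)^2 ≤ ip W W`. -/
def T_EVA : Prop := ∀ S : Lang, (∀ W W' : Vec, ev S (W ++ W') = ev S W + ev S W') ∧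
  (∀ W : Vec, ev S (negV W) = -ev S W) ∧
  ∀ (W : Vec) (F : Finset Feat), (∀ p ∈ W, fv S p.2 ≠ 0 → p.2 ∈ F) →
    ev S W ^ 2 ≤ ip W W * F.card

/-- PCK. The choice of the question. PROOF (uses T_IPA). Put
`Φ l = ip (tag l) (tag l) = ∑ e, e' in l with e.1 = e'.1, ip e.2 e'.2`. If all strings are nonempty
then `Φ (stepB true l) + Φ (stepB false l) = 2 * Φ l` (pairs with equal tails: equal heads contribute
`ip` twice, different heads `ip` and `-ip`); `phiLe l l'` is `Φ l ≤ Φ l'`. So `Φ` does not increase in
`pickStep`. At the start the strings are different, `Φ l = ∑ ip e.2 e.2`; at the end all strings are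
empty, the vector of `e` is `e.2` with the sign `-` iff `dot a e.1` (invariant: the sign is the parity
of the processed part), so `Φ` is `ip U U` (twice the sign `-` does not change it). -/
def T_PCK : Prop := ∀ (i : ℕ) (l : List (List Bool × Vec)) (n : List Bool), n.length = i →
  (∀ e ∈ l, e.1.length = i) → (l.map Prod.fst).Nodup → (pick n l).length = i ∧
    ip (l.flatMap fun e => sv (dot (pick n l) e.1) e.2)
      (l.flatMap fun e => sv (dot (pick n l) e.1) e.2) ≤ (l.map fun e => ip e.2 e.2).sum

/-- Invariant of the list of candidates: strings of length `i`, all different; the vector of a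
candidate with `k` mistakes has square norm at most `k * R2`, and `k ≤ μ`. -/
def Good (R2 μ i : ℕ) (st : List Cand) : Prop :=
  (∀ e ∈ st, e.1.length = i ∧ ip e.2.1 e.2.1 ≤ (e.2.2 : ℤ) * R2 ∧ e.2.2 ≤ μ) ∧
    (st.map Prod.fst).Nodup

/-- RND. A round. PROOF (uses T_IPA, T_PCK). `a = quest st` has length `i`. If no candidate makes a
mistake then `sg (dot a e.1) * ip (red a) e.2.1 ≥ 1` for all `e`, sum:
`st.length ≤ ip (red a) U`, `U` as in T_PCK for `l = st.map ..`, so
`st.length ^ 2 ≤ ip (red a) (red a) * ip U U ≤ R2 * (st.length * (μ * R2))` and `st.length ≤ B`.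
Update: `ip (h + t W) (h + t W) = ip h h + 2 t ip W h + ip W W ≤ k R2 + 0 + R2` with `t = sg (dot a e.1)`.
The sum of `μ + 1 - mistakes` decreases; dropped candidates have `μ + 1` mistakes. -/
def T_RND : Prop := ∀ (red : List Bool → Vec) (R2 B μ i : ℕ) (st : List Cand),
  (∀ a : List Bool, a.length = i → ip (red a) (red a) ≤ R2) → R2 * (μ * R2) ≤ B →
  Good R2 μ i st → Good R2 μ i (rnd red B μ st) ∧ (rnd red B μ st).length ≤ st.length ∧
    (∀ y ∈ (rnd red B μ st).map Prod.fst, y ∈ st.map Prod.fst) ∧
    (B < st.length → ((rnd red B μ st).map fun e => μ + 1 - e.2.2).sum <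
      (st.map fun e => μ + 1 - e.2.2).sum)

/-- TRU. The true candidate survives. PROOF (uses T_IPA, T_EVA). Perceptron: a mistake of the
candidate `(w, h, k)`: `ev S (h + t W) = ev S h + t ev S W ≥ k + 1`. Always
`k ^ 2 ≤ (ev S h) ^ 2 ≤ ip h h * card ≤ k * R2 * Vb`, so `k ≤ R2 * Vb ≤ μ` and `(w, h, k)` is not
dropped (also use that the features of `h` are features of vectors `red a`: third part of the
invariant). -/
def T_TRU : Prop := ∀ (S : Lang) (F : Finset Feat) (red : List Bool → Vec) (R2 B μ i : ℕ)
  (w : List Bool) (st : List Cand), (∀ a : List Bool, a.length = i → ip (red a) (red a) ≤ R2) →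
  (∀ a : List Bool, a.length = i → ∀ p ∈ red a, fv S p.2 ≠ 0 → p.2 ∈ F) →
  (∀ a : List Bool, a.length = i → 1 ≤ sg (dot a w) * ev S (red a)) → R2 * F.card ≤ μ →
  (st.map Prod.fst).Nodup → (∀ e ∈ st, e.1.length = i) →
  (∃ e ∈ st, e.1 = w ∧ (e.2.2 : ℤ) ≤ ev S e.2.1 ∧ ip e.2.1 e.2.1 ≤ (e.2.2 : ℤ) * R2 ∧
    ∀ p ∈ e.2.1, fv S p.2 ≠ 0 → p.2 ∈ F) →
  (quest st).length = i →
  ∃ e ∈ rnd red B μ st, e.1 = w ∧ (e.2.2 : ℤ) ≤ ev S e.2.1 ∧ ip e.2.1 e.2.1 ≤ (e.2.2 : ℤ) * R2 ∧
    ∀ p ∈ e.2.1, fv S p.2 ≠ 0 → p.2 ∈ F

/-- PRN. Pruning. PROOF (uses T_RND, T_TRU, T_PCK for the length of the question). Iterate; the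
potential is at most `2 * B * (μ + 1)` at the start and decreases as long as there are more than `B`
candidates. -/
def T_PRN : Prop := ∀ (S : Lang) (F : Finset Feat) (red : List Bool → Vec) (R2 B μ i : ℕ)
  (T : List Unit) (ys : List (List Bool)),
  (∀ a : List Bool, a.length = i → ip (red a) (red a) ≤ R2) →
  (∀ a : List Bool, a.length = i → ∀ p ∈ red a, fv S p.2 ≠ 0 → p.2 ∈ F) →
  R2 * F.card ≤ μ → R2 * (μ * R2) ≤ B → 2 * B * (μ + 1) ≤ T.length → ys.length ≤ 2 * B →
  ys.Nodup → (∀ y ∈ ys, y.length = i) → (prune red B μ T ys).length ≤ B ∧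
    (prune red B μ T ys).Nodup ∧ (∀ y ∈ prune red B μ T ys, y ∈ ys) ∧
    ∀ w ∈ ys, (∀ a : List Bool, a.length = i → 1 ≤ sg (dot a w) * ev S (red a)) →
      w ∈ prune red B μ T ys

/-- SRC. The search. PROOF (uses T_PRN). Induction over `N`: after `i` levels the list has at most
`B` strings, of length `i`, all different, and contains `w.take i`; `dot a (w.take i) = dot a w` for
`a.length = i` (`B ≥ 1`, `takeU` does nothing on lists of length at most `B.length`). -/
def T_SRC : Prop := ∀ (S : Lang) (F : Finset Feat) (red : List Bool → Vec) (R2 μ : ℕ)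
  (B T N : List Unit) (w : List Bool), w.length = N.length →
  (∀ a : List Bool, a.length ≤ N.length → ip (red a) (red a) ≤ R2) →
  (∀ a : List Bool, a.length ≤ N.length → ∀ p ∈ red a, fv S p.2 ≠ 0 → p.2 ∈ F) →
  R2 * F.card ≤ μ → R2 * (μ * R2) + 1 ≤ B.length → 2 * B.length * (μ + 1) ≤ T.length →
  (∀ a : List Bool, a.length ≤ N.length → 1 ≤ sg (dot a w) * ev S (red a)) →
  w ∈ search red B μ T N

/-! ## From blocks to vectors -/

/-- EXP. PROOF. `ev S (expd k qs a) = if qs.map (· ∈ S) = a then 1 else 0` for `qs.length ≤ k`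
(induction over `k`; putting `q` in front of the feature multiplies the value by `[q ∈ S]`). Exactly one
pattern in `pats d` is the pattern of the answers (`pats d` has no repetitions and contains all bit
strings of length at most `d`), so `ev S (blk d b) = 2 [holds S b] - 1`. -/
def T_EXP : Prop := ∀ (d : ℕ) (S : Lang) (l : List Block), (∀ b ∈ l, b.1.length ≤ d) →
  ev S (toVec d l) = 2 * (2 * (l.countP (holds S) : ℤ) - l.length) - 1 ∧
  ∀ p ∈ toVec d l, p.2.length ≤ d ∧ ∀ q ∈ p.2, ∃ b ∈ l, q ∈ b.1

/-- CRD. The number of true features. PROOF. The strings of `S` of length at most `K` form a finite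
set `A` with at most `(K + 1) * p.eval K` elements (`p.eval` is monotone); lists of length at most `d`
over a set with `m` elements: at most `(m + 1) ^ d` (induction over `d`). -/
def T_CRD : Prop := ∀ (S : Lang) (p : Polynomial ℕ),
  (∀ n, {w : List Bool | w ∈ S ∧ w.length = n}.ncard ≤ p.eval n) → ∀ d K : ℕ,
  ∃ F : Finset Feat, F.card ≤ ((K + 1) * p.eval K + 1) ^ d ∧
    ∀ l : Feat, l.length ≤ d → (∀ q ∈ l, q.length ≤ K) → fv S l ≠ 0 → l ∈ F

/-! ## Encodings -/

/-- ENC. Encodings. PROOF. Inductions over the lists with a general state of the folds. -/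
def T_ENC : Prop := (∀ l : List (List Bool), decL (encL l) = l) ∧
  (∀ l : List Block, parse (encBlocks l) = l) ∧
  (∀ (z : List Bool), ∀ s ∈ decL z, s.length ≤ z.length) ∧
  (∀ {α : Type} (l : List α) (m : List Unit), takeU l m = l.take m.length) ∧
  (∀ {α : Type} (l : List α) (m : List Unit), dropU l m = l.drop m.length) ∧
  (∀ (m k : List Unit) (l : List Bool), chunks m k l = pieces m.length k.length l) ∧
  (∀ k : List Unit, (unis k).map List.length = List.range (k.length + 1))

/-- Letters as data. -/
instance : Dat Tok := ⟨fun t => match t with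
  | .bit b => .node .nil (Dat.enc b)
  | .endQuery => .nil
  | .endPattern => .node (.node .nil .nil) .nil
  | .endBlock => .node (.node .nil .nil) (.node .nil .nil), by
    intro a b h
    rcases a with (_ | _) | _ | _ | _ <;> rcases b with (_ | _) | _ | _ | _ <;>
      first | rfl | (simp [Dat.enc, Pool.Agent.PT.D.ofBool] at h)⟩

/-- Letters of pairs as data. -/
instance : Dat (Bool ⊕ Bool) := ⟨fun t => match t with
  | .inl b => .node .nil (Dat.enc b)
  | .inr b => .node (.node .nil .nil) (Dat.enc b), by
    intro a b h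
    rcases a with (_ | _) | (_ | _) <;> rcases b with (_ | _) | (_ | _) <;>
      first | rfl | (simp [Dat.enc, Pool.Agent.PT.D.ofBool] at h)⟩

/-- TMP. Machines and polynomial time functions between data types. PROOF. `DHD.tSIMF` turns a
machine into a function on strings; `PT.tm_of_polyF` is the converse. The input pair is recovered from
`encPair` by `filterMap` (PolyF by `flatMap` with `PolyF.finite`), the blocks by `parse` (T_ENC). -/
def T_TMP : Prop := (∀ V : List Bool × List Bool → Bool, PolyTime encPair encBool V ↔ PolyF V) ∧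
  (∀ f : List Bool → Bool, PolyTime id encBool f ↔ PolyF f) ∧
  ∀ f : List Bool → List Block, PolyTime id encBlocks f → PolyF f

/-- PEN. Encoders and decoders in polynomial time. PROOF. `PolyF.foldl`; the state of `decStep` has
size at most the size of the read part plus a constant; `dropU`, `takeU`: `PolyF.zip`, fold of `tail`;
`chunks`, `unis` by `PolyF.foldl`. -/
def T_PEN : Prop := PolyF encL ∧ PolyF decL ∧ PolyF parse ∧
  (∀ {α : Type} [Dat α], PolyF (fun p : List α × List Unit => takeU p.1 p.2)) ∧
  (∀ {α : Type} [Dat α], PolyF (fun p : List α × List Unit => dropU p.1 p.2)) ∧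
  PolyF (fun p : (List Unit × List Unit) × List Bool => chunks p.1.1 p.1.2 p.2) ∧ PolyF unis ∧
  PolyF (fun p : List Bool × List Bool => dot p.1 p.2)

/-- PVC. Vectors in polynomial time. PROOF. Closure under `map`, `flatMap`, `countP`, `eq`,
`nat_le`, `nat_add`. -/
def T_PVC : Prop := PolyF (fun p : Vec × Vec => posC p.1 p.2) ∧
  PolyF (fun p : Vec × Vec => negC p.1 p.2) ∧ PolyF negV ∧
  PolyF (fun p : Bool × Vec => sv p.1 p.2) ∧ PolyF tag ∧
  PolyF (fun p : Bool × List (List Bool × Vec) => stepB p.1 p.2) ∧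
  PolyF (fun p : List (List Bool × Vec) × List (List Bool × Vec) => phiLe p.1 p.2)

/-- PPK. The choice of the question in polynomial time (uses T_PVC). PROOF. `PolyF.foldl`; the size
of the second component of the state does not increase by more than a constant factor: the strings get
shorter, the vectors only change signs (`sz` of a sign is at most `3`, compare with `sz` of the list
of unsigned vectors), the first component is a string of length at most `n.length`. -/
def T_PPK : Prop :=
  PolyF (fun p : List Bool × List (List Bool × Vec) => pick p.1 p.2)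

/-- PRD. A round in polynomial time (uses T_PVC, T_PPK, T_PEN for `dot`). PROOF. Composition; `red`
takes its context from `γ`. -/
def T_PRD : Prop := ∀ {γ : Type} [Dat γ] (red : γ → List Bool → Vec) (B μ : γ → ℕ),
  PolyF (fun p : γ × List Bool => red p.1 p.2) → PolyF B → PolyF μ →
  PolyF (fun p : γ × List Cand => rnd (red p.1) (B p.1) (μ p.1) p.2)

/-- PPR. Pruning in polynomial time (uses T_PRD). PROOF. `PolyF.foldl` over `T`. Size of the state
after `j` rounds: at most `ys.length` candidates; the string of a candidate is in `ys`; a question has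
at most `m` letters, `m` the maximal length of a string in `ys` (`(pick n l).length = n.length`), so
`red a` has size at most `(sz (x, a) + 2) ^ c ≤ (sz x + sz ys + ..) ^ c`, and the vector of a candidate
is the concatenation of at most `j` such vectors (up to signs); the counter is at most `j`. -/
def T_PPR : Prop := ∀ {γ : Type} [Dat γ] (red : γ → List Bool → Vec) (B μ : γ → ℕ)
  (T : γ → List Unit), PolyF (fun p : γ × List Bool => red p.1 p.2) → PolyF B → PolyF μ →
  PolyF T → PolyF (fun p : γ × List (List Bool) => prune (red p.1) (B p.1) (μ p.1) (T p.1) p.2)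

/-- PSR. The search in polynomial time (uses T_PPR, T_PEN). PROOF. `PolyF.foldl` over `N`; the state
after `i` levels is a list of at most `max 1 B.length` strings of length at most `i` (every string in
`prune .. ys` is in `ys`). -/
def T_PSR : Prop := ∀ {γ : Type} [Dat γ] (red : γ → List Bool → Vec) (B : γ → List Unit)
  (μ : γ → ℕ) (T N : γ → List Unit), PolyF (fun p : γ × List Bool => red p.1 p.2) → PolyF B →
  PolyF μ → PolyF T → PolyF N →
  PolyF (fun x : γ => search (red x) (B x) (μ x) (T x) (N x))

/-- PTV. Blocks to vectors in polynomial time. PROOF. `expd k` by induction over `k` (for fixed `k`);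
`pats d` is a constant. -/
def T_PTV : Prop := ∀ d : ℕ, PolyF (toVec d)

/-- SZR. Sizes. PROOF (uses T_PTV, T_PEN). `PolyF.bound` for
`(x, rows, a) ↦ red d f x rows a` gives `sz (red ..) ≤ (sz (x, rows, a) + 2) ^ c` and
`sz (x, rows, a)` is at most a polynomial in `x.length` (`sz` of a bit string is at most
`4 * length + 1`; `q.eval x.length`). -/
def T_SZR : Prop := ∀ (d : ℕ) (f : List Bool → List Block) (q : Polynomial ℕ), PolyF f →
  ∃ K : Polynomial ℕ, ∀ (x : List Bool) (rows : List (List Bool)) (a : List Bool),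
    rows.length ≤ q.eval x.length + 2 → (∀ r ∈ rows, r.length ≤ q.eval x.length + 1) →
    a.length ≤ q.eval x.length → sz (red d f x rows a) ≤ K.eval x.length

/-! ## The language of the questions -/

/-- LNP. PROOF (uses T_TMP, T_ENC, T_PEN, CookLevin.tLEN). Witnesses of length `q (|z|)`: with
`D = decL z`, `x = D.headD []`, `N` unary `q (|x|)`, `w = takeU u N`, accept `u` iff
`2 ≤ D.length`, `V (x, w)`, `dot a w`, all rows vanish on `w ++ [true]`, and the rest of `u` has no
`true` (`u.countP id = w.countP id`); `|w| = q (|x|)` since `|x| ≤ |z|`. Unique if the witnesses of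
`V` are. -/
def T_LNP : Prop := ∀ (q : Polynomial ℕ) (V : List Bool × List Bool → Bool), PolyF V →
  InNP (langU q V) ∧ ((∀ x w w', w.length = q.eval x.length → w'.length = q.eval x.length →
    V (x, w) = true → V (x, w') = true → w = w') → InUP (langU q V))

/-! ## Random rows -/

/-- VVL. Isolation (Valiant and Vazirani). PROOF. Let `2 ^ k ≤ W.card < 2 ^ (k + 1)`, `s = k + 2`
(`k ≤ N`). The vectors `w ++ [true]` are nonzero and different, so for random rows
`P(w is a solution) = 2 ^ (-s)` and `P(w, w' are solutions) = 2 ^ (-2 s)`; with `t = W.card / 2 ^ s`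
in `[1/4, 1/2)` the probability of exactly one solution is at least `t - t ^ 2 ≥ 1/8`. Counting: the
first `s` pieces of `ρ` are independent uniform strings of length `N + 1`; `dot` is additive. -/
def T_VVL : Prop := ∀ (N : ℕ) (W : Finset (List Bool)), W.Nonempty → (∀ w ∈ W, w.length = N) →
  2 ^ ((N + 2) * (N + 1)) ≤ 8 * {ρ : List Bool | ρ.length = (N + 2) * (N + 1) ∧ ∃ s ≤ N + 2,
    ∃ w ∈ W, ∀ w' ∈ W, (∀ r ∈ pieces (N + 1) s ρ, dot r (w' ++ [true]) = false) ↔ w' = w}.ncard

/-- AMP. Six repetitions. PROOF. If `g` strings of length `m` are good then `(2 ^ m - g) ^ 6` strings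
of length `6 * m` have no good piece, and `(7 / 8) ^ 6 ≤ 1 / 2`. -/
def T_AMP : Prop := ∀ (m : ℕ) (P : List Bool → Prop),
  2 ^ m ≤ 8 * {ρ : List Bool | ρ.length = m ∧ P ρ}.ncard →
  2 ^ (6 * m) ≤ 2 * {ρ : List Bool | ρ.length = 6 * m ∧ ∃ σ ∈ pieces m 6 ρ, P σ}.ncard

end Pool.Agent.MAJ
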